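import Pool.Agent.WK.Seg64

/-! Word equations with boundedly many variables (MP_fc7ad9_lc). Helper module:
from the internal notions (`sb`, `vN`, `SegLe`) to literal statements. -/

open WE45 WK64 WO45

namespace WK

universe u w

theorem vN_eq_countP37 {A : Type u} {X : Type w} :
    ∀ l : List (A ⊕ X), vN l = l.countP Sum.isRight
  | [] => rfl
  | .inl a :: l => by
      rw [List.countP_cons_of_neg (by simp)]
      exact vN_eq_countP37 l
  | .inr x :: l => by
      rw [List.countP_cons_of_pos (by simp)]
      show vN l + 1 = _
      rw [vN_eq_countP37 l]

theorem vN_append37 {A : Type u} {X : Type w} (L R : List (A ⊕ X)) :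
    vN L + vN R = (L ++ R).countP Sum.isRight := by
  rw [List.countP_append, vN_eq_countP37, vN_eq_countP37]

end WK
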