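import Pool.Agent.WO45.MainS

/-! Word equations with boundedly many variables (MP_fc7ad9_lc). Helper module:
a system of word equations is coded as one equation over the alphabet with two new letters;
systems with boundedly many occurrences of variables have solutions of polynomial length. -/

open WE45 WO45

namespace WK

universe u w

variable {A : Type u} {X : Type w}

/-- the letters of `A` as letters of `A ⊕ Bool` -/
def up (l : List (A ⊕ X)) : List ((A ⊕ Bool) ⊕ X) := l.map (Sum.map Sum.inl id)

/-- a list of words, each one followed by the new letter `c` -/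
def glue (c : Bool) : List (List (A ⊕ X)) → List ((A ⊕ Bool) ⊕ X)
  | [] => []
  | l :: ls => up l ++ .inl (.inr c) :: glue c ls

/-- values of a list of words, each one followed by the new letter `c` -/
def gl (c : Bool) : List (List (A ⊕ Bool)) → List (A ⊕ Bool)
  | [] => []
  | u :: us => u ++ .inr c :: gl c us

/-- left side of the equation that codes the system `E` -/
def encL (E : List (List (A ⊕ X) × List (A ⊕ X))) : List ((A ⊕ Bool) ⊕ X) :=
  glue true (E.map Prod.fst) ++ glue false (E.map Prod.fst)

/-- right side of the equation that codes the system `E` -/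
def encR (E : List (List (A ⊕ X) × List (A ⊕ X))) : List ((A ⊕ Bool) ⊕ X) :=
  glue true (E.map Prod.snd) ++ glue false (E.map Prod.snd)

/-- the new letters are deleted -/
def dn (u : List (A ⊕ Bool)) : List A := u.filterMap Sum.getLeft?

theorem length_dn (u : List (A ⊕ Bool)) : (dn u).length ≤ u.length :=
  List.length_filterMap_le _ _

theorem dn_append (u v : List (A ⊕ Bool)) : dn (u ++ v) = dn u ++ dn v :=
  List.filterMap_append

theorem sb_up (σ : X → List (A ⊕ Bool)) : ∀ l : List (A ⊕ X),
    dn (sb σ (up l)) = sb (fun x => dn (σ x)) l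
  | [] => rfl
  | .inl a :: l => by
      have h1 : up (.inl a :: l) = .inl (.inl a) :: up l := rfl
      rw [h1, sb_inl, sb_inl, ← sb_up σ l]
      rfl
  | .inr x :: l => by
      have h1 : up (.inr x :: l) = .inr x :: up l := rfl
      rw [h1, sb_inr, sb_inr, ← sb_up σ l, dn_append]

theorem sb_up_inl (σ : X → List A) : ∀ l : List (A ⊕ X),
    sb (fun x => (σ x).map (Sum.inl : A → A ⊕ Bool)) (up l) = (sb σ l).map Sum.inl
  | [] => rfl
  | .inl a :: l => by
      have h1 : up (.inl a :: l) = .inl (.inl a) :: up l := rfl
      rw [h1, sb_inl, sb_inl, sb_up_inl σ l]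
      rfl
  | .inr x :: l => by
      have h1 : up (.inr x :: l) = .inr x :: up l := rfl
      rw [h1, sb_inr, sb_inr, sb_up_inl σ l, List.map_append]

theorem sb_glue (σ : X → List (A ⊕ Bool)) (c : Bool) : ∀ ls : List (List (A ⊕ X)),
    sb σ (glue c ls) = gl c (ls.map fun l => sb σ (up l))
  | [] => rfl
  | l :: ls => by
      simp only [glue, gl, List.map_cons]
      rw [sb_append, sb_inl, sb_glue σ c ls]

theorem length_gl (c : Bool) : ∀ us : List (List (A ⊕ Bool)),
    (gl c us).length = (us.map fun u => u.length + 1).sum
  | [] => rfl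
  | u :: us => by
      simp only [gl, List.map_cons, List.sum_cons, List.length_append, List.length_cons]
      rw [length_gl c us]
      omega

theorem gl_inj : ∀ us vs : List (List (A ⊕ Bool)), us.length = vs.length →
    gl true us = gl true vs → gl false us = gl false vs → us = vs
  | [], [], _, _, _ => rfl
  | [], v :: vs, h, _, _ => by simp at h
  | u :: us, [], h, _, _ => by simp at h
  | u :: us, v :: vs, h, ht, hf => by
      simp only [gl] at ht hf
      have key : ∀ u v : List (A ⊕ Bool), ∀ r r' s s' : List (A ⊕ Bool),
          u ++ .inr true :: r = v ++ .inr true :: s →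
          u ++ .inr false :: r' = v ++ .inr false :: s' → ¬ u.length < v.length := by
        intro u v r r' s s' h1 h2 hlt
        have e1 := congrArg (fun t => t[u.length]?) h1
        have e2 := congrArg (fun t => t[u.length]?) h2
        beta_reduce at e1 e2
        rw [List.getElem?_append_right le_rfl, List.getElem?_append_left hlt] at e1 e2
        rw [← e2] at e1
        simp at e1
      have hlen : u.length = v.length := by
        have h1 := key u v _ _ _ _ ht hf
        have h2 := key v u _ _ _ _ ht.symm hf.symm
        omega
      obtain ⟨e1, e2⟩ := List.append_inj ht hlen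
      obtain ⟨-, e3⟩ := List.append_inj hf hlen
      rw [e1, gl_inj us vs (by simpa using h) (List.cons.inj e2).2 (List.cons.inj e3).2]

/-- a solution of the system gives a solution of the equation -/
theorem enc_of_sol (E : List (List (A ⊕ X) × List (A ⊕ X))) (σ : X → List A)
    (h : ∀ t ∈ E, sb σ t.1 = sb σ t.2) :
    sb (fun x => (σ x).map (Sum.inl : A → A ⊕ Bool)) (encL E) =
      sb (fun x => (σ x).map (Sum.inl : A → A ⊕ Bool)) (encR E) := by
  have key : ∀ c : Bool, sb (fun x => (σ x).map (Sum.inl : A → A ⊕ Bool))
      (glue c (E.map Prod.fst)) = sb (fun x => (σ x).map (Sum.inl : A → A ⊕ Bool))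
      (glue c (E.map Prod.snd)) := by
    intro c
    rw [sb_glue, sb_glue, List.map_map, List.map_map]
    congr 1
    refine List.map_congr_left fun t ht => ?_
    simp only [Function.comp_apply]
    rw [sb_up_inl, sb_up_inl, h t ht]
  unfold encL encR
  rw [sb_append, sb_append, key true, key false]

/-- a solution of the equation gives a solution of the system -/
theorem sol_of_enc (E : List (List (A ⊕ X) × List (A ⊕ X))) (σ : X → List (A ⊕ Bool))
    (h : sb σ (encL E) = sb σ (encR E)) :
    ∀ t ∈ E, sb (fun x => dn (σ x)) t.1 = sb (fun x => dn (σ x)) t.2 := by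
  unfold encL encR at h
  rw [sb_append, sb_append, sb_glue, sb_glue, sb_glue, sb_glue, List.map_map, List.map_map] at h
  have hlen : (gl true (E.map ((fun l => sb σ (up l)) ∘ Prod.fst))).length =
      (gl true (E.map ((fun l => sb σ (up l)) ∘ Prod.snd))).length := by
    have h1 := congrArg List.length h
    rw [List.length_append, List.length_append, length_gl, length_gl, length_gl, length_gl] at h1
    rw [length_gl, length_gl]
    omega
  obtain ⟨e1, e2⟩ := List.append_inj h hlen
  have h2 := gl_inj _ _ (by rw [List.length_map, List.length_map]) e1 e2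
  intro t ht
  have h3 := List.map_inj_left.1 h2 t ht
  simp only [Function.comp_apply] at h3
  rw [← sb_up σ t.1, ← sb_up σ t.2, h3]

theorem countP_up (l : List (A ⊕ X)) :
    (up l).countP Sum.isRight = l.countP Sum.isRight := by
  unfold up
  rw [List.countP_map]
  congr 1
  funext a
  cases a <;> rfl

theorem countP_glue (c : Bool) : ∀ ls : List (List (A ⊕ X)),
    (glue c ls).countP Sum.isRight = (ls.map fun l => l.countP Sum.isRight).sum
  | [] => rfl
  | l :: ls => by
      simp only [glue, List.map_cons, List.sum_cons, List.countP_append, List.countP_cons]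
      rw [countP_up, countP_glue c ls]
      simp

theorem length_glue (c : Bool) : ∀ ls : List (List (A ⊕ X)),
    (glue c ls).length = (ls.map fun l => l.length + 1).sum
  | [] => rfl
  | l :: ls => by
      simp only [glue, List.map_cons, List.sum_cons, List.length_append, List.length_cons]
      rw [length_glue c ls, up, List.length_map]
      omega

/-- the number of occurrences of variables in the coding equation -/
theorem countP_enc : ∀ E : List (List (A ⊕ X) × List (A ⊕ X)),
    (encL E ++ encR E).countP Sum.isRight =
      2 * (E.map fun t => (t.1 ++ t.2).countP Sum.isRight).sum := by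
  intro E
  unfold encL encR
  simp only [List.countP_append, countP_glue, List.map_map]
  have h : (E.map fun t => t.1.countP Sum.isRight + t.2.countP Sum.isRight).sum =
      (E.map ((fun l : List (A ⊕ X) => l.countP Sum.isRight) ∘ Prod.fst)).sum +
      (E.map ((fun l : List (A ⊕ X) => l.countP Sum.isRight) ∘ Prod.snd)).sum := by
    induction E with
    | nil => rfl
    | cons t E ih =>
      simp only [List.map_cons, List.sum_cons, Function.comp_apply] at ih ⊢
      omega
  rw [h]
  ring

/-- the length of the coding equation -/
theorem length_enc : ∀ E : List (List (A ⊕ X) × List (A ⊕ X)),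
    (encL E).length + (encR E).length =
      2 * (E.map fun t => t.1.length + t.2.length + 2).sum := by
  intro E
  unfold encL encR
  simp only [List.length_append, length_glue, List.map_map]
  have h : (E.map fun t => t.1.length + t.2.length + 2).sum =
      (E.map ((fun l : List (A ⊕ X) => l.length + 1) ∘ Prod.fst)).sum +
      (E.map ((fun l : List (A ⊕ X) => l.length + 1) ∘ Prod.snd)).sum := by
    induction E with
    | nil => rfl
    | cons t E ih =>
      simp only [List.map_cons, List.sum_cons, Function.comp_apply] at ih ⊢
      omega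
  rw [h]
  ring

theorem sum_map_le {β : Type*} (f : β → ℕ) (v : ℕ) : ∀ E : List β, (∀ t ∈ E, f t ≤ v) →
    (E.map f).sum ≤ E.length * v
  | [], _ => by simp
  | t :: E, h => by
      have h1 := sum_map_le f v E (fun t' ht' => h t' (List.mem_cons_of_mem _ ht'))
      have h2 := h t (by simp)
      simp only [List.map_cons, List.sum_cons, List.length_cons, add_mul, one_mul]
      omega

/-- **Few occurrences, systems.** Systems of at most `v` word equations, each with at most `v`
occurrences of variables and of length at most `N`, have solutions of length polynomial in `N`. -/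
theorem few_systems (v : ℕ) : ∃ C : ℕ, ∀ {A : Type u} {X : Type w} [Fintype X]
    (E : List (List (A ⊕ X) × List (A ⊕ X))) (N : ℕ), E.length ≤ v →
    (∀ t ∈ E, (t.1 ++ t.2).countP Sum.isRight ≤ v) →
    (∀ t ∈ E, t.1.length + t.2.length ≤ N) →
    (∃ σ : X → List A, ∀ t ∈ E, sb σ t.1 = sb σ t.2) →
    ∃ σ : X → List A, (∀ t ∈ E, sb σ t.1 = sb σ t.2) ∧
      ∑ x, (σ x).length ≤ C * (N + 1) ^ C := by
  obtain ⟨C, hC⟩ := few_occurrences.{u, w} (2 * (v * v))
  refine ⟨C * (4 * v + 1) ^ C + C, ?_⟩
  intro A X _ E N hE hv hN ⟨σ₀, hσ₀⟩
  have h1 : (encL E ++ encR E).countP Sum.isRight ≤ 2 * (v * v) := by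
    rw [countP_enc]
    have h2 := sum_map_le (fun t : List (A ⊕ X) × List (A ⊕ X) =>
      (t.1 ++ t.2).countP Sum.isRight) v E hv
    have h3 : E.length * v ≤ v * v := Nat.mul_le_mul_right v hE
    omega
  obtain ⟨σ, hσ, hlen⟩ := hC (encL E) (encR E) h1 ⟨_, enc_of_sol E σ₀ hσ₀⟩
  refine ⟨fun x => dn (σ x), sol_of_enc E σ hσ, ?_⟩
  have h4 : (encL E).length + (encR E).length ≤ (4 * v + 1) * (N + 1) := by
    rw [length_enc]
    have h2 := sum_map_le (fun t : List (A ⊕ X) × List (A ⊕ X) =>
      t.1.length + t.2.length + 2) (N + 2) E (fun t ht => by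
        have := hN t ht
        omega)
    have h3 : E.length * (N + 2) ≤ v * (N + 2) := Nat.mul_le_mul_right _ hE
    have h5 : v * (N + 2) ≤ 2 * (v * (N + 1)) := by nlinarith
    have h6 : (4 * v + 1) * (N + 1) = 4 * (v * (N + 1)) + (N + 1) := by ring
    omega
  calc ∑ x, (dn (σ x)).length ≤ ∑ x, (σ x).length :=
        Finset.sum_le_sum fun x _ => length_dn (σ x)
    _ ≤ C * ((encL E).length + (encR E).length) ^ C := hlen
    _ ≤ C * ((4 * v + 1) * (N + 1)) ^ C :=
        Nat.mul_le_mul_left _ (Nat.pow_le_pow_left h4 _)
    _ = C * (4 * v + 1) ^ C * (N + 1) ^ C := by rw [mul_pow]; ring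
    _ ≤ (C * (4 * v + 1) ^ C + C) * (N + 1) ^ (C * (4 * v + 1) ^ C + C) := by
        refine Nat.mul_le_mul (Nat.le_add_right _ _) ?_
        exact Nat.pow_le_pow_right (Nat.succ_pos N) (Nat.le_add_left _ _)

end WK
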