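import Pool.Agent.WK.Alph21
import Pool.Agent.WO45.Basic

/-!
# Restriction to the letters and the variables that occur, general form

Helper file for MP_fc7ad9_lc (word equations with few variables).
-/

set_option autoImplicit false

namespace WK

open WE45 WO45

universe u w

/-- number of variable occurrences of the image -/
theorem vN_map37 {A B X Y : Type*} (f : A → B) (g : X → Y) : ∀ l : List (A ⊕ X),
    vN (l.map (Sum.map f g)) = vN l
  | [] => rfl
  | .inl a :: l => by
      rw [List.map_cons]
      show vN (Sum.inl (f a) :: l.map (Sum.map f g)) = _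
      simp only [vN, vN_map37 f g l]
  | .inr x :: l => by
      rw [List.map_cons]
      show vN (Sum.inr (g x) :: l.map (Sum.map f g)) = _
      simp only [vN, vN_map37 f g l]

/-- constant segments of the image -/
theorem seg_map37 {A B X Y : Type*} (f : A → B) (g : X → Y) (l : List (A ⊕ X)) (v : List A)
    (h : v.map Sum.inl <:+: l) :
    (v.map f).map (Sum.inl : B → B ⊕ Y) <:+: l.map (Sum.map f g) := by
  obtain ⟨s, t, rfl⟩ := h
  refine ⟨s.map (Sum.map f g), t.map (Sum.map f g), ?_⟩
  rw [List.map_append, List.map_append, List.map_map, List.map_map]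
  rfl

/-- value of the image -/
theorem sb_map37 {A B X Y : Type*} (f : A → B) (g : X → Y) (σ : Y → List B) (σ' : X → List A)
    (h : ∀ x, σ (g x) = (σ' x).map f) : ∀ l : List (A ⊕ X),
    sb σ (l.map (Sum.map f g)) = (sb σ' l).map f
  | [] => rfl
  | .inl a :: l => by
      rw [List.map_cons]
      show sb σ (Sum.inl (f a) :: l.map (Sum.map f g)) = _
      rw [sb_inl, sb_inl, List.map_cons, sb_map37 f g σ σ' h l]
  | .inr x :: l => by
      rw [List.map_cons]
      show sb σ (Sum.inr (g x) :: l.map (Sum.map f g)) = _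
      rw [sb_inr, sb_inr, List.map_append, h x, sb_map37 f g σ σ' h l]

/-- value of the restriction -/
theorem sb_ers37 {A : Type u} {X : Type w} [DecidableEq A] (S : Finset A) (W : Finset X)
    (σ : X → List A) : ∀ l : List ({a // a ∈ S} ⊕ {x // x ∈ W}),
    sb (fun x : {x // x ∈ W} => (σ x.1).filterMap (ers S)) l =
      (sb σ (l.map (Sum.map Subtype.val Subtype.val))).filterMap (ers S)
  | [] => rfl
  | .inl a :: l => by
      have e : ers S a.1 = some a := by
        rw [ers, dif_pos a.2]
      rw [List.map_cons]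
      show _ = (sb σ (Sum.inl a.1 :: l.map (Sum.map Subtype.val Subtype.val))).filterMap (ers S)
      rw [sb_inl, sb_inl, List.filterMap_cons, e, sb_ers37 S W σ l]
  | .inr x :: l => by
      rw [List.map_cons]
      show _ = (sb σ (Sum.inr x.1 :: l.map (Sum.map Subtype.val Subtype.val))).filterMap (ers S)
      rw [sb_inr, sb_inr, List.filterMap_append, sb_ers37 S W σ l]

/-- words over the letters of `S` and the variables of `W` -/
theorem lift37 {A : Type u} {X : Type w} (S : Finset A) (W : Finset X) :
    ∀ l : List (A ⊕ X), (∀ a, Sum.inl a ∈ l → a ∈ S) → (∀ x, Sum.inr x ∈ l → x ∈ W) →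
      ∃ l' : List ({a // a ∈ S} ⊕ {x // x ∈ W}),
        l'.map (Sum.map Subtype.val Subtype.val) = l
  | [], _, _ => ⟨[], rfl⟩
  | .inl a :: l, hS, hW => by
      obtain ⟨l', h⟩ := lift37 S W l (fun b hb => hS b (List.mem_cons_of_mem _ hb))
        (fun x hx => hW x (List.mem_cons_of_mem _ hx))
      refine ⟨.inl ⟨a, hS a (by simp)⟩ :: l', ?_⟩
      rw [List.map_cons, h]
      rfl
  | .inr x :: l, hS, hW => by
      obtain ⟨l', h⟩ := lift37 S W l (fun b hb => hS b (List.mem_cons_of_mem _ hb))
        (fun x hx => hW x (List.mem_cons_of_mem _ hx))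
      refine ⟨.inr ⟨x, hW x (by simp)⟩ :: l', ?_⟩
      rw [List.map_cons, h]
      rfl

theorem length_right37 {A : Type u} {X : Type w} : ∀ l : List (A ⊕ X),
    (l.filterMap Sum.getRight?).length = vN l
  | [] => rfl
  | .inl a :: l => by
      rw [List.filterMap_cons]
      show (l.filterMap Sum.getRight?).length = _
      simp only [vN, length_right37 l]
  | .inr x :: l => by
      rw [List.filterMap_cons]
      show (x :: l.filterMap Sum.getRight?).length = _
      simp only [vN, List.length_cons, length_right37 l]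

/-- Restriction of an equation to the letters and the variables that occur. -/
theorem finishG {A : Type u} {X : Type w} [Fintype X] (L R : List (A ⊕ X)) (V : Finset X)
    (hV : ∀ x, Sum.inr x ∈ L ++ R → x ∈ V) :
    ∃ (S : Finset A) (W : Finset X) (L' R' : List ({a // a ∈ S} ⊕ {x // x ∈ W})),
      L'.map (Sum.map Subtype.val Subtype.val) = L ∧
      R'.map (Sum.map Subtype.val Subtype.val) = R ∧
      W ⊆ V ∧ W.card ≤ vN L + vN R ∧
      ((∃ σ : X → List A, sb σ L = sb σ R) →
        ∃ σ' : {x // x ∈ W} → List {a // a ∈ S}, sb σ' L' = sb σ' R') ∧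
      ∀ σ' : {x // x ∈ W} → List {a // a ∈ S}, sb σ' L' = sb σ' R' →
        ∃ σ : X → List A, sb σ L = sb σ R ∧ ∑ x, (σ x).length = ∑ x, (σ' x).length := by
  classical
  -- the letters and the variables that occur
  let S : Finset A := ((L ++ R).filterMap Sum.getLeft?).toFinset
  have hS : ∀ a, Sum.inl a ∈ L ++ R → a ∈ S := by
    intro a ha
    show a ∈ ((L ++ R).filterMap Sum.getLeft?).toFinset
    rw [List.mem_toFinset, List.mem_filterMap]
    exact ⟨Sum.inl a, ha, rfl⟩
  let W : Finset X := ((L ++ R).filterMap Sum.getRight?).toFinset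
  have hW : ∀ x, Sum.inr x ∈ L ++ R → x ∈ W := by
    intro x hx
    show x ∈ ((L ++ R).filterMap Sum.getRight?).toFinset
    rw [List.mem_toFinset, List.mem_filterMap]
    exact ⟨Sum.inr x, hx, rfl⟩
  have hWV : W ⊆ V := by
    intro x hx
    have hx' : x ∈ ((L ++ R).filterMap Sum.getRight?).toFinset := hx
    rw [List.mem_toFinset, List.mem_filterMap] at hx'
    obtain ⟨s, h1, h2⟩ := hx'
    cases s with
    | inl a => exact absurd h2 (by simp)
    | inr y =>
      have : y = x := by simpa using h2
      rw [← this]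
      exact hV y h1
  have hWc : W.card ≤ vN L + vN R := by
    have h1 : W.card ≤ ((L ++ R).filterMap Sum.getRight?).length := List.toFinset_card_le _
    rw [length_right37, vN_append] at h1
    exact h1
  obtain ⟨L', hL'⟩ := lift37 S W L (fun a ha => hS a (List.mem_append_left _ ha))
    (fun x hx => hW x (List.mem_append_left _ hx))
  obtain ⟨R', hR'⟩ := lift37 S W R (fun a ha => hS a (List.mem_append_right _ ha))
    (fun x hx => hW x (List.mem_append_right _ hx))
  refine ⟨S, W, L', R', hL', hR', hWV, hWc, ?_, ?_⟩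
  · rintro ⟨σ, hσ⟩
    refine ⟨fun x => (σ x.1).filterMap (ers S), ?_⟩
    rw [sb_ers37 S W σ L', sb_ers37 S W σ R', hL', hR', hσ]
  · intro σ' hσ'
    let ρ : X → List A := fun x => if h : x ∈ W then (σ' ⟨x, h⟩).map Subtype.val else []
    have hρ : ∀ x : {x // x ∈ W}, ρ x.1 = (σ' x).map Subtype.val := fun x => dif_pos x.2
    refine ⟨ρ, ?_, ?_⟩
    · rw [← hL', ← hR', sb_map37 Subtype.val Subtype.val ρ σ' hρ L',
        sb_map37 Subtype.val Subtype.val ρ σ' hρ R', hσ']
    · have e1 : ∑ x : {x // x ∈ W}, (σ' x).length = ∑ x : {x // x ∈ W}, (ρ x.1).length :=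
        Finset.sum_congr rfl fun x _ => by rw [hρ x, List.length_map]
      rw [e1, Finset.sum_coe_sort W (fun x => (ρ x).length)]
      symm
      apply Finset.sum_subset (Finset.subset_univ _)
      intro x _ hx
      show (ρ x).length = 0
      rw [show ρ x = [] from dif_neg hx]
      rfl

end WK
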