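import Pool.Agent.WK.Exp45

/-! Word equations with boundedly many variables (MP_fc7ad9_lc). Helper module:
the exponents of one letter, polynomial bound by simultaneous approximation. -/

open WE45 WO45

universe u w

namespace WK

/-- a long power of a letter is inside a run of this letter -/
theorem exists_run' {Γ : Type*} [DecidableEq Γ] {r : Γ} {c : ℕ} (hc : 1 ≤ c) (t : List Γ) :
    ∀ s : List Γ, ∃ p ∈ rle (s ++ (List.replicate c r ++ t)), c ≤ p.2 ∧ p.1 = r
  | [] => by
      obtain ⟨c', rfl⟩ : ∃ c', c = c' + 1 := ⟨c - 1, by omega⟩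
      rw [List.nil_append, rle_replicate]
      cases h : rle t with
      | nil => exact ⟨(r, c' + 1), by simp [cm], le_rfl, rfl⟩
      | cons p T =>
        by_cases hp : r = p.1
        · exact ⟨(r, c' + 1 + p.2), by simp [cm, hp], Nat.le_add_right _ _, rfl⟩
        · exact ⟨(r, c' + 1), by simp [cm, hp], le_rfl, rfl⟩
  | a :: s => by
      obtain ⟨p, hp, hcp, hpr⟩ := exists_run' hc t s
      rw [List.cons_append]
      show ∃ p ∈ cm a 1 (rle (s ++ (List.replicate c r ++ t))), c ≤ p.2 ∧ p.1 = r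
      cases h : rle (s ++ (List.replicate c r ++ t)) with
      | nil => rw [h] at hp; cases hp
      | cons q T =>
        rw [h] at hp
        by_cases hq : a = q.1
        · rcases List.mem_cons.1 hp with rfl | hp
          · exact ⟨(a, 1 + p.2), by simp [cm, hq], by show c ≤ 1 + p.2; omega, hq.trans hpr⟩
          · refine ⟨p, ?_, hcp, hpr⟩
            simp only [cm, if_pos hq]
            exact List.mem_cons_of_mem _ hp
        · refine ⟨p, ?_, hcp, hpr⟩
          simp only [cm, if_neg hq]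
          exact List.mem_cons_of_mem _ hp

/-- simultaneous approximation -/
theorem dirichlet {I : Type*} [Fintype I] (θ : I → ℕ) (V M : ℕ) (hV : 0 < V) (hM : 0 < M) :
    ∃ t : ℕ, 1 ≤ t ∧ t ≤ M ^ Fintype.card I ∧ ∃ a : I → ℕ, ∀ i,
      (M : ℤ) * |(t : ℤ) * θ i - a i * V| < V := by
  classical
  let f : Fin (M ^ Fintype.card I + 1) → (I → Fin M) := fun t i =>
    ⟨((t : ℕ) * θ i % V) * M / V, by
      rw [Nat.div_lt_iff_lt_mul hV, Nat.mul_comm M V]
      exact Nat.mul_lt_mul_of_pos_right (Nat.mod_lt _ hV) hM⟩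
  have hcard : Fintype.card (I → Fin M) < Fintype.card (Fin (M ^ Fintype.card I + 1)) := by
    rw [Fintype.card_fun, Fintype.card_fin, Fintype.card_fin]
    omega
  obtain ⟨t1, t2, hne, h12⟩ := Fintype.exists_ne_map_eq_of_card_lt f hcard
  have main : ∀ t1 t2 : Fin (M ^ Fintype.card I + 1), t1 < t2 → f t1 = f t2 →
      ∃ t : ℕ, 1 ≤ t ∧ t ≤ M ^ Fintype.card I ∧ ∃ a : I → ℕ, ∀ i,
        (M : ℤ) * |(t : ℤ) * θ i - a i * V| < V := by
    intro t1 t2 hlt h
    have hlt' : (t1 : ℕ) < t2 := hlt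
    have ht2 : (t2 : ℕ) ≤ M ^ Fintype.card I := by have := t2.isLt; omega
    refine ⟨t2 - t1, by omega, by omega,
      fun i => (t2 : ℕ) * θ i / V - (t1 : ℕ) * θ i / V, ?_⟩
    intro i
    have h1 : ((t1 : ℕ) * θ i % V) * M / V = ((t2 : ℕ) * θ i % V) * M / V :=
      congrArg Fin.val (congrFun h i)
    have hdiv : (t1 : ℕ) * θ i / V ≤ (t2 : ℕ) * θ i / V :=
      Nat.div_le_div_right (Nat.mul_le_mul_right _ hlt'.le)
    have e1 := Nat.div_add_mod ((t1 : ℕ) * θ i) V
    have e2 := Nat.div_add_mod ((t2 : ℕ) * θ i) V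
    set r1 := (t1 : ℕ) * θ i % V with hr1
    set r2 := (t2 : ℕ) * θ i % V with hr2
    set d1 := (t1 : ℕ) * θ i / V with hd1
    set d2 := (t2 : ℕ) * θ i / V with hd2
    have h2 := Nat.div_add_mod (r1 * M) V
    have h3 := Nat.div_add_mod (r2 * M) V
    have h4 := Nat.mod_lt (r1 * M) hV
    have h5 := Nat.mod_lt (r2 * M) hV
    rw [h1] at h2
    have h6 : ((t2 - t1 : ℕ) : ℤ) * θ i - ((d2 - d1 : ℕ) : ℤ) * V = r2 - r1 := by
      rw [Nat.cast_sub hlt'.le, Nat.cast_sub hdiv]
      have e1' : (V : ℤ) * d1 + r1 = (t1 : ℕ) * θ i := by exact_mod_cast e1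
      have e2' : (V : ℤ) * d2 + r2 = (t2 : ℕ) * θ i := by exact_mod_cast e2
      linear_combination e1' - e2'
    show (M : ℤ) * |((t2 - t1 : ℕ) : ℤ) * θ i - ((d2 - d1 : ℕ) : ℤ) * V| < V
    rw [h6]
    have h7 : (M : ℤ) * |(r2 : ℤ) - r1| = |(M : ℤ) * ((r2 : ℤ) - r1)| := by
      rw [abs_mul, Nat.abs_cast]
    rw [h7, abs_lt]
    have h2' : (V : ℤ) * ((r2 * M / V : ℕ) : ℤ) + ((r1 * M % V : ℕ) : ℤ) = r1 * M := by
      exact_mod_cast h2
    have h3' : (V : ℤ) * ((r2 * M / V : ℕ) : ℤ) + ((r2 * M % V : ℕ) : ℤ) = r2 * M := by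
      exact_mod_cast h3
    have h4' : ((r1 * M % V : ℕ) : ℤ) < V := by exact_mod_cast h4
    have h5' : ((r2 * M % V : ℕ) : ℤ) < V := by exact_mod_cast h5
    have h4'' : (0 : ℤ) ≤ ((r1 * M % V : ℕ) : ℤ) := Int.natCast_nonneg _
    have h5'' : (0 : ℤ) ≤ ((r2 * M % V : ℕ) : ℤ) := Int.natCast_nonneg _
    constructor <;> nlinarith
  rcases lt_or_gt_of_ne hne with h | h
  · exact main t1 t2 h h12
  · exact main t2 t1 h h12.symm

/-- rounding -/
def rd (V t e : ℕ) : ℕ := (2 * (t * e) + V) / (2 * V)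

theorem rd_eq {V t e a : ℕ} (hV : 0 < V) (h : 2 * |(t : ℤ) * e - a * V| < V) :
    rd V t e = a := by
  unfold rd
  obtain ⟨h1, h2⟩ := abs_lt.1 (show |2 * ((t : ℤ) * e - a * V)| < V by
    rw [abs_mul]; simpa using h)
  have h3 : a * (2 * V) ≤ 2 * (t * e) + V := by
    have : (a : ℤ) * (2 * V) ≤ 2 * (t * e) + V := by linarith
    exact_mod_cast this
  have h4 : 2 * (t * e) + V < (a + 1) * (2 * V) := by
    have : (2 : ℤ) * (t * e) + V < (a + 1) * (2 * V) := by linarith
    exact_mod_cast this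
  exact Nat.div_eq_of_lt_le h3 h4

theorem rd_le {V t : ℕ} (hV : 0 < V) (ht : t ≤ V) (e : ℕ) : rd V t e ≤ e := by
  unfold rd
  rw [← Nat.lt_succ_iff, Nat.div_lt_iff_lt_mul (by omega)]
  have h1 : t * e ≤ V * e := Nat.mul_le_mul_right _ ht
  calc 2 * (t * e) + V ≤ 2 * (V * e) + V := by omega
    _ < 2 * (V * e) + 2 * V := by omega
    _ = e.succ * (2 * V) := by rw [Nat.succ_eq_add_one]; ring

theorem rd_self {V t : ℕ} (hV : 0 < V) : rd V t V = t := by
  refine rd_eq hV ?_
  rw [sub_self, abs_zero, mul_zero]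
  exact_mod_cast hV

/-- lowering the exponents of the letter `r` -/
theorem lower_psi {Γ X : Type*} [DecidableEq Γ] [Fintype X] [DecidableEq X] (r : Γ)
    (L R : List (Γ ⊕ X)) (τ : X → List Γ) (hτ : sb τ L = sb τ R) (ψ : ℕ → ℕ)
    (hle : ∀ e, ψ e ≤ e) (sh : X → Sh Γ) (θ : X × Bool → ℕ) (mid : X → List (Γ × ℕ))
    (hθ : ∀ x, rle (τ x) = shp (sh x) (θ (x, false)) (θ (x, true)) (mid x))
    (hJ' : ∀ F, .inl (r, F) ∈ mg sh L ++ mg sh R → ψ (ev θ F) = ∑ i, F.1 i * ψ (θ i)) :
    sb (fun x => dec ((rle (τ x)).map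
      (fun t => (t.1, if t.1 = r then t.2 - ψ t.2 else t.2)))) L =
    sb (fun x => dec ((rle (τ x)).map
      (fun t => (t.1, if t.1 = r then t.2 - ψ t.2 else t.2)))) R := by
  classical
  set ρ : Γ × ℕ → Γ × ℕ := fun t => (t.1, if t.1 = r then t.2 - ψ t.2 else t.2)
    with hρdef
  let θ' : X × Bool → ℕ := fun i =>
    if ltr sh i = some r then θ i - ψ (θ i) else θ i
  have hl : ∀ a F, .inl (a, F) ∈ mg sh L ++ mg sh R → ∀ i, F.1 i ≠ 0 → ltr sh i = some a := by
    intro a F hF i hi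
    rcases List.mem_append.1 hF with hF | hF
    · exact (forms_mg sh L (a, F) hF).2.2 i hi
    · exact (forms_mg sh R (a, F) hF).2.2 i hi
  -- the junctions
  have hJ : ∀ F, .inl (r, F) ∈ mg sh L ++ mg sh R →
      ev θ F - ψ (ev θ F) = ev θ' F := by
    intro F hF
    have hθ'F : ∀ i, F.1 i * θ' i = F.1 i * (θ i - ψ (θ i)) := by
      intro i
      by_cases hi : F.1 i = 0
      · rw [hi, zero_mul, zero_mul]
      · show F.1 i * (if ltr sh i = some r then θ i - ψ (θ i) else θ i) = _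
        rw [if_pos (hl r F hF i hi)]
    have h6 : ev θ F = ev θ' F + ∑ i, F.1 i * ψ (θ i) := by
      unfold ev
      have : ∑ i, F.1 i * θ i = ∑ i, F.1 i * θ' i + ∑ i, F.1 i * ψ (θ i) := by
        rw [← Finset.sum_add_distrib]
        refine Finset.sum_congr rfl ?_
        intro i _
        rw [hθ'F, ← mul_add]
        congr 1
        have := hle (θ i)
        omega
      omega
    rw [hJ' F hF]
    omega
  have hρl : ∀ (x : X) (a : Γ) (b : Bool), ltr sh (x, b) = some a →
      ρ (a, θ (x, b)) = (a, θ' (x, b)) := by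
    intro x a b hab
    show (a, if a = r then θ (x, b) - ψ (θ (x, b)) else θ (x, b)) =
      (a, if ltr sh (x, b) = some r then θ (x, b) - ψ (θ (x, b)) else θ (x, b))
    rw [hab]
    by_cases har : a = r
    · rw [if_pos har, if_pos (by rw [har])]
    · rw [if_neg har, if_neg (by rw [Option.some.injEq]; exact har)]
  have hback : ∀ x, back sh θ' (fun x => (mid x).map ρ) x = dec ((rle (τ x)).map ρ) := by
    intro x
    rw [hθ x]
    unfold back
    cases hsh : sh x with
    | nil => rfl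
    | one a =>
      show List.replicate (θ' (x, false)) a = dec [ρ (a, θ (x, false))]
      rw [hρl x a false (by simp only [ltr, hsh]), dec_cons, dec_nil, List.append_nil]
    | two a b =>
      show List.replicate (θ' (x, false)) a ++ (dec ((mid x).map ρ) ++
        List.replicate (θ' (x, true)) b) =
        dec (List.map ρ ((a, θ (x, false)) :: (mid x ++ [(b, θ (x, true))])))
      rw [List.map_cons, List.map_append, dec_cons, dec_append,
        hρl x a false (by simp only [ltr, hsh])]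
      simp only [List.map_cons, List.map_nil]
      rw [hρl x b true (by simp only [ltr, hsh]), dec_cons, dec_nil, List.append_nil]
  have key : ∀ S : List (Γ ⊕ X), (∀ t, .inl t ∈ mg sh S → .inl t ∈ mg sh L ++ mg sh R) →
      sb (fun x => dec ((rle (τ x)).map ρ)) S = dec ((rle (sb τ S)).map ρ) := by
    intro S hS
    rw [← mg_eval τ sh mid θ hθ S, relabel θ θ' mid ρ (mg sh S), mg_back]
    · congr 1
      funext x
      exact (hback x).symm
    · rintro ⟨a, F⟩ ht
      show (a, if a = r then ev θ F - ψ (ev θ F) else ev θ F) = (a, ev θ' F)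
      by_cases har : a = r
      · subst har
        rw [if_pos rfl, hJ F (hS _ ht)]
      · rw [if_neg har]
        congr 1
        unfold ev
        congr 1
        refine Finset.sum_congr rfl ?_
        intro i _
        by_cases hi : F.1 i = 0
        · rw [hi, zero_mul, zero_mul]
        · have h8 := hl a F (hS _ ht) i hi
          show F.1 i * θ i =
            F.1 i * (if ltr sh i = some r then θ i - ψ (θ i) else θ i)
          rw [h8, if_neg (by rw [Option.some.injEq]; exact har)]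
  rw [key L (fun t ht => List.mem_append_left _ ht),
    key R (fun t ht => List.mem_append_right _ ht), hτ]

/-- **exponents of a letter**, explicit form: `v` variable occurrences, `K` constants `r` -/
theorem one_letter_dir {Γ X : Type*} [DecidableEq Γ] [Fintype X] [DecidableEq X] (r : Γ)
    (v K : ℕ) (L R : List (Γ ⊕ X)) (hv : vN L + vN R ≤ v) (hK : nA r L + nA r R ≤ K)
    (τ : X → List Γ) (hτ : sb τ L = sb τ R) (x : X) (c : ℕ)
    (hc : 4 * (K + 1) * (8 * Fintype.card X * v + 4) ^ (2 * Fintype.card X) < c)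
    (hfac : List.replicate c r <:+: τ x) :
    ∃ τ' : X → List Γ, sb τ' L = sb τ' R ∧ (∀ x, (τ' x).Sublist (τ x)) ∧
      ∃ x, (τ' x).length < (τ x).length := by
  classical
  have hc1 : 1 ≤ c := Nat.lt_of_le_of_lt (Nat.zero_le _) hc
  obtain ⟨s0, t0, hst⟩ := hfac
  obtain ⟨p, hp, hcp, hpr⟩ := exists_run' (r := r) hc1 t0 s0
  rw [← List.append_assoc, hst] at hp
  set V := p.2 with hVdef
  have hV : 0 < V := by omega
  set m := 2 * Fintype.card X * v with hmdef
  set M := 4 * m + 4 with hMdef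
  have hMeq : 8 * Fintype.card X * v + 4 = M := by rw [hMdef, hmdef]; ring
  rw [hMeq] at hc
  set Q := M ^ (2 * Fintype.card X) with hQ
  have hVQ : 4 * (K + 1) * Q < V := lt_of_lt_of_le hc hcp
  choose sh pp ss mid hshape using fun x => exists_shape (rle (τ x))
  let θ : X × Bool → ℕ := fun i => match i with
    | (x, false) => pp x
    | (x, true) => ss x
  have hθ : ∀ x, rle (τ x) = shp (sh x) (θ (x, false)) (θ (x, true)) (mid x) := hshape
  have hforms : ∀ F, .inl (r, F) ∈ mg sh L ++ mg sh R → ∑ i, F.1 i ≤ m ∧ F.2 ≤ K := by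
    intro F hF
    have h1 : (∀ i, F.1 i ≤ v) ∧ F.2 ≤ K := by
      rcases List.mem_append.1 hF with hF | hF
      · obtain ⟨f1, f2, -⟩ := forms_mg sh L (r, F) hF
        have f3 : F.2 ≤ nA r L := f2
        exact ⟨fun i => (f1 i).trans (by omega), f3.trans (by omega)⟩
      · obtain ⟨f1, f2, -⟩ := forms_mg sh R (r, F) hF
        have f3 : F.2 ≤ nA r R := f2
        exact ⟨fun i => (f1 i).trans (by omega), f3.trans (by omega)⟩
    refine ⟨?_, h1.2⟩
    calc ∑ i, F.1 i ≤ ∑ _i : X × Bool, v := Finset.sum_le_sum (fun i _ => h1.1 i)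
      _ = m := by
          rw [Finset.sum_const, Finset.card_univ, Fintype.card_prod, Fintype.card_bool,
            smul_eq_mul, hmdef]
          ring
  obtain ⟨t, ht1, htQ, a, ha⟩ := dirichlet θ V M hV (by omega)
  have hcardI : Fintype.card (X × Bool) = 2 * Fintype.card X := by
    rw [Fintype.card_prod, Fintype.card_bool, Nat.mul_comm]
  rw [hcardI, ← hQ] at htQ
  have htK : 4 * (t * (K + 1)) ≤ V := by
    calc 4 * (t * (K + 1)) ≤ 4 * (Q * (K + 1)) :=
          Nat.mul_le_mul_left _ (Nat.mul_le_mul_right _ htQ)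
      _ = 4 * (K + 1) * Q := by ring
      _ ≤ V := hVQ.le
  have htV : t ≤ V := by nlinarith
  have hrdθ : ∀ i, rd V t (θ i) = a i := by
    intro i
    refine rd_eq hV ?_
    have h1 := ha i
    have h2 : (4 : ℤ) ≤ M := by rw [hMdef]; push_cast; linarith [Int.natCast_nonneg m]
    have h3 := abs_nonneg ((t : ℤ) * θ i - a i * V)
    nlinarith
  have hJ' : ∀ F, .inl (r, F) ∈ mg sh L ++ mg sh R →
      rd V t (ev θ F) = ∑ i, F.1 i * rd V t (θ i) := by
    intro F hF
    obtain ⟨h1, h2⟩ := hforms F hF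
    have e1 : ∑ i, F.1 i * rd V t (θ i) = ∑ i, F.1 i * a i :=
      Finset.sum_congr rfl (fun i _ => by rw [hrdθ])
    rw [e1]
    refine rd_eq hV ?_
    have e2 : (t : ℤ) * ((ev θ F : ℕ) : ℤ) - ((∑ i, F.1 i * a i : ℕ) : ℤ) * V =
        ∑ i, (F.1 i : ℤ) * ((t : ℤ) * θ i - a i * V) + t * F.2 := by
      unfold ev
      push_cast
      rw [mul_add, Finset.mul_sum, Finset.sum_mul]
      have e3 : ∑ i, (F.1 i : ℤ) * ((t : ℤ) * θ i - a i * V) =
          ∑ i, (t : ℤ) * ((F.1 i : ℤ) * θ i) - ∑ i, (F.1 i : ℤ) * a i * V := by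
        rw [← Finset.sum_sub_distrib]
        exact Finset.sum_congr rfl (fun i _ => by ring)
      rw [e3]
      ring
    rw [e2]
    have h3 : |∑ i, (F.1 i : ℤ) * ((t : ℤ) * θ i - a i * V)| ≤
        ∑ i, (F.1 i : ℤ) * |(t : ℤ) * θ i - a i * V| := by
      refine (Finset.abs_sum_le_sum_abs _ _).trans ?_
      refine Finset.sum_le_sum ?_
      intro i _
      rw [abs_mul, Nat.abs_cast]
    have h4 : (M : ℤ) * ∑ i, (F.1 i : ℤ) * |(t : ℤ) * θ i - a i * V| ≤ m * V := by
      rw [Finset.mul_sum]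
      calc ∑ i, (M : ℤ) * ((F.1 i : ℤ) * |(t : ℤ) * θ i - a i * V|)
          ≤ ∑ i, (F.1 i : ℤ) * V := by
            refine Finset.sum_le_sum ?_
            intro i _
            have h5 := (ha i).le
            have h6 : (0 : ℤ) ≤ F.1 i := Int.natCast_nonneg _
            calc (M : ℤ) * ((F.1 i : ℤ) * |(t : ℤ) * θ i - a i * V|) =
                (F.1 i : ℤ) * ((M : ℤ) * |(t : ℤ) * θ i - a i * V|) := by ring
              _ ≤ (F.1 i : ℤ) * V := mul_le_mul_of_nonneg_left h5 h6
        _ = ((∑ i, F.1 i : ℕ) : ℤ) * V := by rw [← Finset.sum_mul]; push_cast; rfl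
        _ ≤ m * V := by
            refine mul_le_mul_of_nonneg_right ?_ (Int.natCast_nonneg _)
            exact_mod_cast h1
    set D := ∑ i, (F.1 i : ℤ) * |(t : ℤ) * θ i - a i * V| with hD
    have h7 : (4 : ℤ) * (t * F.2) ≤ V := by
      have h8 : 4 * (t * F.2) ≤ 4 * (t * (K + 1)) :=
        Nat.mul_le_mul_left _ (Nat.mul_le_mul_left _ (by omega))
      exact_mod_cast h8.trans htK
    have h9 : (4 : ℤ) * D < V := by
      have hV' : (0 : ℤ) < V := by exact_mod_cast hV
      have hM' : (M : ℤ) = 4 * m + 4 := by rw [hMdef]; push_cast; ring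
      have hm0 : (0 : ℤ) ≤ m := Int.natCast_nonneg _
      rw [hM'] at h4
      by_contra hcon
      push Not at hcon
      have h10 : ((4 : ℤ) * m + 4) * V ≤ ((4 : ℤ) * m + 4) * (4 * D) :=
        mul_le_mul_of_nonneg_left hcon (by linarith)
      nlinarith
    have h11 : |∑ i, (F.1 i : ℤ) * ((t : ℤ) * θ i - a i * V) + t * F.2| ≤ D + t * F.2 := by
      refine (abs_add_le _ _).trans ?_
      have h12 : |(t : ℤ) * F.2| = t * F.2 := abs_of_nonneg (by positivity)
      rw [h12]
      linarith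
    linarith
  have hlow := lower_psi r L R τ hτ (rd V t) (rd_le hV htV) sh θ mid hθ hJ'
  have hρ : ∀ q : Γ × ℕ, ((fun q : Γ × ℕ =>
      (q.1, if q.1 = r then q.2 - rd V t q.2 else q.2)) q).1 = q.1 ∧
      ((fun q : Γ × ℕ => (q.1, if q.1 = r then q.2 - rd V t q.2 else q.2)) q).2 ≤ q.2 := by
    intro q
    refine ⟨rfl, ?_⟩
    show (if q.1 = r then q.2 - rd V t q.2 else q.2) ≤ q.2
    split_ifs
    · exact Nat.sub_le _ _
    · exact le_rfl
  refine ⟨_, hlow, ?_, x, ?_⟩
  · intro y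
    have h := dec_sublist _ hρ (rle (τ y))
    rw [dec_rle] at h
    exact h
  · have h := dec_length_lt _ hρ (p := p) (by
        show (if p.1 = r then p.2 - rd V t p.2 else p.2) < p.2
        rw [if_pos hpr, ← hVdef, rd_self hV]
        omega) (rle (τ x)) hp
    rw [dec_rle] at h
    exact h

/-- **exponents of a letter**, polynomial form -/
theorem one_letter_poly (k : ℕ) : ∃ C : ℕ, ∀ {Γ : Type u} {X : Type w} [DecidableEq Γ]
    [Fintype X] [DecidableEq X] (n : ℕ) (L R : List (Γ ⊕ X)), Fintype.card X ≤ k →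
    L.length + R.length ≤ n → ∀ τ : X → List Γ, sb τ L = sb τ R →
    ∀ (r : Γ) (x : X) (c : ℕ), C * (n + 1) ^ C < c → List.replicate c r <:+: τ x →
    ∃ τ' : X → List Γ, sb τ' L = sb τ' R ∧ (∀ x, (τ' x).Sublist (τ x)) ∧
      ∃ x, (τ' x).length < (τ x).length := by
  refine ⟨4 * (8 * k + 4) ^ (2 * k) + 2 * k + 1, ?_⟩
  intro Γ X _ _ _ n L R hX hn τ hτ r x c hc hfac
  have h3 : ∀ S : List (Γ ⊕ X), vN S ≤ S.length ∧ nA r S ≤ S.length := by
    intro S
    induction S with
    | nil => exact ⟨le_rfl, le_rfl⟩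
    | cons u S ih =>
      cases u with
      | inl b =>
        refine ⟨?_, ?_⟩
        · simp only [vN, List.length_cons]; omega
        · simp only [nA, List.length_cons]
          split_ifs <;> omega
      | inr y =>
        refine ⟨?_, ?_⟩
        · simp only [vN, List.length_cons]; omega
        · simp only [nA, List.length_cons]; omega
  have h4 := h3 L
  have h5 := h3 R
  refine one_letter_dir r n n L R (by omega) (by omega) τ hτ x c ?_ hfac
  refine lt_of_le_of_lt ?_ hc
  calc 4 * (n + 1) * (8 * Fintype.card X * n + 4) ^ (2 * Fintype.card X)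
      ≤ 4 * (n + 1) * ((8 * k + 4) * (n + 1)) ^ (2 * Fintype.card X) := by
        gcongr
        have : 8 * Fintype.card X * n ≤ 8 * k * n := by gcongr
        nlinarith
    _ ≤ 4 * (n + 1) * ((8 * k + 4) * (n + 1)) ^ (2 * k) := by
        gcongr
        · nlinarith [Nat.zero_le (8 * k), Nat.zero_le n]
    _ = 4 * (8 * k + 4) ^ (2 * k) * (n + 1) ^ (2 * k + 1) := by
        rw [mul_pow]; ring
    _ ≤ (4 * (8 * k + 4) ^ (2 * k) + 2 * k + 1) *
        (n + 1) ^ (4 * (8 * k + 4) ^ (2 * k) + 2 * k + 1) := by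
        gcongr
        · omega
        · omega
        · omega

end WK
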