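import Pool.Agent.WK.Scale66D
import Pool.Agent.WO45.Basic

/-! Word equations with boundedly many variables (MP_fc7ad9_lc). Helper module:
lengths and number of the gap words in terms of the number of variable occurrences and of the
length of the constant segments. -/

open WE45 WK64 WO45

namespace WK

variable {A X : Type*}

/-- all constant segments have length at most `d` -/
def SegLe (d : ℕ) (L : List (A ⊕ X)) : Prop :=
  ∀ w : List A, w.map Sum.inl <:+: L → w.length ≤ d

theorem SegLe.tail {d : ℕ} {s : A ⊕ X} {L : List (A ⊕ X)} (h : SegLe d (s :: L)) : SegLe d L :=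
  fun w hw => h w (List.infix_cons hw)

/-- number of leading constants -/
def lead : List (A ⊕ X) → ℕ
  | [] => 0
  | .inl _ :: l => lead l + 1
  | .inr _ :: _ => 0

theorem lead_word : ∀ l : List (A ⊕ X), ∃ w : List A, w.map Sum.inl <+: l ∧ w.length = lead l
  | [] => ⟨[], by simp, rfl⟩
  | .inr x :: l => ⟨[], by simp, rfl⟩
  | .inl a :: l => by
      obtain ⟨w, ⟨t, h1⟩, h2⟩ := lead_word l
      refine ⟨a :: w, ⟨t, ?_⟩, ?_⟩
      · rw [List.map_cons, List.cons_append, h1]
      · rw [List.length_cons, h2, lead]

theorem SegLe.lead_le {d : ℕ} {L : List (A ⊕ X)} (h : SegLe d L) : lead L ≤ d := by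
  obtain ⟨w, h1, h2⟩ := lead_word L
  rw [← h2]
  exact h w h1.isInfix

theorem gf_seg {lg : X → Prop} [DecidablePred lg] {σ : X → List A} {S d : ℕ}
    (hshort : ∀ x, ¬ lg x → (σ x).length ≤ S) : ∀ l : List (A ⊕ X), SegLe d l →
    (gf lg σ l).1.length ≤ lead l + vN l * (S + d) ∧
      ∀ r ∈ (gf lg σ l).2, r.2.length ≤ d + vN l * (S + d)
  | [], _ => by simp [gf]
  | .inl a :: l, h => by
      obtain ⟨h1, h2⟩ := gf_seg hshort l h.tail
      simp only [gf, lead, vN, List.length_cons]
      exact ⟨by omega, h2⟩
  | .inr x :: l, h => by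
      obtain ⟨h1, h2⟩ := gf_seg hshort l h.tail
      have h3 := h.tail.lead_le
      by_cases hx : lg x
      · simp only [gf, lead, vN, if_pos hx]
        refine ⟨by simp, ?_⟩
        intro r hr
        have e : (vN l + 1) * (S + d) = vN l * (S + d) + (S + d) := by ring
        rcases List.mem_cons.1 hr with hr | hr
        · rw [hr]
          show (gf lg σ l).1.length ≤ _
          omega
        · have := h2 r hr
          omega
      · simp only [gf, lead, vN, if_neg hx, List.length_append]
        have h4 := hshort x hx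
        have e : (vN l + 1) * (S + d) = vN l * (S + d) + (S + d) := by ring
        refine ⟨by omega, ?_⟩
        intro r hr
        have := h2 r hr
        omega

theorem length_gf_vN {lg : X → Prop} [DecidablePred lg] (σ : X → List A) :
    ∀ l : List (A ⊕ X), (gf lg σ l).2.length ≤ vN l
  | [] => by simp [gf]
  | .inl a :: l => by
      have := length_gf_vN (lg := lg) σ l
      simp only [gf, vN]; omega
  | .inr x :: l => by
      have := length_gf_vN (lg := lg) σ l
      by_cases hx : lg x
      · simp only [gf, vN, if_pos hx, List.length_cons]; omega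
      · simp only [gf, vN, if_neg hx]; omega

theorem length_Gp_vN {lg : X → Prop} [DecidablePred lg] {σ : X → List A} {L R : List (A ⊕ X)}
    {v : ℕ} (hv : vN L + vN R ≤ v) : (Gp lg σ L R).length ≤ v + 2 := by
  have h1 := length_gf_vN (lg := lg) σ L
  have h2 := length_gf_vN (lg := lg) σ R
  simp only [Gp, List.length_append, length_trs]
  omega

theorem mem_Gp_seg {lg : X → Prop} [DecidablePred lg] {σ : X → List A} {L R : List (A ⊕ X)}
    {v S d : ℕ} (hv : vN L + vN R ≤ v) (hL : SegLe d L) (hR : SegLe d R)
    (hshort : ∀ x, ¬ lg x → (σ x).length ≤ S) {γ : Option X × List A × Option X}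
    (h : γ ∈ Gp lg σ L R) : γ.2.1.length ≤ (v + 1) * (S + d) := by
  have key : ∀ l : List (A ⊕ X), vN l ≤ v → SegLe d l →
      γ ∈ trs none (gf lg σ l).1 (gf lg σ l).2 → γ.2.1.length ≤ (v + 1) * (S + d) := by
    intro l hl hs h1
    obtain ⟨_, h3, _⟩ := mem_trs _ _ _ γ h1
    obtain ⟨h5, h6⟩ := gf_seg hshort l hs
    have h7 : vN l * (S + d) ≤ v * (S + d) := Nat.mul_le_mul_right _ hl
    have e : (v + 1) * (S + d) = v * (S + d) + (S + d) := by ring
    have h8 := hs.lead_le
    rcases h3 with h3 | ⟨r, hr, h3⟩
    · rw [h3]; omega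
    · rw [h3]
      have := h6 r hr
      omega
  rcases List.mem_append.1 h with h | h
  · exact key L (by omega) hL h
  · exact key R (by omega) hR h

end WK
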