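import Pool.Agent.WK.Words21

/-!
# Nonperiodic windows, few exceptional gap words: the bound with a threshold

Helper file for MP_fc7ad9_lc (word equations with a fixed number of variables).
-/

set_option autoImplicit false

namespace WK

variable {A : Type*}

/-- Exponent bound with a threshold: every factor of `u` with period `q` is shorter than
`N * max q d0`. -/
def EBdd (N d0 : ℕ) (u : List A) : Prop :=
  ∀ q z, 1 ≤ q → z <:+: u → Per q z → z.length < N * max q d0

theorem EBd.toD {N : ℕ} {u : List A} (h : EBd N u) (d0 : ℕ) : EBdd N d0 u := by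
  intro q z hq hz hp
  have h1 := h q z hq hz hp
  have h2 : N * q ≤ N * max q d0 := Nat.mul_le_mul_left N (le_max_left _ _)
  omega

theorem EBdd.factor {N d0 : ℕ} {u v : List A} (h : EBdd N d0 u) (hv : v <:+: u) :
    EBdd N d0 v :=
  fun q z hq hz hp => h q z hq (hz.trans hv) hp

/-- Under the run bound every factor of length at least `N * l` has a factor of length `l` without
small periods. -/
theorem EBdd.window {N d0 l : ℕ} {u : List A} (h : EBdd N d0 u) (hd : d0 ≤ l)
    (hl : l ≤ u.length)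
    (hN : N * l ≤ u.length) :
    ∃ z, z <:+: u ∧ z.length = l ∧ ∀ p, 1 ≤ p → 2 * p < l → ¬ Per p z := by
  by_contra hc
  obtain ⟨p, h1, h2, h3⟩ := Per.windows u hl fun z hz hzl => by
    by_contra hq
    exact hc ⟨z, hz, hzl, fun p k1 k2 k3 => hq ⟨p, k1, k2, k3⟩⟩
  have h4 := h p u h1 (List.infix_refl u) h3
  have h5 : N * max p d0 ≤ N * l := Nat.mul_le_mul_left N (by omega)
  omega

theorem exists_nonperD {N d0 l : ℕ} {u : List A} (hu : EBdd N d0 u) (hd : d0 ≤ l) (hN : 1 ≤ N)
    (_hl : 1 ≤ l)
    (h : N * l ≤ u.length) :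
    ∃ a z b, u = a ++ z ++ b ∧ z.length = l ∧ ∀ p, 1 ≤ p → 2 * p < l → ¬ Per p z := by
  have h1 : 1 * l ≤ N * l := Nat.mul_le_mul_right l hN
  obtain ⟨z, ⟨a, b, hz⟩, hz2, hz3⟩ := hu.window hd (by omega) h
  exact ⟨a, z, b, hz.symm, hz2, hz3⟩

theorem two_endsD {N d0 d : ℕ} {u r z z' G G' : List A} (hr : EBdd N d0 r) (hd0 : d0 ≤ d) (h1 : r = z ++ G)
    (h2 : r = z' ++ G') (hz : z <:+ u) (hz' : z' <:+ u) (hG : G.length ≤ d) (hG' : G'.length ≤ d)
    (hl : N * d ≤ z.length) (hl' : N * d ≤ z'.length) : G = G' := by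
  wlog hle : G.length ≤ G'.length generalizing z z' G G'
  · exact (this h2 h1 hz' hz hG' hG hl' hl (by omega)).symm
  have hlen : z.length + G.length = z'.length + G'.length := by
    have a1 := congrArg List.length h1
    have a2 := congrArg List.length h2
    simp only [List.length_append] at a1 a2
    omega
  rcases hle.eq_or_lt with he | hlt
  · exact (List.append_inj' (h1.symm.trans h2) he).2
  · exfalso
    -- `z = z' ++ h`
    have hp : z' <+: z := by
      have a1 : z' <+: r := ⟨G', h2.symm⟩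
      have a2 : z <+: r := ⟨G, h1.symm⟩
      exact List.prefix_of_prefix_length_le a1 a2 (by omega)
    have hs : z' <:+ z := List.suffix_of_suffix_length_le hz' hz (by omega)
    obtain ⟨h, hh⟩ := hp
    obtain ⟨k, hk⟩ := hs
    have hper : Per h.length z := Per.border hh.symm hk.symm
    have hhl : h.length = G'.length - G.length := by
      have a1 := congrArg List.length hh
      simp only [List.length_append] at a1
      omega
    have hzr : z <:+: r := List.IsPrefix.isInfix ⟨G, h1.symm⟩
    have h3 := hr h.length z (by omega) hzr hper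
    have h4 : N * max h.length d0 ≤ N * d := Nat.mul_le_mul_left N (by omega)
    omega

/-- Core of the few exceptions lemma: three decompositions with long right parts. -/
theorem three_rightD {N d0 d l E : ℕ} {u v m : List A} (hb : EBdd N d0 m) (hd0 : d0 ≤ d)
    (hm : m.length = l) (hdE : d ≤ E) (hl : 2 * (N * ((N + 1) * d)) + d ≤ l)
    {u1 u2 u3 G1 G2 G3 v1 v2 v3 : List A}
    (e1 : m = u1 ++ G1 ++ v1) (e2 : m = u2 ++ G2 ++ v2) (e3 : m = u3 ++ G3 ++ v3)
    (hu2 : u2 <:+ u) (hu3 : u3 <:+ u)
    (hv1 : v1 <+: v) (hv2 : v2 <+: v) (hv3 : v3 <+: v)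
    (hG2 : G2.length ≤ d) (hG3 : G3.length ≤ d) (lu1 : E < u1.length)
    (r2 : l - d ≤ 2 * v2.length) (r3 : l - d ≤ 2 * v3.length)
    (h12 : v2.length < v1.length) (h23 : v3.length < v2.length) : G2 = G3 := by
  have L1 : u1.length + G1.length + v1.length = l := by rw [← hm, e1]; simp [add_assoc]
  have L2 : u2.length + G2.length + v2.length = l := by rw [← hm, e2]; simp [add_assoc]
  have L3 : u3.length + G3.length + v3.length = l := by rw [← hm, e3]; simp [add_assoc]
  -- the periods of `v1`
  have p2 : v2 <+: v1 := List.prefix_of_prefix_length_le hv2 hv1 (by omega)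
  have p3 : v3 <+: v1 := List.prefix_of_prefix_length_le hv3 hv1 (by omega)
  have s2 : v2 <:+ v1 := by
    have a1 : v2 <:+ m := ⟨u2 ++ G2, e2.symm⟩
    have a2 : v1 <:+ m := ⟨u1 ++ G1, e1.symm⟩
    exact List.suffix_of_suffix_length_le a1 a2 (by omega)
  have s3 : v3 <:+ v1 := by
    have a1 : v3 <:+ m := ⟨u3 ++ G3, e3.symm⟩
    have a2 : v1 <:+ m := ⟨u1 ++ G1, e1.symm⟩
    exact List.suffix_of_suffix_length_le a1 a2 (by omega)
  obtain ⟨y2, hy2⟩ := s2
  obtain ⟨y3, hy3⟩ := s3
  obtain ⟨b2, hb2⟩ := p2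
  obtain ⟨b3, hb3⟩ := p3
  have ly2 : y2.length + v2.length = v1.length := by rw [← hy2]; simp
  have ly3 : y3.length + v3.length = v1.length := by rw [← hy3]; simp
  have lb2 : v2.length + b2.length = v1.length := by rw [← hb2]; simp
  have lb3 : v3.length + b3.length = v1.length := by rw [← hb3]; simp
  have P2 : Per y2.length v1 := by
    have := Per.border hb2.symm hy2.symm
    rwa [show b2.length = y2.length by omega] at this
  have P3 : Per y3.length v1 := by
    have := Per.border hb3.symm hy3.symm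
    rwa [show b3.length = y3.length by omega] at this
  have P23 : Per (y3.length - y2.length) v1 := P2.sub P3 (by omega) (by omega)
  -- `y2` is a suffix of `y3`
  have hys : y3.drop (y3.length - y2.length) = y2 := by
    apply List.ext_getElem?
    intro t
    by_cases ht : t < y2.length
    · rw [List.getElem?_drop]
      have a1 : y3[y3.length - y2.length + t]? = v1[y3.length - y2.length + t]? := by
        rw [← hy3, List.getElem?_append_left (by omega)]
      have a2 : y2[t]? = v1[t]? := by
        rw [← hy2, List.getElem?_append_left ht]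
      rw [a1, a2, P23 t (by omega)]
      congr 1
      omega
    · rw [List.getElem?_eq_none (by rw [List.length_drop]; omega),
        List.getElem?_eq_none (by omega)]
  have w2 : u2 ++ G2 = (u1 ++ G1) ++ y2 := by
    have a : (u2 ++ G2) ++ v2 = ((u1 ++ G1) ++ y2) ++ v2 := by
      rw [← e2, List.append_assoc (u1 ++ G1), hy2, ← e1]
    exact List.append_cancel_right a
  have w3 : u3 ++ G3 = (u1 ++ G1) ++ y3 := by
    have a : (u3 ++ G3) ++ v3 = ((u1 ++ G1) ++ y3) ++ v3 := by
      rw [← e3, List.append_assoc (u1 ++ G1), hy3, ← e1]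
    exact List.append_cancel_right a
  have r2' : y2 <:+ u2 ++ G2 := by rw [w2]; exact List.suffix_append _ _
  have r3' : y2 <:+ u3 ++ G3 := by
    rw [w3]
    refine List.IsSuffix.trans ?_ (List.suffix_append _ _)
    rw [← hys]
    exact List.drop_suffix _ _
  -- the length of `y2`
  have hlen : v1.length < N * max y2.length d0 := by
    have := hb y2.length v1 (by omega) (List.IsSuffix.isInfix ⟨u1 ++ G1, e1.symm⟩) P2
    exact this
  have hbig : (N + 1) * d ≤ y2.length := by
    by_contra hc
    have h0 : d ≤ (N + 1) * d := Nat.le_mul_of_pos_left _ (by omega)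
    have h1 : N * max y2.length d0 ≤ N * ((N + 1) * d) := Nat.mul_le_mul_left N (by omega)
    omega
  have hNd : (N + 1) * d = N * d + d := by ring
  -- decompositions
  have key : ∀ {x G : List A}, x <:+ u → G.length ≤ d → y2 <:+ x ++ G →
      ∃ z, y2 = z ++ G ∧ z <:+ u ∧ N * d ≤ z.length := by
    intro x G hx hG hs
    obtain ⟨c, hc⟩ := hs
    have hGs : G <:+ y2 := by
      have a1 : G <:+ x ++ G := List.suffix_append _ _
      have a2 : y2 <:+ x ++ G := ⟨c, hc⟩
      exact List.suffix_of_suffix_length_le a1 a2 (by omega)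
    obtain ⟨z, hz⟩ := hGs
    refine ⟨z, hz.symm, ?_, ?_⟩
    · have a : (c ++ z) ++ G = x ++ G := by rw [List.append_assoc, hz, hc]
      have a' : c ++ z = x := List.append_cancel_right a
      exact List.IsSuffix.trans ⟨c, a'⟩ hx
    · have := congrArg List.length hz
      simp only [List.length_append] at this
      omega
  obtain ⟨z2, z2e, z2u, z2l⟩ := key hu2 hG2 r2'
  obtain ⟨z3, z3e, z3u, z3l⟩ := key hu3 hG3 r3'
  have hy2m : y2 <:+: m := by
    have a1 : y2 <+: v1 := ⟨v2, hy2⟩
    exact a1.isInfix.trans (List.IsSuffix.isInfix ⟨u1 ++ G1, e1.symm⟩)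
  exact two_endsD (hb.factor hy2m) hd0 z2e z3e z2u z3u hG2 hG3 z2l z3l

theorem exR_cardD {N d0 d l E : ℕ} {u v m : List A} (hb : EBdd N d0 m) (hd0 : d0 ≤ d)
    (hm : m.length = l) (hE : N * d ≤ E) (hdE : d ≤ E) (hl : 2 * (N * ((N + 1) * d)) + d ≤ l)
    (S : Finset (List A)) (hS : ∀ G ∈ S, ExR d l E u v m G) : S.card ≤ 2 := by
  classical
  by_contra hc
  obtain ⟨a, ha, b, hbS, c, hcc, hab, hac, hbc⟩ := Finset.two_lt_card.1 (not_le.1 hc)
  -- choice of the right parts
  have hch : ∀ G ∈ S, ∃ v' : List A, G.length ≤ d ∧ ∃ u', m = u' ++ G ++ v' ∧ u' <:+ u ∧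
      v' <+: v ∧ E < u'.length ∧ l - d ≤ 2 * v'.length := by
    intro G hG
    obtain ⟨h1, u', v', h2⟩ := hS G hG
    exact ⟨v', h1, u', h2⟩
  choose! V hV using hch
  -- different words have different lengths of the right parts
  have hne : ∀ G ∈ S, ∀ G' ∈ S, G ≠ G' → (V G).length ≠ (V G').length := by
    intro G hG G' hG' hn he
    obtain ⟨g1, u1, g2, g3, g4, g5, g6⟩ := hV G hG
    obtain ⟨g1', u1', g2', g3', g4', g5', g6'⟩ := hV G' hG'
    apply hn
    have e : (u1 ++ G) ++ V G = (u1' ++ G') ++ V G' := g2.symm.trans g2'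
    have e' := (List.append_inj' e he).1
    have hbi : EBdd N d0 (u1 ++ G) := hb.factor (List.IsPrefix.isInfix ⟨V G, g2.symm⟩)
    exact two_endsD hbi hd0 rfl e' g3 g3' g1 g1' (by omega) (by omega)
  have main : ∀ G1 ∈ S, ∀ G2 ∈ S, ∀ G3 ∈ S, (V G2).length < (V G1).length →
      (V G3).length < (V G2).length → False := by
    intro G1 h1 G2 h2 G3 h3 h12 h23
    obtain ⟨a1, u1, a2, a3, a4, a5, a6⟩ := hV G1 h1
    obtain ⟨b1, u2, b2, b3, b4, b5, b6⟩ := hV G2 h2
    obtain ⟨c1, u3, c2, c3, c4, c5, c6⟩ := hV G3 h3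
    have := three_rightD hb hd0 hm hdE hl a2 b2 c2 b3 c3 a4 b4 c4 b1 c1 a5 b6 c6 h12 h23
    rw [this] at h23
    omega
  have n1 := hne a ha b hbS hab
  have n2 := hne a ha c hcc hac
  have n3 := hne b hbS c hcc hbc
  rcases lt_or_gt_of_ne n1 with h1 | h1
  · rcases lt_or_gt_of_ne n2 with h2 | h2
    · rcases lt_or_gt_of_ne n3 with h3 | h3
      · exact main c hcc b hbS a ha h3 h1
      · exact main b hbS c hcc a ha h3 h2
    · exact main b hbS a ha c hcc h1 h2
  · rcases lt_or_gt_of_ne n2 with h2 | h2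
    · exact main c hcc a ha b hbS h2 h1
    · rcases lt_or_gt_of_ne n3 with h3 | h3
      · exact main a ha c hcc b hbS h2 h3
      · exact main a ha b hbS c hcc h1 h3

theorem EBdd.reverse {N d0 : ℕ} {u : List A} (h : EBdd N d0 u) : EBdd N d0 u.reverse := by
  intro q z hq hz hp
  have h1 : z.reverse <:+: u := by
    have := List.reverse_infix.2 hz
    rwa [List.reverse_reverse] at this
  have h2 := h q _ hq h1 hp.reverse
  rwa [List.length_reverse] at h2

/-- Few exceptions: at most four gap words `G` of length at most `d` have `m = u' ++ G ++ v'` with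
`u'` a suffix of `u`, `v'` a prefix of `v`, both longer than `E`. -/
theorem few_excD {N d0 d l E : ℕ} {u v m : List A} (hb : EBdd N d0 m) (hd0 : d0 ≤ d)
    (hm : m.length = l) (hE : N * d ≤ E) (hdE : d ≤ E) (hl : 2 * (N * ((N + 1) * d)) + d ≤ l)
    (S : Finset (List A)) (hS : ∀ G ∈ S, G.length ≤ d ∧ ∃ u' v', m = u' ++ G ++ v' ∧
      u' <:+ u ∧ v' <+: v ∧ E < u'.length ∧ E < v'.length) : S.card ≤ 4 := by
  classical
  have h1 : (S.filter (ExR d l E u v m)).card ≤ 2 :=
    exR_cardD hb hd0 hm hE hdE hl _ fun G hG => (Finset.mem_filter.1 hG).2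
  have h2 : ((S.filter fun G => ¬ ExR d l E u v m G).image List.reverse).card ≤ 2 := by
    refine exR_cardD (u := v.reverse) (v := u.reverse) (m := m.reverse) hb.reverse hd0
      (by rw [List.length_reverse]; exact hm) hE hdE hl _ ?_
    intro G' hG'
    obtain ⟨G, hG, rfl⟩ := Finset.mem_image.1 hG'
    obtain ⟨hGS, hGn⟩ := Finset.mem_filter.1 hG
    obtain ⟨g1, u', v', g2, g3, g4, g5, g6⟩ := hS G hGS
    refine ⟨by rw [List.length_reverse]; exact g1, v'.reverse, u'.reverse, ?_, ?_, ?_, ?_, ?_⟩
    · rw [g2]; simp [List.reverse_append, List.append_assoc]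
    · exact List.reverse_suffix.2 g4
    · exact List.reverse_prefix.2 g3
    · rw [List.length_reverse]; exact g6
    · rw [List.length_reverse]
      have L1 : u'.length + G.length + v'.length = l := by rw [← hm, g2]; simp [add_assoc]
      by_contra hc
      exact hGn ⟨g1, u', v', g2, g3, g4, g5, by omega⟩
  rw [Finset.card_image_of_injective _ List.reverse_injective] at h2
  have h3 := Finset.card_filter_add_card_filter_not (s := S) (ExR d l E u v m)
  omega

/-- The same with the constants of the blueprint. -/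
theorem few_gapsD {N d0 d E : ℕ} {u v m : List A} (hm : EBdd N d0 m) (hd0 : d0 ≤ d)
    (hN : 1 ≤ N)
    (hE : 2 * N * d ≤ E) (_hd : 1 ≤ d) (hl : 2 * N * (N + 1) * d + d < m.length)
    (S : Finset (List A)) (hS : ∀ G ∈ S, G.length ≤ d ∧ ∃ u' v', m = u' ++ G ++ v' ∧
      u' <:+ u ∧ v' <+: v ∧ E < u'.length ∧ E < v'.length) : S.card ≤ 4 := by
  have h1 : 1 * d ≤ N * d := Nat.mul_le_mul_right d hN
  have h2 : 2 * N * d = N * d + N * d := by ring
  have h3 : 2 * N * (N + 1) * d = 2 * (N * ((N + 1) * d)) := by ring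
  exact few_excD hm hd0 rfl (by omega) (by omega) (by omega) S hS

end WK
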