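import Pool.Agent.WK.ExpB8
import Pool.Agent.WK.Exp45P
import Pool.Agent.WK.Words66D
import Pool.Agent.WK.Seg64

/-!
# The exponent bound with a threshold, explicit in the number of variable occurrences

Helper file for MP_fc7ad9_lc (word equations with a fixed number of variables). The bound does
not depend on the number of constants, only on the longest segment of constants.
-/

set_option autoImplicit false

open WE45 WO45 WK64 WKR5

namespace WK

universe u w

/-- the number of parameters of a junction -/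
theorem forms_sum {A X : Type*} [DecidableEq A] [DecidableEq X] [Fintype X] (sh : X → Sh A) :
    ∀ (L : List (A ⊕ X)) (t : A × ((X × Bool → ℕ) × ℕ)),
    .inl t ∈ mg sh L → ∑ i, t.2.1 i ≤ vN L
  | [], t, h => by simp [mg] at h
  | .inl a :: L, t, h => by
      have ih := forms_sum sh L
      rw [mg_inl] at h
      show ∑ i, t.2.1 i ≤ vN L
      rcases mem_cmS h with h | rfl | ⟨G, hG, rfl⟩
      · exact ih t h
      · show ∑ _i : X × Bool, 0 ≤ vN L
        simp
      · have h1 := ih (a, G) hG
        refine le_trans (le_of_eq ?_) h1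
        refine Finset.sum_congr rfl fun i _ => ?_
        show 0 + G.1 i = G.1 i
        rw [zero_add]
  | .inr x :: L, t, h => by
      have ih := forms_sum sh L
      have hsingle : ∀ i : X × Bool, ∑ j, (Pi.single i 1 : X × Bool → ℕ) j = 1 := by
        intro i
        rw [Finset.sum_pi_single']
        simp
      have hcm : ∀ (a : A) (i : X × Bool),
          .inl t ∈ cmS a ((Pi.single i 1, 0) : (X × Bool → ℕ) × ℕ) (mg sh L) →
          ∑ j, t.2.1 j ≤ vN L + 1 := by
        intro a i hmem
        rcases mem_cmS hmem with h | rfl | ⟨G, hG, rfl⟩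
        · exact (ih t h).trans (Nat.le_succ _)
        · show ∑ j, (Pi.single i 1 : X × Bool → ℕ) j ≤ vN L + 1
          rw [hsingle]
          omega
        · have h1 : ∑ j, G.1 j ≤ vN L := ih (a, G) hG
          have e : ∑ j, ((Pi.single i 1 : X × Bool → ℕ) j + G.1 j) =
              1 + ∑ j, G.1 j := by
            rw [Finset.sum_add_distrib, hsingle]
          show ∑ j, ((Pi.single i 1 : X × Bool → ℕ) j + G.1 j) ≤ vN L + 1
          rw [e]
          omega
      show ∑ i, t.2.1 i ≤ vN L + 1
      cases hsh : sh x with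
      | nil =>
        rw [mg_nil hsh] at h
        exact (ih t h).trans (Nat.le_succ _)
      | one a =>
        rw [mg_one hsh] at h
        exact hcm a (x, false) h
      | two a b =>
        rw [mg_two hsh] at h
        rcases List.mem_cons.1 h with h | h
        · rw [Sum.inl.injEq] at h
          subst h
          show ∑ j, (Pi.single (x, false) 1 : X × Bool → ℕ) j ≤ vN L + 1
          rw [hsingle]
          omega
        · rcases List.mem_cons.1 h with h | h
          · cases h
          · exact hcm b (x, true) h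

/-- **exponents of a letter**, explicit form: `v` variable occurrences, `K` constants `r` -/
theorem one_letter_sum {Γ X : Type*} [DecidableEq Γ] [Fintype X] [DecidableEq X] (r : Γ)
    (v K : ℕ) (L R : List (Γ ⊕ X)) (hv : vN L + vN R ≤ v) (hK : nA r L + nA r R ≤ K)
    (τ : X → List Γ) (hτ : sb τ L = sb τ R) (x : X) (c : ℕ)
    (hc : 4 * (K + 1) * (4 * v + 4) ^ (2 * Fintype.card X) < c)
    (hfac : List.replicate c r <:+: τ x) :
    ∃ τ' : X → List Γ, sb τ' L = sb τ' R ∧ (∀ x, (τ' x).Sublist (τ x)) ∧
      ∃ x, (τ' x).length < (τ x).length := by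
  classical
  have hc1 : 1 ≤ c := Nat.lt_of_le_of_lt (Nat.zero_le _) hc
  obtain ⟨s0, t0, hst⟩ := hfac
  obtain ⟨p, hp, hcp, hpr⟩ := exists_run' (r := r) hc1 t0 s0
  rw [← List.append_assoc, hst] at hp
  set V := p.2 with hVdef
  have hV : 0 < V := by omega
  set M := 4 * v + 4 with hMdef
  set Q := M ^ (2 * Fintype.card X) with hQ
  have hVQ : 4 * (K + 1) * Q < V := lt_of_lt_of_le hc hcp
  choose sh pp ss mid hshape using fun x => exists_shape (rle (τ x))
  let θ : X × Bool → ℕ := fun i => match i with
    | (x, false) => pp x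
    | (x, true) => ss x
  have hθ : ∀ x, rle (τ x) = shp (sh x) (θ (x, false)) (θ (x, true)) (mid x) := hshape
  have hforms : ∀ F, .inl (r, F) ∈ mg sh L ++ mg sh R → ∑ i, F.1 i ≤ v ∧ F.2 ≤ K := by
    intro F hF
    rcases List.mem_append.1 hF with hF | hF
    · obtain ⟨-, f2, -⟩ := forms_mg sh L (r, F) hF
      have f1 : ∑ i, F.1 i ≤ vN L := forms_sum sh L (r, F) hF
      have f3 : F.2 ≤ nA r L := f2
      exact ⟨f1.trans (by omega), f3.trans (by omega)⟩
    · obtain ⟨-, f2, -⟩ := forms_mg sh R (r, F) hF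
      have f1 : ∑ i, F.1 i ≤ vN R := forms_sum sh R (r, F) hF
      have f3 : F.2 ≤ nA r R := f2
      exact ⟨f1.trans (by omega), f3.trans (by omega)⟩
  obtain ⟨t, ht1, htQ, a, ha⟩ := dirichlet θ V M hV (by omega)
  have hcardI : Fintype.card (X × Bool) = 2 * Fintype.card X := by
    rw [Fintype.card_prod, Fintype.card_bool, Nat.mul_comm]
  rw [hcardI, ← hQ] at htQ
  have htK : 4 * (t * (K + 1)) ≤ V := by
    calc 4 * (t * (K + 1)) ≤ 4 * (Q * (K + 1)) :=
          Nat.mul_le_mul_left _ (Nat.mul_le_mul_right _ htQ)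
      _ = 4 * (K + 1) * Q := by ring
      _ ≤ V := hVQ.le
  have htV : t ≤ V := by nlinarith
  have hrdθ : ∀ i, rd V t (θ i) = a i := by
    intro i
    refine rd_eq hV ?_
    have h1 := ha i
    have h2 : (4 : ℤ) ≤ M := by rw [hMdef]; push_cast; linarith [Int.natCast_nonneg v]
    have h3 := abs_nonneg ((t : ℤ) * θ i - a i * V)
    nlinarith
  have hJ' : ∀ F, .inl (r, F) ∈ mg sh L ++ mg sh R →
      rd V t (ev θ F) = ∑ i, F.1 i * rd V t (θ i) := by
    intro F hF
    obtain ⟨h1, h2⟩ := hforms F hF
    have e1 : ∑ i, F.1 i * rd V t (θ i) = ∑ i, F.1 i * a i :=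
      Finset.sum_congr rfl (fun i _ => by rw [hrdθ])
    rw [e1]
    refine rd_eq hV ?_
    have e2 : (t : ℤ) * ((ev θ F : ℕ) : ℤ) - ((∑ i, F.1 i * a i : ℕ) : ℤ) * V =
        ∑ i, (F.1 i : ℤ) * ((t : ℤ) * θ i - a i * V) + t * F.2 := by
      unfold ev
      push_cast
      rw [mul_add, Finset.mul_sum, Finset.sum_mul]
      have e3 : ∑ i, (F.1 i : ℤ) * ((t : ℤ) * θ i - a i * V) =
          ∑ i, (t : ℤ) * ((F.1 i : ℤ) * θ i) - ∑ i, (F.1 i : ℤ) * a i * V := by
        rw [← Finset.sum_sub_distrib]
        exact Finset.sum_congr rfl (fun i _ => by ring)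
      rw [e3]
      ring
    rw [e2]
    have h3 : |∑ i, (F.1 i : ℤ) * ((t : ℤ) * θ i - a i * V)| ≤
        ∑ i, (F.1 i : ℤ) * |(t : ℤ) * θ i - a i * V| := by
      refine (Finset.abs_sum_le_sum_abs _ _).trans ?_
      refine Finset.sum_le_sum ?_
      intro i _
      rw [abs_mul, Nat.abs_cast]
    have h4 : (M : ℤ) * ∑ i, (F.1 i : ℤ) * |(t : ℤ) * θ i - a i * V| ≤ v * V := by
      rw [Finset.mul_sum]
      calc ∑ i, (M : ℤ) * ((F.1 i : ℤ) * |(t : ℤ) * θ i - a i * V|)
          ≤ ∑ i, (F.1 i : ℤ) * V := by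
            refine Finset.sum_le_sum ?_
            intro i _
            have h5 := (ha i).le
            have h6 : (0 : ℤ) ≤ F.1 i := Int.natCast_nonneg _
            calc (M : ℤ) * ((F.1 i : ℤ) * |(t : ℤ) * θ i - a i * V|) =
                (F.1 i : ℤ) * ((M : ℤ) * |(t : ℤ) * θ i - a i * V|) := by ring
              _ ≤ (F.1 i : ℤ) * V := mul_le_mul_of_nonneg_left h5 h6
        _ = ((∑ i, F.1 i : ℕ) : ℤ) * V := by rw [← Finset.sum_mul]; push_cast; rfl
        _ ≤ v * V := by
            refine mul_le_mul_of_nonneg_right ?_ (Int.natCast_nonneg _)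
            exact_mod_cast h1
    set D := ∑ i, (F.1 i : ℤ) * |(t : ℤ) * θ i - a i * V| with hD
    have h7 : (4 : ℤ) * (t * F.2) ≤ V := by
      have h8 : 4 * (t * F.2) ≤ 4 * (t * (K + 1)) :=
        Nat.mul_le_mul_left _ (Nat.mul_le_mul_left _ (by omega))
      exact_mod_cast h8.trans htK
    have h9 : (4 : ℤ) * D < V := by
      have hV' : (0 : ℤ) < V := by exact_mod_cast hV
      have hM' : (M : ℤ) = 4 * v + 4 := by rw [hMdef]; push_cast; ring
      have hm0 : (0 : ℤ) ≤ v := Int.natCast_nonneg _
      rw [hM'] at h4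
      by_contra hcon
      push Not at hcon
      have h10 : ((4 : ℤ) * v + 4) * V ≤ ((4 : ℤ) * v + 4) * (4 * D) :=
        mul_le_mul_of_nonneg_left hcon (by linarith)
      nlinarith
    have h11 : |∑ i, (F.1 i : ℤ) * ((t : ℤ) * θ i - a i * V) + t * F.2| ≤ D + t * F.2 := by
      refine (abs_add_le _ _).trans ?_
      have h12 : |(t : ℤ) * F.2| = t * F.2 := abs_of_nonneg (by positivity)
      rw [h12]
      linarith
    linarith
  have hlow := lower_psi r L R τ hτ (rd V t) (rd_le hV htV) sh θ mid hθ hJ'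
  have hρ : ∀ q : Γ × ℕ, ((fun q : Γ × ℕ =>
      (q.1, if q.1 = r then q.2 - rd V t q.2 else q.2)) q).1 = q.1 ∧
      ((fun q : Γ × ℕ => (q.1, if q.1 = r then q.2 - rd V t q.2 else q.2)) q).2 ≤ q.2 := by
    intro q
    refine ⟨rfl, ?_⟩
    show (if q.1 = r then q.2 - rd V t q.2 else q.2) ≤ q.2
    split_ifs
    · exact Nat.sub_le _ _
    · exact le_rfl
  refine ⟨_, hlow, ?_, x, ?_⟩
  · intro y
    have h := dec_sublist _ hρ (rle (τ y))
    rw [dec_rle] at h
    exact h
  · have h := dec_length_lt _ hρ (p := p) (by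
        show (if p.1 = r then p.2 - rd V t p.2 else p.2) < p.2
        rw [if_pos hpr, ← hVdef, rd_self hV]
        omega) (rle (τ x)) hp
    rw [dec_rle] at h
    exact h

theorem nA_le_cN {Γ X : Type*} [DecidableEq Γ] (r : Γ) : ∀ S : List (Γ ⊕ X), nA r S ≤ cN S
  | [] => le_rfl
  | .inl b :: S => by
      have := nA_le_cN r S
      simp only [nA, cN]
      split_ifs <;> omega
  | .inr x :: S => by
      have := nA_le_cN r S
      simp only [nA, cN]
      exact this

section Cnt

variable {A X : Type*} {K : List A → Prop} [DecidablePred K] {σ pre mid : X → List A}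
  {lg : X → Prop} [DecidablePred lg]

/-- the variable occurrences of the block equation -/
theorem vN_spL : ∀ (L : List (A ⊕ X)) (h p : List A), vN (spL K σ pre mid lg h p L) ≤ vN L
  | [], h, p => by simp [spL, vN]
  | .inl a :: L, h, p => by
      simp only [spL]
      rw [vN_append, vN_map, zero_add]
      exact vN_spL L _ _
  | .inr x :: L, h, p => by
      simp only [spL]
      by_cases hx : lg x
      · rw [if_pos hx, vN_append, vN_map, zero_add]
        simp only [vN]
        have := vN_spL L (σ x) (sfx K pre mid x)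
        omega
      · rw [if_neg hx, vN_append, vN_map, zero_add]
        simp only [vN]
        have := vN_spL L (h ++ σ x) (pend K h p (σ x))
        omega

/-- the constant blocks of the block equation, segment by segment -/
theorem cN_spL {d c1 c2 : ℕ} (h1 : ∀ h p w : List A, w.length ≤ d → (out K h p w).length ≤ c1)
    (h2 : ∀ (h p : List A) (x : X), lg x → (out K h p (pre x)).length ≤ c2)
    (h3 : ∀ (h p : List A) (x : X), ¬ lg x → (out K h p (σ x)).length ≤ c2) :
    ∀ (L : List (A ⊕ X)) (w0 h p : List A),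
    (∀ w : List A, w.map Sum.inl <:+: (w0.map Sum.inl ++ L) → w.length ≤ d) →
    (out K h p w0).length + cN (spL K σ pre mid lg (h ++ w0) (pend K h p w0) L) ≤
      (c1 + c2) * vN L + c1 + 1
  | [], w0, h, p, hw => by
      have e1 : w0.length ≤ d := hw w0 (by rw [List.append_nil])
      have e2 := h1 h p w0 e1
      simp only [spL, cN, vN]
      omega
  | .inl a :: L, w0, h, p, hw => by
      have ih := cN_spL h1 h2 h3 L (w0 ++ [a]) h p (by
        intro w hw'
        apply hw
        simpa using hw')
      rw [out_append, pend_append, List.length_append, ← List.append_assoc] at ih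
      simp only [spL]
      rw [cN_append, cN_map]
      have e3 : vN (.inl a :: L) = vN L := rfl
      rw [e3]
      omega
  | .inr x :: L, w0, h, p, hw => by
      have e1 : w0.length ≤ d := hw w0 (List.prefix_append _ _).isInfix
      have e2 := h1 h p w0 e1
      have hw' : ∀ w : List A, w.map Sum.inl <:+: (([] : List A).map Sum.inl ++ L) →
          w.length ≤ d := by
        intro w hw'
        apply hw
        refine List.IsInfix.trans hw' ?_
        refine ⟨w0.map Sum.inl ++ [.inr x], [], ?_⟩
        simp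
      have e3 : vN (.inr x :: L) = vN L + 1 := rfl
      rw [e3, mul_add, mul_one]
      simp only [spL]
      by_cases hx : lg x
      · have ih := cN_spL h1 h2 h3 L [] (σ x) (sfx K pre mid x) hw'
        rw [out_nil, pend_nil, List.append_nil, List.length_nil, zero_add] at ih
        rw [if_pos hx, cN_append, cN_map]
        simp only [cN]
        have := h2 (h ++ w0) (pend K h p w0) x hx
        omega
      · have ih := cN_spL h1 h2 h3 L [] (h ++ w0 ++ σ x) (pend K (h ++ w0) (pend K h p w0) (σ x)) hw'
        rw [out_nil, pend_nil, List.append_nil, List.length_nil, zero_add] at ih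
        rw [if_neg hx, cN_append, cN_map]
        have := h3 (h ++ w0) (pend K h p w0) x hx
        omega

end Cnt

theorem KS.spaced' {A : Type*} {z : List A} {q l : ℕ} (hq : 1 ≤ q) (hz : Pd q z)
    (hmin : ∀ d, 1 ≤ d → d < q → ¬ Pd d z) (h2 : 2 * q ≤ l) (hl : l ≤ z.length) :
    Spaced (KS (z.take l)) q := by
  intro h t h1 h2 ht
  by_contra hlt
  have hlen : (z.take l).length = l := by rw [List.length_take]; omega
  have ht1 : 1 ≤ t.length := List.length_pos_iff.2 ht
  have h3 : Pd t.length (z.take l) := Pd.of_suffix h1 h2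
  have h4 : Pd q (z.take l) := hz.take _
  have h5 := h3.gcd h4 (by omega)
  have h6 : Nat.gcd t.length q ≤ t.length := Nat.gcd_le_left _ ht1
  have h7 : 1 ≤ Nat.gcd t.length q := Nat.gcd_pos_of_pos_left _ ht1
  exact hmin _ h7 (by omega) (hz.ext h5 hq h7 (by omega) (Nat.gcd_dvd_right _ _))

/-- few blocks in a word without an occurrence of the marker -/
theorem out_short' {A : Type*} {m : List A} {q l c : ℕ} (hS : Spaced (KS m) q) (hq : 1 ≤ q)
    (hm : m.length = l) (hc : l ≤ c * q) {v : List A} (hv : ¬ m <:+: v) (h p : List A) :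
    (out (KS m) h p v).length ≤ c := by
  have e1 : v = v.take l ++ v.drop l := (List.take_append_drop _ _).symm
  rw [e1, out_append, List.length_append]
  have h1 : (out (KS m) h p (v.take l)).length ≤ c :=
    out_len (KS m) hS hq _ _ _ (by rw [List.length_take]; omega)
  have h2 : out (KS m) (h ++ v.take l) (pend (KS m) h p (v.take l)) (v.drop l) = [] := by
    apply WKR5.out_eq_nil
    intro t w ht hne hK
    apply hv
    have e2 : 1 ≤ t.length := List.length_pos_iff.2 hne
    have e3 : t.length ≤ (v.drop l).length := by rw [ht, List.length_append]; omega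
    rw [List.length_drop] at e3
    have hK' : m <:+ h ++ (v.take l ++ t) := by
      rw [← List.append_assoc]
      exact hK
    have h3 : m <:+ v.take l ++ t :=
      List.suffix_of_suffix_length_le hK' (List.suffix_append _ _) (by
        rw [List.length_append, List.length_take]; omega)
    refine h3.isInfix.trans ?_
    have h4 : v.take l ++ t <+: v := ⟨w, by rw [List.append_assoc, ← ht, ← e1]⟩
    exact h4.isInfix
  rw [h2, List.length_nil]
  omega

/-- the blocks of a long periodic word -/
theorem rep_blocks' {A : Type*} {z : List A} {q l : ℕ} (hq : 1 ≤ q) (hz : Pd q z)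
    (hS : Spaced (KS (z.take l)) q) (hl : l + q ≤ z.length) (a b : List A) :
    ∃ r B, out (KS (z.take l)) (a ++ z.take l) [] (z.drop l ++ b) =
      List.replicate ((z.length - l) / q) r ++ B := by
  set e := (z.length - l) / q with he
  have he1 : e * q ≤ z.length - l := Nat.div_mul_le_self _ _
  have hzd : Pd q (z.drop l) := hz.drop _
  have hld : (z.drop l).length = z.length - l := List.length_drop
  have hrl : ((z.drop l).take q).length = q := by rw [List.length_take, hld]; omega
  have e1 : z.drop l = (List.replicate e ((z.drop l).take q)).flatten ++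
      (z.drop l).drop (e * q) := by
    rw [← hzd.rep e (by rw [hld]; exact he1), List.take_append_drop]
  have hK : ∀ i, i ≤ e → KS (z.take l) (a ++ z.take l ++
      (List.replicate i ((z.drop l).take q)).flatten) := by
    intro i hi
    have hi1 : i * q ≤ e * q := Nat.mul_le_mul_right q hi
    rw [← hzd.rep i (by rw [hld]; omega), List.append_assoc, ← List.take_add]
    have h1 : Pd (i * q) z := Per.mul (q := q) hz i
    have h2 : z.take (l + i * q) = z.take (i * q) ++ (z.drop (i * q)).take l := by
      rw [add_comm, List.take_add]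
    have h3 : (z.drop (i * q)).take l = z.take l := by
      rw [h1.drop_prefix, List.take_take, Nat.min_eq_left (by omega)]
    rw [h2, h3, ← List.append_assoc]
    exact List.suffix_append _ _
  refine ⟨(z.drop l).take q, out (KS (z.take l))
    (a ++ z.take l ++ (List.replicate e ((z.drop l).take q)).flatten)
    (pend (KS (z.take l)) (a ++ z.take l) []
      (List.replicate e ((z.drop l).take q)).flatten)
    ((z.drop l).drop (e * q) ++ b), ?_⟩
  conv_lhs => rw [e1]
  rw [List.append_assoc, out_append, out_rep _ hS hq _ hrl e _ hK]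

/-- the step for the least period -/
theorem exp_coreD {A X : Type*} [Fintype X] [DecidableEq X] {v d D T : ℕ}
    {L R : List (A ⊕ X)} (hv : vN L + vN R ≤ v)
    (hd : ∀ w : List A, w.map Sum.inl <:+: L ∨ w.map Sum.inl <:+: R → w.length ≤ d)
    {σ : X → List A} (hmin : MinSol L R σ) {x0 : X} {z : List A} (hz : z <:+: σ x0)
    {q : ℕ} (hq : 1 ≤ q) (hp : Pd q z) (hqm : ∀ d, 1 ≤ d → d < q → ¬ Pd d z)
    (hqD : q ≤ D) (hdD : d ≤ D) (hT : 1 ≤ T) (hDT : D ≤ T * q) (hl : 2 * D + q ≤ z.length)
    (hlen : 20 * T * (v + 1) * (4 * v + 4) ^ (2 * Fintype.card X) < (z.length - 2 * D) / q) :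
    False := by
  classical
  set m := z.take (2 * D) with hm
  have hml : m.length = 2 * D := by rw [hm, List.length_take]; omega
  have hS : Spaced (KS m) q := KS.spaced' hq hp hqm (by omega) (by omega)
  have hm0 : m ≠ [] := by
    intro h
    rw [h, List.length_nil] at hml
    omega
  have hch : ∀ x : X, ∃ t r, m <:+: σ x → (σ x = t ++ r ∧ m <:+ t ∧
      ∀ t', t' <+: t → t' ≠ t → ¬ m <:+: t') := by
    intro x
    by_cases hx : m <:+: σ x
    · obtain ⟨t, r, h⟩ := exists_first hx
      exact ⟨t, r, fun _ => h⟩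
    · exact ⟨[], [], fun h => absurd h hx⟩
  choose pre mid hpm using hch
  set lg : X → Prop := fun x => m <:+: σ x with hlg
  have hC : Cut (KS m) (2 * D) σ pre mid lg := by
    refine ⟨?_, by omega, ?_, ?_, ?_⟩
    · rw [← hml]; exact KS.loc m
    · intro x hx; exact (hpm x hx).1
    · intro x hx
      have := (hpm x hx).2.1.length_le
      omega
    · intro x hx; exact (hpm x hx).2.1
  -- block counts
  have hT2 : 2 * D ≤ (2 * T) * q := by
    have : 2 * T * q = 2 * (T * q) := by ring
    omega
  have hc1 : ∀ (h p w : List A), w.length ≤ d → (out (KS m) h p w).length ≤ T := by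
    intro h p w hw
    exact out_len (KS m) hS hq _ _ _ (by omega)
  have hc2 : ∀ (h p : List A) (x : X), lg x → (out (KS m) h p (pre x)).length ≤ 2 * T + 1 := by
    intro h p x hx
    obtain ⟨h1, h2, h3⟩ := hpm x hx
    have hne : pre x ≠ [] := by
      intro h0
      rw [h0] at h2
      exact hm0 (List.suffix_nil.1 h2)
    have e1 : pre x = (pre x).dropLast ++ [(pre x).getLast hne] :=
      (List.dropLast_append_getLast hne).symm
    have hv : ¬ m <:+: (pre x).dropLast := by
      apply h3
      · exact List.dropLast_prefix _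
      · intro h4
        have := congrArg List.length h4
        rw [List.length_dropLast] at this
        have := List.length_pos_iff.2 hne
        omega
    have h5 := out_short' hS hq hml hT2 hv h p
    have h6 := out_len (KS m) (c := 1) hS hq [(pre x).getLast hne] (h ++ (pre x).dropLast)
      (pend (KS m) h p (pre x).dropLast) (by rw [List.length_singleton]; omega)
    rw [e1, out_append, List.length_append]
    omega
  have hc3 : ∀ (h p : List A) (x : X), ¬ lg x → (out (KS m) h p (σ x)).length ≤ 2 * T + 1 := by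
    intro h p x hx
    have := out_short' hS hq hml hT2 hx h p
    omega
  have hLc := cN_spL (K := KS m) (σ := σ) (pre := pre) (mid := mid) (lg := lg)
    hc1 hc2 hc3 L [] [] [] (fun w hw => hd w (Or.inl (by simpa using hw)))
  have hRc := cN_spL (K := KS m) (σ := σ) (pre := pre) (mid := mid) (lg := lg)
    hc1 hc2 hc3 R [] [] [] (fun w hw => hd w (Or.inr (by simpa using hw)))
  rw [out_nil, pend_nil, List.append_nil, List.length_nil, zero_add] at hLc hRc
  have hLv := vN_spL (K := KS m) (σ := σ) (pre := pre) (mid := mid) (lg := lg) L [] []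
  have hRv := vN_spL (K := KS m) (σ := σ) (pre := pre) (mid := mid) (lg := lg) R [] []
  have heq : sb (tauL (KS m) pre mid lg) (spL (KS m) σ pre mid lg [] [] L) =
      sb (tauL (KS m) pre mid lg) (spL (KS m) σ pre mid lg [] [] R) := by
    rw [sb_spL hC, sb_spL hC, hmin.1]
  -- the long run
  have hrun : ∃ r, List.replicate ((z.length - 2 * D) / q) r <:+:
      tauL (KS m) pre mid lg x0 := by
    have hmz : m <+: z := List.take_prefix _ _
    have hx0 : lg x0 := hmz.isInfix.trans hz
    obtain ⟨h1, h2, h3⟩ := hpm x0 hx0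
    obtain ⟨a, b, hab⟩ := hz
    have hzs : z = m ++ z.drop (2 * D) := (List.take_append_drop _ _).symm
    have e1 : σ x0 = (a ++ m) ++ (z.drop (2 * D) ++ b) := by
      rw [← hab]
      conv_lhs => rw [hzs]
      simp only [List.append_assoc]
    have hpa : pre x0 <+: a ++ m := by
      have p1 : pre x0 <+: σ x0 := ⟨mid x0, h1.symm⟩
      have p2 : a ++ m <+: σ x0 := ⟨_, e1.symm⟩
      rcases List.prefix_or_prefix_of_prefix p1 p2 with h | h
      · exact h
      · by_cases h4 : a ++ m = pre x0
        · rw [h4]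
        · exact absurd (List.suffix_append a m).isInfix (h3 _ h h4)
    obtain ⟨u, hu⟩ := hpa
    have hmid : mid x0 = u ++ (z.drop (2 * D) ++ b) := by
      have e2 : pre x0 ++ mid x0 = pre x0 ++ (u ++ (z.drop (2 * D) ++ b)) := by
        rw [← h1, e1, ← hu, List.append_assoc]
      exact List.append_cancel_left e2
    obtain ⟨r, B, hB⟩ := rep_blocks' hq hp hS hl a b
    refine ⟨r, ?_⟩
    have hpend : pend (KS m) (pre x0) [] u = [] := by
      by_cases hu0 : u = []
      · rw [hu0]; rfl
      · apply pend_of_K _ _ hu0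
        rw [hu]
        exact List.suffix_append a m
    have e3 : tauL (KS m) pre mid lg x0 = out (KS m) (pre x0) [] u ++
        (List.replicate ((z.length - 2 * D) / q) r ++ B) := by
      rw [← hB, ← hu]
      simp only [tauL, if_pos hx0, tau]
      rw [hmid, out_append, hpend]
    rw [e3]
    exact ⟨_, B, by rw [List.append_assoc]⟩
  obtain ⟨r, hr⟩ := hrun
  have hnL := nA_le_cN r (spL (KS m) σ pre mid lg [] [] L)
  have hnR := nA_le_cN r (spL (KS m) σ pre mid lg [] [] R)
  have hK : nA r (spL (KS m) σ pre mid lg [] [] L) + nA r (spL (KS m) σ pre mid lg [] [] R) ≤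
      (T + (2 * T + 1)) * v + 2 * (T + 1) := by
    have : (T + (2 * T + 1)) * (vN L + vN R) ≤ (T + (2 * T + 1)) * v :=
      Nat.mul_le_mul_left _ hv
    rw [mul_add] at this
    omega
  have hK1 : 4 * ((T + (2 * T + 1)) * v + 2 * (T + 1) + 1) *
      (4 * v + 4) ^ (2 * Fintype.card X) < (z.length - 2 * D) / q := by
    refine lt_of_le_of_lt ?_ hlen
    refine Nat.mul_le_mul_right _ ?_
    nlinarith
  obtain ⟨τ', t1, t2, t3⟩ := one_letter_sum r v _ _ _ (by omega) hK _ heq x0 _ hK1 hr
  exact no_shorter hmin hC τ' t1 t2 t3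

/-- **exponent bound with a threshold**, explicit form -/
theorem exp_boundD' {A X : Type*} [Fintype X] [DecidableEq X] (k v d : ℕ)
    (L R : List (A ⊕ X)) (hX : Fintype.card X ≤ k) (hv : vN L + vN R ≤ v)
    (hd : ∀ w : List A, w.map Sum.inl <:+: L ∨ w.map Sum.inl <:+: R → w.length ≤ d)
    (σ : X → List A) (hmin : MinSol L R σ) (x : X) :
    EBdd (10 * (4 * v + 4) ^ (2 * k + 1) + 3) d (σ x) := by
  classical
  intro q' z hq' hz hp'
  by_contra hlen
  push Not at hlen
  -- least period
  have hex : ∃ e, 1 ≤ e ∧ Pd e z := ⟨q', hq', hp'⟩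
  set q := Nat.find hex with hqdef
  obtain ⟨hq, hp⟩ : 1 ≤ q ∧ Pd q z := Nat.find_spec hex
  have hqm : ∀ e, 1 ≤ e → e < q → ¬ Pd e z := fun e he1 he2 he3 =>
    Nat.find_min hex he2 ⟨he1, he3⟩
  have hqq : q ≤ q' := Nat.find_min' hex ⟨hq', hp'⟩
  set D := max q d with hD
  have hqD : q ≤ D := le_max_left _ _
  have hdD : d ≤ D := le_max_right _ _
  have hDD : D ≤ max q' d := max_le_max hqq le_rfl
  set T := D / q + 1 with hT
  have hDT : D ≤ T * q := by
    rw [hT, add_mul, one_mul]
    have := Nat.div_add_mod D q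
    have := Nat.mod_lt D hq
    have : q * (D / q) = D / q * q := Nat.mul_comm _ _
    omega
  have hTq : T * q ≤ 2 * D := by
    rw [hT, add_mul, one_mul]
    have := Nat.div_mul_le_self D q
    omega
  set P := (4 * v + 4) ^ (2 * k + 1) with hP
  have h1 : (10 * P + 3) * D ≤ z.length := le_trans (Nat.mul_le_mul_left _ hDD) hlen
  have h2 : (10 * P + 3) * D = 10 * (P * D) + 3 * D := by ring
  have h3 : (5 * T * P + 1) * q ≤ z.length - 2 * D := by
    have e1 : (5 * T * P + 1) * q = 5 * P * (T * q) + q := by ring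
    have e2 : 5 * P * (T * q) ≤ 5 * P * (2 * D) := Nat.mul_le_mul_left _ hTq
    have e3 : 5 * P * (2 * D) = 10 * (P * D) := by ring
    omega
  have h4 : 5 * T * P + 1 ≤ (z.length - 2 * D) / q := by
    rw [Nat.le_div_iff_mul_le (by omega)]
    exact h3
  have h5 : 20 * T * (v + 1) * (4 * v + 4) ^ (2 * Fintype.card X) ≤ 5 * T * P := by
    have e1 : (4 * v + 4) ^ (2 * Fintype.card X) ≤ (4 * v + 4) ^ (2 * k) :=
      Nat.pow_le_pow_right (by omega) (by omega)
    calc 20 * T * (v + 1) * (4 * v + 4) ^ (2 * Fintype.card X)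
        ≤ 20 * T * (v + 1) * (4 * v + 4) ^ (2 * k) := Nat.mul_le_mul_left _ e1
      _ = 5 * T * ((4 * v + 4) ^ (2 * k) * (4 * v + 4)) := by ring
      _ = 5 * T * P := by rw [hP, pow_succ]
  have hT1 : 1 ≤ T := Nat.le_add_left 1 _
  have h6 : 2 * D + q ≤ z.length := by
    have : 3 * D ≤ (10 * P + 3) * D := by rw [h2]; exact Nat.le_add_left _ _
    omega
  exact exp_coreD (D := D) (T := T) hv hd hmin hz hq hp hqm hqD hdD hT1 hDT h6
    (lt_of_le_of_lt h5 (Nat.lt_of_succ_le h4))

/-- **exponent bound with a threshold** -/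
theorem exp_boundD : ∃ C : ℕ, ∀ {A : Type u} {X : Type w} [Fintype X] [DecidableEq X]
    (k v d : ℕ) (L R : List (A ⊕ X)), Fintype.card X ≤ k → vN L + vN R ≤ v → 1 ≤ d →
    SegLe d L → SegLe d R → ∀ σ : X → List A, MinSol L R σ →
    ∀ x, EBdd ((v + 2) ^ (C * (k + 1))) d (σ x) := by
  refine ⟨6, ?_⟩
  intro A X _ _ k v d L R hX hv _ hL hR σ hmin x q z hq hz hp
  have hd : ∀ w : List A, w.map Sum.inl <:+: L ∨ w.map Sum.inl <:+: R → w.length ≤ d := by
    rintro w (h | h)
    · exact hL w h
    · exact hR w h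
  have h1 := exp_boundD' k v d L R hX hv hd σ hmin x q z hq hz hp
  refine lt_of_lt_of_le h1 (Nat.mul_le_mul_right _ ?_)
  have e1 : 4 * v + 4 ≤ (v + 2) ^ 2 := by nlinarith [Nat.zero_le (v * v)]
  have e2 : (4 * v + 4) ^ (2 * k + 1) ≤ (v + 2) ^ (2 * (2 * k + 1)) := by
    rw [pow_mul]
    exact Nat.pow_le_pow_left e1 _
  have e3 : 1 ≤ (v + 2) ^ (2 * (2 * k + 1)) := Nat.one_le_pow _ _ (by omega)
  have e4 : 16 ≤ (v + 2) ^ 4 := by
    have : 2 ^ 4 ≤ (v + 2) ^ 4 := Nat.pow_le_pow_left (by omega) 4
    omega
  calc 10 * (4 * v + 4) ^ (2 * k + 1) + 3 ≤ 16 * (v + 2) ^ (2 * (2 * k + 1)) := by omega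
    _ ≤ (v + 2) ^ 4 * (v + 2) ^ (2 * (2 * k + 1)) := Nat.mul_le_mul_right _ e4
    _ = (v + 2) ^ (4 + 2 * (2 * k + 1)) := by rw [pow_add]
    _ ≤ (v + 2) ^ (6 * (k + 1)) := Nat.pow_le_pow_right (by omega) (by omega)

end WK
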