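import Mathlib

/-! Row U8 of P15 (MP_fc7ad9_lc): the ladder of scales with a base rung `b`. -/

namespace WK

theorem ladB_mono (F : ℕ → ℕ) (hF : ∀ S, S ≤ F S) (b : ℕ) : Monotone fun i => F^[i] b := by
  refine monotone_nat_of_le_succ fun i => ?_
  show F^[i] b ≤ F^[i + 1] b
  rw [Function.iterate_succ_apply']
  exact hF _

theorem ladB_base (F : ℕ → ℕ) (hF : ∀ S, S ≤ F S) (b i : ℕ) : b ≤ F^[i] b :=
  ladB_mono F hF b (Nat.zero_le i)

/-- The ladder with base rung `b`. -/
theorem ladder_base {X : Type*} [Fintype X] {k : ℕ} (hk : Fintype.card X ≤ k) (F : ℕ → ℕ)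
    (hF : ∀ S, S ≤ F S) (b : ℕ) (len : X → ℕ)
    (h : ∀ S, b ≤ S → (∀ x, len x ≤ S ∨ F S ≤ len x) → (∃ x, S < len x) → False) :
    ∀ x, len x ≤ F^[k] b := by
  intro x
  by_contra hx
  push Not at hx
  have hm := ladB_mono F hF b
  have key : ∀ i : Fin (k + 1), ∃ y, F^[(i : ℕ)] b < len y ∧ len y < F^[(i : ℕ) + 1] b := by
    intro i
    by_contra hc
    push Not at hc
    refine h (F^[(i : ℕ)] b) (ladB_base F hF b i) (fun y => ?_)
      ⟨x, lt_of_le_of_lt (hm (Nat.lt_succ_iff.1 i.2)) hx⟩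
    rcases le_or_gt (len y) (F^[(i : ℕ)] b) with hy | hy
    · exact Or.inl hy
    · refine Or.inr ?_
      have := hc y hy
      rwa [Function.iterate_succ_apply'] at this
  choose y hy1 hy2 using key
  have hinj : Function.Injective y := by
    intro i j hij
    by_contra hne
    rcases lt_or_gt_of_ne hne with hlt | hlt
    · have h1 := hy2 i
      have h2 := hy1 j
      have h3 : F^[(i : ℕ) + 1] b ≤ F^[(j : ℕ)] b := hm (by exact_mod_cast hlt)
      rw [hij] at h1
      omega
    · have h1 := hy2 j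
      have h2 := hy1 i
      have h3 : F^[(j : ℕ) + 1] b ≤ F^[(i : ℕ)] b := hm (by exact_mod_cast hlt)
      rw [hij] at h2
      omega
  have hc := Fintype.card_le_of_injective y hinj
  rw [Fintype.card_fin] at hc
  omega

/-- The sum form of the ladder. -/
theorem ladder_base_sum {X : Type*} [Fintype X] {k : ℕ} (hk : Fintype.card X ≤ k)
    (F : ℕ → ℕ) (hF : ∀ S, S ≤ F S) (b : ℕ) (len : X → ℕ)
    (h : ∀ S, b ≤ S → (∀ x, len x ≤ S ∨ F S ≤ len x) → (∃ x, S < len x) → False) :
    ∑ x, len x ≤ k * F^[k] b := by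
  calc ∑ x, len x ≤ ∑ _x : X, F^[k] b :=
        Finset.sum_le_sum fun x _ => ladder_base hk F hF b len h x
    _ = Fintype.card X * F^[k] b := by
        rw [Finset.sum_const, Finset.card_univ, smul_eq_mul]
    _ ≤ k * F^[k] b := Nat.mul_le_mul_right _ hk

/-- Linear steps from the base rung. -/
theorem ladder_lin_base (A D b : ℕ) (hA : 1 ≤ A) (k : ℕ) :
    (fun S => A * (S + D))^[k] b ≤ (2 * A) ^ k * (b + D) := by
  have key : ∀ k : ℕ, (fun S => A * (S + D))^[k] b ≤ A ^ k * (b + k * D) := by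
    intro k
    induction k with
    | zero => simp
    | succ k ih =>
      rw [Function.iterate_succ_apply']
      calc A * ((fun S => A * (S + D))^[k] b + D)
          ≤ A * (A ^ k * (b + k * D) + D) :=
            Nat.mul_le_mul_left _ (Nat.add_le_add_right ih D)
        _ ≤ A * (A ^ k * (b + k * D) + A ^ k * D) := by
            refine Nat.mul_le_mul_left _ (Nat.add_le_add_left ?_ _)
            exact Nat.le_mul_of_pos_left _ (Nat.pow_pos hA)
        _ = A ^ (k + 1) * (b + (k + 1) * D) := by ring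
  refine (key k).trans ?_
  rw [mul_pow, mul_comm (2 ^ k), mul_assoc]
  refine Nat.mul_le_mul_left _ ?_
  have h1 : k ≤ 2 ^ k := Nat.lt_two_pow_self.le
  have h2 : 1 ≤ 2 ^ k := Nat.one_le_two_pow
  calc b + k * D ≤ 2 ^ k * b + 2 ^ k * D :=
        Nat.add_le_add (Nat.le_mul_of_pos_left _ h2) (Nat.mul_le_mul_right _ h1)
    _ = 2 ^ k * (b + D) := by ring

/-- Rungs are monotone in the step function. -/
theorem ladder_le_base (F G : ℕ → ℕ) (hG : Monotone G) (hFG : ∀ S, F S ≤ G S) (b k : ℕ) :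
    F^[k] b ≤ G^[k] b := by
  induction k with
  | zero => exact le_refl _
  | succ k ih =>
    rw [Function.iterate_succ_apply', Function.iterate_succ_apply']
    exact (hFG _).trans (hG ih)

end WK
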