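import Mathlib

/-!
# Word equations with a fixed number of variables: the code lemma (helper50)

Few equality patterns between the blocks of a family of parses.
-/

set_option autoImplicit false

namespace Pool.Agent.WK

open Finset

/-- A finite set with at most `e` elements inside `T` is listed by `Fin e → T`. -/
theorem enum50 {α : Type*} [DecidableEq α] (S T : Finset α) (hST : S ⊆ T) (hT : T.Nonempty)
    (e : ℕ) (he : S.card ≤ e) :
    ∃ g : Fin e → α, (∀ c, g c ∈ T) ∧ ∀ x ∈ S, ∃ c, g c = x := by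
  obtain ⟨t0, ht0⟩ := hT
  refine ⟨fun c => if h : c.1 < S.card then (S.equivFin.symm ⟨c.1, h⟩).1 else t0, ?_, ?_⟩
  · intro c
    dsimp only
    split_ifs with h
    · exact hST (S.equivFin.symm ⟨c.1, h⟩).2
    · exact ht0
  · intro x hx
    refine ⟨⟨(S.equivFin ⟨x, hx⟩).1, lt_of_lt_of_le (S.equivFin ⟨x, hx⟩).2 he⟩, ?_⟩
    dsimp only
    rw [dif_pos (S.equivFin ⟨x, hx⟩).2]
    simp

/-- The vanishing pattern of a vector on a finite set of functionals is determined by few of
them. -/
theorem code50_basis {κ : Type*} [Fintype κ] [DecidableEq κ] (D : Finset (κ → ℚ)) (v : κ → ℚ) :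
    ∃ g : Fin (Fintype.card κ) → (κ → ℚ), (∀ a, g a ∈ insert 0 D) ∧
      ∀ d ∈ D, (d ⬝ᵥ v = 0 ↔ d ∈ Submodule.span ℚ (Set.range g)) := by
  classical
  obtain ⟨b, hb1, hb2, hb3⟩ := exists_linearIndependent ℚ {d : κ → ℚ | d ∈ D ∧ d ⬝ᵥ v = 0}
  have hfin : b.Finite := D.finite_toSet.subset (fun d hd => (hb1 hd).1)
  have : Fintype b := hfin.fintype
  have hcard : Fintype.card b ≤ Fintype.card κ := by
    have h1 := hb3.fintype_card_le_finrank
    rwa [Module.finrank_fintype_fun_eq_card] at h1
  have hcard2 : b.toFinset.card ≤ Fintype.card κ := by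
    rwa [Set.toFinset_card]
  obtain ⟨g, hg1, hg2⟩ := enum50 b.toFinset (insert 0 D)
    (fun d hd => Finset.mem_insert_of_mem (hb1 (Set.mem_toFinset.1 hd)).1)
    (Finset.insert_nonempty 0 D) _ hcard2
  -- the code must vanish at `v`: replace the elements outside `b` by `0`
  refine ⟨fun a => if g a ∈ b then g a else 0, ?_, ?_⟩
  · intro a
    dsimp only
    split_ifs
    · exact hg1 a
    · exact Finset.mem_insert_self 0 D
  · have hspan : Submodule.span ℚ (Set.range (fun a => if g a ∈ b then g a else 0))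
        = Submodule.span ℚ b := by
      apply le_antisymm
      · rw [Submodule.span_le]
        rintro _ ⟨a, rfl⟩
        dsimp only
        split_ifs with h
        · exact Submodule.subset_span h
        · exact Submodule.zero_mem _
      · rw [Submodule.span_le]
        intro x hx
        obtain ⟨c, hc⟩ := hg2 x (Set.mem_toFinset.2 hx)
        apply Submodule.subset_span
        refine ⟨c, ?_⟩
        dsimp only
        rw [hc, if_pos hx]
    intro d hd
    rw [hspan, hb2]
    constructor
    · intro h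
      exact Submodule.subset_span ⟨hd, h⟩
    · intro h
      have hle : Submodule.span ℚ {d : κ → ℚ | d ∈ D ∧ d ⬝ᵥ v = 0} ≤
          LinearMap.ker (dotProductBilin (R := ℚ) (S := ℚ) (A := ℚ) (m := κ) |>.flip v) := by
        rw [Submodule.span_le]
        intro x hx
        simpa using hx.2
      have := hle h
      simpa using this

/-- A code of the vanishing pattern. -/
theorem code50_lin {κ : Type*} [Fintype κ] [DecidableEq κ] {ι : Type*} (D : Finset (κ → ℚ))
    (v : ι → κ → ℚ) :
    ∃ f : ι → (Fin (Fintype.card κ) → (κ → ℚ)),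
      (∀ i, f i ∈ Fintype.piFinset (fun _ => insert 0 D)) ∧
      ∀ i j, f i = f j → ∀ d ∈ D, (d ⬝ᵥ v i = 0 ↔ d ⬝ᵥ v j = 0) := by
  choose f h1 h2 using fun i => code50_basis D (v i)
  refine ⟨f, fun i => Fintype.mem_piFinset.2 (h1 i), ?_⟩
  intro i j hij d hd
  rw [h2 i d hd, h2 j d hd, hij]

/-- Value of a word. -/
def val50 {A : Type*} (e : A → ℕ) (q : ℕ) (w : List A) : ℕ := Nat.ofDigits q (w.map e)

theorem val50_append {A : Type*} (e : A → ℕ) (q : ℕ) (u w : List A) :
    val50 e q (u ++ w) = val50 e q u + q ^ u.length * val50 e q w := by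
  unfold val50
  rw [List.map_append, Nat.ofDigits_append, List.length_map]

theorem val50_inj {A : Type*} (e : A → ℕ) (q : ℕ) (hq : 1 < q) (he : Function.Injective e)
    (h1 : ∀ a, 1 ≤ e a) (h2 : ∀ a, e a < q) {u w : List A} (h : val50 e q u = val50 e q w) :
    u = w := by
  have key : ∀ l : List A, Nat.digits q (val50 e q l) = l.map e := by
    intro l
    unfold val50
    refine Nat.digits_ofDigits q hq _ ?_ ?_
    · intro x hx
      obtain ⟨a, _, rfl⟩ := List.mem_map.1 hx
      exact h2 a
    · intro hne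
      obtain ⟨a, _, ha⟩ := List.mem_map.1 (List.getLast_mem hne)
      rw [← ha]
      have := h1 a
      omega
  have h3 : u.map e = w.map e := by rw [← key u, ← key w, h]
  exact (List.map_injective_iff.2 he) h3

/-- From equality patterns to a map of blocks. -/
theorem phi50 {T B : Type*} (TT : Finset T) (b b' : T → List B) (d : B)
    (hlen : ∀ γ ∈ TT, (b γ).length = (b' γ).length)
    (h : ∀ γ ∈ TT, ∀ γ' ∈ TT, ∀ a a', a < (b γ).length → a' < (b γ').length →
      (b γ).getD a d = (b γ').getD a' d → (b' γ).getD a d = (b' γ').getD a' d) :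
    ∃ φ : B → B, (∀ γ ∈ TT, (b γ).map φ = b' γ) ∧ ∀ B, (φ B = d ∨ ∃ γ ∈ TT, φ B ∈ b' γ) := by
  classical
  let φ : B → B := fun x =>
    if hx : ∃ γ, γ ∈ TT ∧ ∃ a, a < (b γ).length ∧ (b γ).getD a d = x then
      (b' hx.choose).getD hx.choose_spec.2.choose d else d
  refine ⟨φ, ?_, ?_⟩
  · intro γ hγ
    apply List.ext_getElem
    · rw [List.length_map, hlen γ hγ]
    · intro a h1 h2
      rw [List.getElem_map]
      have h3 : a < (b γ).length := by rwa [List.length_map] at h1
      have hx : ∃ γ', γ' ∈ TT ∧ ∃ a', a' < (b γ').length ∧ (b γ').getD a' d = (b γ)[a] :=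
        ⟨γ, hγ, a, h3, by rw [List.getD_eq_getElem _ _ h3]⟩
      have h4 : φ ((b γ)[a]) = (b' hx.choose).getD hx.choose_spec.2.choose d := dif_pos hx
      have h5 := hx.choose_spec.2.choose_spec
      have h6 := h _ hx.choose_spec.1 γ hγ _ a h5.1 h3
        (by rw [h5.2, List.getD_eq_getElem _ _ h3])
      rw [h4, h6, List.getD_eq_getElem _ _ h2]
  · intro x
    by_cases hx : ∃ γ, γ ∈ TT ∧ ∃ a, a < (b γ).length ∧ (b γ).getD a d = x
    · right
      have h4 : φ x = (b' hx.choose).getD hx.choose_spec.2.choose d := dif_pos hx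
      refine ⟨hx.choose, hx.choose_spec.1, ?_⟩
      have h5 := hx.choose_spec.2.choose_spec
      have h6 : hx.choose_spec.2.choose < (b' hx.choose).length := by
        rw [← hlen _ hx.choose_spec.1]
        exact h5.1
      rw [h4, List.getD_eq_getElem _ _ h6]
      exact List.getElem_mem _
    · left
      exact dif_neg hx

/-! ### The code -/

section Main

variable {A O : Type*} (en : A → ℕ) (q e β : ℕ)

/-- Coordinates. -/
abbrev Kp50 (O : Type*) (e β : ℕ) : Type _ := (O × O × Fin 3) ⊕ (Fin e × Fin β)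

/-- The scale dependent vector. -/
def vec50 (s p : O → List A) (bx : Fin e → List (List A)) : Kp50 O e β → ℚ :=
  Sum.elim (fun x => if x.2.2 = 0 then (val50 en q (s x.1) : ℚ)
      else if x.2.2 = 1 then (q : ℚ) ^ (s x.1).length
      else (q : ℚ) ^ (s x.1).length * (val50 en q (p x.2.1) : ℚ))
    (fun x => (val50 en q ((bx x.1).getD x.2.1 []) : ℚ))

variable [DecidableEq O]

/-- Coefficients of the only block of a triple. -/
def cN50 (γ : O × List A × O) : Kp50 O e β → ℚ :=
  Pi.single (Sum.inl (γ.1, γ.2.2, 0)) 1 +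
    Pi.single (Sum.inl (γ.1, γ.2.2, 1)) (val50 en q γ.2.1 : ℚ) +
    Pi.single (Sum.inl (γ.1, γ.2.2, 2)) ((q : ℚ) ^ γ.2.1.length)

/-- Coefficients of a listed block. -/
def cU50 (x : Fin e × Fin β) : Kp50 O e β → ℚ := Pi.single (Sum.inr x) 1

variable [Fintype O]

theorem dot_cN50 (s p : O → List A) (bx : Fin e → List (List A)) (γ : O × List A × O) :
    cN50 en q e β γ ⬝ᵥ vec50 en q e β s p bx =
      (val50 en q (s γ.1 ++ γ.2.1 ++ p γ.2.2) : ℚ) := by
  unfold cN50
  rw [add_dotProduct, add_dotProduct, single_dotProduct, single_dotProduct, single_dotProduct]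
  simp only [vec50, Sum.elim_inl]
  rw [val50_append, val50_append]
  simp only [List.length_append]
  push_cast
  ring

theorem dot_cU50 (s p : O → List A) (bx : Fin e → List (List A)) (x : Fin e × Fin β) :
    (cU50 e β x : Kp50 O e β → ℚ) ⬝ᵥ vec50 en q e β s p bx =
      (val50 en q ((bx x.1).getD x.2.1 []) : ℚ) := by
  unfold cU50
  rw [single_dotProduct]
  simp [vec50]

end Main

open Classical in
/-- Coefficients of block `a` of the triple `γ`, when the triples `ex c` are listed. -/
noncomputable def cf50 {A O : Type*} (en : A → ℕ) (q e β : ℕ) (ex : Fin e → O × List A × O)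
    (γ : O × List A × O) (a : ℕ) : Kp50 O e β → ℚ :=
  if h : ∃ c, ex c = γ then
    (if ha : a < β then cU50 e β (h.choose, ⟨a, ha⟩) else 0)
  else cN50 en q e β γ

/-- **The code lemma.**  In a large family of parses two have the same equality pattern of
blocks. -/
theorem code50_ne {A O : Type*} [Fintype A] [Fintype O] {ι : Type*}
    (TT : Finset (O × List A × O)) (I : Finset ι) (s p : ι → O → List A)
    (b : ι → O × List A × O → List (List A)) (β e : ℕ)
    (hfl : ∀ i ∈ I, ∀ γ ∈ TT, (b i γ).flatten = s i γ.1 ++ γ.2.1 ++ p i γ.2.2)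
    (hβ : ∀ i ∈ I, ∀ γ ∈ TT, (b i γ).length ≤ β)
    (he : ∀ i ∈ I, ∃ S : Finset (O × List A × O), S.card ≤ e ∧ S ⊆ TT ∧
      ∀ γ ∈ TT, γ ∉ S → (b i γ).length = 1)
    (hI : ((TT.card + 1) * (β + 1)) ^ e *
      ((TT.card + e * β) ^ 2 + 1) ^ (3 * (Fintype.card O) ^ 2 + e * β) < I.card) :
    ∃ i ∈ I, ∃ j ∈ I, i ≠ j ∧ (∀ γ ∈ TT, (b i γ).length = (b j γ).length) ∧
      ∀ γ ∈ TT, ∀ γ' ∈ TT, ∀ a a', a < (b i γ).length → a' < (b i γ').length →
        ((b i γ).getD a [] = (b i γ').getD a' [] ↔ (b j γ).getD a [] = (b j γ').getD a' []) := by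
  classical
  rcases TT.eq_empty_or_nonempty with hTT | hTT
  · subst hTT
    have h1 : 1 < I.card := by
      refine lt_of_le_of_lt ?_ hI
      apply Nat.one_le_iff_ne_zero.2
      positivity
    obtain ⟨i, hi, j, hj, hij⟩ := Finset.one_lt_card.1 h1
    exact ⟨i, hi, j, hj, hij, by simp, by simp⟩
  · -- listing of the exceptional triples
    have hex : ∀ i : ι, ∃ g : Fin e → O × List A × O, (∀ c, g c ∈ TT) ∧
        (i ∈ I → ∀ γ ∈ TT, (b i γ).length ≠ 1 → ∃ c, g c = γ) := by
      intro i
      by_cases hi : i ∈ I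
      · obtain ⟨S, h1, h2, h3⟩ := he i hi
        obtain ⟨g, hg1, hg2⟩ := enum50 S TT h2 hTT e h1
        refine ⟨g, hg1, fun _ γ hγ hne => hg2 γ ?_⟩
        by_contra h4
        exact hne (h3 γ hγ h4)
      · obtain ⟨g, hg1, _⟩ := enum50 ∅ TT (Finset.empty_subset _) hTT e (by simp)
        exact ⟨g, hg1, fun h => absurd h hi⟩
    choose ex hex1 hex2 using hex
    -- coding of letters
    obtain ⟨en, hen1, hen2, hen3⟩ : ∃ en : A → ℕ, Function.Injective en ∧ (∀ a, 1 ≤ en a) ∧
        ∀ a, en a < Fintype.card A + 2 := by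
      refine ⟨fun a => (Fintype.equivFin A a).1 + 1, ?_, ?_, ?_⟩
      · intro x y hxy
        have h1 : (Fintype.equivFin A x).1 = (Fintype.equivFin A y).1 := by
          simpa using hxy
        exact (Fintype.equivFin A).injective (Fin.ext h1)
      · intro a
        dsimp only
        omega
      · intro a
        have := (Fintype.equivFin A a).2
        dsimp only
        omega
    have hq : 1 < Fintype.card A + 2 := by omega
    set q := Fintype.card A + 2 with hqdef
    have vinj : ∀ {u w : List A}, val50 en q u = val50 en q w → u = w :=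
      fun h => val50_inj en q hq hen1 hen2 hen3 h
    let C : Finset (Kp50 O e β → ℚ) := TT.image (cN50 en q e β) ∪
      (Finset.univ : Finset (Fin e × Fin β)).image (cU50 e β)
    have hC : C.card ≤ TT.card + e * β := by
      refine (Finset.card_union_le _ _).trans ?_
      refine Nat.add_le_add Finset.card_image_le ?_
      refine Finset.card_image_le.trans ?_
      simp
    let D : Finset (Kp50 O e β → ℚ) := (C ×ˢ C).image (fun z => z.1 - z.2)
    have hD : D.card ≤ (TT.card + e * β) ^ 2 := by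
      refine Finset.card_image_le.trans ?_
      rw [Finset.card_product, sq]
      exact Nat.mul_le_mul hC hC
    let v : ι → Kp50 O e β → ℚ := fun i => vec50 en q e β (s i) (p i) (fun c => b i (ex i c))
    obtain ⟨f, hf1, hf2⟩ := code50_lin D v
    have hκ : Fintype.card (Kp50 O e β) = 3 * (Fintype.card O) ^ 2 + e * β := by
      simp only [Kp50, Fintype.card_sum, Fintype.card_prod, Fintype.card_fin]
      ring
    let cd : ι → ((Fin e → O × List A × O) × (Fin e → ℕ)) ×
        (Fin (Fintype.card (Kp50 O e β)) → Kp50 O e β → ℚ) :=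
      fun i => ((ex i, fun c => (b i (ex i c)).length), f i)
    let tgt : Finset (((Fin e → O × List A × O) × (Fin e → ℕ)) ×
        (Fin (Fintype.card (Kp50 O e β)) → Kp50 O e β → ℚ)) :=
      ((Fintype.piFinset (fun _ => TT)) ×ˢ (Fintype.piFinset (fun _ => Finset.range (β + 1)))) ×ˢ
        (Fintype.piFinset (fun _ => insert 0 D))
    have htgt : tgt.card < I.card := by
      refine lt_of_le_of_lt ?_ hI
      rw [Finset.card_product, Finset.card_product, Fintype.card_piFinset_const,
        Fintype.card_piFinset_const, Fintype.card_piFinset_const, hκ,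
        Finset.card_range, mul_pow]
      refine Nat.mul_le_mul (Nat.mul_le_mul (Nat.pow_le_pow_left (by omega) _) le_rfl) ?_
      refine Nat.pow_le_pow_left ((Finset.card_insert_le _ _).trans ?_) _
      omega
    have hmaps : ∀ i ∈ I, cd i ∈ tgt := by
      intro i hi
      refine Finset.mem_product.2 ⟨Finset.mem_product.2 ⟨?_, ?_⟩, hf1 i⟩
      · exact Fintype.mem_piFinset.2 (hex1 i)
      · refine Fintype.mem_piFinset.2 (fun c => ?_)
        rw [Finset.mem_range]
        have := hβ i hi _ (hex1 i c)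
        exact Nat.lt_succ_of_le this
    obtain ⟨i, hi, j, hj, hij, hcd⟩ := Finset.exists_ne_map_eq_of_card_lt_of_maps_to htgt hmaps
    have e1 : ex i = ex j := congrArg (fun z => z.1.1) hcd
    have e2 : (fun c => (b i (ex i c)).length) = fun c => (b j (ex j c)).length :=
      congrArg (fun z => z.1.2) hcd
    have e3 : f i = f j := congrArg (fun z => z.2) hcd
    have hlen : ∀ γ ∈ TT, (b i γ).length = (b j γ).length := by
      intro γ hγ
      by_cases h : ∃ c, ex i c = γ
      · obtain ⟨c, hc⟩ := h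
        have h1 := congrFun e2 c
        rw [← e1, hc] at h1
        exact h1
      · have h1 : (b i γ).length = 1 := by
          by_contra h2
          exact h (hex2 i hi γ hγ h2)
        have h2 : (b j γ).length = 1 := by
          by_contra h3
          apply h
          rw [e1]
          exact hex2 j hj γ hγ h3
        rw [h1, h2]
    -- the value of a block is a linear form
    have hval : ∀ k ∈ I, ex k = ex i → ∀ γ ∈ TT, ∀ a, a < (b k γ).length →
        (cf50 en q e β (ex i) γ a ∈ C ∧ cf50 en q e β (ex i) γ a ⬝ᵥ v k =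
          (val50 en q ((b k γ).getD a []) : ℚ)) := by
      intro k hk hek γ hγ a ha
      have haβ : a < β := lt_of_lt_of_le ha (hβ k hk γ hγ)
      unfold cf50
      by_cases h : ∃ c, ex i c = γ
      · rw [dif_pos h, dif_pos haβ]
        refine ⟨Finset.mem_union_right _ (Finset.mem_image_of_mem _ (Finset.mem_univ _)), ?_⟩
        rw [dot_cU50]
        dsimp only
        rw [hek, h.choose_spec]
      · rw [dif_neg h]
        refine ⟨Finset.mem_union_left _ (Finset.mem_image_of_mem _ hγ), ?_⟩
        rw [dot_cN50]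
        have h1 : (b k γ).length = 1 := by
          by_contra h2
          apply h
          rw [← hek]
          exact hex2 k hk γ hγ h2
        obtain ⟨B, hB⟩ := List.length_eq_one_iff.1 h1
        have h3 := hfl k hk γ hγ
        have h4 : a = 0 := by omega
        rw [hB] at h3 ⊢
        rw [← h3, h4]
        simp
    refine ⟨i, hi, j, hj, hij, hlen, ?_⟩
    intro γ hγ γ' hγ' a a' ha ha'
    obtain ⟨m1, v1⟩ := hval i hi rfl γ hγ a ha
    obtain ⟨m2, v2⟩ := hval i hi rfl γ' hγ' a' ha'
    obtain ⟨_, v3⟩ := hval j hj e1.symm γ hγ a (by rw [← hlen γ hγ]; exact ha)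
    obtain ⟨_, v4⟩ := hval j hj e1.symm γ' hγ' a' (by rw [← hlen γ' hγ']; exact ha')
    have hmem : cf50 en q e β (ex i) γ a - cf50 en q e β (ex i) γ' a' ∈ D :=
      Finset.mem_image.2 ⟨(_, _), Finset.mem_product.2 ⟨m1, m2⟩, rfl⟩
    have h5 := hf2 i j e3 _ hmem
    rw [sub_dotProduct, sub_dotProduct, v1, v2, v3, v4, sub_eq_zero, sub_eq_zero, Nat.cast_inj,
      Nat.cast_inj] at h5
    constructor
    · intro h6
      exact vinj (h5.1 (by rw [h6]))
    · intro h6
      exact vinj (h5.2 (by rw [h6]))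

/-- The code lemma with a map of blocks, scales in `ℕ`. -/
theorem code50 {A O : Type*} [Fintype A] [Fintype O]
    (TT : Finset (O × List A × O)) (I : Finset ℕ) (s p : ℕ → O → List A)
    (b : ℕ → O × List A × O → List (List A)) (β e : ℕ)
    (hfl : ∀ i ∈ I, ∀ γ ∈ TT, (b i γ).flatten = s i γ.1 ++ γ.2.1 ++ p i γ.2.2)
    (hβ : ∀ i ∈ I, ∀ γ ∈ TT, (b i γ).length ≤ β)
    (he : ∀ i ∈ I, ∃ S : Finset (O × List A × O), S.card ≤ e ∧ S ⊆ TT ∧
      ∀ γ ∈ TT, γ ∉ S → (b i γ).length = 1)
    (hI : ((TT.card + 1) * (β + 1)) ^ e *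
      ((TT.card + e * β) ^ 2 + 1) ^ (3 * (Fintype.card O) ^ 2 + e * β) < I.card) :
    ∃ i ∈ I, ∃ j ∈ I, i < j ∧ ∃ φ : List A → List A,
      (∀ γ ∈ TT, (b j γ).map φ = b i γ) ∧ ∀ B, (φ B = [] ∨ ∃ γ ∈ TT, φ B ∈ b i γ) := by
  obtain ⟨i, hi, j, hj, hij, hlen, hpat⟩ := code50_ne TT I s p b β e hfl hβ he hI
  rcases lt_or_gt_of_ne hij with h | h
  · refine ⟨i, hi, j, hj, h, phi50 TT (b j) (b i) [] (fun γ hγ => (hlen γ hγ).symm) ?_⟩
    intro γ hγ γ' hγ' a a' ha ha' heq
    exact (hpat γ hγ γ' hγ' a a' (by rw [hlen γ hγ]; exact ha)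
      (by rw [hlen γ' hγ']; exact ha')).2 heq
  · refine ⟨j, hj, i, hi, h, phi50 TT (b i) (b j) [] hlen ?_⟩
    intro γ hγ γ' hγ' a a' ha ha' heq
    exact (hpat γ hγ γ' hγ' a a' ha ha').1 heq

end Pool.Agent.WK
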