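import Pool.Agent.WO45.BlockS

/-! Word equations with boundedly many variables (MP_fc7ad9_lc). Helper module:
the exponents of one letter. -/

open WE45 WO45

namespace WK

/-- a long power of a letter is inside a run -/
theorem exists_run {Γ : Type*} [DecidableEq Γ] {r : Γ} {c : ℕ} (hc : 1 ≤ c) (t : List Γ) :
    ∀ s : List Γ, ∃ p ∈ rle (s ++ (List.replicate c r ++ t)), c ≤ p.2
  | [] => by
      obtain ⟨c', rfl⟩ : ∃ c', c = c' + 1 := ⟨c - 1, by omega⟩
      rw [List.nil_append, rle_replicate]
      cases h : rle t with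
      | nil => exact ⟨(r, c' + 1), by simp [cm], le_rfl⟩
      | cons p T =>
        by_cases hp : r = p.1
        · exact ⟨(r, c' + 1 + p.2), by simp [cm, hp], Nat.le_add_right _ _⟩
        · exact ⟨(r, c' + 1), by simp [cm, hp], le_rfl⟩
  | a :: s => by
      obtain ⟨p, hp, hcp⟩ := exists_run hc t s
      rw [List.cons_append]
      show ∃ p ∈ cm a 1 (rle (s ++ (List.replicate c r ++ t))), c ≤ p.2
      cases h : rle (s ++ (List.replicate c r ++ t)) with
      | nil => rw [h] at hp; cases hp
      | cons q T =>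
        rw [h] at hp
        by_cases hq : a = q.1
        · rcases List.mem_cons.1 hp with rfl | hp
          · exact ⟨(a, 1 + p.2), by simp [cm, hq], by show c ≤ 1 + p.2; omega⟩
          · refine ⟨p, ?_, hcp⟩
            simp only [cm, if_pos hq]
            exact List.mem_cons_of_mem _ hp
        · refine ⟨p, ?_, hcp⟩
          simp only [cm, if_neg hq]
          exact List.mem_cons_of_mem _ hp

/-- the change of exponents -/
def psi (V s s' e : ℕ) : ℕ := s' * e / V - s * e / V

theorem psi_le {V s s' : ℕ} (hs : s' ≤ V) (hV : 0 < V) (e : ℕ) : psi V s s' e ≤ e := by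
  unfold psi
  have h1 : s' * e / V ≤ e := by
    rw [Nat.div_le_iff_le_mul_add_pred hV]
    have := Nat.mul_le_mul_right e hs
    omega
  exact (Nat.sub_le _ _).trans h1

theorem psi_self {V s s' : ℕ} (hV : 0 < V) : psi V s s' V = s' - s := by
  unfold psi
  rw [Nat.mul_div_cancel _ hV, Nat.mul_div_cancel _ hV]

/-- lower estimate of a value by the rounded parameters -/
def low {I : Type*} [Fintype I] (θ : I → ℕ) (V s : ℕ) (F : (I → ℕ) × ℕ) : ℕ :=
  ∑ i, F.1 i * (s * θ i / V)

theorem low_le {I : Type*} [Fintype I] (θ : I → ℕ) {V : ℕ} (hV : 0 < V) (s : ℕ)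
    (F : (I → ℕ) × ℕ) : low θ V s F ≤ s * ev θ F / V := by
  rw [Nat.le_div_iff_mul_le hV]
  unfold low ev
  rw [Finset.sum_mul, mul_add, Finset.mul_sum]
  refine (Finset.sum_le_sum ?_).trans (Nat.le_add_right _ _)
  intro i _
  calc F.1 i * (s * θ i / V) * V = F.1 i * (s * θ i / V * V) := by ring
    _ ≤ F.1 i * (s * θ i) := Nat.mul_le_mul_left _ (Nat.div_mul_le_self _ _)
    _ = s * (F.1 i * θ i) := by ring

theorem le_low {I : Type*} [Fintype I] (θ : I → ℕ) {V : ℕ} (hV : 0 < V) {s : ℕ} (hs : s ≤ V)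
    (F : (I → ℕ) × ℕ) : s * ev θ F / V ≤ low θ V s F + (∑ i, F.1 i + F.2) := by
  rw [Nat.div_le_iff_le_mul_add_pred hV]
  unfold low ev
  have h1 : s * ∑ i, F.1 i * θ i ≤ V * (∑ i, F.1 i * (s * θ i / V) + ∑ i, F.1 i) := by
    rw [← Finset.sum_add_distrib, Finset.mul_sum, Finset.mul_sum]
    refine Finset.sum_le_sum ?_
    intro i _
    have h2 : s * θ i ≤ V * (s * θ i / V + 1) := (Nat.lt_mul_div_succ _ hV).le
    calc s * (F.1 i * θ i) = F.1 i * (s * θ i) := by ring
      _ ≤ F.1 i * (V * (s * θ i / V + 1)) := Nat.mul_le_mul_left _ h2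
      _ = V * (F.1 i * (s * θ i / V) + F.1 i) := by ring
  have h2 : s * F.2 ≤ V * F.2 := Nat.mul_le_mul_right _ hs
  calc s * (∑ i, F.1 i * θ i + F.2) = s * ∑ i, F.1 i * θ i + s * F.2 := by ring
    _ ≤ V * (∑ i, F.1 i * (s * θ i / V) + ∑ i, F.1 i) + V * F.2 := Nat.add_le_add h1 h2
    _ = V * (∑ i, F.1 i * (s * θ i / V) + (∑ i, F.1 i + F.2)) := by ring
    _ ≤ _ := Nat.le_add_right _ _

theorem dec_sublist {Γ : Type*} (f : Γ × ℕ → Γ × ℕ) (hf : ∀ t, (f t).1 = t.1 ∧ (f t).2 ≤ t.2) :
    ∀ T : List (Γ × ℕ), (dec (T.map f)).Sublist (dec T)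
  | [] => List.Sublist.refl _
  | t :: T => by
      rw [List.map_cons, dec_cons, dec_cons, (hf t).1]
      exact ((List.replicate_sublist_replicate _).2 (hf t).2).append (dec_sublist f hf T)

theorem dec_length_lt {Γ : Type*} (f : Γ × ℕ → Γ × ℕ)
    (hf : ∀ t, (f t).1 = t.1 ∧ (f t).2 ≤ t.2) {p : Γ × ℕ} (hp : (f p).2 < p.2) :
    ∀ T : List (Γ × ℕ), p ∈ T → (dec (T.map f)).length < (dec T).length
  | t :: T, h => by
      rw [List.map_cons, dec_cons, dec_cons, List.length_append, List.length_append,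
        List.length_replicate, List.length_replicate]
      rcases List.mem_cons.1 h with rfl | h
      · have := (dec_sublist f hf T).length_le
        omega
      · have := dec_length_lt f hf hp T h
        have := (hf t).2
        omega

/-- lowering the exponents -/
theorem lower {Γ X : Type*} [DecidableEq Γ] [Fintype X] [DecidableEq X]
    (L R : List (Γ ⊕ X)) (τ : X → List Γ) (hτ : sb τ L = sb τ R) (V s s' : ℕ) (hV : 0 < V)
    (hs' : s' ≤ V) (hss : s < s') (sh : X → Sh Γ) (θ : X × Bool → ℕ) (mid : X → List (Γ × ℕ))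
    (hθ : ∀ x, rle (τ x) = shp (sh x) (θ (x, false)) (θ (x, true)) (mid x))
    (herr : ∀ a F, .inl (a, F) ∈ mg sh L ++ mg sh R →
      s * ev θ F / V - low θ V s F = s' * ev θ F / V - low θ V s' F) :
    sb (fun x => dec ((rle (τ x)).map (fun t => (t.1, t.2 - psi V s s' t.2)))) L =
    sb (fun x => dec ((rle (τ x)).map (fun t => (t.1, t.2 - psi V s s' t.2)))) R := by
  classical
  set ρ : Γ × ℕ → Γ × ℕ := fun t => (t.1, t.2 - psi V s s' t.2) with hρdef
  let θ' : X × Bool → ℕ := fun i => θ i - psi V s s' (θ i)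
  have hle := fun e => psi_le (s := s) hs' hV e
  have hmono : ∀ e, s * e / V ≤ s' * e / V := fun e =>
    Nat.div_le_div_right (Nat.mul_le_mul_right _ hss.le)
  -- the junctions
  have hJ : ∀ a F, .inl (a, F) ∈ mg sh L ++ mg sh R →
      ev θ F - psi V s s' (ev θ F) = ev θ' F := by
    intro a F hF
    have h1 := herr a F hF
    have h2 := low_le θ hV s F
    have h3 := low_le θ hV s' F
    have h4 : low θ V s' F = low θ V s F + ∑ i, F.1 i * psi V s s' (θ i) := by
      unfold low
      rw [← Finset.sum_add_distrib]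
      refine Finset.sum_congr rfl ?_
      intro i _
      rw [← mul_add]
      congr 1
      have := hmono (θ i)
      unfold psi
      omega
    have h5 : psi V s s' (ev θ F) = ∑ i, F.1 i * psi V s s' (θ i) := by
      have := hmono (ev θ F)
      unfold psi at h4 ⊢
      omega
    have h6 : ev θ F = ev θ' F + ∑ i, F.1 i * psi V s s' (θ i) := by
      unfold ev
      have : ∑ i, F.1 i * θ i = ∑ i, F.1 i * θ' i + ∑ i, F.1 i * psi V s s' (θ i) := by
        rw [← Finset.sum_add_distrib]
        refine Finset.sum_congr rfl ?_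
        intro i _
        rw [← mul_add]
        congr 1
        have := hle (θ i)
        show θ i = θ i - psi V s s' (θ i) + _
        omega
      omega
    rw [h5]
    omega
  have hback : ∀ x, back sh θ' (fun x => (mid x).map ρ) x = dec ((rle (τ x)).map ρ) := by
    intro x
    rw [hθ x]
    unfold back
    cases hsh : sh x with
    | nil => rfl
    | one a =>
      show List.replicate (θ' (x, false)) a = dec [ρ (a, θ (x, false))]
      rw [dec_cons, dec_nil, List.append_nil]
    | two a b =>
      show List.replicate (θ' (x, false)) a ++ (dec ((mid x).map ρ) ++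
        List.replicate (θ' (x, true)) b) =
        dec (List.map ρ ((a, θ (x, false)) :: (mid x ++ [(b, θ (x, true))])))
      rw [List.map_cons, List.map_append, dec_cons, dec_append]
      simp only [List.map_cons, List.map_nil]
      rw [dec_cons, dec_nil, List.append_nil]
  have key : ∀ S : List (Γ ⊕ X), (∀ t, .inl t ∈ mg sh S → .inl t ∈ mg sh L ++ mg sh R) →
      sb (fun x => dec ((rle (τ x)).map ρ)) S = dec ((rle (sb τ S)).map ρ) := by
    intro S hS
    rw [← mg_eval τ sh mid θ hθ S, relabel θ θ' mid ρ (mg sh S), mg_back]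
    · congr 1
      funext x
      exact (hback x).symm
    · rintro ⟨a, F⟩ ht
      show (a, ev θ F - psi V s s' (ev θ F)) = (a, ev θ' F)
      rw [hJ a F (hS _ ht)]
  rw [key L (fun t ht => List.mem_append_left _ ht),
    key R (fun t ht => List.mem_append_right _ ht), hτ]

theorem le_two_pow_aux (n : ℕ) : 2 * (n + 1) ^ 2 ≤ 2 ^ (2 * n + 1) := by
  have h : n + 1 ≤ 2 ^ n := n.lt_two_pow_self
  calc 2 * (n + 1) ^ 2 ≤ 2 * (2 ^ n) ^ 2 := Nat.mul_le_mul_left _ (Nat.pow_le_pow_left h 2)
    _ = 2 ^ (2 * n + 1) := by rw [pow_add, ← pow_mul, Nat.mul_comm n 2, pow_one]; ring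

/-- **exponents of a letter** -/
theorem one_letter : ∃ C : ℕ, ∀ {Γ X : Type*} [DecidableEq Γ] [Fintype X] [DecidableEq X] (n : ℕ)
    (L R : List (Γ ⊕ X)), Fintype.card X ≤ n → L.length + R.length ≤ n → ∀ τ : X → List Γ,
    sb τ L = sb τ R → ∀ (r : Γ) (x : X) (c : ℕ), 2 ^ (C * (n + 1) ^ C) < c →
    List.replicate c r <:+: τ x →
    ∃ τ' : X → List Γ, sb τ' L = sb τ' R ∧ (∀ x, (τ' x).Sublist (τ x)) ∧
      ∃ x, (τ' x).length < (τ x).length := by
  classical
  refine ⟨4, ?_⟩
  intro Γ X _ _ _ n L R hX hn τ hτ r x c hc hinf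
  have hc1 : 1 ≤ c := Nat.lt_of_le_of_lt (Nat.zero_le _) hc
  obtain ⟨s0, t0, hst⟩ := hinf
  obtain ⟨p, hp, hcp⟩ := exists_run (r := r) hc1 t0 s0
  rw [← List.append_assoc, hst] at hp
  set V := p.2 with hVdef
  have hV : 0 < V := by omega
  choose sh pp ss mid hshape using fun x => exists_shape (rle (τ x))
  let θ : X × Bool → ℕ := fun i => match i with
    | (x, false) => pp x
    | (x, true) => ss x
  have hθ : ∀ x, rle (τ x) = shp (sh x) (θ (x, false)) (θ (x, true)) (mid x) := hshape
  -- list of the junctions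
  let JL : List (Γ × ((X × Bool → ℕ) × ℕ)) :=
    (mg sh L ++ mg sh R).filterMap (Sum.elim some (fun _ => none))
  have hJL : ∀ t, .inl t ∈ mg sh L ++ mg sh R → t ∈ JL := by
    intro t ht
    exact List.mem_filterMap.2 ⟨.inl t, ht, rfl⟩
  have hJLlen : JL.length ≤ 2 * n := by
    have e : ∀ S : List ((Γ × ((X × Bool → ℕ) × ℕ)) ⊕ X),
        (S.filterMap (Sum.elim some (fun _ => none))).length = cN S := by
      intro S
      induction S with
      | nil => rfl
      | cons u S ih =>
        cases u with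
        | inl t => simp [cN, ih]
        | inr y => simp [cN, ih]
    have h1 := cN_mg sh L
    have h2 := cN_mg sh R
    have h3 : ∀ S : List (Γ ⊕ X), cN S + vN S = S.length := by
      intro S
      induction S with
      | nil => rfl
      | cons u S ih =>
        cases u with
        | inl t => simp only [cN, vN, List.length_cons]; omega
        | inr y => simp only [cN, vN, List.length_cons]; omega
    have h4 := h3 L
    have h5 := h3 R
    show ((mg sh L ++ mg sh R).filterMap _).length ≤ _
    rw [e, cN_append]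
    omega
  have hM : ∀ t ∈ JL, ∑ i, t.2.1 i + t.2.2 ≤ 2 * n ^ 2 + n := by
    intro t ht
    obtain ⟨u, hu, hut⟩ := List.mem_filterMap.1 ht
    have h3 : ∀ S : List (Γ ⊕ X), vN S ≤ S.length ∧ nA t.1 S ≤ S.length := by
      intro S
      induction S with
      | nil => exact ⟨le_rfl, le_rfl⟩
      | cons u S ih =>
        cases u with
        | inl b =>
          refine ⟨?_, ?_⟩
          · simp only [vN, List.length_cons]; omega
          · simp only [nA, List.length_cons]
            split_ifs <;> omega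
        | inr y =>
          refine ⟨?_, ?_⟩
          · simp only [vN, List.length_cons]; omega
          · simp only [nA, List.length_cons]; omega
    have h4 := h3 L
    have h5 := h3 R
    have hb : (∀ i, t.2.1 i ≤ n) ∧ t.2.2 ≤ n := by
      cases u with
      | inr y => simp at hut
      | inl t' =>
        simp only [Sum.elim_inl, Option.some.injEq] at hut
        subst hut
        rcases List.mem_append.1 hu with hu | hu
        · obtain ⟨f1, f2, -⟩ := forms_mg sh L t' hu
          exact ⟨fun i => (f1 i).trans (by omega), f2.trans (by omega)⟩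
        · obtain ⟨f1, f2, -⟩ := forms_mg sh R t' hu
          exact ⟨fun i => (f1 i).trans (by omega), f2.trans (by omega)⟩
    have h6 : ∑ i, t.2.1 i ≤ 2 * n ^ 2 := by
      calc ∑ i, t.2.1 i ≤ ∑ _i : X × Bool, n := Finset.sum_le_sum (fun i _ => hb.1 i)
        _ = Fintype.card X * 2 * n := by
            rw [Finset.sum_const, Finset.card_univ, Fintype.card_prod, Fintype.card_bool,
              smul_eq_mul]
        _ ≤ n * 2 * n := by gcongr
        _ = 2 * n ^ 2 := by ring
    omega
  set M := 2 * n ^ 2 + n with hMdef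
  -- the errors
  let er : Fin (V + 1) → (Fin JL.length → Fin (M + 1)) := fun s i =>
    ⟨min M ((s : ℕ) * ev θ (JL.get i).2 / V - low θ V s (JL.get i).2), by omega⟩
  have hcard : Fintype.card (Fin JL.length → Fin (M + 1)) < Fintype.card (Fin (V + 1)) := by
    rw [Fintype.card_fun, Fintype.card_fin, Fintype.card_fin, Fintype.card_fin]
    have h1 : M + 1 ≤ 2 * (n + 1) ^ 2 := by rw [hMdef]; nlinarith
    have h2 : M + 1 ≤ 2 ^ (2 * n + 1) := h1.trans (le_two_pow_aux n)
    have h3 : (M + 1) ^ JL.length ≤ 2 ^ ((2 * n + 1) * (2 * n)) := by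
      calc (M + 1) ^ JL.length ≤ (M + 1) ^ (2 * n) := Nat.pow_le_pow_right (by omega) hJLlen
        _ ≤ (2 ^ (2 * n + 1)) ^ (2 * n) := Nat.pow_le_pow_left h2 _
        _ = 2 ^ ((2 * n + 1) * (2 * n)) := by rw [← pow_mul]
    have h4 : (2 * n + 1) * (2 * n) ≤ 4 * (n + 1) ^ 4 := by
      have : (2 * n + 1) * (2 * n) ≤ 4 * (n + 1) ^ 2 := by nlinarith
      have h5 : (n + 1) ^ 2 ≤ (n + 1) ^ 4 := Nat.pow_le_pow_right (by omega) (by omega)
      omega
    have h5 : 2 ^ ((2 * n + 1) * (2 * n)) ≤ 2 ^ (4 * (n + 1) ^ 4) :=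
      Nat.pow_le_pow_right (by omega) h4
    omega
  obtain ⟨s1, s2, hne, hs12⟩ := Fintype.exists_ne_map_eq_of_card_lt er hcard
  have main : ∀ s s' : Fin (V + 1), s < s' → er s = er s' →
      ∃ τ' : X → List Γ, sb τ' L = sb τ' R ∧ (∀ x, (τ' x).Sublist (τ x)) ∧
        ∃ x, (τ' x).length < (τ x).length := by
    intro s s' hss her
    have hs'V : (s' : ℕ) ≤ V := by have := s'.isLt; omega
    have hsV : (s : ℕ) ≤ V := by have := s.isLt; omega
    have hlt : (s : ℕ) < s' := hss
    have hlow := lower L R τ hτ V s s' hV hs'V hlt sh θ mid hθ (by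
      intro a F hF
      obtain ⟨i, hi, hget⟩ := List.getElem_of_mem (hJL (a, F) hF)
      have h1 := congrFun her ⟨i, hi⟩
      have h2 := congrArg Fin.val h1
      have h3 : JL.get ⟨i, hi⟩ = (a, F) := hget
      simp only [er] at h2
      rw [h3] at h2
      have h4 := hM (a, F) (hJL (a, F) hF)
      have h5 := le_low θ hV hsV F
      have h6 := le_low θ hV hs'V F
      have h7 : ∑ i, F.1 i + F.2 ≤ M := h4
      have h8 : (s : ℕ) * ev θ F / V - low θ V s F ≤ M := by omega
      have h9 : (s' : ℕ) * ev θ F / V - low θ V s' F ≤ M := by omega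
      have h10 : min M ((s : ℕ) * ev θ F / V - low θ V s F) =
        min M ((s' : ℕ) * ev θ F / V - low θ V s' F) := h2
      omega)
    refine ⟨_, hlow, ?_, x, ?_⟩
    · intro y
      have h := dec_sublist (fun t : Γ × ℕ => (t.1, t.2 - psi V s s' t.2))
        (fun t => ⟨rfl, Nat.sub_le _ _⟩) (rle (τ y))
      rw [dec_rle] at h
      exact h
    · have h := dec_length_lt (fun t : Γ × ℕ => (t.1, t.2 - psi V s s' t.2))
        (fun t => ⟨rfl, Nat.sub_le _ _⟩) (p := p) (by
          show p.2 - psi V s s' p.2 < p.2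
          rw [← hVdef, psi_self hV]
          omega) (rle (τ x)) hp
      rw [dec_rle] at h
      exact h
  rcases lt_or_gt_of_ne hne with h | h
  · exact main s1 s2 h hs12
  · exact main s2 s1 h hs12.symm

end WK
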