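import Pool.Agent.WK.Defs64
import Pool.Agent.WK.Exp45
import Pool.Agent.WK64.Rep5

/-!
# The exponent bound for minimal solutions (general period)

Helper file for MP_fc7ad9_lc (word equations with a fixed number of variables).
-/

set_option autoImplicit false

open WE45 WK64 WKR5

namespace WK

section Sp

variable {A X : Type*} (K : List A → Prop) [DecidablePred K] (σ pre mid : X → List A)
  (lg : X → Prop) [DecidablePred lg]

/-- the symbolic block equation -/
def spL : List A → List A → List (A ⊕ X) → List (List A ⊕ X)
  | _, p, [] => [.inl p]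
  | h, p, .inl a :: L => (out K h p [a]).map .inl ++ spL (h ++ [a]) (pend K h p [a]) L
  | h, p, .inr x :: L => if lg x then
      (out K h p (pre x)).map .inl ++ (.inr x :: spL (σ x) (sfx K pre mid x) L)
      else (out K h p (σ x)).map .inl ++ spL (h ++ σ x) (pend K h p (σ x)) L

/-- the block values of the variables -/
def tauL (x : X) : List (List A) := if lg x then tau K pre mid x else []

theorem sb_map_inl {Γ : Type*} (τ : X → List Γ) (l : List Γ) :
    sb τ (l.map (Sum.inl : Γ → Γ ⊕ X)) = l := by
  induction l with
  | nil => rfl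
  | cons a l ih => rw [List.map_cons, sb_inl, ih]

variable {K σ pre mid lg} {w : ℕ}

theorem sb_spL (hC : Cut K w σ pre mid lg) : ∀ (L : List (A ⊕ X)) (h p : List A),
    sb (tauL K pre mid lg) (spL K σ pre mid lg h p L) =
      out K h p (sb σ L) ++ [pend K h p (sb σ L)]
  | [], h, p => by
      simp only [spL]
      rw [sb_inl]
      rfl
  | .inl a :: L, h, p => by
      simp only [spL]
      rw [sb_append, sb_map_inl, sb_spL hC L, sb_inl]
      have e1 : a :: sb σ L = [a] ++ sb σ L := rfl
      rw [e1, out_append, pend_append]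
      simp only [List.append_assoc]
  | .inr x :: L, h, p => by
      simp only [spL]
      rw [sb_inr]
      by_cases hx : lg x
      · rw [if_pos hx, sb_append, sb_map_inl, sb_inr, sb_spL hC L]
        have hs := hC.split x hx
        have e2 : tauL K pre mid lg x = tau K pre mid x := by simp [tauL, hx]
        have e5 : w ≤ (σ x).length := by
          rw [hs, List.length_append]
          have := hC.len x hx
          omega
        have e6 : h ++ pre x ++ mid x = h ++ σ x := by rw [hs, List.append_assoc]
        have e3 : pend K h p (pre x) = [] := by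
          have := hC.pend_pre hx h p []
          simpa using this
        have e1 : σ x ++ sb σ L = pre x ++ (mid x ++ sb σ L) := by
          rw [hs, List.append_assoc]
        have e4 : out K h p (σ x ++ sb σ L) =
            out K h p (pre x) ++ (tau K pre mid x ++ out K (σ x) (sfx K pre mid x) (sb σ L)) := by
          rw [e1, out_append K (pre x), e3, out_append K (mid x), e6,
            out_loc K hC.loc _ _ _ _ (hC.len x hx), pend_loc K hC.loc _ _ _ _ (hC.len x hx),
            out_loc K hC.loc _ _ _ _ e5]
          rfl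
        have e7 : pend K h p (σ x ++ sb σ L) = pend K (σ x) (sfx K pre mid x) (sb σ L) := by
          rw [e1, pend_append K (pre x), e3, pend_append K (mid x), e6,
            pend_loc K hC.loc _ _ _ _ (hC.len x hx), pend_loc K hC.loc _ _ _ _ e5]
          rfl
        rw [e4, e7, e2]
        simp only [List.append_assoc]
      · rw [if_neg hx, sb_append, sb_map_inl, sb_spL hC L, out_append, pend_append]
        simp only [List.append_assoc]

theorem flatten_spL (hC : Cut K w σ pre mid lg) (τ' : X → List (List A)) :
    ∀ (L : List (A ⊕ X)) (h p : List A),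
    (sb τ' (spL K σ pre mid lg h p L)).flatten = p ++ sb (fun x => if lg x then
      pre x ++ (τ' x).flatten ++ sfx K pre mid x else σ x) L
  | [], h, p => by
      simp only [spL]
      rw [sb_inl]
      simp [sb_nil]
  | .inl a :: L, h, p => by
      simp only [spL]
      rw [sb_append, sb_map_inl, List.flatten_append, flatten_spL hC τ' L, ← List.append_assoc,
        flatten_out, sb_inl]
      simp
  | .inr x :: L, h, p => by
      simp only [spL]
      rw [sb_inr]
      by_cases hx : lg x
      · rw [if_pos hx, if_pos hx, sb_append, sb_map_inl, sb_inr, List.flatten_append,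
          List.flatten_append, flatten_spL hC τ' L]
        have e3 : pend K h p (pre x) = [] := by
          have := hC.pend_pre hx h p []
          simpa using this
        have e4 := flatten_out K (pre x) h p
        rw [e3, List.append_nil] at e4
        rw [e4]
        simp only [List.append_assoc]
      · rw [if_neg hx, if_neg hx, sb_append, sb_map_inl, List.flatten_append, flatten_spL hC τ' L,
          ← List.append_assoc, flatten_out, List.append_assoc]

theorem length_spL {c : ℕ} (h1 : ∀ (h p : List A) (a : A), (out K h p [a]).length ≤ c)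
    (h2 : ∀ (h p : List A) (x : X), lg x → (out K h p (pre x)).length ≤ c)
    (h3 : ∀ (h p : List A) (x : X), ¬ lg x → (out K h p (σ x)).length ≤ c) :
    ∀ (L : List (A ⊕ X)) (h p : List A),
    (spL K σ pre mid lg h p L).length ≤ (c + 1) * L.length + 1
  | [], h, p => by simp [spL]
  | .inl a :: L, h, p => by
      simp only [spL]
      rw [List.length_append, List.length_map, List.length_cons]
      have := h1 h p a
      have := length_spL h1 h2 h3 L (h ++ [a]) (pend K h p [a])
      rw [mul_add]
      omega
  | .inr x :: L, h, p => by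
      simp only [spL]
      rw [List.length_cons, mul_add]
      by_cases hx : lg x
      · rw [if_pos hx, List.length_append, List.length_map, List.length_cons]
        have := h2 h p x hx
        have := length_spL h1 h2 h3 L (σ x) (sfx K pre mid x)
        omega
      · rw [if_neg hx, List.length_append, List.length_map]
        have := h3 h p x hx
        have := length_spL h1 h2 h3 L (h ++ σ x) (pend K h p (σ x))
        omega

/-- all completed blocks are nonempty -/
theorem out_ne_nil : ∀ (u h p : List A), ∀ B ∈ out K h p u, B ≠ []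
  | [], h, p, B, hB => by simp [out] at hB
  | a :: u, h, p, B, hB => by
      simp only [out] at hB
      split_ifs at hB with hK
      · rcases List.mem_cons.1 hB with h1 | h1
        · rw [h1]; simp
        · exact out_ne_nil u _ _ B h1
      · exact out_ne_nil u _ _ B hB

theorem flatten_sublist_length : ∀ {l l' : List (List A)}, l'.Sublist l →
    l'.flatten.length ≤ l.flatten.length
  | _, _, .slnil => le_rfl
  | _, _, .cons a h => by
      have := flatten_sublist_length h
      rw [List.flatten_cons, List.length_append]
      omega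
  | _, _, .cons_cons a h => by
      have := flatten_sublist_length h
      rw [List.flatten_cons, List.flatten_cons, List.length_append, List.length_append]
      omega

theorem flatten_sublist_lt : ∀ {l l' : List (List A)}, l'.Sublist l → (∀ B ∈ l, B ≠ []) →
    l'.length < l.length → l'.flatten.length < l.flatten.length
  | _, _, .slnil, _, h => absurd h (lt_irrefl _)
  | _, _, .cons a h, hne, _ => by
      have h1 := flatten_sublist_length h
      have h2 : 0 < a.length := List.length_pos_iff.2 (hne a (by simp))
      rw [List.flatten_cons, List.length_append]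
      omega
  | _, _, .cons_cons a h, hne, hlt => by
      have := flatten_sublist_lt h (fun B hB => hne B (List.mem_cons_of_mem _ hB))
        (by simpa using hlt)
      rw [List.flatten_cons, List.flatten_cons, List.length_append, List.length_append]
      omega

/-- A shorter block solution contradicts minimality. -/
theorem no_shorter [Fintype X] {L R : List (A ⊕ X)} (hmin : MinSol L R σ)
    (hC : Cut K w σ pre mid lg) (τ' : X → List (List A))
    (heq : sb τ' (spL K σ pre mid lg [] [] L) = sb τ' (spL K σ pre mid lg [] [] R))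
    (hsub : ∀ x, (τ' x).Sublist (tauL K pre mid lg x))
    (hlt : ∃ x, (τ' x).length < (tauL K pre mid lg x).length) : False := by
  let σ' : X → List A := fun x => if lg x then pre x ++ (τ' x).flatten ++ sfx K pre mid x else σ x
  have h1 : sb σ' L = sb σ' R := by
    have e1 := flatten_spL hC τ' L [] []
    have e2 := flatten_spL hC τ' R [] []
    rw [heq] at e1
    rw [e1, List.nil_append, List.nil_append] at e2
    exact e2
  have h2 := hmin.2 σ' h1
  have hlen : ∀ x, lg x → (σ x).length =
      (pre x).length + (tau K pre mid x).flatten.length + (sfx K pre mid x).length := by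
    intro x hx
    have e1 := flatten_out K (mid x) (pre x) []
    rw [hC.split x hx, List.length_append]
    have e2 := congrArg List.length e1
    rw [List.length_append, List.nil_append] at e2
    show (pre x).length + (mid x).length = _
    have e3 : (tau K pre mid x).flatten.length + (sfx K pre mid x).length = (mid x).length := e2
    omega
  have hle : ∀ x, (σ' x).length ≤ (σ x).length := by
    intro x
    by_cases hx : lg x
    · have e1 : σ' x = pre x ++ (τ' x).flatten ++ sfx K pre mid x := by simp [σ', hx]
      have e2 := flatten_sublist_length (hsub x)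
      rw [e1, hlen x hx, List.length_append, List.length_append]
      simp only [tauL, if_pos hx] at e2
      omega
    · have e1 : σ' x = σ x := by simp [σ', hx]
      rw [e1]
  obtain ⟨x, hx⟩ := hlt
  have hlgx : lg x := by
    by_contra hn
    simp only [tauL, if_neg hn] at hx
    simp at hx
  have hlt' : (σ' x).length < (σ x).length := by
    have e1 : σ' x = pre x ++ (τ' x).flatten ++ sfx K pre mid x := by simp [σ', hlgx]
    have e2 := flatten_sublist_lt (hsub x) (by
      intro B hB
      simp only [tauL, if_pos hlgx] at hB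
      exact out_ne_nil _ _ _ B hB) hx
    rw [e1, hlen x hlgx, List.length_append, List.length_append]
    simp only [tauL, if_pos hlgx] at e2
    omega
  have h3 : ∑ x, (σ' x).length < ∑ x, (σ x).length :=
    Finset.sum_lt_sum (fun x _ => hle x) ⟨x, Finset.mem_univ x, hlt'⟩
  omega

end Sp

/-- the shortest prefix which ends with `m` -/
theorem exists_first {A : Type*} {u m : List A} (h : m <:+: u) : ∃ t r, u = t ++ r ∧ m <:+ t ∧
    ∀ t', t' <+: t → t' ≠ t → ¬ m <:+: t' := by
  classical
  have hex : ∃ n, ∃ t r, u = t ++ r ∧ m <:+ t ∧ t.length = n := by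
    obtain ⟨a, b, rfl⟩ := h
    exact ⟨_, a ++ m, b, rfl, List.suffix_append _ _, rfl⟩
  obtain ⟨t, r, h1, h2, h3⟩ := Nat.find_spec hex
  refine ⟨t, r, h1, h2, fun t' ht' hne hm => ?_⟩
  obtain ⟨a, b, hab⟩ := hm
  obtain ⟨c, hc⟩ := ht'
  have hlt : (a ++ m).length < Nat.find hex := by
    rw [← h3, ← hc, ← hab]
    have : c ≠ [] := by
      rintro rfl
      apply hne
      rw [← hc, List.append_nil]
    have := List.length_pos_iff.2 this
    simp only [List.length_append]
    omega
  apply Nat.find_min hex hlt
  refine ⟨a ++ m, b ++ (c ++ r), ?_, List.suffix_append _ _, rfl⟩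
  rw [h1, ← hc, ← hab]
  simp only [List.append_assoc]

/-- the history ends with `m` -/
def KS {A : Type*} (m h : List A) : Prop := m <:+ h

noncomputable instance {A : Type*} (m : List A) : DecidablePred (KS m) := Classical.decPred _

theorem KS.loc {A : Type*} (m : List A) : Loc (KS m) m.length := by
  intro h t ht
  constructor
  · intro h1
    exact List.suffix_of_suffix_length_le h1 (List.suffix_append h t) ht
  · intro h1
    exact h1.trans (List.suffix_append h t)

theorem KS.spaced {A : Type*} {z : List A} {q : ℕ} (hq : 1 ≤ q) (hz : Pd q z)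
    (hmin : ∀ d, 1 ≤ d → d < q → ¬ Pd d z) (hl : 2 * q ≤ z.length) :
    Spaced (KS (z.take (2 * q))) q := by
  intro h t h1 h2 ht
  by_contra hlt
  have hlen : (z.take (2 * q)).length = 2 * q := by rw [List.length_take]; omega
  have ht1 : 1 ≤ t.length := List.length_pos_iff.2 ht
  have h3 : Pd t.length (z.take (2 * q)) := Pd.of_suffix h1 h2
  have h4 : Pd q (z.take (2 * q)) := hz.take _
  have h5 := h3.gcd h4 (by omega)
  have h6 : Nat.gcd t.length q ≤ t.length := Nat.gcd_le_left _ ht1
  have h7 : 1 ≤ Nat.gcd t.length q := Nat.gcd_pos_of_pos_left _ ht1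
  exact hmin _ h7 (by omega) (hz.ext h5 hq h7 (by omega) (Nat.gcd_dvd_right _ _))

/-- few blocks in a word without an occurrence of the marker -/
theorem out_short {A : Type*} {m : List A} {q : ℕ} (hS : Spaced (KS m) q) (hq : 1 ≤ q)
    (hm : m.length = 2 * q) {v : List A} (hv : ¬ m <:+: v) (h p : List A) :
    (out (KS m) h p v).length ≤ 2 := by
  have e1 : v = v.take (2 * q) ++ v.drop (2 * q) := (List.take_append_drop _ _).symm
  rw [e1, out_append, List.length_append]
  have h1 : (out (KS m) h p (v.take (2 * q))).length ≤ 2 :=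
    out_len (KS m) hS hq _ _ _ (by rw [List.length_take]; omega)
  have h2 : out (KS m) (h ++ v.take (2 * q)) (pend (KS m) h p (v.take (2 * q)))
      (v.drop (2 * q)) = [] := by
    apply out_eq_nil
    intro t w ht hne hK
    apply hv
    have e2 : 1 ≤ t.length := List.length_pos_iff.2 hne
    have e3 : t.length ≤ (v.drop (2 * q)).length := by rw [ht, List.length_append]; omega
    rw [List.length_drop] at e3
    have hK' : m <:+ h ++ (v.take (2 * q) ++ t) := by
      rw [← List.append_assoc]
      exact hK
    have h3 : m <:+ v.take (2 * q) ++ t :=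
      List.suffix_of_suffix_length_le hK' (List.suffix_append _ _) (by
        rw [List.length_append, List.length_take]; omega)
    refine h3.isInfix.trans ?_
    have h4 : v.take (2 * q) ++ t <+: v := ⟨w, by rw [List.append_assoc, ← ht, ← e1]⟩
    exact h4.isInfix
  rw [h2, List.length_nil]
  omega

/-- the blocks of a long periodic word -/
theorem rep_blocks {A : Type*} {z : List A} {q : ℕ} (hq : 1 ≤ q) (hz : Pd q z)
    (hS : Spaced (KS (z.take (2 * q))) q) (hl : 3 * q ≤ z.length) (a b : List A) :
    ∃ r B, out (KS (z.take (2 * q))) (a ++ z.take (2 * q)) [] (z.drop (2 * q) ++ b) =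
      List.replicate ((z.length - 2 * q) / q) r ++ B := by
  set e := (z.length - 2 * q) / q with he
  have he1 : e * q ≤ z.length - 2 * q := Nat.div_mul_le_self _ _
  have hzd : Pd q (z.drop (2 * q)) := hz.drop _
  have hld : (z.drop (2 * q)).length = z.length - 2 * q := List.length_drop
  have hrl : ((z.drop (2 * q)).take q).length = q := by rw [List.length_take, hld]; omega
  have e1 : z.drop (2 * q) = (List.replicate e ((z.drop (2 * q)).take q)).flatten ++
      (z.drop (2 * q)).drop (e * q) := by
    rw [← hzd.rep e (by rw [hld]; exact he1), List.take_append_drop]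
  have hK : ∀ i, i ≤ e → KS (z.take (2 * q)) (a ++ z.take (2 * q) ++
      (List.replicate i ((z.drop (2 * q)).take q)).flatten) := by
    intro i hi
    have hi1 : i * q ≤ e * q := Nat.mul_le_mul_right q hi
    rw [← hzd.rep i (by rw [hld]; omega), List.append_assoc, ← List.take_add]
    have h1 : Pd (i * q) z := Per.mul (q := q) hz i
    have h2 : z.take (2 * q + i * q) = z.take (i * q) ++ (z.drop (i * q)).take (2 * q) := by
      rw [add_comm, List.take_add]
    have h3 : (z.drop (i * q)).take (2 * q) = z.take (2 * q) := by
      rw [h1.drop_prefix, List.take_take, Nat.min_eq_left (by omega)]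
    rw [h2, h3, ← List.append_assoc]
    exact List.suffix_append _ _
  refine ⟨(z.drop (2 * q)).take q, out (KS (z.take (2 * q)))
    (a ++ z.take (2 * q) ++ (List.replicate e ((z.drop (2 * q)).take q)).flatten)
    (pend (KS (z.take (2 * q))) (a ++ z.take (2 * q)) []
      (List.replicate e ((z.drop (2 * q)).take q)).flatten)
    ((z.drop (2 * q)).drop (e * q) ++ b), ?_⟩
  conv_lhs => rw [e1]
  rw [List.append_assoc, out_append, out_rep _ hS hq _ hrl e _ hK]

/-- the step for the least period -/
theorem exp_core {A X : Type*} [Fintype X] [DecidableEq X] {C n : ℕ}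
    (h1L : ∀ (L R : List (List A ⊕ X)), L.length + R.length ≤ 4 * n + 2 →
      ∀ τ : X → List (List A), sb τ L = sb τ R → ∀ (r : List A) (x : X) (c : ℕ),
      2 ^ (C * (4 * n + 2 + 1) ^ C) < c → List.replicate c r <:+: τ x →
      ∃ τ' : X → List (List A), sb τ' L = sb τ' R ∧ (∀ x, (τ' x).Sublist (τ x)) ∧
      ∃ x, (τ' x).length < (τ x).length)
    {L R : List (A ⊕ X)} (hLR : L.length + R.length ≤ n) {σ : X → List A}
    (hmin : MinSol L R σ) {x0 : X} {z : List A} (hz : z <:+: σ x0) {q : ℕ} (hq : 1 ≤ q)
    (hp : Pd q z) (hqm : ∀ d, 1 ≤ d → d < q → ¬ Pd d z) (hl : 3 * q ≤ z.length)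
    (hlen : 2 ^ (C * (4 * n + 2 + 1) ^ C) < (z.length - 2 * q) / q) : False := by
  classical
  set m := z.take (2 * q) with hm
  have hml : m.length = 2 * q := by rw [hm, List.length_take]; omega
  have hS : Spaced (KS m) q := KS.spaced hq hp hqm (by omega)
  have hm0 : m ≠ [] := by
    intro h
    rw [h, List.length_nil] at hml
    omega
  have hch : ∀ x : X, ∃ t r, m <:+: σ x → (σ x = t ++ r ∧ m <:+ t ∧
      ∀ t', t' <+: t → t' ≠ t → ¬ m <:+: t') := by
    intro x
    by_cases hx : m <:+: σ x
    · obtain ⟨t, r, h⟩ := exists_first hx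
      exact ⟨t, r, fun _ => h⟩
    · exact ⟨[], [], fun h => absurd h hx⟩
  choose pre mid hpm using hch
  set lg : X → Prop := fun x => m <:+: σ x with hlg
  have hC : Cut (KS m) (2 * q) σ pre mid lg := by
    refine ⟨?_, by omega, ?_, ?_, ?_⟩
    · rw [← hml]; exact KS.loc m
    · intro x hx; exact (hpm x hx).1
    · intro x hx
      have := (hpm x hx).2.1.length_le
      omega
    · intro x hx; exact (hpm x hx).2.1
  -- block counts
  have hc1 : ∀ (h p : List A) (a : A), (out (KS m) h p [a]).length ≤ 3 := by
    intro h p a
    have := out_len (KS m) (c := 1) hS hq [a] h p (by rw [List.length_singleton]; omega)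
    omega
  have hc2 : ∀ (h p : List A) (x : X), lg x → (out (KS m) h p (pre x)).length ≤ 3 := by
    intro h p x hx
    obtain ⟨h1, h2, h3⟩ := hpm x hx
    have hne : pre x ≠ [] := by
      intro h0
      rw [h0] at h2
      exact hm0 (List.suffix_nil.1 h2)
    have e1 : pre x = (pre x).dropLast ++ [(pre x).getLast hne] :=
      (List.dropLast_append_getLast hne).symm
    have hv : ¬ m <:+: (pre x).dropLast := by
      apply h3
      · exact List.dropLast_prefix _
      · intro h4
        have := congrArg List.length h4
        rw [List.length_dropLast] at this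
        have := List.length_pos_iff.2 hne
        omega
    have h5 := out_short hS hq hml hv h p
    have h6 := out_len (KS m) (c := 1) hS hq [(pre x).getLast hne] (h ++ (pre x).dropLast)
      (pend (KS m) h p (pre x).dropLast) (by rw [List.length_singleton]; omega)
    rw [e1, out_append, List.length_append]
    omega
  have hc3 : ∀ (h p : List A) (x : X), ¬ lg x → (out (KS m) h p (σ x)).length ≤ 3 := by
    intro h p x hx
    have := out_short hS hq hml hx h p
    omega
  have hLl := length_spL (K := KS m) (σ := σ) (pre := pre) (mid := mid) (lg := lg)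
    hc1 hc2 hc3 L [] []
  have hRl := length_spL (K := KS m) (σ := σ) (pre := pre) (mid := mid) (lg := lg)
    hc1 hc2 hc3 R [] []
  have heq : sb (tauL (KS m) pre mid lg) (spL (KS m) σ pre mid lg [] [] L) =
      sb (tauL (KS m) pre mid lg) (spL (KS m) σ pre mid lg [] [] R) := by
    rw [sb_spL hC, sb_spL hC, hmin.1]
  -- the long run
  have hrun : ∃ r, List.replicate ((z.length - 2 * q) / q) r <:+:
      tauL (KS m) pre mid lg x0 := by
    have hmz : m <+: z := List.take_prefix _ _
    have hx0 : lg x0 := hmz.isInfix.trans hz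
    obtain ⟨h1, h2, h3⟩ := hpm x0 hx0
    obtain ⟨a, b, hab⟩ := hz
    have hzs : z = m ++ z.drop (2 * q) := (List.take_append_drop _ _).symm
    have e1 : σ x0 = (a ++ m) ++ (z.drop (2 * q) ++ b) := by
      rw [← hab]
      conv_lhs => rw [hzs]
      simp only [List.append_assoc]
    have hpa : pre x0 <+: a ++ m := by
      have p1 : pre x0 <+: σ x0 := ⟨mid x0, h1.symm⟩
      have p2 : a ++ m <+: σ x0 := ⟨_, e1.symm⟩
      rcases List.prefix_or_prefix_of_prefix p1 p2 with h | h
      · exact h
      · by_cases h4 : a ++ m = pre x0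
        · rw [h4]
        · exact absurd (List.suffix_append a m).isInfix (h3 _ h h4)
    obtain ⟨u, hu⟩ := hpa
    have hmid : mid x0 = u ++ (z.drop (2 * q) ++ b) := by
      have e2 : pre x0 ++ mid x0 = pre x0 ++ (u ++ (z.drop (2 * q) ++ b)) := by
        rw [← h1, e1, ← hu, List.append_assoc]
      exact List.append_cancel_left e2
    obtain ⟨r, B, hB⟩ := rep_blocks hq hp hS hl a b
    refine ⟨r, ?_⟩
    have hpend : pend (KS m) (pre x0) [] u = [] := by
      by_cases hu0 : u = []
      · rw [hu0]; rfl
      · apply pend_of_K _ _ hu0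
        rw [hu]
        exact List.suffix_append a m
    have e3 : tauL (KS m) pre mid lg x0 = out (KS m) (pre x0) [] u ++
        (List.replicate ((z.length - 2 * q) / q) r ++ B) := by
      rw [← hB, ← hu]
      simp only [tauL, if_pos hx0, tau]
      rw [hmid, out_append, hpend]
    rw [e3]
    exact ⟨_, B, by rw [List.append_assoc]⟩
  obtain ⟨r, hr⟩ := hrun
  obtain ⟨τ', t1, t2, t3⟩ := h1L _ _ (by omega) _ heq r x0 _ hlen hr
  exact no_shorter hmin hC τ' t1 t2 t3

theorem exp_bound : ∃ C : ℕ, ∀ {A X : Type*} [Fintype X] [DecidableEq X] (n : ℕ)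
    (L R : List (A ⊕ X)), Fintype.card X ≤ n → L.length + R.length ≤ n →
    ∀ σ : X → List A, MinSol L R σ → ∀ x, EBd (2 ^ (C * (n + 1) ^ C)) (σ x) := by
  classical
  obtain ⟨C, hC⟩ := one_letter
  refine ⟨C * 4 ^ C + 2, ?_⟩
  intro A X _ _ n L R hX hn σ hmin x q z hq hz hp
  by_contra hlen
  push Not at hlen
  -- least period
  have hex : ∃ d, 1 ≤ d ∧ Pd d z := ⟨q, hq, hp⟩
  set d := Nat.find hex with hd
  obtain ⟨hd1, hd2⟩ : 1 ≤ d ∧ Pd d z := Nat.find_spec hex
  have hd3 : ∀ e, 1 ≤ e → e < d → ¬ Pd e z := fun e he1 he2 he3 =>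
    Nat.find_min hex he2 ⟨he1, he3⟩
  have hdq : d ≤ q := Nat.find_min' hex ⟨hq, hp⟩
  set E := C * (4 * n + 2 + 1) ^ C with hE
  have hexp : E + 2 ≤ (C * 4 ^ C + 2) * (n + 1) ^ (C * 4 ^ C + 2) := by
    have h1 : 1 ≤ n + 1 := by omega
    have h2 : (4 * n + 2 + 1) ^ C ≤ 4 ^ C * (n + 1) ^ C := by
      rw [← mul_pow]
      exact Nat.pow_le_pow_left (by omega) C
    have hCle : C ≤ C * 4 ^ C + 2 := by
      have : C * 1 ≤ C * 4 ^ C := Nat.mul_le_mul_left C (Nat.one_le_pow _ _ (by norm_num))
      omega
    have h3 : (n + 1) ^ C ≤ (n + 1) ^ (C * 4 ^ C + 2) := Nat.pow_le_pow_right h1 hCle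
    have h4 : 1 ≤ (n + 1) ^ (C * 4 ^ C + 2) := Nat.one_le_pow _ _ h1
    calc E + 2 ≤ C * (4 ^ C * (n + 1) ^ C) + 2 := by
          have := Nat.mul_le_mul_left C h2
          omega
      _ ≤ C * (4 ^ C * (n + 1) ^ (C * 4 ^ C + 2)) + 2 := by
          have := Nat.mul_le_mul_left C (Nat.mul_le_mul_left (4 ^ C) h3)
          omega
      _ = C * 4 ^ C * (n + 1) ^ (C * 4 ^ C + 2) + 2 := by rw [mul_assoc]
      _ ≤ (C * 4 ^ C + 2) * (n + 1) ^ (C * 4 ^ C + 2) := by
          rw [add_mul]
          omega
  have hN : 2 ^ E + 3 ≤ 2 ^ ((C * 4 ^ C + 2) * (n + 1) ^ (C * 4 ^ C + 2)) := by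
    have h1 : 2 ^ (E + 2) ≤ 2 ^ ((C * 4 ^ C + 2) * (n + 1) ^ (C * 4 ^ C + 2)) :=
      Nat.pow_le_pow_right (by norm_num) hexp
    have h2 : 1 ≤ 2 ^ E := Nat.one_le_two_pow
    rw [pow_add] at h1
    omega
  have h5 : (2 ^ E + 3) * d ≤ z.length :=
    le_trans (Nat.mul_le_mul hN hdq) hlen
  have h6 : (2 ^ E + 3) * d = (2 ^ E + 1) * d + 2 * d := by ring
  have h7 : 2 ^ E + 1 ≤ (z.length - 2 * d) / d := by
    rw [Nat.le_div_iff_mul_le (by omega)]
    omega
  have h8 : 3 * d ≤ z.length := by
    have : 1 * d ≤ (2 ^ E + 1) * d := Nat.mul_le_mul_right d (Nat.le_add_left 1 _)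
    omega
  exact exp_core (C := C) (n := n) (fun L' R' hL' τ hτ r y c hc hr =>
    hC (4 * n + 2) L' R' (by omega) hL' τ hτ r y c hc hr) hn hmin hz hd1 hd2 hd3 h8
    (Nat.lt_of_succ_le h7)

end WK
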