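import Pool.Agent.WK.End75

/-! Word equations with boundedly many variables (MP_fc7ad9_lc). Helper module:
the final numerical bound, uniform in the number of variables. -/

namespace WK

theorem unif_count {m k F : ℕ} (hm : 3 ≤ m) (hkm : k ≤ m) (n : ℕ) (hn : n + 2 = m)
    (hk2 : k ≤ n)
    (hF : F ≤ ((n + 3) * (5 * k + 1)) ^ (4 * k ^ 3) *
      ((n + 2 + 4 * k ^ 3 * (5 * k)) ^ 2 + 1) ^ (3 * (k + 1) ^ 2 + 4 * k ^ 3 * (5 * k))) :
    2 ^ k * F + k + 1 ≤ m ^ (367 * (k + 1) ^ 4) := by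
  have hm0 : 0 < m := by omega
  have q1 : k ^ 3 ≤ (k + 1) ^ 4 := by
    calc k ^ 3 ≤ (k + 1) ^ 3 := Nat.pow_le_pow_left (Nat.le_succ k) 3
      _ ≤ (k + 1) ^ 4 := Nat.pow_le_pow_right (Nat.succ_pos k) (by norm_num)
  have q2 : (k + 1) ^ 2 ≤ (k + 1) ^ 4 := Nat.pow_le_pow_right (Nat.succ_pos k) (by norm_num)
  have q3 : k ^ 4 ≤ (k + 1) ^ 4 := Nat.pow_le_pow_left (Nat.le_succ k) 4
  have q4 : k ≤ (k + 1) ^ 4 := by
    calc k ≤ k + 1 := Nat.le_succ k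
      _ ≤ (k + 1) ^ 4 := Nat.le_self_pow (by norm_num) _
  have q5 : 1 ≤ (k + 1) ^ 4 := Nat.one_le_pow _ _ (Nat.succ_pos k)
  set K := (k + 1) ^ 4 with hK
  have a1 : (n + 3) * (5 * k + 1) ≤ m ^ 5 := by
    have h1 : n + 3 ≤ m ^ 2 := by nlinarith
    have h2 : 5 * k + 1 ≤ m ^ 3 := by
      have : 9 * m ≤ m ^ 3 := by
        calc 9 * m ≤ m ^ 2 * m := Nat.mul_le_mul_right _ (by nlinarith)
          _ = m ^ 3 := by ring
      omega
    calc (n + 3) * (5 * k + 1) ≤ m ^ 2 * m ^ 3 := Nat.mul_le_mul h1 h2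
      _ = m ^ 5 := by ring
  have a2 : (n + 2 + 4 * k ^ 3 * (5 * k)) ^ 2 + 1 ≤ m ^ 15 := by
    have h1 : 4 * k ^ 3 * (5 * k) = 20 * k ^ 4 := by ring
    have h2 : k ^ 4 ≤ m ^ 4 := Nat.pow_le_pow_left hkm 4
    have h3 : m ≤ m ^ 4 := Nat.le_self_pow (by norm_num) _
    have h4 : 27 * m ^ 4 ≤ m ^ 7 := by
      have : 27 ≤ m ^ 3 := by
        calc 27 = 3 ^ 3 := by norm_num
          _ ≤ m ^ 3 := Nat.pow_le_pow_left hm 3
      calc 27 * m ^ 4 ≤ m ^ 3 * m ^ 4 := Nat.mul_le_mul_right _ this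
        _ = m ^ 7 := by ring
    have h5 : n + 2 + 4 * k ^ 3 * (5 * k) ≤ m ^ 7 := by
      rw [h1]
      omega
    have h6 : (n + 2 + 4 * k ^ 3 * (5 * k)) ^ 2 ≤ m ^ 14 := by
      calc (n + 2 + 4 * k ^ 3 * (5 * k)) ^ 2 ≤ (m ^ 7) ^ 2 := Nat.pow_le_pow_left h5 2
        _ = m ^ 14 := by ring
    have h7 : 1 ≤ m ^ 14 := Nat.one_le_pow _ _ hm0
    calc (n + 2 + 4 * k ^ 3 * (5 * k)) ^ 2 + 1 ≤ m ^ 14 * 2 := by omega
      _ ≤ m ^ 14 * m := Nat.mul_le_mul_left _ (by omega)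
      _ = m ^ 15 := by ring
  have a3 : ((n + 3) * (5 * k + 1)) ^ (4 * k ^ 3) ≤ m ^ (20 * K) := by
    calc ((n + 3) * (5 * k + 1)) ^ (4 * k ^ 3) ≤ (m ^ 5) ^ (4 * k ^ 3) :=
          Nat.pow_le_pow_left a1 _
      _ = m ^ (20 * k ^ 3) := by rw [← pow_mul]; ring_nf
      _ ≤ m ^ (20 * K) := Nat.pow_le_pow_right hm0 (by omega)
  have a4 : ((n + 2 + 4 * k ^ 3 * (5 * k)) ^ 2 + 1) ^ (3 * (k + 1) ^ 2 + 4 * k ^ 3 * (5 * k)) ≤
      m ^ (345 * K) := by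
    calc ((n + 2 + 4 * k ^ 3 * (5 * k)) ^ 2 + 1) ^ (3 * (k + 1) ^ 2 + 4 * k ^ 3 * (5 * k))
        ≤ (m ^ 15) ^ (3 * (k + 1) ^ 2 + 4 * k ^ 3 * (5 * k)) := Nat.pow_le_pow_left a2 _
      _ = m ^ (15 * (3 * (k + 1) ^ 2 + 4 * k ^ 3 * (5 * k))) := (pow_mul _ _ _).symm
      _ ≤ m ^ (345 * K) := by
          apply Nat.pow_le_pow_right hm0
          have h1 : 4 * k ^ 3 * (5 * k) = 20 * k ^ 4 := by ring
          rw [h1]
          omega
  have a5 : F ≤ m ^ (365 * K) := by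
    calc F ≤ m ^ (20 * K) * m ^ (345 * K) := hF.trans (Nat.mul_le_mul a3 a4)
      _ = m ^ (365 * K) := by rw [← pow_add]; ring_nf
  have a6 : 2 ^ k ≤ m ^ K := by
    calc 2 ^ k ≤ m ^ k := Nat.pow_le_pow_left (by omega) _
      _ ≤ m ^ K := Nat.pow_le_pow_right hm0 q4
  have a7 : 2 ^ k * F ≤ m ^ (366 * K) := by
    calc 2 ^ k * F ≤ m ^ K * m ^ (365 * K) := Nat.mul_le_mul a6 a5
      _ = m ^ (366 * K) := by rw [← pow_add]; ring_nf
  have a8 : k + 1 ≤ m ^ (366 * K) := by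
    calc k + 1 ≤ m := by omega
      _ = m ^ 1 := (pow_one m).symm
      _ ≤ m ^ (366 * K) := Nat.pow_le_pow_right hm0 (by omega)
  calc 2 ^ k * F + k + 1 ≤ m ^ (366 * K) * 2 := by omega
    _ ≤ m ^ (366 * K) * m := Nat.mul_le_mul_left _ (by omega)
    _ = m ^ (366 * K + 1) := (pow_succ _ _).symm
    _ ≤ m ^ (367 * K) := Nat.pow_le_pow_right hm0 (by omega)

theorem unif_base {m k n : ℕ} (C : ℕ) (hm : 3 ≤ m) (hn : n + 2 = m) (hk : k ≤ n) :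
    base k C n ≤ 2 ^ (m ^ (2 * C + 11)) := by
  have hm0 : 0 < m := by omega
  have h1 : 60 * k ^ 2 * (n + 1) ≤ m ^ 7 := by
    have e1 : k ^ 2 ≤ m ^ 2 := Nat.pow_le_pow_left (by omega) 2
    have e2 : 81 ≤ m ^ 4 := by
      calc 81 = 3 ^ 4 := by norm_num
        _ ≤ m ^ 4 := Nat.pow_le_pow_left hm 4
    calc 60 * k ^ 2 * (n + 1) ≤ m ^ 4 * m ^ 2 * m :=
          Nat.mul_le_mul (Nat.mul_le_mul (by omega) e1) (by omega)
      _ = m ^ 7 := by ring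
  have h2 : C * (n + 1) ^ C ≤ m ^ (2 * C) := by
    calc C * (n + 1) ^ C ≤ m ^ C * m ^ C := by
          apply Nat.mul_le_mul
          · calc C ≤ 2 ^ C := Nat.lt_two_pow_self.le
              _ ≤ m ^ C := Nat.pow_le_pow_left (by omega) C
          · exact Nat.pow_le_pow_left (by omega) C
      _ = m ^ (2 * C) := by rw [← pow_add]; ring_nf
  have h3 : (2 ^ (C * (n + 1) ^ C) + 5) ^ 3 ≤ 2 ^ (m ^ (2 * C + 3)) := by
    have e1 : 2 ^ (C * (n + 1) ^ C) + 5 ≤ 2 ^ (C * (n + 1) ^ C + 3) := by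
      have : 1 ≤ 2 ^ (C * (n + 1) ^ C) := Nat.one_le_two_pow
      rw [pow_add]
      omega
    have e2 : (C * (n + 1) ^ C + 3) * 3 ≤ m ^ (2 * C + 3) := by
      have f1 : m ^ (2 * C) * 3 ≤ m ^ (2 * C) * m := Nat.mul_le_mul_left _ hm
      have f2 : 9 ≤ m ^ 2 := by nlinarith
      have f3 : m ^ (2 * C) * m ≤ m ^ (2 * C + 2) := by
        rw [← pow_succ]
        exact Nat.pow_le_pow_right hm0 (by omega)
      have f4 : m ^ 2 ≤ m ^ (2 * C + 2) := Nat.pow_le_pow_right hm0 (by omega)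
      have f5 : m ^ (2 * C + 2) * 2 ≤ m ^ (2 * C + 3) := by
        rw [pow_succ m (2 * C + 2)]
        exact Nat.mul_le_mul_left _ (by omega)
      have f6 : C * (n + 1) ^ C * 3 ≤ m ^ (2 * C) * 3 := Nat.mul_le_mul_right _ h2
      omega
    calc (2 ^ (C * (n + 1) ^ C) + 5) ^ 3 ≤ (2 ^ (C * (n + 1) ^ C + 3)) ^ 3 :=
          Nat.pow_le_pow_left e1 3
      _ = 2 ^ ((C * (n + 1) ^ C + 3) * 3) := (pow_mul _ _ _).symm
      _ ≤ 2 ^ (m ^ (2 * C + 3)) := Nat.pow_le_pow_right (by norm_num) e2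
  have h4 : m ^ 7 + m ^ (2 * C + 3) ≤ m ^ (2 * C + 11) := by
    have f1 : m ^ 7 ≤ m ^ (2 * C + 10) := Nat.pow_le_pow_right hm0 (by omega)
    have f2 : m ^ (2 * C + 3) ≤ m ^ (2 * C + 10) := Nat.pow_le_pow_right hm0 (by omega)
    have f3 : m ^ (2 * C + 10) * 2 ≤ m ^ (2 * C + 11) := by
      rw [pow_succ m (2 * C + 10)]
      exact Nat.mul_le_mul_left _ (by omega)
    omega
  rw [base]
  calc 60 * k ^ 2 * (n + 1) * (2 ^ (C * (n + 1) ^ C) + 5) ^ 3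
      ≤ 2 ^ (m ^ 7) * 2 ^ (m ^ (2 * C + 3)) :=
        Nat.mul_le_mul (h1.trans Nat.lt_two_pow_self.le) h3
    _ = 2 ^ (m ^ 7 + m ^ (2 * C + 3)) := (pow_add _ _ _).symm
    _ ≤ 2 ^ (m ^ (2 * C + 11)) := Nat.pow_le_pow_right (by norm_num) h4

/-- the final bound, uniform in the number of variables -/
theorem unif_bound (C : ℕ) : ∃ D : ℕ, ∀ k n F : ℕ, 1 ≤ k → k ≤ n →
    F ≤ ((n + 3) * (5 * k + 1)) ^ (4 * k ^ 3) *
      ((n + 2 + 4 * k ^ 3 * (5 * k)) ^ 2 + 1) ^ (3 * (k + 1) ^ 2 + 4 * k ^ 3 * (5 * k)) →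
    k * base k C n ^ (2 ^ k * F + k + 1) ≤ 2 ^ ((n + 2) ^ (D * (k + 1) ^ 4)) := by
  refine ⟨2 * C + 379, fun k n F hk hkn hF => ?_⟩
  obtain ⟨m, hm⟩ : ∃ m, m = n + 2 := ⟨_, rfl⟩
  have hm3 : 3 ≤ m := by omega
  have hm0 : 0 < m := by omega
  have h1 := unif_count hm3 (by omega) n hm.symm hkn hF
  have h2 := unif_base C hm3 hm.symm hkn
  rw [← hm]
  have q5 : 1 ≤ (k + 1) ^ 4 := Nat.one_le_pow _ _ (Nat.succ_pos k)
  set K := (k + 1) ^ 4 with hK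
  have h3 : k ≤ 2 ^ m := (by omega : k ≤ m).trans Nat.lt_two_pow_self.le
  calc k * base k C n ^ (2 ^ k * F + k + 1)
      ≤ 2 ^ m * (2 ^ (m ^ (2 * C + 11))) ^ (m ^ (367 * K)) := by
        apply Nat.mul_le_mul h3
        calc base k C n ^ (2 ^ k * F + k + 1) ≤ (2 ^ (m ^ (2 * C + 11))) ^ (2 ^ k * F + k + 1) :=
              Nat.pow_le_pow_left h2 _
          _ ≤ (2 ^ (m ^ (2 * C + 11))) ^ (m ^ (367 * K)) :=
              Nat.pow_le_pow_right Nat.one_le_two_pow h1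
    _ = 2 ^ (m + m ^ (2 * C + 11 + 367 * K)) := by
        rw [← pow_mul, ← pow_add, ← pow_add]
    _ ≤ 2 ^ (m ^ ((2 * C + 379) * K)) := by
        apply Nat.pow_le_pow_right (by norm_num)
        have f1 : m ≤ m ^ (2 * C + 11 + 367 * K) := Nat.le_self_pow (by omega) _
        have f2 : m ^ (2 * C + 11 + 367 * K) * 2 ≤ m ^ (2 * C + 12 + 367 * K) := by
          rw [show 2 * C + 12 + 367 * K = (2 * C + 11 + 367 * K) + 1 by omega, pow_succ]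
          exact Nat.mul_le_mul_left _ (by omega)
        have f3 : m ^ (2 * C + 12 + 367 * K) ≤ m ^ ((2 * C + 379) * K) := by
          apply Nat.pow_le_pow_right hm0
          have e1 : (2 * C + 379) * K = (2 * C + 12) * K + 367 * K := by ring
          have e2 : (2 * C + 12) * 1 ≤ (2 * C + 12) * K := Nat.mul_le_mul_left _ q5
          omega
        omega

end WK
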