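import Pool.Agent.WK.Scale64
import Pool.Agent.WK.ExpB8
import Pool.Agent.WK.Code50
import Pool.Agent.WK.Unif23

/-! Word equations with boundedly many variables (MP_fc7ad9_lc). Helper module:
the main theorem. -/

open WE45 WK64

namespace WK

universe u w

theorem EBd.mono {A : Type*} {N M : ℕ} (h : N ≤ M) {u : List A} (hu : EBd N u) : EBd M u :=
  fun q z hq hz hp => (hu q z hq hz hp).trans_le (Nat.mul_le_mul_right _ h)

theorem exists_minSol {A X : Type*} [Fintype X] {L R : List (A ⊕ X)}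
    (h : ∃ σ : X → List A, sb σ L = sb σ R) : ∃ σ : X → List A, MinSol L R σ := by
  classical
  have h1 : ∃ m, ∃ σ : X → List A, sb σ L = sb σ R ∧ ∑ x, (σ x).length = m := by
    obtain ⟨σ, hσ⟩ := h
    exact ⟨_, σ, hσ, rfl⟩
  obtain ⟨σ, h2, h3⟩ := Nat.find_spec h1
  refine ⟨σ, h2, fun σ' h4 => ?_⟩
  rw [h3]
  exact Nat.find_min' h1 ⟨σ', h4, rfl⟩

/-- number of types -/
def types5 (k n : ℕ) : ℕ :=
  ((n + 3) * (5 * k + 1)) ^ (4 * k ^ 3) *
    ((n + 2 + 4 * k ^ 3 * (5 * k)) ^ 2 + 1) ^ (3 * (k + 1) ^ 2 + 4 * k ^ 3 * (5 * k))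

/-- at most `types5 k n` good scales with the same long variables -/
theorem few_scales {A : Type u} {X : Type w} [Fintype A] [Fintype X] [DecidableEq A]
    [DecidableEq X] {k n N B : ℕ} (hk : 1 ≤ k) (hn : 1 ≤ n) (hN : 2 ≤ N)
    (hX : Fintype.card X ≤ k) (L R : List (A ⊕ X)) (hlen : L.length + R.length ≤ n)
    (σ : X → List A) (hmin : MinSol L R σ) (hEB : ∀ x, EBd N (σ x)) (hB1 : 1 ≤ B)
    (hB2 : (N + 4) * (20 * k * N * ((2 * N + 1) * n)) ≤ B)
    (hB3 : 80 * k ^ 2 * (N + 5) ≤ B)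
    (J : Finset ℕ) (hJ1 : ∀ i ∈ J, ∀ x, (σ x).length ≤ B ^ i ∨ B ^ (i + 1) ≤ (σ x).length)
    (hJ2 : ∀ i ∈ J, ∀ j ∈ J, ∀ x, B ^ (i + 1) ≤ (σ x).length → B ^ (j + 1) ≤ (σ x).length)
    (hJ3 : ∀ i ∈ J, ∃ x, B ^ (i + 1) ≤ (σ x).length) : J.card ≤ types5 k n := by
  classical
  by_contra hcon
  push Not at hcon
  have hJne : J.Nonempty := Finset.card_pos.1 (by omega)
  obtain ⟨i0, hi0⟩ := hJne
  let lg : X → Prop := fun x => B ^ (i0 + 1) ≤ (σ x).length
  let l : ℕ → ℕ := fun i => 20 * k * N * ((2 * N + 1) * (n * B ^ i))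
  have hlg : ∀ i ∈ J, ∀ x, lg x ↔ B ^ (i + 1) ≤ (σ x).length :=
    fun i hi x => ⟨hJ2 i0 hi0 i hi x, hJ2 i hi i0 hi0 x⟩
  have hlB : ∀ i, (N + 4) * l i ≤ B ^ (i + 1) := by
    intro i
    calc (N + 4) * l i = (N + 4) * (20 * k * N * ((2 * N + 1) * n)) * B ^ i := by
          simp only [l]; ring
      _ ≤ B * B ^ i := Nat.mul_le_mul_right _ hB2
      _ = B ^ (i + 1) := by ring
  have hdata : ∀ i, ∃ (K : List A → Prop) (_ : DecidablePred K) (pre mid : X → List A), i ∈ J →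
      Cut K (l i) σ pre mid lg ∧
      (∀ γ ∈ Gp lg σ L R, 1 ≤ (bl K σ pre mid γ).length ∧
        (bl K σ pre mid γ).length ≤ 5 * k) ∧
      ((Gp lg σ L R).toFinset.filter (fun γ => (bl K σ pre mid γ).length ≠ 1)).card ≤
        4 * k ^ 3 ∧
      (∀ γ ∈ Gp lg σ L R, ∀ B ∈ bl K σ pre mid γ, B.length ≤ (2 * k + 2) * ((N + 5) * l i)) ∧
      (∀ x, lg x → (pre x).length ≤ (2 * k + 2) * ((N + 5) * l i) ∧
        (sfx K pre mid x).length ≤ (2 * k + 2) * ((N + 5) * l i)) ∧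
      (∀ x, lg x → (tau K pre mid x).length ≤ k * (4 * (σ x).length / l i + 2)) := by
    intro i
    by_cases hi : i ∈ J
    · obtain ⟨K, dK, pre, mid, h⟩ := scale (S := B ^ i) (l := l i) hk hn hN
        (Nat.one_le_pow _ _ hB1) rfl hX L R hlen σ hmin hEB lg
        (fun x hx => by
          rcases hJ1 i hi x with h1 | h1
          · exact h1
          · exact absurd ((hlg i hi x).2 h1) hx)
        (fun x hx => (hlB i).trans ((hlg i hi x).1 hx))
      exact ⟨K, dK, pre, mid, fun _ => h⟩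
    · exact ⟨fun _ => False, fun _ => instDecidableFalse, fun _ => [], fun _ => [],
        fun h => absurd h hi⟩
  choose K dK pre mid hd using hdata
  have hgl : ∀ γ ∈ Gp lg σ L R, ∀ y, γ.2.2 = some y → lg y := by
    intro γ hγ
    have h1 := mem_Gp_bd (n := n) (S := B ^ i0) (Nat.one_le_pow _ _ hB1) hlen
      (fun x hx => by
        rcases hJ1 i0 hi0 x with h1 | h1
        · exact h1
        · exact absurd h1 hx) hγ
    exact h1.2.2
  obtain ⟨i, hi, j, hj, hij, φ, hφ, _⟩ := Pool.Agent.WK.code50 (O := Option X)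
    (Gp lg σ L R).toFinset J (fun i => ox (@sfx A X (K i) (dK i) (pre i) (mid i)))
    (fun i => ox (pre i)) (fun i => @bl A X (K i) (dK i) σ (pre i) (mid i))
    (5 * k) (4 * k ^ 3)
    (fun i hi γ hγ => by
      rw [List.mem_toFinset] at hγ
      let _ := dK i
      exact (hd i hi).1.flatten_bl γ (hgl γ hγ))
    (fun i hi γ hγ => by
      rw [List.mem_toFinset] at hγ
      exact ((hd i hi).2.1 γ hγ).2)
    (fun i hi => by
      refine ⟨_, (hd i hi).2.2.1, Finset.filter_subset _ _, ?_⟩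
      intro γ hγ h1
      by_contra h2
      exact h1 (Finset.mem_filter.2 ⟨hγ, h2⟩))
    (by
      refine lt_of_le_of_lt ?_ hcon
      have h1 : (Gp lg σ L R).toFinset.card ≤ n + 2 :=
        (List.toFinset_card_le _).trans (length_Gp hlen)
      have h2 : Fintype.card (Option X) ≤ k + 1 := by
        rw [Fintype.card_option]; omega
      refine Nat.mul_le_mul ?_ ?_
      · exact Nat.pow_le_pow_left (Nat.mul_le_mul_right _ (by omega)) _
      · refine (Nat.pow_le_pow_left (Nat.succ_le_succ (Nat.pow_le_pow_left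
          (Nat.add_le_add_right h1 _) 2)) _).trans (Nat.pow_le_pow_right (Nat.succ_pos _) ?_)
        exact Nat.add_le_add_right (Nat.mul_le_mul_left _ (Nat.pow_le_pow_left h2 2)) _)
  let _ := dK i
  let _ := dK j
  obtain ⟨hC1, _, _, hb1, hp1, _⟩ := hd i hi
  obtain ⟨hC2, _, _, _, _, ht2⟩ := hd j hj
  have hl1 : 1 ≤ l j := by
    refine Nat.one_le_iff_ne_zero.2 ?_
    simp only [l]
    have : B ^ j ≠ 0 := by
      have := Nat.one_le_pow j B hB1
      omega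
    refine Nat.mul_ne_zero (Nat.mul_ne_zero (Nat.mul_ne_zero (by norm_num) (by omega)) (by omega))
      (Nat.mul_ne_zero (by omega) (Nat.mul_ne_zero (by omega) this))
  refine two_scales (Λ := (2 * k + 2) * ((N + 5) * l i)) L R hC1 hC2 hmin hk (hJ3 i0 hi0) φ
    (fun γ hγ => hφ γ (List.mem_toFinset.2 hγ)) hb1 hp1 ht2 ?_ hl1 ?_
  · have h1 : B ^ (i + 1) ≤ B ^ j := Nat.pow_le_pow_right hB1 hij
    have h2 : 20 * k * (2 * k + 2) * (N + 5) ≤ B := by
      refine le_trans ?_ hB3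
      have h3 : 20 * k * (2 * k + 2) ≤ 80 * k ^ 2 := by nlinarith
      exact Nat.mul_le_mul_right _ h3
    calc 20 * k * ((2 * k + 2) * ((N + 5) * l i)) = 20 * k * (2 * k + 2) * (N + 5) * l i := by
          ring
      _ ≤ B * l i := Nat.mul_le_mul_right _ h2
      _ = 20 * k * N * ((2 * N + 1) * (n * B ^ (i + 1))) := by simp only [l]; ring
      _ ≤ l j := Nat.mul_le_mul_left _ (Nat.mul_le_mul_left _ (Nat.mul_le_mul_left _ h1))
  · intro x hx
    have h1 := (hlg j hj x).1 hx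
    have h2 := hlB j
    nlinarith

/-- minimal solutions of word equations, in terms of the number of variables and the size -/
theorem uniform_bound : ∃ C : ℕ, ∀ {A : Type u} {X : Type w} [Finite A] [Fintype X]
    (L R : List (A ⊕ X)), Fintype.card X ≤ L.length + R.length →
    (∃ σ : X → List A, sb σ L = sb σ R) →
    ∃ σ : X → List A, sb σ L = sb σ R ∧ ∑ x, (σ x).length ≤
      2 ^ ((L.length + R.length + 2) ^ (C * (Fintype.card X + 1) ^ 4)) := by
  obtain ⟨C0, hexp⟩ := exp_bound.{u, w}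
  obtain ⟨C, hC⟩ := unif_bound (C0 + 1)
  refine ⟨C, ?_⟩
  intro A X _ _ L R hXn hsol
  classical
  have := Fintype.ofFinite A
  by_cases hk0 : Fintype.card X = 0
  · obtain ⟨σ, hσ⟩ := hsol
    have : IsEmpty X := Fintype.card_eq_zero_iff.1 hk0
    exact ⟨σ, hσ, by simp⟩
  obtain ⟨k, hk⟩ : ∃ k, k = Fintype.card X := ⟨_, rfl⟩
  obtain ⟨n, hn⟩ : ∃ n, n = L.length + R.length := ⟨_, rfl⟩
  rw [← hk, ← hn]
  rw [← hk] at hk0
  rw [← hk, ← hn] at hXn
  have hk1 : 1 ≤ k := Nat.one_le_iff_ne_zero.2 hk0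
  have hn1 : 1 ≤ n := hk1.trans hXn
  have hX : Fintype.card X ≤ k := hk.ge
  have hlen : L.length + R.length ≤ n := hn.ge
  obtain ⟨σ, hmin⟩ := exists_minSol hsol
  refine ⟨σ, hmin.1, ?_⟩
  obtain ⟨hb1, hb2, hb3⟩ := base_spec (n := n) hk1 (rfl : 2 ^ ((C0 + 1) * (n + 1) ^ (C0 + 1)) = _)
  have hN2 : 2 ≤ 2 ^ ((C0 + 1) * (n + 1) ^ (C0 + 1)) := by
    have h1 : 1 ≤ (C0 + 1) * (n + 1) ^ (C0 + 1) :=
      Nat.one_le_iff_ne_zero.2 (Nat.mul_ne_zero (by omega) (pow_ne_zero _ (by omega)))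
    calc 2 = 2 ^ 1 := by norm_num
      _ ≤ _ := Nat.pow_le_pow_right (by norm_num) h1
  have hEB : ∀ x, EBd (2 ^ ((C0 + 1) * (n + 1) ^ (C0 + 1))) (σ x) := by
    intro x
    refine EBd.mono ?_ (hexp n L R (hX.trans hXn) hlen σ hmin x)
    refine Nat.pow_le_pow_right (by norm_num) ?_
    exact pb_le (Nat.le_succ C0) n
  have hb3' : 80 * k ^ 2 * (2 ^ ((C0 + 1) * (n + 1) ^ (C0 + 1)) + 5) ≤ base k (C0 + 1) n := by
    rw [base]
    generalize 2 ^ ((C0 + 1) * (n + 1) ^ (C0 + 1)) = M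
    have h1 : 2 * (M + 5) ≤ (M + 5) ^ 3 := by nlinarith [Nat.zero_le (M ^ 3), Nat.zero_le (M ^ 2)]
    calc 80 * k ^ 2 * (M + 5) ≤ 60 * k ^ 2 * 1 * (2 * (M + 5)) := by nlinarith
      _ ≤ 60 * k ^ 2 * (n + 1) * (M + 5) ^ 3 :=
        Nat.mul_le_mul (Nat.mul_le_mul_left _ (by omega)) h1
  refine (scales_sum hX (by omega) (fun x => (σ x).length) (F := types5 k n) ?_).trans
    (hC k n (types5 k n) hk1 hXn le_rfl)
  intro J hJ1 hJ2 hJ3
  exact few_scales hk1 hn1 hN2 hX L R hlen σ hmin hEB (by omega) hb2 hb3' J hJ1 hJ2 hJ3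

end WK
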