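import Pool.Agent.WK.Seg64
import Pool.Agent.WK.Main64
import Pool.Agent.WK.ExpD45

/-! Word equations with boundedly many variables (MP_fc7ad9_lc). Helper module:
the main theorem in ratio form. -/

open WE45 WK64 WO45

namespace WK

universe u w

theorem EBdd.mono {A : Type*} {N M d : ℕ} (h : N ≤ M) {u : List A} (hu : EBdd N d u) :
    EBdd M d u :=
  fun q z hq hz hp => (hu q z hq hz hp).trans_le (Nat.mul_le_mul_right _ h)

/-- at most `types5 k n` good scales with the same long variables, ratio form -/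
theorem few_scalesR {A : Type u} {X : Type w} [Fintype A] [Fintype X] [DecidableEq A]
    [DecidableEq X] {k v n d N B : ℕ} (hk : 1 ≤ k) (hn : n = 3 * (v + 1)) (hN : 2 ≤ N)
    (hd : 1 ≤ d) (hX : Fintype.card X ≤ k) (L R : List (A ⊕ X)) (hv : vN L + vN R ≤ v)
    (hL : SegLe d L) (hR : SegLe d R)
    (σ : X → List A) (hmin : MinSol L R σ) (hEB : ∀ x, EBdd N d (σ x)) (hB1 : 1 ≤ B)
    (hB2 : (N + 4) * (20 * k * N * ((2 * N + 1) * n)) ≤ B)
    (hB3 : 80 * k ^ 2 * (N + 5) ≤ B)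
    (J : Finset ℕ)
    (hJ1 : ∀ i ∈ J, ∀ x, (σ x).length / d ≤ B ^ i ∨ B ^ (i + 1) ≤ (σ x).length / d)
    (hJ2 : ∀ i ∈ J, ∀ j ∈ J, ∀ x, B ^ (i + 1) ≤ (σ x).length / d →
      B ^ (j + 1) ≤ (σ x).length / d)
    (hJ3 : ∀ i ∈ J, ∃ x, B ^ (i + 1) ≤ (σ x).length / d) : J.card ≤ types5 k n := by
  classical
  by_contra hcon
  push Not at hcon
  have hJne : J.Nonempty := Finset.card_pos.1 (by omega)
  obtain ⟨i0, hi0⟩ := hJne
  let lg : X → Prop := fun x => B ^ (i0 + 1) ≤ (σ x).length / d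
  let g : ℕ → ℕ := fun i => n * (d * B ^ i)
  let l : ℕ → ℕ := fun i => 20 * k * N * ((2 * N + 1) * g i)
  have hB : ∀ i, 1 ≤ B ^ i := fun i => Nat.one_le_pow _ _ hB1
  have hg1 : ∀ i, d ≤ g i := by
    intro i
    have h1 : 1 * d ≤ n * (d * B ^ i) :=
      Nat.mul_le_mul (by omega) (Nat.le_mul_of_pos_right _ (hB i))
    simpa [g] using h1
  have hlg : ∀ i ∈ J, ∀ x, lg x ↔ B ^ (i + 1) ≤ (σ x).length / d :=
    fun i hi x => ⟨hJ2 i0 hi0 i hi x, hJ2 i hi i0 hi0 x⟩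
  have hlB : ∀ i, (N + 4) * l i ≤ d * B ^ (i + 1) := by
    intro i
    calc (N + 4) * l i = (N + 4) * (20 * k * N * ((2 * N + 1) * n)) * (d * B ^ i) := by
          simp only [l, g]; ring
      _ ≤ B * (d * B ^ i) := Nat.mul_le_mul_right _ hB2
      _ = d * B ^ (i + 1) := by ring
  have hlong : ∀ i ∈ J, ∀ x, lg x → (N + 4) * l i ≤ (σ x).length := by
    intro i hi x hx
    have h1 := (hlg i hi x).1 hx
    have h2 := (Nat.le_div_iff_mul_le (by omega)).1 h1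
    refine (hlB i).trans ?_
    rw [Nat.mul_comm]
    exact h2
  have hshort : ∀ i ∈ J, ∀ x, ¬ lg x → (σ x).length ≤ 2 * (d * B ^ i) := by
    intro i hi x hx
    rcases hJ1 i hi x with h1 | h1
    · have h2 : (σ x).length < d * ((σ x).length / d + 1) := Nat.lt_mul_div_succ _ (by omega)
      have h3 : d * ((σ x).length / d + 1) ≤ d * (B ^ i + 1) := Nat.mul_le_mul_left _ (by omega)
      have h4 : d * 1 ≤ d * B ^ i := Nat.mul_le_mul_left _ (hB i)
      have h5 : d * (B ^ i + 1) = d * B ^ i + d * 1 := by ring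
      omega
    · exact absurd ((hlg i hi x).2 h1) hx
  have hgap : ∀ i ∈ J, ∀ γ ∈ Gp lg σ L R, γ.2.1.length ≤ g i := by
    intro i hi γ hγ
    refine (mem_Gp_seg hv hL hR (hshort i hi) hγ).trans ?_
    have h1 : 2 * (d * B ^ i) + d ≤ 3 * (d * B ^ i) := by
      have : d * 1 ≤ d * B ^ i := Nat.mul_le_mul_left _ (hB i)
      omega
    calc (v + 1) * (2 * (d * B ^ i) + d) ≤ (v + 1) * (3 * (d * B ^ i)) :=
          Nat.mul_le_mul_left _ h1
      _ = g i := by simp only [g]; rw [hn]; ring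
  have hdata : ∀ i, ∃ (K : List A → Prop) (_ : DecidablePred K) (pre mid : X → List A), i ∈ J →
      Cut K (l i) σ pre mid lg ∧
      (∀ γ ∈ Gp lg σ L R, 1 ≤ (bl K σ pre mid γ).length ∧
        (bl K σ pre mid γ).length ≤ 5 * k) ∧
      ((Gp lg σ L R).toFinset.filter (fun γ => (bl K σ pre mid γ).length ≠ 1)).card ≤
        4 * k ^ 3 ∧
      (∀ γ ∈ Gp lg σ L R, ∀ B ∈ bl K σ pre mid γ, B.length ≤ (2 * k + 2) * ((N + 5) * l i)) ∧
      (∀ x, lg x → (pre x).length ≤ (2 * k + 2) * ((N + 5) * l i) ∧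
        (sfx K pre mid x).length ≤ (2 * k + 2) * ((N + 5) * l i)) ∧
      (∀ x, lg x → (tau K pre mid x).length ≤ k * (4 * (σ x).length / l i + 2)) := by
    intro i
    by_cases hi : i ∈ J
    · obtain ⟨K, dK, pre, mid, h⟩ := scaleD (d := g i) (l := l i) hk hN
        (hd.trans (hg1 i)) (hg1 i) rfl hX L R σ hmin hEB lg (hgap i hi) (hlong i hi)
      exact ⟨K, dK, pre, mid, fun _ => h⟩
    · exact ⟨fun _ => False, fun _ => instDecidableFalse, fun _ => [], fun _ => [],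
        fun h => absurd h hi⟩
  choose K dK pre mid hd' using hdata
  have hgl : ∀ γ ∈ Gp lg σ L R, ∀ y, γ.2.2 = some y → lg y := fun γ hγ => (mem_Gp_lg hγ).2
  obtain ⟨i, hi, j, hj, hij, φ, hφ, _⟩ := Pool.Agent.WK.code50 (O := Option X)
    (Gp lg σ L R).toFinset J (fun i => ox (@sfx A X (K i) (dK i) (pre i) (mid i)))
    (fun i => ox (pre i)) (fun i => @bl A X (K i) (dK i) σ (pre i) (mid i))
    (5 * k) (4 * k ^ 3)
    (fun i hi γ hγ => by
      rw [List.mem_toFinset] at hγ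
      let _ := dK i
      exact (hd' i hi).1.flatten_bl γ (hgl γ hγ))
    (fun i hi γ hγ => by
      rw [List.mem_toFinset] at hγ
      exact ((hd' i hi).2.1 γ hγ).2)
    (fun i hi => by
      refine ⟨_, (hd' i hi).2.2.1, Finset.filter_subset _ _, ?_⟩
      intro γ hγ h1
      by_contra h2
      exact h1 (Finset.mem_filter.2 ⟨hγ, h2⟩))
    (by
      refine lt_of_le_of_lt ?_ hcon
      have h1 : (Gp lg σ L R).toFinset.card ≤ n + 2 :=
        (List.toFinset_card_le _).trans ((length_Gp_vN hv).trans (by omega))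
      have h2 : Fintype.card (Option X) ≤ k + 1 := by
        rw [Fintype.card_option]; omega
      refine Nat.mul_le_mul ?_ ?_
      · exact Nat.pow_le_pow_left (Nat.mul_le_mul_right _ (by omega)) _
      · refine (Nat.pow_le_pow_left (Nat.succ_le_succ (Nat.pow_le_pow_left
          (Nat.add_le_add_right h1 _) 2)) _).trans (Nat.pow_le_pow_right (Nat.succ_pos _) ?_)
        exact Nat.add_le_add_right (Nat.mul_le_mul_left _ (Nat.pow_le_pow_left h2 2)) _)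
  let _ := dK i
  let _ := dK j
  obtain ⟨hC1, _, _, hb1, hp1, _⟩ := hd' i hi
  obtain ⟨hC2, _, _, _, _, ht2⟩ := hd' j hj
  have hl1 : 1 ≤ l j := by
    have h1 : 1 ≤ g j := hd.trans (hg1 j)
    have h2 : 1 * 1 ≤ (2 * N + 1) * g j := Nat.mul_le_mul (by omega) h1
    have h3 : 1 ≤ 20 * k * N := by
      have : 1 * 1 ≤ k * N := Nat.mul_le_mul hk (by omega)
      have e : 20 * k * N = 20 * (k * N) := by ring
      omega
    have h4 : 1 * 1 ≤ 20 * k * N * ((2 * N + 1) * g j) := Nat.mul_le_mul h3 (by omega)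
    simpa [l] using h4
  refine two_scales (Λ := (2 * k + 2) * ((N + 5) * l i)) L R hC1 hC2 hmin hk (hJ3 i0 hi0) φ
    (fun γ hγ => hφ γ (List.mem_toFinset.2 hγ)) hb1 hp1 ht2 ?_ hl1 ?_
  · have h1 : B ^ (i + 1) ≤ B ^ j := Nat.pow_le_pow_right hB1 hij
    have h2 : 20 * k * (2 * k + 2) * (N + 5) ≤ B := by
      refine le_trans ?_ hB3
      have h3 : 20 * k * (2 * k + 2) ≤ 80 * k ^ 2 := by nlinarith
      exact Nat.mul_le_mul_right _ h3
    calc 20 * k * ((2 * k + 2) * ((N + 5) * l i)) = 20 * k * (2 * k + 2) * (N + 5) * l i := by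
          ring
      _ ≤ B * l i := Nat.mul_le_mul_right _ h2
      _ = 20 * k * N * ((2 * N + 1) * (n * (d * B ^ (i + 1)))) := by simp only [l, g]; ring
      _ ≤ l j := Nat.mul_le_mul_left _ (Nat.mul_le_mul_left _ (Nat.mul_le_mul_left _
          (Nat.mul_le_mul_left _ h1)))
  · intro x hx
    have h1 := hlong j hj x hx
    nlinarith

theorem exp_le_two (C k v : ℕ) (hkv : k ≤ v) :
    (v + 2) ^ (C * (k + 1)) ≤ 2 ^ ((C + 1) * (3 * (v + 1) + 1) ^ (C + 1)) := by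
  have h1 : v + 2 ≤ 2 ^ (v + 2) := Nat.lt_two_pow_self.le
  have h2 : (v + 2) * (C * (k + 1)) ≤ (C + 1) * (3 * (v + 1) + 1) ^ (C + 1) := by
    rcases Nat.eq_zero_or_pos C with hC | hC
    · subst hC; simp
    · have h3 : (3 * (v + 1) + 1) ^ 2 ≤ (3 * (v + 1) + 1) ^ (C + 1) :=
        Nat.pow_le_pow_right (by omega) (by omega)
      have h4 : (v + 2) * (k + 1) ≤ (3 * (v + 1) + 1) ^ 2 := by nlinarith
      calc (v + 2) * (C * (k + 1)) = C * ((v + 2) * (k + 1)) := by ring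
        _ ≤ (C + 1) * (3 * (v + 1) + 1) ^ (C + 1) := Nat.mul_le_mul (by omega) (h4.trans h3)
  calc (v + 2) ^ (C * (k + 1)) ≤ (2 ^ (v + 2)) ^ (C * (k + 1)) := Nat.pow_le_pow_left h1 _
    _ = 2 ^ ((v + 2) * (C * (k + 1))) := (pow_mul _ _ _).symm
    _ ≤ _ := Nat.pow_le_pow_right (by norm_num) h2

theorem final_le (D v k : ℕ) :
    2 * 2 ^ ((3 * (v + 1) + 2) ^ (D * (k + 1) ^ 4)) ≤
      2 ^ ((v + 2) ^ ((3 * D + 1) * (k + 1) ^ 4)) := by
  have h1 : 3 * (v + 1) + 2 ≤ (v + 2) ^ 3 := by nlinarith [Nat.zero_le (v ^ 3), Nat.zero_le (v ^ 2)]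
  have h2 : (3 * (v + 1) + 2) ^ (D * (k + 1) ^ 4) ≤ (v + 2) ^ (3 * D * (k + 1) ^ 4) := by
    calc (3 * (v + 1) + 2) ^ (D * (k + 1) ^ 4) ≤ ((v + 2) ^ 3) ^ (D * (k + 1) ^ 4) :=
          Nat.pow_le_pow_left h1 _
      _ = (v + 2) ^ (3 * D * (k + 1) ^ 4) := by rw [← pow_mul]; ring_nf
  have h3 : 1 ≤ (v + 2) ^ (3 * D * (k + 1) ^ 4) := Nat.one_le_pow _ _ (by omega)
  have h4 : 1 ≤ (k + 1) ^ 4 := Nat.one_le_pow _ _ (by omega)
  have h5 : 2 * (v + 2) ^ (3 * D * (k + 1) ^ 4) ≤ (v + 2) ^ ((3 * D + 1) * (k + 1) ^ 4) := by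
    calc 2 * (v + 2) ^ (3 * D * (k + 1) ^ 4) ≤
        (v + 2) ^ ((k + 1) ^ 4) * (v + 2) ^ (3 * D * (k + 1) ^ 4) := by
          refine Nat.mul_le_mul_right _ ?_
          calc 2 ≤ v + 2 := by omega
            _ = (v + 2) ^ 1 := (pow_one _).symm
            _ ≤ (v + 2) ^ ((k + 1) ^ 4) := Nat.pow_le_pow_right (by omega) h4
      _ = _ := by rw [← pow_add]; ring_nf
  calc 2 * 2 ^ ((3 * (v + 1) + 2) ^ (D * (k + 1) ^ 4)) =
      2 ^ ((3 * (v + 1) + 2) ^ (D * (k + 1) ^ 4) + 1) := by rw [pow_succ]; ring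
    _ ≤ _ := Nat.pow_le_pow_right (by norm_num) (by omega)

/-- minimal solutions of word equations, in terms of the number of variables, the number of
variable occurrences and the length of the constant segments -/
theorem ratio_bound : ∃ C : ℕ, ∀ {A : Type u} {X : Type w} [Finite A] [Fintype X]
    (L R : List (A ⊕ X)) (v d : ℕ), Fintype.card X ≤ v → vN L + vN R ≤ v → 1 ≤ d →
    SegLe d L → SegLe d R → (∃ σ : X → List A, sb σ L = sb σ R) →
    ∃ σ : X → List A, sb σ L = sb σ R ∧ ∑ x, (σ x).length ≤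
      d * 2 ^ ((v + 2) ^ (C * (Fintype.card X + 1) ^ 4)) := by
  obtain ⟨C0, hexp⟩ := exp_boundD.{u, w}
  obtain ⟨D, hD⟩ := unif_bound (C0 + 1)
  refine ⟨3 * (D + 1) + 1, ?_⟩
  intro A X _ _ L R v d hXv hv hd hL hR hsol
  classical
  have := Fintype.ofFinite A
  by_cases hk0 : Fintype.card X = 0
  · obtain ⟨σ, hσ⟩ := hsol
    have : IsEmpty X := Fintype.card_eq_zero_iff.1 hk0
    exact ⟨σ, hσ, by simp⟩
  obtain ⟨k, hk⟩ : ∃ k, k = Fintype.card X := ⟨_, rfl⟩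
  obtain ⟨n, hn⟩ : ∃ n, n = 3 * (v + 1) := ⟨_, rfl⟩
  rw [← hk]
  rw [← hk] at hk0 hXv
  have hk1 : 1 ≤ k := Nat.one_le_iff_ne_zero.2 hk0
  have hX : Fintype.card X ≤ k := hk.ge
  obtain ⟨σ, hmin⟩ := exists_minSol hsol
  refine ⟨σ, hmin.1, ?_⟩
  obtain ⟨hb1, hb2, hb3⟩ := base_spec (n := n) hk1 (rfl : 2 ^ ((C0 + 1) * (n + 1) ^ (C0 + 1)) = _)
  have hN2 : 2 ≤ 2 ^ ((C0 + 1) * (n + 1) ^ (C0 + 1)) := by
    have h1 : 1 ≤ (C0 + 1) * (n + 1) ^ (C0 + 1) :=
      Nat.one_le_iff_ne_zero.2 (Nat.mul_ne_zero (by omega) (pow_ne_zero _ (by omega)))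
    calc 2 = 2 ^ 1 := by norm_num
      _ ≤ _ := Nat.pow_le_pow_right (by norm_num) h1
  have hEB : ∀ x, EBdd (2 ^ ((C0 + 1) * (n + 1) ^ (C0 + 1))) d (σ x) := by
    intro x
    refine EBdd.mono ?_ (hexp k v d L R hX hv hd hL hR σ hmin x)
    rw [hn]
    exact exp_le_two C0 k v hXv
  have hb3' : 80 * k ^ 2 * (2 ^ ((C0 + 1) * (n + 1) ^ (C0 + 1)) + 5) ≤ base k (C0 + 1) n := by
    rw [base]
    generalize 2 ^ ((C0 + 1) * (n + 1) ^ (C0 + 1)) = M
    have h1 : 2 * (M + 5) ≤ (M + 5) ^ 3 := by nlinarith [Nat.zero_le (M ^ 3), Nat.zero_le (M ^ 2)]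
    calc 80 * k ^ 2 * (M + 5) ≤ 60 * k ^ 2 * 1 * (2 * (M + 5)) := by nlinarith
      _ ≤ 60 * k ^ 2 * (n + 1) * (M + 5) ^ 3 :=
        Nat.mul_le_mul (Nat.mul_le_mul_left _ (by omega)) h1
  have hsum : ∑ x, (σ x).length / d ≤ 2 ^ ((n + 2) ^ ((D + 1) * (k + 1) ^ 4)) := by
    refine (scales_sum hX (by omega) (fun x => (σ x).length / d) (F := types5 k n) ?_).trans
      ((hD k n (types5 k n) hk1 (by omega) le_rfl).trans (Nat.pow_le_pow_right (by norm_num)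
        (Nat.pow_le_pow_right (by omega) (Nat.mul_le_mul_right _ (Nat.le_succ D)))))
    intro J hJ1 hJ2 hJ3
    exact few_scalesR hk1 hn hN2 hd hX L R hv hL hR σ hmin hEB (by omega) hb2 hb3' J hJ1 hJ2 hJ3
  have h1 : ∀ x, (σ x).length ≤ d * ((σ x).length / d) + d := by
    intro x
    have := Nat.lt_mul_div_succ (σ x).length (show 0 < d by omega)
    have e : d * ((σ x).length / d + 1) = d * ((σ x).length / d) + d := by ring
    omega
  have hk2 : k ≤ 2 ^ ((n + 2) ^ ((D + 1) * (k + 1) ^ 4)) := by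
    have e1 : (D + 1) * (k + 1) ^ 4 ≠ 0 := Nat.mul_ne_zero (by omega) (pow_ne_zero _ (by omega))
    have e2 : n + 2 ≤ (n + 2) ^ ((D + 1) * (k + 1) ^ 4) := Nat.le_self_pow e1 _
    exact (by omega : k ≤ (n + 2) ^ ((D + 1) * (k + 1) ^ 4)).trans Nat.lt_two_pow_self.le
  calc ∑ x, (σ x).length ≤ ∑ x, (d * ((σ x).length / d) + d) := Finset.sum_le_sum fun x _ => h1 x
    _ = d * (∑ x, (σ x).length / d) + Fintype.card X * d := by
      rw [Finset.sum_add_distrib, Finset.mul_sum]; simp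
    _ ≤ d * 2 ^ ((n + 2) ^ ((D + 1) * (k + 1) ^ 4)) +
        2 ^ ((n + 2) ^ ((D + 1) * (k + 1) ^ 4)) * d :=
      Nat.add_le_add (Nat.mul_le_mul_left _ hsum) (Nat.mul_le_mul_right _ (hX.trans hk2))
    _ = d * (2 * 2 ^ ((n + 2) ^ ((D + 1) * (k + 1) ^ 4))) := by ring
    _ ≤ d * 2 ^ ((v + 2) ^ ((3 * (D + 1) + 1) * (k + 1) ^ 4)) := by
      rw [hn]
      exact Nat.mul_le_mul_left _ (final_le (D + 1) v k)

end WK
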