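import Pool.Agent.WK.MainR64
import Pool.Agent.WK.FinG37

/-! Word equations with boundedly many variables (MP_fc7ad9_lc). Helper module:
ratio form for all alphabets and the variables that occur. -/

open WE45 WK64 WO45

namespace WK

universe u w

theorem ratio_final : ∃ C : ℕ, ∀ {A : Type u} {X : Type w} [Fintype X]
    (L R : List (A ⊕ X)) (V : Finset X) (v d : ℕ), (∀ x, Sum.inr x ∈ L ++ R → x ∈ V) →
    vN L + vN R ≤ v → 1 ≤ d → SegLe d L → SegLe d R → (∃ σ : X → List A, sb σ L = sb σ R) →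
    ∃ σ : X → List A, sb σ L = sb σ R ∧ ∑ x, (σ x).length ≤
      d * 2 ^ ((v + 2) ^ (C * (V.card + 1) ^ 4)) := by
  obtain ⟨C, hC⟩ := ratio_bound.{u, w}
  refine ⟨C, ?_⟩
  intro A X _ L R V v d hV hv hd hL hR hs
  obtain ⟨S, W, L', R', h1, h2, h3, h4, h5, h6⟩ := finishG L R V hV
  have e1 : vN L' = vN L := by
    rw [← h1]
    exact (vN_map37 _ _ _).symm
  have e2 : vN R' = vN R := by
    rw [← h2]
    exact (vN_map37 _ _ _).symm
  have e3 : Fintype.card {x // x ∈ W} = W.card := Fintype.card_coe W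
  have hL' : SegLe d L' := by
    intro w hw
    have := hL (w.map Subtype.val) (by
      rw [← h1]
      exact seg_map37 _ _ _ _ hw)
    rwa [List.length_map] at this
  have hR' : SegLe d R' := by
    intro w hw
    have := hR (w.map Subtype.val) (by
      rw [← h2]
      exact seg_map37 _ _ _ _ hw)
    rwa [List.length_map] at this
  obtain ⟨σ', h7, h8⟩ := hC L' R' v d (by rw [e3]; omega) (by omega) hd hL' hR' (h5 hs)
  obtain ⟨σ, h9, h10⟩ := h6 σ' h7
  refine ⟨σ, h9, ?_⟩
  rw [h10]
  refine h8.trans (Nat.mul_le_mul_left _ (Nat.pow_le_pow_right (by norm_num)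
    (Nat.pow_le_pow_right (by omega) (Nat.mul_le_mul_left _ (Nat.pow_le_pow_left ?_ 4)))))
  rw [e3]
  exact Nat.add_le_add_right (Finset.card_le_card h3) 1

end WK
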