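import Mathlib

/-!
# Periods of words, nonperiodic windows, few exceptional gap words

Helper file for MP_fc7ad9_lc (word equations with a fixed number of variables).
-/

set_option autoImplicit false

namespace WK

variable {A : Type*}

/-- `u` has the period `q` (also when `q ≥ |u|`). -/
def Per (q : ℕ) (u : List A) : Prop := ∀ i, i + q < u.length → u[i]? = u[i + q]?

/-- Exponent bound: every factor of `u` with period `q` is shorter than `N * q`. -/
def EBd (N : ℕ) (u : List A) : Prop := ∀ q z, 1 ≤ q → z <:+: u → Per q z → z.length < N * q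

theorem EBd.factor {N : ℕ} {u v : List A} (h : EBd N u) (hv : v <:+: u) : EBd N v :=
  fun q z hq hz hp => h q z hq (hz.trans hv) hp

theorem Per.zero (u : List A) : Per 0 u := fun _ _ => rfl

theorem Per.long {q : ℕ} {u : List A} (h : u.length ≤ q) : Per q u := fun i hi => by omega

theorem Per.factor {q : ℕ} {u v : List A} (h : Per q u) (hv : v <:+: u) : Per q v := by
  obtain ⟨a, b, rfl⟩ := hv
  intro i hi
  have h1 := h (a.length + i) (by simp only [List.length_append]; omega)
  rw [List.getElem?_append_left (by simp only [List.length_append]; omega),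
    List.getElem?_append_right (by omega),
    List.getElem?_append_left (by simp only [List.length_append]; omega),
    List.getElem?_append_right (by omega)] at h1
  rw [show a.length + i - a.length = i by omega, show a.length + i + q - a.length = i + q by omega]
    at h1
  exact h1

/-- Two occurrences of `z` at distance `e`. -/
theorem Per.two {u z a b a' b' : List A} {e : ℕ} (h1 : u = a ++ z ++ b) (h2 : u = a' ++ z ++ b')
    (he : a'.length = a.length + e) : Per e z := by
  intro i hi
  have k1 : u[a'.length + i]? = z[i]? := by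
    rw [h2, List.getElem?_append_left (by simp only [List.length_append]; omega),
      List.getElem?_append_right (by omega)]
    congr 1
    omega
  have k2 : u[a.length + (i + e)]? = z[i + e]? := by
    rw [h1, List.getElem?_append_left (by simp only [List.length_append]; omega),
      List.getElem?_append_right (by omega)]
    congr 1
    omega
  rw [← k1, ← k2, he]
  congr 1
  omega

/-- A border gives a period. -/
theorem Per.border {w z h k : List A} (h1 : w = z ++ h) (h2 : w = k ++ z) : Per h.length w := by
  intro i hi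
  have e1 : k.length = h.length := by
    have a1 := congrArg List.length h1
    have a2 := congrArg List.length h2
    simp only [List.length_append] at a1 a2
    omega
  have e2 : w.length = z.length + h.length := by rw [h1, List.length_append]
  have k1 : w[i]? = z[i]? := by rw [h1, List.getElem?_append_left (by omega)]
  have k2 : w[i + h.length]? = z[i]? := by
    rw [h2, List.getElem?_append_right (by omega)]
    congr 1
    omega
  rw [k1, k2]

theorem Per.sub {p q : ℕ} {u : List A} (hp : Per p u) (hq : Per q u) (hpq : p ≤ q)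
    (h : p + q ≤ u.length) : Per (q - p) u := by
  intro i hi
  by_cases h1 : i + q < u.length
  · rw [hq i h1, hp (i + (q - p)) (by omega)]
    congr 1
    omega
  · have h2 := hp (i - p) (by omega)
    have h3 := hq (i - p) (by omega)
    rw [show i - p + p = i by omega] at h2
    rw [show i - p + q = i + (q - p) by omega] at h3
    rw [← h2, h3]

theorem Per.gcd : ∀ (n : ℕ) {p q : ℕ} {u : List A}, p + q ≤ n → Per p u → Per q u →
    p + q ≤ u.length → Per (Nat.gcd p q) u
  | 0, p, q, u, hn, hp, hq, h => by
    have : p = 0 := by omega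
    have : q = 0 := by omega
    subst p q
    exact Per.zero u
  | n + 1, p, q, u, hn, hp, hq, h => by
    by_cases h0 : p = 0
    · subst h0; rw [Nat.gcd_zero_left]; exact hq
    by_cases h1 : q = 0
    · subst h1; rw [Nat.gcd_zero_right]; exact hp
    by_cases h2 : p ≤ q
    · have h3 := Per.gcd n (p := p) (q := q - p) (by omega) hp (hp.sub hq h2 h) (by omega)
      rwa [Nat.gcd_sub_self_right h2] at h3
    · have h3 := Per.gcd n (p := p - q) (q := q) (by omega) (hq.sub hp (by omega) (by omega)) hq
        (by omega)
      rwa [Nat.gcd_sub_self_left (by omega)] at h3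

/-- Weak Fine and Wilf theorem. -/
theorem Per.fw {p q : ℕ} {u : List A} (hp : Per p u) (hq : Per q u) (h : p + q ≤ u.length) :
    Per (Nat.gcd p q) u := Per.gcd (p + q) le_rfl hp hq h

theorem Per.mul {q : ℕ} {u : List A} (h : Per q u) (k : ℕ) : Per (k * q) u := by
  induction k with
  | zero => rw [zero_mul]; exact Per.zero u
  | succ k ih =>
    intro i hi
    rw [Nat.add_mul, one_mul] at hi ⊢
    rw [ih i (by omega), h (i + k * q) (by omega)]
    congr 1
    omega

theorem Per.modEq {q : ℕ} {u : List A} (h : Per q u) {a b : ℕ} (hab : a % q = b % q)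
    (ha : a < u.length) (hb : b < u.length) : u[a]? = u[b]? := by
  wlog hle : a ≤ b generalizing a b
  · exact (this hab.symm hb ha (by omega)).symm
  have h1 : b = a + (b / q - a / q) * q := by
    have e1 := Nat.div_add_mod a q
    have e2 := Nat.div_add_mod b q
    have e3 : a / q ≤ b / q := Nat.div_le_div_right hle
    obtain ⟨t, ht⟩ := Nat.exists_eq_add_of_le e3
    rw [ht, Nat.add_sub_cancel_left]
    rw [ht, Nat.mul_add] at e2
    rw [mul_comm t q]
    omega
  have h2 := h.mul (b / q - a / q) a (by rw [← h1]; exact hb)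
  rw [← h1] at h2
  exact h2

theorem exists_mod {q : ℕ} (hq : 0 < q) (c i : ℕ) : ∃ j, c ≤ j ∧ j < c + q ∧ j % q = i % q := by
  have h1 : c % q < q := Nat.mod_lt _ hq
  refine ⟨c + (i + (q - c % q)) % q, by omega, by
    have := Nat.mod_lt (i + (q - c % q)) hq
    omega, ?_⟩
  rw [Nat.add_mod, Nat.mod_mod, ← Nat.add_mod, ← Nat.add_assoc]
  have e1 := Nat.div_add_mod c q
  have e2 : c + i + (q - c % q) = i + q * (c / q) + q := by omega
  rw [e2, Nat.add_mod_right, Nat.add_mul_mod_self_left]

/-- If `u` has the period `q`, a factor of length at least `q` has the period `g` and `g` divides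
`q`, then `u` has the period `g`. -/
theorem Per.extend {q g : ℕ} {u z : List A} (h : Per q u) (hg : Per g z) (hz : z <:+: u)
    (hq : 0 < q) (hl : q ≤ z.length) (hd : g ∣ q) : Per g u := by
  obtain ⟨a, b, rfl⟩ := hz
  intro i hi
  obtain ⟨j, j1, j2, j3⟩ := exists_mod hq a.length i
  obtain ⟨j', j1', j2', j3'⟩ := exists_mod hq a.length (i + g)
  have hlen : (a ++ z ++ b).length = a.length + z.length + b.length := by
    simp only [List.length_append]
  rw [h.modEq j3.symm (by omega) (by omega), h.modEq j3'.symm (by omega) (by omega),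
    List.getElem?_append_left (by simp only [List.length_append]; omega),
    List.getElem?_append_right (by omega),
    List.getElem?_append_left (by simp only [List.length_append]; omega),
    List.getElem?_append_right (by omega)]
  refine hg.modEq ?_ (by omega) (by omega)
  have m1 : j % g = i % g := by
    rw [← Nat.mod_mod_of_dvd j hd, j3, Nat.mod_mod_of_dvd i hd]
  have m2 : j' % g = (i + g) % g := by
    rw [← Nat.mod_mod_of_dvd j' hd, j3', Nat.mod_mod_of_dvd (i + g) hd]
  rw [Nat.add_mod_right] at m2
  have m3 : j ≡ j' [MOD g] := by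
    show j % g = j' % g
    rw [m1, m2]
  have m4 : a.length + (j - a.length) ≡ a.length + (j' - a.length) [MOD g] := by
    rw [Nat.add_sub_cancel' j1, Nat.add_sub_cancel' j1']
    exact m3
  exact Nat.ModEq.add_left_cancel' _ m4

/-- Local periods smaller than half of the window give a period of the whole word. -/
theorem Per.windows {l : ℕ} (u : List A) (hl : l ≤ u.length)
    (h : ∀ z, z <:+: u → z.length = l → ∃ p, 1 ≤ p ∧ 2 * p < l ∧ Per p z) :
    ∃ p, 1 ≤ p ∧ 2 * p < l ∧ Per p u := by
  induction u using List.reverseRecOn with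
  | nil =>
    exact h [] (List.infix_refl _) (hl.antisymm (Nat.zero_le _)).symm
  | append_singleton u a ih =>
    by_cases h0 : l = (u ++ [a]).length
    · exact h _ (List.infix_refl _) h0.symm
    · rw [List.length_append, List.length_singleton] at hl h0
      have h1 : l ≤ u.length := by omega
      obtain ⟨p, hp1, hp2, hp⟩ := ih h1 fun z hz hzl =>
        h z (hz.trans (List.prefix_append u [a]).isInfix) hzl
      -- the last window
      have hv : (u ++ [a]).drop (u.length + 1 - l) <:+: u ++ [a] :=
        (List.drop_suffix _ _).isInfix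
      have hvl : ((u ++ [a]).drop (u.length + 1 - l)).length = l := by
        rw [List.length_drop, List.length_append, List.length_singleton]; omega
      obtain ⟨p', hp1', hp2', hp'⟩ := h _ hv hvl
      have hve : (u ++ [a]).drop (u.length + 1 - l) = u.drop (u.length + 1 - l) ++ [a] := by
        rw [List.drop_append_of_le_length (by omega)]
      have hol : (u.drop (u.length + 1 - l)).length = l - 1 := by
        rw [List.length_drop]; omega
      have ho1 : u.drop (u.length + 1 - l) <:+: u := (List.drop_suffix _ _).isInfix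
      have ho2 : u.drop (u.length + 1 - l) <:+: (u ++ [a]).drop (u.length + 1 - l) := by
        rw [hve]; exact (List.prefix_append _ _).isInfix
      have hg := (hp.factor ho1).fw (hp'.factor ho2) (by omega)
      have hgp : 1 ≤ Nat.gcd p p' := Nat.gcd_pos_of_pos_left _ hp1
      have hgle : Nat.gcd p p' ≤ p := Nat.gcd_le_left _ hp1
      refine ⟨Nat.gcd p p', hgp, by omega, ?_⟩
      have hu : Per (Nat.gcd p p') u := hp.extend hg ho1 hp1 (by omega) (Nat.gcd_dvd_left _ _)
      have hw : Per (Nat.gcd p p') ((u ++ [a]).drop (u.length + 1 - l)) :=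
        hp'.extend hg ho2 hp1' (by omega) (Nat.gcd_dvd_right _ _)
      intro i hi
      rw [List.length_append, List.length_singleton] at hi
      by_cases h2 : i + Nat.gcd p p' < u.length
      · rw [List.getElem?_append_left (by omega), List.getElem?_append_left h2]
        exact hu i h2
      · have h3 := hw (i - (u.length + 1 - l)) (by rw [hvl]; omega)
        rw [List.getElem?_drop, List.getElem?_drop] at h3
        rw [show u.length + 1 - l + (i - (u.length + 1 - l)) = i by omega,
          show u.length + 1 - l + (i - (u.length + 1 - l) + Nat.gcd p p') = i + Nat.gcd p p'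
            by omega] at h3
        exact h3

/-- Under the run bound every factor of length at least `N * l` has a factor of length `l` without
small periods. -/
theorem EBd.window {N l : ℕ} {u : List A} (h : EBd N u) (hl : l ≤ u.length)
    (hN : N * l ≤ u.length) :
    ∃ z, z <:+: u ∧ z.length = l ∧ ∀ p, 1 ≤ p → 2 * p < l → ¬ Per p z := by
  by_contra hc
  obtain ⟨p, h1, h2, h3⟩ := Per.windows u hl fun z hz hzl => by
    by_contra hq
    exact hc ⟨z, hz, hzl, fun p k1 k2 k3 => hq ⟨p, k1, k2, k3⟩⟩
  have h4 := h p u h1 (List.infix_refl u) h3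
  have h5 : N * p ≤ N * l := Nat.mul_le_mul_left N (by omega)
  omega

theorem exists_nonper {N l : ℕ} {u : List A} (hu : EBd N u) (hN : 1 ≤ N) (_hl : 1 ≤ l)
    (h : N * l ≤ u.length) :
    ∃ a z b, u = a ++ z ++ b ∧ z.length = l ∧ ∀ p, 1 ≤ p → 2 * p < l → ¬ Per p z := by
  have h1 : 1 * l ≤ N * l := Nat.mul_le_mul_right l hN
  obtain ⟨z, ⟨a, b, hz⟩, hz2, hz3⟩ := hu.window (by omega) h
  exact ⟨a, z, b, hz.symm, hz2, hz3⟩

theorem per_of_two {z a b a' b' : List A} {e : ℕ} (h : a ++ z ++ b = a' ++ z ++ b')
    (he : a'.length = a.length + e) : Per e z := Per.two rfl h he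

/-! ### Two decompositions `z ++ G` of a word, `z` a suffix of `u` -/

theorem two_ends {N d : ℕ} {u r z z' G G' : List A} (hr : EBd N r) (h1 : r = z ++ G)
    (h2 : r = z' ++ G') (hz : z <:+ u) (hz' : z' <:+ u) (hG : G.length ≤ d) (hG' : G'.length ≤ d)
    (hl : N * d ≤ z.length) (hl' : N * d ≤ z'.length) : G = G' := by
  wlog hle : G.length ≤ G'.length generalizing z z' G G'
  · exact (this h2 h1 hz' hz hG' hG hl' hl (by omega)).symm
  have hlen : z.length + G.length = z'.length + G'.length := by
    have a1 := congrArg List.length h1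
    have a2 := congrArg List.length h2
    simp only [List.length_append] at a1 a2
    omega
  rcases hle.eq_or_lt with he | hlt
  · exact (List.append_inj' (h1.symm.trans h2) he).2
  · exfalso
    -- `z = z' ++ h`
    have hp : z' <+: z := by
      have a1 : z' <+: r := ⟨G', h2.symm⟩
      have a2 : z <+: r := ⟨G, h1.symm⟩
      exact List.prefix_of_prefix_length_le a1 a2 (by omega)
    have hs : z' <:+ z := List.suffix_of_suffix_length_le hz' hz (by omega)
    obtain ⟨h, hh⟩ := hp
    obtain ⟨k, hk⟩ := hs
    have hper : Per h.length z := Per.border hh.symm hk.symm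
    have hhl : h.length = G'.length - G.length := by
      have a1 := congrArg List.length hh
      simp only [List.length_append] at a1
      omega
    have hzr : z <:+: r := List.IsPrefix.isInfix ⟨G, h1.symm⟩
    have h3 := hr h.length z (by omega) hzr hper
    have h4 : N * h.length ≤ N * d := Nat.mul_le_mul_left N (by omega)
    omega

/-- Core of the few exceptions lemma: three decompositions with long right parts. -/
theorem three_right {N d l E : ℕ} {u v m : List A} (hb : EBd N m)
    (hm : m.length = l) (hdE : d ≤ E) (hl : 2 * (N * ((N + 1) * d)) + d ≤ l)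
    {u1 u2 u3 G1 G2 G3 v1 v2 v3 : List A}
    (e1 : m = u1 ++ G1 ++ v1) (e2 : m = u2 ++ G2 ++ v2) (e3 : m = u3 ++ G3 ++ v3)
    (hu2 : u2 <:+ u) (hu3 : u3 <:+ u)
    (hv1 : v1 <+: v) (hv2 : v2 <+: v) (hv3 : v3 <+: v)
    (hG2 : G2.length ≤ d) (hG3 : G3.length ≤ d) (lu1 : E < u1.length)
    (r2 : l - d ≤ 2 * v2.length) (r3 : l - d ≤ 2 * v3.length)
    (h12 : v2.length < v1.length) (h23 : v3.length < v2.length) : G2 = G3 := by
  have L1 : u1.length + G1.length + v1.length = l := by rw [← hm, e1]; simp [add_assoc]
  have L2 : u2.length + G2.length + v2.length = l := by rw [← hm, e2]; simp [add_assoc]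
  have L3 : u3.length + G3.length + v3.length = l := by rw [← hm, e3]; simp [add_assoc]
  -- the periods of `v1`
  have p2 : v2 <+: v1 := List.prefix_of_prefix_length_le hv2 hv1 (by omega)
  have p3 : v3 <+: v1 := List.prefix_of_prefix_length_le hv3 hv1 (by omega)
  have s2 : v2 <:+ v1 := by
    have a1 : v2 <:+ m := ⟨u2 ++ G2, e2.symm⟩
    have a2 : v1 <:+ m := ⟨u1 ++ G1, e1.symm⟩
    exact List.suffix_of_suffix_length_le a1 a2 (by omega)
  have s3 : v3 <:+ v1 := by
    have a1 : v3 <:+ m := ⟨u3 ++ G3, e3.symm⟩
    have a2 : v1 <:+ m := ⟨u1 ++ G1, e1.symm⟩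
    exact List.suffix_of_suffix_length_le a1 a2 (by omega)
  obtain ⟨y2, hy2⟩ := s2
  obtain ⟨y3, hy3⟩ := s3
  obtain ⟨b2, hb2⟩ := p2
  obtain ⟨b3, hb3⟩ := p3
  have ly2 : y2.length + v2.length = v1.length := by rw [← hy2]; simp
  have ly3 : y3.length + v3.length = v1.length := by rw [← hy3]; simp
  have lb2 : v2.length + b2.length = v1.length := by rw [← hb2]; simp
  have lb3 : v3.length + b3.length = v1.length := by rw [← hb3]; simp
  have P2 : Per y2.length v1 := by
    have := Per.border hb2.symm hy2.symm
    rwa [show b2.length = y2.length by omega] at this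
  have P3 : Per y3.length v1 := by
    have := Per.border hb3.symm hy3.symm
    rwa [show b3.length = y3.length by omega] at this
  have P23 : Per (y3.length - y2.length) v1 := P2.sub P3 (by omega) (by omega)
  -- `y2` is a suffix of `y3`
  have hys : y3.drop (y3.length - y2.length) = y2 := by
    apply List.ext_getElem?
    intro t
    by_cases ht : t < y2.length
    · rw [List.getElem?_drop]
      have a1 : y3[y3.length - y2.length + t]? = v1[y3.length - y2.length + t]? := by
        rw [← hy3, List.getElem?_append_left (by omega)]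
      have a2 : y2[t]? = v1[t]? := by
        rw [← hy2, List.getElem?_append_left ht]
      rw [a1, a2, P23 t (by omega)]
      congr 1
      omega
    · rw [List.getElem?_eq_none (by rw [List.length_drop]; omega),
        List.getElem?_eq_none (by omega)]
  have w2 : u2 ++ G2 = (u1 ++ G1) ++ y2 := by
    have a : (u2 ++ G2) ++ v2 = ((u1 ++ G1) ++ y2) ++ v2 := by
      rw [← e2, List.append_assoc (u1 ++ G1), hy2, ← e1]
    exact List.append_cancel_right a
  have w3 : u3 ++ G3 = (u1 ++ G1) ++ y3 := by
    have a : (u3 ++ G3) ++ v3 = ((u1 ++ G1) ++ y3) ++ v3 := by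
      rw [← e3, List.append_assoc (u1 ++ G1), hy3, ← e1]
    exact List.append_cancel_right a
  have r2' : y2 <:+ u2 ++ G2 := by rw [w2]; exact List.suffix_append _ _
  have r3' : y2 <:+ u3 ++ G3 := by
    rw [w3]
    refine List.IsSuffix.trans ?_ (List.suffix_append _ _)
    rw [← hys]
    exact List.drop_suffix _ _
  -- the length of `y2`
  have hlen : v1.length < N * y2.length := by
    have := hb y2.length v1 (by omega) (List.IsSuffix.isInfix ⟨u1 ++ G1, e1.symm⟩) P2
    exact this
  have hbig : (N + 1) * d ≤ y2.length := by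
    by_contra hc
    have h1 : N * y2.length ≤ N * ((N + 1) * d) := Nat.mul_le_mul_left N (by omega)
    omega
  have hNd : (N + 1) * d = N * d + d := by ring
  -- decompositions
  have key : ∀ {x G : List A}, x <:+ u → G.length ≤ d → y2 <:+ x ++ G →
      ∃ z, y2 = z ++ G ∧ z <:+ u ∧ N * d ≤ z.length := by
    intro x G hx hG hs
    obtain ⟨c, hc⟩ := hs
    have hGs : G <:+ y2 := by
      have a1 : G <:+ x ++ G := List.suffix_append _ _
      have a2 : y2 <:+ x ++ G := ⟨c, hc⟩
      exact List.suffix_of_suffix_length_le a1 a2 (by omega)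
    obtain ⟨z, hz⟩ := hGs
    refine ⟨z, hz.symm, ?_, ?_⟩
    · have a : (c ++ z) ++ G = x ++ G := by rw [List.append_assoc, hz, hc]
      have a' : c ++ z = x := List.append_cancel_right a
      exact List.IsSuffix.trans ⟨c, a'⟩ hx
    · have := congrArg List.length hz
      simp only [List.length_append] at this
      omega
  obtain ⟨z2, z2e, z2u, z2l⟩ := key hu2 hG2 r2'
  obtain ⟨z3, z3e, z3u, z3l⟩ := key hu3 hG3 r3'
  have hy2m : y2 <:+: m := by
    have a1 : y2 <+: v1 := ⟨v2, hy2⟩
    exact a1.isInfix.trans (List.IsSuffix.isInfix ⟨u1 ++ G1, e1.symm⟩)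
  exact two_ends (hb.factor hy2m) z2e z3e z2u z3u hG2 hG3 z2l z3l

/-- `G` is an exceptional gap word with a long right part. -/
def ExR (d l E : ℕ) (u v m G : List A) : Prop :=
  G.length ≤ d ∧ ∃ u' v', m = u' ++ G ++ v' ∧ u' <:+ u ∧ v' <+: v ∧ E < u'.length ∧
    l - d ≤ 2 * v'.length

theorem exR_card {N d l E : ℕ} {u v m : List A} (hb : EBd N m)
    (hm : m.length = l) (hE : N * d ≤ E) (hdE : d ≤ E) (hl : 2 * (N * ((N + 1) * d)) + d ≤ l)
    (S : Finset (List A)) (hS : ∀ G ∈ S, ExR d l E u v m G) : S.card ≤ 2 := by
  classical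
  by_contra hc
  obtain ⟨a, ha, b, hbS, c, hcc, hab, hac, hbc⟩ := Finset.two_lt_card.1 (not_le.1 hc)
  -- choice of the right parts
  have hch : ∀ G ∈ S, ∃ v' : List A, G.length ≤ d ∧ ∃ u', m = u' ++ G ++ v' ∧ u' <:+ u ∧
      v' <+: v ∧ E < u'.length ∧ l - d ≤ 2 * v'.length := by
    intro G hG
    obtain ⟨h1, u', v', h2⟩ := hS G hG
    exact ⟨v', h1, u', h2⟩
  choose! V hV using hch
  -- different words have different lengths of the right parts
  have hne : ∀ G ∈ S, ∀ G' ∈ S, G ≠ G' → (V G).length ≠ (V G').length := by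
    intro G hG G' hG' hn he
    obtain ⟨g1, u1, g2, g3, g4, g5, g6⟩ := hV G hG
    obtain ⟨g1', u1', g2', g3', g4', g5', g6'⟩ := hV G' hG'
    apply hn
    have e : (u1 ++ G) ++ V G = (u1' ++ G') ++ V G' := g2.symm.trans g2'
    have e' := (List.append_inj' e he).1
    have hbi : EBd N (u1 ++ G) := hb.factor (List.IsPrefix.isInfix ⟨V G, g2.symm⟩)
    exact two_ends hbi rfl e' g3 g3' g1 g1' (by omega) (by omega)
  have main : ∀ G1 ∈ S, ∀ G2 ∈ S, ∀ G3 ∈ S, (V G2).length < (V G1).length →
      (V G3).length < (V G2).length → False := by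
    intro G1 h1 G2 h2 G3 h3 h12 h23
    obtain ⟨a1, u1, a2, a3, a4, a5, a6⟩ := hV G1 h1
    obtain ⟨b1, u2, b2, b3, b4, b5, b6⟩ := hV G2 h2
    obtain ⟨c1, u3, c2, c3, c4, c5, c6⟩ := hV G3 h3
    have := three_right hb hm hdE hl a2 b2 c2 b3 c3 a4 b4 c4 b1 c1 a5 b6 c6 h12 h23
    rw [this] at h23
    omega
  have n1 := hne a ha b hbS hab
  have n2 := hne a ha c hcc hac
  have n3 := hne b hbS c hcc hbc
  rcases lt_or_gt_of_ne n1 with h1 | h1
  · rcases lt_or_gt_of_ne n2 with h2 | h2
    · rcases lt_or_gt_of_ne n3 with h3 | h3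
      · exact main c hcc b hbS a ha h3 h1
      · exact main b hbS c hcc a ha h3 h2
    · exact main b hbS a ha c hcc h1 h2
  · rcases lt_or_gt_of_ne n2 with h2 | h2
    · exact main c hcc a ha b hbS h2 h1
    · rcases lt_or_gt_of_ne n3 with h3 | h3
      · exact main a ha c hcc b hbS h2 h3
      · exact main a ha b hbS c hcc h1 h3

theorem Per.reverse {q : ℕ} {u : List A} (h : Per q u) : Per q u.reverse := by
  intro i hi
  rw [List.length_reverse] at hi
  rw [List.getElem?_reverse (by omega), List.getElem?_reverse (by omega)]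
  have h1 := h (u.length - 1 - (i + q)) (by omega)
  rw [h1]
  congr 1
  omega

theorem EBd.reverse {N : ℕ} {u : List A} (h : EBd N u) : EBd N u.reverse := by
  intro q z hq hz hp
  have h1 : z.reverse <:+: u := by
    have := List.reverse_infix.2 hz
    rwa [List.reverse_reverse] at this
  have h2 := h q _ hq h1 hp.reverse
  rwa [List.length_reverse] at h2

/-- Few exceptions: at most four gap words `G` of length at most `d` have `m = u' ++ G ++ v'` with
`u'` a suffix of `u`, `v'` a prefix of `v`, both longer than `E`. -/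
theorem few_exc {N d l E : ℕ} {u v m : List A} (hb : EBd N m)
    (hm : m.length = l) (hE : N * d ≤ E) (hdE : d ≤ E) (hl : 2 * (N * ((N + 1) * d)) + d ≤ l)
    (S : Finset (List A)) (hS : ∀ G ∈ S, G.length ≤ d ∧ ∃ u' v', m = u' ++ G ++ v' ∧
      u' <:+ u ∧ v' <+: v ∧ E < u'.length ∧ E < v'.length) : S.card ≤ 4 := by
  classical
  have h1 : (S.filter (ExR d l E u v m)).card ≤ 2 :=
    exR_card hb hm hE hdE hl _ fun G hG => (Finset.mem_filter.1 hG).2
  have h2 : ((S.filter fun G => ¬ ExR d l E u v m G).image List.reverse).card ≤ 2 := by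
    refine exR_card (u := v.reverse) (v := u.reverse) (m := m.reverse) hb.reverse
      (by rw [List.length_reverse]; exact hm) hE hdE hl _ ?_
    intro G' hG'
    obtain ⟨G, hG, rfl⟩ := Finset.mem_image.1 hG'
    obtain ⟨hGS, hGn⟩ := Finset.mem_filter.1 hG
    obtain ⟨g1, u', v', g2, g3, g4, g5, g6⟩ := hS G hGS
    refine ⟨by rw [List.length_reverse]; exact g1, v'.reverse, u'.reverse, ?_, ?_, ?_, ?_, ?_⟩
    · rw [g2]; simp [List.reverse_append, List.append_assoc]
    · exact List.reverse_suffix.2 g4
    · exact List.reverse_prefix.2 g3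
    · rw [List.length_reverse]; exact g6
    · rw [List.length_reverse]
      have L1 : u'.length + G.length + v'.length = l := by rw [← hm, g2]; simp [add_assoc]
      by_contra hc
      exact hGn ⟨g1, u', v', g2, g3, g4, g5, by omega⟩
  rw [Finset.card_image_of_injective _ List.reverse_injective] at h2
  have h3 := Finset.card_filter_add_card_filter_not (s := S) (ExR d l E u v m)
  omega

/-- The same with the constants of the blueprint. -/
theorem few_gaps {N d E : ℕ} {u v m : List A} (_hu : EBd N u) (hm : EBd N m) (hN : 1 ≤ N)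
    (hE : 2 * N * d ≤ E) (_hd : 1 ≤ d) (hl : 2 * N * (N + 1) * d + d < m.length)
    (S : Finset (List A)) (hS : ∀ G ∈ S, G.length ≤ d ∧ ∃ u' v', m = u' ++ G ++ v' ∧
      u' <:+ u ∧ v' <+: v ∧ E < u'.length ∧ E < v'.length) : S.card ≤ 4 := by
  have h1 : 1 * d ≤ N * d := Nat.mul_le_mul_right d hN
  have h2 : 2 * N * d = N * d + N * d := by ring
  have h3 : 2 * N * (N + 1) * d = 2 * (N * ((N + 1) * d)) := by ring
  exact few_exc hm rfl (by omega) (by omega) (by omega) S hS

end WK
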