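import Pool.Agent.WK64.Parse
import Pool.Agent.WK.Words21

/-! Word equations with boundedly many variables (MP_fc7ad9_lc). Helper module:
common definitions. -/

open WE45 WK64

namespace WK

/-- solution of minimal total length -/
def MinSol {A X : Type*} [Fintype X] (L R : List (A ⊕ X)) (σ : X → List A) : Prop :=
  sb σ L = sb σ R ∧ ∀ σ' : X → List A, sb σ' L = sb σ' R →
    ∑ x, (σ x).length ≤ ∑ x, (σ' x).length

/-- a marker ends here -/
def KM {A X : Type*} (lg : X → Prop) (mk : X → List A) (h : List A) : Prop :=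
  ∃ x, lg x ∧ mk x <:+ h

noncomputable instance {A X : Type*} (lg : X → Prop) (mk : X → List A) :
    DecidablePred (KM lg mk) := Classical.decPred _

/-- all gaps of the equation -/
def Gp {A X : Type*} (lg : X → Prop) [DecidablePred lg] (σ : X → List A) (L R : List (A ⊕ X)) :
    List (Option X × List A × Option X) :=
  trs none (gf lg σ L).1 (gf lg σ L).2 ++ trs none (gf lg σ R).1 (gf lg σ R).2

theorem KM.loc {A X : Type*} {lg : X → Prop} {mk : X → List A} {l : ℕ}
    (hm : ∀ x, lg x → (mk x).length = l) : Loc (KM lg mk) l := by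
  intro h t ht
  constructor
  · rintro ⟨x, hx, h1⟩
    refine ⟨x, hx, ?_⟩
    exact List.suffix_of_suffix_length_le h1 (List.suffix_append h t)
      (by rw [hm x hx]; exact ht)
  · rintro ⟨x, hx, h1⟩
    exact ⟨x, hx, h1.trans (List.suffix_append h t)⟩

theorem KM.length_le {A X : Type*} {lg : X → Prop} {mk : X → List A} {l : ℕ}
    (hm : ∀ x, lg x → (mk x).length = l) {h : List A} (hK : KM lg mk h) : l ≤ h.length := by
  obtain ⟨x, hx, h1⟩ := hK
  rw [← hm x hx]
  exact h1.length_le

end WK
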