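import Pool.Agent.WE45.Enc

/-!
# Reduction to finite alphabets

Helper file for MP_fc7ad9_lc (word equations with a fixed number of variables).
-/

set_option autoImplicit false

namespace WK

open WE45

universe u w

variable {A : Type u} {X : Type w}

/-- Letters in `S` kept, the others erased. -/
def ers [DecidableEq A] (S : Finset A) (a : A) : Option {a // a ∈ S} :=
  if h : a ∈ S then some ⟨a, h⟩ else none

/-- Restriction of a word to the letters of `S` and the variables. -/
def rsa [DecidableEq A] (S : Finset A) : List (A ⊕ X) → List ({a // a ∈ S} ⊕ X)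
  | [] => []
  | .inl a :: l => if h : a ∈ S then .inl ⟨a, h⟩ :: rsa S l else rsa S l
  | .inr x :: l => .inr x :: rsa S l

theorem length_rsa [DecidableEq A] (S : Finset A) : ∀ l : List (A ⊕ X),
    (rsa S l).length ≤ l.length
  | [] => le_rfl
  | .inr x :: l => by
      have := length_rsa S l
      simp only [rsa, List.length_cons]; omega
  | .inl a :: l => by
      have := length_rsa S l
      simp only [rsa]
      split_ifs
      · simp only [List.length_cons]; omega
      · simp only [List.length_cons]; omega

theorem sb_ers [DecidableEq A] (S : Finset A) (σ : X → List A) : ∀ l : List (A ⊕ X),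
    sb (fun x => (σ x).filterMap (ers S)) (rsa S l) = (sb σ l).filterMap (ers S)
  | [] => rfl
  | .inr x :: l => by
      simp only [rsa]
      rw [sb_inr, sb_inr, List.filterMap_append, sb_ers S σ l]
  | .inl a :: l => by
      simp only [rsa]
      by_cases h : a ∈ S
      · have e : ers S a = some ⟨a, h⟩ := dif_pos h
        rw [dif_pos h, sb_inl, sb_inl, List.filterMap_cons, e, sb_ers S σ l]
      · have e : ers S a = none := dif_neg h
        rw [dif_neg h, sb_inl, List.filterMap_cons, e, sb_ers S σ l]

theorem sb_val [DecidableEq A] (S : Finset A) (τ : X → List {a // a ∈ S}) :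
    ∀ l : List (A ⊕ X), (∀ a, .inl a ∈ l → a ∈ S) →
      sb (fun x => (τ x).map Subtype.val) l = (sb τ (rsa S l)).map Subtype.val
  | [], _ => rfl
  | .inr x :: l, h => by
      simp only [rsa]
      rw [sb_inr, sb_inr, List.map_append,
        sb_val S τ l fun a ha => h a (List.mem_cons_of_mem _ ha)]
  | .inl a :: l, h => by
      have ha : a ∈ S := h a (by simp)
      simp only [rsa]
      rw [dif_pos ha, sb_inl, sb_inl, List.map_cons,
        sb_val S τ l fun a ha => h a (List.mem_cons_of_mem _ ha)]

/-- The bound for finite alphabets gives the bound for all alphabets. -/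
theorem alph {k C : ℕ}
    (H : ∀ {A : Type u} {X : Type w} [Fintype A] [DecidableEq A] [Fintype X] [DecidableEq X]
      (L R : List (A ⊕ X)), Fintype.card X ≤ k → (∃ σ : X → List A, sb σ L = sb σ R) →
      ∃ σ : X → List A, sb σ L = sb σ R ∧
        ∑ x, (σ x).length ≤ 2 ^ (C * (L.length + R.length) ^ C))
    {A : Type u} {X : Type w} [Fintype X] [DecidableEq X] (L R : List (A ⊕ X))
    (hk : Fintype.card X ≤ k) (hs : ∃ σ : X → List A, sb σ L = sb σ R) :
    ∃ σ : X → List A, sb σ L = sb σ R ∧
      ∑ x, (σ x).length ≤ 2 ^ (C * (L.length + R.length) ^ C) := by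
  classical
  obtain ⟨σ, hσ⟩ := hs
  -- the letters of the equation
  let S : Finset A := ((L ++ R).filterMap Sum.getLeft?).toFinset
  have hS : ∀ a, Sum.inl a ∈ L ++ R → a ∈ S := by
    intro a ha
    show a ∈ ((L ++ R).filterMap Sum.getLeft?).toFinset
    rw [List.mem_toFinset, List.mem_filterMap]
    exact ⟨Sum.inl a, ha, rfl⟩
  obtain ⟨τ, hτ, hb⟩ := H (rsa S L) (rsa S R) hk
    ⟨fun x => (σ x).filterMap (ers S), by rw [sb_ers, sb_ers, hσ]⟩
  refine ⟨fun x => (τ x).map Subtype.val, ?_, ?_⟩
  · rw [sb_val S τ L fun a ha => hS a (List.mem_append_left _ ha),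
      sb_val S τ R fun a ha => hS a (List.mem_append_right _ ha), hτ]
  · have e1 : ∑ x, ((τ x).map Subtype.val).length = ∑ x, (τ x).length :=
      Finset.sum_congr rfl fun x _ => List.length_map _
    rw [e1]
    refine hb.trans (Nat.pow_le_pow_right (by norm_num) (Nat.mul_le_mul_left C ?_))
    exact Nat.pow_le_pow_left (Nat.add_le_add (length_rsa S L) (length_rsa S R)) C

end WK
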