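import Pool.Agent.WK.Types64
import Pool.Agent.WK.Unif23

/-! Word equations with boundedly many variables (MP_fc7ad9_lc). Helper module:
the final numerical bound, uniform in the number of variables. -/

namespace WK

theorem types_le {q k N : ℕ} (hq : 4 ≤ q) (hN : N + 2 = q) (hk : k ≤ N) :
    2 ^ k * types k N + k + 1 ≤ q ^ (727 * (k + 1) ^ 4) := by
  have hq0 : 0 < q := by omega
  have hkq : k ≤ q := by omega
  have q1 : k ^ 3 ≤ (k + 1) ^ 4 := by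
    calc k ^ 3 ≤ (k + 1) ^ 3 := Nat.pow_le_pow_left (Nat.le_succ k) 3
      _ ≤ (k + 1) ^ 4 := Nat.pow_le_pow_right (Nat.succ_pos k) (by norm_num)
  have q2 : (k + 1) ^ 2 ≤ (k + 1) ^ 4 := Nat.pow_le_pow_right (Nat.succ_pos k) (by norm_num)
  have q3 : k ^ 4 ≤ (k + 1) ^ 4 := Nat.pow_le_pow_left (Nat.le_succ k) 4
  have q4 : k ≤ (k + 1) ^ 4 := by
    calc k ≤ k + 1 := Nat.le_succ k
      _ ≤ (k + 1) ^ 4 := Nat.le_self_pow (by norm_num) _
  have q5 : 1 ≤ (k + 1) ^ 4 := Nat.one_le_pow _ _ (Nat.succ_pos k)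
  have q6 : 4 * k ^ 3 * (10 * k + 1) = 40 * k ^ 4 + 4 * k ^ 3 := by ring
  set K := (k + 1) ^ 4 with hK
  have a1 : (N + 2 + 1) * (10 * k + 1 + 1) ≤ q ^ 5 := by
    have h1 : N + 2 + 1 ≤ q ^ 2 := by nlinarith
    have h2 : 10 * k + 1 + 1 ≤ q ^ 3 := by
      have : 16 * q ≤ q ^ 3 := by
        calc 16 * q ≤ q ^ 2 * q := Nat.mul_le_mul_right _ (by nlinarith)
          _ = q ^ 3 := by ring
      omega
    calc (N + 2 + 1) * (10 * k + 1 + 1) ≤ q ^ 2 * q ^ 3 := Nat.mul_le_mul h1 h2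
      _ = q ^ 5 := by ring
  have a2 : (N + 2 + 4 * k ^ 3 * (10 * k + 1)) ^ 2 + 1 ≤ q ^ 15 := by
    have h2 : k ^ 4 ≤ q ^ 4 := Nat.pow_le_pow_left hkq 4
    have h2' : k ^ 3 ≤ q ^ 4 := by
      calc k ^ 3 ≤ q ^ 3 := Nat.pow_le_pow_left hkq 3
        _ ≤ q ^ 4 := Nat.pow_le_pow_right hq0 (by norm_num)
    have h3 : q ≤ q ^ 4 := Nat.le_self_pow (by norm_num) _
    have h4 : 64 * q ^ 4 ≤ q ^ 7 := by
      have : 64 ≤ q ^ 3 := by
        calc 64 = 4 ^ 3 := by norm_num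
          _ ≤ q ^ 3 := Nat.pow_le_pow_left hq 3
      calc 64 * q ^ 4 ≤ q ^ 3 * q ^ 4 := Nat.mul_le_mul_right _ this
        _ = q ^ 7 := by ring
    have h5 : N + 2 + 4 * k ^ 3 * (10 * k + 1) ≤ q ^ 7 := by
      rw [q6]
      omega
    have h6 : (N + 2 + 4 * k ^ 3 * (10 * k + 1)) ^ 2 ≤ q ^ 14 := by
      calc (N + 2 + 4 * k ^ 3 * (10 * k + 1)) ^ 2 ≤ (q ^ 7) ^ 2 := Nat.pow_le_pow_left h5 2
        _ = q ^ 14 := by ring
    have h7 : 1 ≤ q ^ 14 := Nat.one_le_pow _ _ hq0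
    calc (N + 2 + 4 * k ^ 3 * (10 * k + 1)) ^ 2 + 1 ≤ q ^ 14 * 2 := by omega
      _ ≤ q ^ 14 * q := Nat.mul_le_mul_left _ (by omega)
      _ = q ^ 15 := by ring
  have a3 : ((N + 2 + 1) * (10 * k + 1 + 1)) ^ (4 * k ^ 3) ≤ q ^ (20 * K) := by
    calc ((N + 2 + 1) * (10 * k + 1 + 1)) ^ (4 * k ^ 3) ≤ (q ^ 5) ^ (4 * k ^ 3) :=
          Nat.pow_le_pow_left a1 _
      _ = q ^ (20 * k ^ 3) := by rw [← pow_mul]; ring_nf
      _ ≤ q ^ (20 * K) := Nat.pow_le_pow_right hq0 (by omega)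
  have a4 : ((N + 2 + 4 * k ^ 3 * (10 * k + 1)) ^ 2 + 1) ^
      (3 * (k + 1) ^ 2 + 4 * k ^ 3 * (10 * k + 1)) ≤ q ^ (705 * K) := by
    calc ((N + 2 + 4 * k ^ 3 * (10 * k + 1)) ^ 2 + 1) ^
          (3 * (k + 1) ^ 2 + 4 * k ^ 3 * (10 * k + 1))
        ≤ (q ^ 15) ^ (3 * (k + 1) ^ 2 + 4 * k ^ 3 * (10 * k + 1)) := Nat.pow_le_pow_left a2 _
      _ = q ^ (15 * (3 * (k + 1) ^ 2 + 4 * k ^ 3 * (10 * k + 1))) := (pow_mul _ _ _).symm
      _ ≤ q ^ (705 * K) := by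
          apply Nat.pow_le_pow_right hq0
          rw [q6]
          omega
  have a5 : types k N ≤ q ^ (725 * K) := by
    calc types k N ≤ q ^ (20 * K) * q ^ (705 * K) := Nat.mul_le_mul a3 a4
      _ = q ^ (725 * K) := by rw [← pow_add]; ring_nf
  have a6 : 2 ^ k ≤ q ^ K := by
    calc 2 ^ k ≤ q ^ k := Nat.pow_le_pow_left (by omega) _
      _ ≤ q ^ K := Nat.pow_le_pow_right hq0 q4
  have a7 : 2 ^ k * types k N ≤ q ^ (726 * K) := by
    calc 2 ^ k * types k N ≤ q ^ K * q ^ (725 * K) := Nat.mul_le_mul a6 a5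
      _ = q ^ (726 * K) := by rw [← pow_add]; ring_nf
  have a8 : k + 1 ≤ q ^ (726 * K) := by
    calc k + 1 ≤ q := by omega
      _ = q ^ 1 := (pow_one q).symm
      _ ≤ q ^ (726 * K) := Nat.pow_le_pow_right hq0 (by omega)
  calc 2 ^ k * types k N + k + 1 ≤ q ^ (726 * K) * 2 := by omega
    _ ≤ q ^ (726 * K) * q := Nat.mul_le_mul_left _ (by omega)
    _ = q ^ (726 * K + 1) := (pow_succ _ _).symm
    _ ≤ q ^ (727 * K) := Nat.pow_le_pow_right hq0 (by omega)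

theorem uniform_arith (C0 : ℕ) : ∃ C : ℕ, ∀ k n : ℕ, 1 ≤ k → 1 ≤ n →
    k * base k (C0 + 1) (n + k) ^ (2 ^ k * types k (n + k) + k + 1) ≤
      2 ^ ((n + 2) ^ (C * (k + 1) ^ 5)) := by
  refine ⟨2 * (C0 + 1) + 739, fun k n hk hn => ?_⟩
  obtain ⟨q, hq⟩ : ∃ q, q = n + k + 2 := ⟨_, rfl⟩
  have hq4 : 4 ≤ q := by omega
  have hq0 : 0 < q := by omega
  have h1 := types_le hq4 hq.symm (by omega : k ≤ n + k)
  have h2 := unif_base (C0 + 1) (by omega : 3 ≤ q) hq.symm (by omega : k ≤ n + k)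
  have q5 : 1 ≤ (k + 1) ^ 4 := Nat.one_le_pow _ _ (Nat.succ_pos k)
  obtain ⟨K, hK⟩ : ∃ K, K = (k + 1) ^ 4 := ⟨_, rfl⟩
  rw [← hK] at h1 q5
  obtain ⟨c, hc⟩ : ∃ c, c = C0 + 1 := ⟨_, rfl⟩
  rw [← hc] at h2 ⊢
  have h3 : k ≤ 2 ^ q := (by omega : k ≤ q).trans Nat.lt_two_pow_self.le
  have h4 : k * base k c (n + k) ^ (2 ^ k * types k (n + k) + k + 1) ≤
      2 ^ (q ^ ((2 * c + 739) * K)) := by
    calc k * base k c (n + k) ^ (2 ^ k * types k (n + k) + k + 1)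
        ≤ 2 ^ q * (2 ^ (q ^ (2 * c + 11))) ^ (q ^ (727 * K)) := by
          apply Nat.mul_le_mul h3
          calc base k c (n + k) ^ (2 ^ k * types k (n + k) + k + 1)
              ≤ (2 ^ (q ^ (2 * c + 11))) ^ (2 ^ k * types k (n + k) + k + 1) :=
                Nat.pow_le_pow_left h2 _
            _ ≤ (2 ^ (q ^ (2 * c + 11))) ^ (q ^ (727 * K)) :=
                Nat.pow_le_pow_right Nat.one_le_two_pow h1
      _ = 2 ^ (q + q ^ (2 * c + 11 + 727 * K)) := by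
          rw [← pow_mul, ← pow_add, ← pow_add]
      _ ≤ 2 ^ (q ^ ((2 * c + 739) * K)) := by
          apply Nat.pow_le_pow_right (by norm_num)
          have f1 : q ≤ q ^ (2 * c + 11 + 727 * K) := Nat.le_self_pow (by omega) _
          have f2 : q ^ (2 * c + 11 + 727 * K) * 2 ≤ q ^ (2 * c + 12 + 727 * K) := by
            rw [show 2 * c + 12 + 727 * K = (2 * c + 11 + 727 * K) + 1 by omega, pow_succ]
            exact Nat.mul_le_mul_left _ (by omega)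
          have f3 : q ^ (2 * c + 12 + 727 * K) ≤ q ^ ((2 * c + 739) * K) := by
            apply Nat.pow_le_pow_right hq0
            have e1 : (2 * c + 739) * K = (2 * c + 12) * K + 727 * K := by ring
            have e2 : (2 * c + 12) * 1 ≤ (2 * c + 12) * K := Nat.mul_le_mul_left _ q5
            omega
          omega
  refine h4.trans (Nat.pow_le_pow_right (by norm_num) ?_)
  have g1 : q ≤ (n + 2) ^ (k + 1) := by
    have e1 : k + 1 ≤ (n + 2) ^ k := by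
      calc k + 1 ≤ 2 ^ k := Nat.lt_two_pow_self
        _ ≤ (n + 2) ^ k := Nat.pow_le_pow_left (by omega) k
    calc q ≤ (k + 1) * (n + 2) := by rw [hq]; nlinarith
      _ ≤ (n + 2) ^ k * (n + 2) := Nat.mul_le_mul_right _ e1
      _ = (n + 2) ^ (k + 1) := (pow_succ _ _).symm
  calc q ^ ((2 * c + 739) * K) ≤ ((n + 2) ^ (k + 1)) ^ ((2 * c + 739) * K) :=
        Nat.pow_le_pow_left g1 _
    _ = (n + 2) ^ ((2 * c + 739) * (k + 1) ^ 5) := by
        rw [← pow_mul, hK]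
        congr 1
        ring

end WK
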