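import Mathlib

/-! Word equations with boundedly many variables (MP_fc7ad9_lc). Helper module:
calculus of polynomial and exponential bounds. -/

namespace WK

/-- at most polynomial growth -/
def PB (f : ℕ → ℕ) : Prop := ∃ C : ℕ, ∀ n, f n ≤ C * (n + 1) ^ C

/-- at most exponential of polynomial growth -/
def XB (f : ℕ → ℕ) : Prop := ∃ C : ℕ, ∀ n, f n ≤ 2 ^ (C * (n + 1) ^ C)

theorem pb_le {C D : ℕ} (h : C ≤ D) (n : ℕ) : C * (n + 1) ^ C ≤ D * (n + 1) ^ D :=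
  Nat.mul_le_mul h (Nat.pow_le_pow_right (Nat.succ_pos n) h)

theorem PB.mono {f g : ℕ → ℕ} (hg : PB g) (h : ∀ n, f n ≤ g n) : PB f := by
  obtain ⟨C, hC⟩ := hg
  exact ⟨C, fun n => (h n).trans (hC n)⟩

theorem PB.self (C : ℕ) : PB (fun n => C * (n + 1) ^ C) := ⟨C, fun _ => le_rfl⟩

theorem PB.const (c : ℕ) : PB (fun _ => c) :=
  ⟨c, fun n => Nat.le_mul_of_pos_right c (pow_pos (Nat.succ_pos n) _)⟩

theorem PB.id : PB (fun n => n) := ⟨1, fun n => by simp⟩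

theorem PB.add {f g : ℕ → ℕ} (hf : PB f) (hg : PB g) : PB (fun n => f n + g n) := by
  obtain ⟨C, hC⟩ := hf
  obtain ⟨D, hD⟩ := hg
  refine ⟨C + D, fun n => ?_⟩
  have h1 : C * (n + 1) ^ C ≤ C * (n + 1) ^ (C + D) :=
    Nat.mul_le_mul_left _ (Nat.pow_le_pow_right (Nat.succ_pos n) (Nat.le_add_right _ _))
  have h2 : D * (n + 1) ^ D ≤ D * (n + 1) ^ (C + D) :=
    Nat.mul_le_mul_left _ (Nat.pow_le_pow_right (Nat.succ_pos n) (Nat.le_add_left _ _))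
  calc f n + g n ≤ C * (n + 1) ^ (C + D) + D * (n + 1) ^ (C + D) :=
        Nat.add_le_add ((hC n).trans h1) ((hD n).trans h2)
    _ = (C + D) * (n + 1) ^ (C + D) := by ring

theorem PB.mul {f g : ℕ → ℕ} (hf : PB f) (hg : PB g) : PB (fun n => f n * g n) := by
  obtain ⟨C, hC⟩ := hf
  obtain ⟨D, hD⟩ := hg
  refine ⟨C * D + C + D, fun n => ?_⟩
  calc f n * g n ≤ (C * (n + 1) ^ C) * (D * (n + 1) ^ D) := Nat.mul_le_mul (hC n) (hD n)
    _ = (C * D) * (n + 1) ^ (C + D) := by ring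
    _ ≤ (C * D + C + D) * (n + 1) ^ (C * D + C + D) := by
        apply Nat.mul_le_mul
        · omega
        · exact Nat.pow_le_pow_right (Nat.succ_pos n) (by omega)

theorem PB.pow {f : ℕ → ℕ} (hf : PB f) (k : ℕ) : PB (fun n => f n ^ k) := by
  induction k with
  | zero => simpa using PB.const 1
  | succ k ih =>
    have h := ih.mul hf
    exact h.mono fun n => by rw [pow_succ]

theorem XB.mono {f g : ℕ → ℕ} (hg : XB g) (h : ∀ n, f n ≤ g n) : XB f := by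
  obtain ⟨C, hC⟩ := hg
  exact ⟨C, fun n => (h n).trans (hC n)⟩

theorem XB.self (C : ℕ) : XB (fun n => 2 ^ (C * (n + 1) ^ C)) := ⟨C, fun _ => le_rfl⟩

theorem XB.two_pow {f : ℕ → ℕ} (hf : PB f) : XB (fun n => 2 ^ f n) := by
  obtain ⟨C, hC⟩ := hf
  exact ⟨C, fun n => Nat.pow_le_pow_right (by norm_num) (hC n)⟩

theorem XB.exists_pb {f : ℕ → ℕ} (hf : XB f) : ∃ g : ℕ → ℕ, PB g ∧ ∀ n, f n ≤ 2 ^ g n := by
  obtain ⟨C, hC⟩ := hf
  exact ⟨_, PB.self C, hC⟩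

theorem XB.of_le_two_pow {f g : ℕ → ℕ} (hg : PB g) (h : ∀ n, f n ≤ 2 ^ g n) : XB f :=
  (XB.two_pow hg).mono h

theorem PB.xb {f : ℕ → ℕ} (hf : PB f) : XB f :=
  XB.of_le_two_pow hf fun _ => Nat.lt_two_pow_self.le

theorem XB.const (c : ℕ) : XB (fun _ => c) := (PB.const c).xb

theorem XB.mul {f g : ℕ → ℕ} (hf : XB f) (hg : XB g) : XB (fun n => f n * g n) := by
  obtain ⟨f', hf', h1⟩ := hf.exists_pb
  obtain ⟨g', hg', h2⟩ := hg.exists_pb
  refine XB.of_le_two_pow (hf'.add hg') fun n => ?_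
  rw [pow_add]
  exact Nat.mul_le_mul (h1 n) (h2 n)

theorem XB.add {f g : ℕ → ℕ} (hf : XB f) (hg : XB g) : XB (fun n => f n + g n) := by
  obtain ⟨f', hf', h1⟩ := hf.exists_pb
  obtain ⟨g', hg', h2⟩ := hg.exists_pb
  refine XB.of_le_two_pow ((hf'.add hg').add (PB.const 1)) fun n => ?_
  have h3 : 2 ^ f' n ≤ 2 ^ (f' n + g' n) := Nat.pow_le_pow_right (by norm_num) (by omega)
  have h4 : 2 ^ g' n ≤ 2 ^ (f' n + g' n) := Nat.pow_le_pow_right (by norm_num) (by omega)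
  have h5 := h1 n
  have h6 := h2 n
  rw [pow_succ]
  omega

/-- an exponentially bounded function to a polynomially bounded exponent -/
theorem XB.pow {f g : ℕ → ℕ} (hf : XB f) (hg : PB g) : XB (fun n => f n ^ g n) := by
  obtain ⟨f', hf', h1⟩ := hf.exists_pb
  refine XB.of_le_two_pow (hf'.mul hg) fun n => ?_
  rw [pow_mul]
  exact Nat.pow_le_pow_left (h1 n) _

theorem XB.pow_const {f : ℕ → ℕ} (hf : XB f) (k : ℕ) : XB (fun n => f n ^ k) :=
  hf.pow (PB.const k)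

/-- `n + 1` may be replaced by `n` for `n ≥ 1` -/
theorem XB.final {f : ℕ → ℕ} (hf : XB f) : ∃ C : ℕ, ∀ n, 1 ≤ n → f n ≤ 2 ^ (C * n ^ C) := by
  obtain ⟨C, hC⟩ := hf
  refine ⟨C * 2 ^ C, fun n hn => (hC n).trans (Nat.pow_le_pow_right (by norm_num) ?_)⟩
  calc C * (n + 1) ^ C ≤ C * (2 * n) ^ C :=
        Nat.mul_le_mul_left _ (Nat.pow_le_pow_left (by omega) _)
    _ = (C * 2 ^ C) * n ^ C := by rw [mul_pow]; ring
    _ ≤ (C * 2 ^ C) * n ^ (C * 2 ^ C) :=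
        Nat.mul_le_mul_left _ (Nat.pow_le_pow_right hn
          (Nat.le_mul_of_pos_right C (pow_pos (by norm_num) _)))

theorem PB.final {f : ℕ → ℕ} (hf : PB f) : ∃ C : ℕ, ∀ n, 1 ≤ n → f n ≤ C * n ^ C := by
  obtain ⟨C, hC⟩ := hf
  refine ⟨C * 2 ^ C, fun n hn => (hC n).trans ?_⟩
  calc C * (n + 1) ^ C ≤ C * (2 * n) ^ C :=
        Nat.mul_le_mul_left _ (Nat.pow_le_pow_left (by omega) _)
    _ = (C * 2 ^ C) * n ^ C := by rw [mul_pow]; ring
    _ ≤ (C * 2 ^ C) * n ^ (C * 2 ^ C) :=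
        Nat.mul_le_mul_left _ (Nat.pow_le_pow_right hn
          (Nat.le_mul_of_pos_right C (pow_pos (by norm_num) _)))

end WK
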