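import Pool.Agent.WK.CoreP21
import Pool.Agent.WK.Sys3

/-!
# Systems of word equations: short solutions that keep scattered subwords

Helper file for MP_fc7ad9_lc (word equations): for systems with boundedly many occurrences of
variables over boundedly many letters, every solution can be replaced by one of polynomial length
that keeps all scattered subwords of length at most `m` of all values.
-/

set_option autoImplicit false

namespace WK

open WE45

universe u w

section sbl

variable {Γ : Type*} {Y : Type*}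

theorem keep_sb {m : ℕ} {θ θ' : Y → List Γ} (h : ∀ y, Keep m (θ y) (θ' y)) :
    ∀ f : List (Γ ⊕ Y), Keep m (sb θ f) (sb θ' f)
  | [] => by rw [sb_nil, sb_nil]; exact Keep.refl _ _
  | .inl a :: f => by rw [sb_inl, sb_inl]; exact Keep.cons a (keep_sb h f)
  | .inr y :: f => by rw [sb_inr, sb_inr]; exact (h y).append (keep_sb h f)

theorem length_sb_vo {M : ℕ} {θ : Y → List Γ} (h : ∀ y, (θ y).length ≤ M) :
    ∀ f : List (Γ ⊕ Y), (sb θ f).length ≤ f.length + vo f * M
  | [] => by simp [sb_nil]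
  | .inl a :: f => by
      have ih := length_sb_vo h f
      have e : vo ((.inl a : Γ ⊕ Y) :: f) = vo f := by simp [vo]
      rw [sb_inl, e, List.length_cons, List.length_cons]; omega
  | .inr y :: f => by
      have ih := length_sb_vo h f
      have e : vo ((.inr y : Γ ⊕ Y) :: f) = vo f + 1 := by simp [vo]
      have h1 := h y
      have e2 : (vo f + 1) * M = vo f * M + M := by ring
      rw [sb_inr, e, List.length_append, List.length_cons, e2]; omega

theorem sb_const {θ θ' : Y → List Γ} : ∀ f : List (Γ ⊕ Y), vo f = 0 → sb θ f = sb θ' f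
  | [], _ => by rw [sb_nil, sb_nil]
  | .inl a :: f, h => by
      have e : vo ((.inl a : Γ ⊕ Y) :: f) = vo f := by simp [vo]
      rw [sb_inl, sb_inl, sb_const f (by rw [← e]; exact h)]
  | .inr y :: f, h => by
      have e : vo ((.inr y : Γ ⊕ Y) :: f) = vo f + 1 := by simp [vo]
      omega

theorem mem_sb {θ : Y → List Γ} {T : Γ → Prop} (hθ : ∀ y, ∀ a ∈ θ y, T a) :
    ∀ f : List (Γ ⊕ Y), (∀ a, .inl a ∈ f → T a) → ∀ a ∈ sb θ f, T a
  | [], _, a, ha => by rw [sb_nil] at ha; simp at ha
  | .inl b :: f, h, a, ha => by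
      rw [sb_inl] at ha
      rcases List.mem_cons.1 ha with rfl | ha
      · exact h a (by simp)
      · exact mem_sb hθ f (fun a ha => h a (List.mem_cons_of_mem _ ha)) a ha
  | .inr y :: f, h, a, ha => by
      rw [sb_inr] at ha
      rcases List.mem_append.1 ha with ha | ha
      · exact hθ y a ha
      · exact mem_sb hθ f (fun a ha => h a (List.mem_cons_of_mem _ ha)) a ha

theorem sb_map_const (θ : Y → List Γ) : ∀ u : List Γ, sb θ (u.map Sum.inl) = u
  | [] => by rw [List.map_nil, sb_nil]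
  | a :: u => by rw [List.map_cons, sb_inl, sb_map_const θ u]

theorem sb_filter {θ : Y → List Γ} (T : Γ → Prop) [DecidablePred T] :
    ∀ f : List (Γ ⊕ Y), (∀ a, .inl a ∈ f → T a) →
      (sb θ f).filter (fun a => T a) = sb (fun y => (θ y).filter (fun a => T a)) f
  | [], _ => by rw [sb_nil, sb_nil]; rfl
  | .inl a :: f, h => by
      have h1 : T a := h a (by simp)
      rw [sb_inl, sb_inl, List.filter_cons_of_pos (by simpa using h1),
        sb_filter T f (fun a ha => h a (List.mem_cons_of_mem _ ha))]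
  | .inr y :: f, h => by
      rw [sb_inr, sb_inr, List.filter_append,
        sb_filter T f (fun a ha => h a (List.mem_cons_of_mem _ ha))]

theorem sb_lift {Z : Type*} (τ : Y ⊕ Z → List Γ) : ∀ f : List (Γ ⊕ Y),
    sb τ (f.map (Sum.map id Sum.inl)) = sb (fun y => τ (.inl y)) f
  | [] => by rw [List.map_nil, sb_nil, sb_nil]
  | .inl a :: f => by
      rw [List.map_cons]
      show sb τ (.inl a :: _) = _
      rw [sb_inl, sb_inl, sb_lift τ f]
  | .inr y :: f => by
      rw [List.map_cons]
      show sb τ (.inr (.inl y) :: _) = _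
      rw [sb_inr, sb_inr, sb_lift τ f]

theorem vo_lift {Z : Type*} : ∀ f : List (Γ ⊕ Y),
    vo (f.map (Sum.map id (Sum.inl : Y → Y ⊕ Z))) = vo f
  | [] => rfl
  | .inl a :: f => by
      have ih := vo_lift (Z := Z) f
      simp only [vo, List.map_cons, List.countP_cons] at ih ⊢
      simp [ih]
  | .inr y :: f => by
      have ih := vo_lift (Z := Z) f
      simp only [vo, List.map_cons, List.countP_cons] at ih ⊢
      simp [ih]

end sbl

/-- the statement for at most `j` letters -/
def CoreP (v j C : ℕ) : Prop :=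
  ∀ {Γ : Type u} {X : Type w} [DecidableEq Γ] [Fintype X] (T : Finset Γ)
    (E : List (List (Γ ⊕ X) × List (Γ ⊕ X))) (N m : ℕ), T.card ≤ j → Fintype.card X ≤ v →
    E.length ≤ v → (∀ t ∈ E, vo (t.1 ++ t.2) ≤ v) → (∀ t ∈ E, t.1.length + t.2.length ≤ N) →
    (∀ t ∈ E, ∀ a, .inl a ∈ t.1 ++ t.2 → a ∈ T) →
    ∀ σ : X → List Γ, (∀ x, ∀ a ∈ σ x, a ∈ T) → (∀ t ∈ E, sb σ t.1 = sb σ t.2) →
    ∃ σ' : X → List Γ, (∀ t ∈ E, sb σ' t.1 = sb σ' t.2) ∧ (∀ x, ∀ a ∈ σ' x, a ∈ T) ∧
      (∀ x, Keep m (σ x) (σ' x)) ∧ ∀ x, (σ' x).length ≤ C * (N + m + 1) ^ C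

/-- the number of unknowns of the system of blocks -/
def vnx (v : ℕ) : ℕ := (2 * v * v) * (2 * v * v) + 2 * v * v + 4 * v

/-- the length of blocks after the step -/
def Mst (v j C N m : ℕ) : ℕ :=
  2 * N + (2 * v + 1) * (C * (4 * N + m + 1) ^ C) + m * (j + 1)

theorem sum_flatMap_le {α β : Type*} (f : β → ℕ) (g : α → List β) (B : ℕ) : ∀ l : List α,
    (∀ a ∈ l, ((g a).map f).sum ≤ B) → ((l.flatMap g).map f).sum ≤ l.length * B
  | [], _ => by simp
  | a :: l, h => by
      have ih := sum_flatMap_le f g B l (fun b hb => h b (List.mem_cons_of_mem _ hb))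
      have h1 := h a (by simp)
      rw [List.flatMap_cons, List.map_append, List.sum_append, List.length_cons, Nat.succ_mul]
      omega

theorem length_filter_pos {β : Type*} (f : β → ℕ) : ∀ l : List β,
    (l.filter (fun b => decide (0 < f b))).length ≤ (l.map f).sum
  | [] => by simp
  | b :: l => by
      have ih := length_filter_pos f l
      by_cases hb : 0 < f b
      · rw [List.filter_cons_of_pos (by simpa using hb), List.length_cons, List.map_cons,
          List.sum_cons]
        omega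
      · rw [List.filter_cons_of_neg (by simpa using hb), List.map_cons, List.sum_cons]
        omega

theorem le_sum_map {β : Type*} (f : β → ℕ) {l : List β} {b : β} (hb : b ∈ l) :
    f b ≤ (l.map f).sum := List.le_sum_of_mem (List.mem_map_of_mem hb)

theorem core_step {v j C : ℕ} (hP : CoreP.{u, w} (vnx v) j C) {Γ : Type u} {X : Type w}
    [DecidableEq Γ] [Fintype X] (T : Finset Γ)
    (E : List (List (Γ ⊕ X) × List (Γ ⊕ X))) (N m : ℕ) (hT : T.card ≤ j + 1)
    (hX : Fintype.card X ≤ v)
    (hE : E.length ≤ v) (hv : ∀ t ∈ E, vo (t.1 ++ t.2) ≤ v)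
    (hN : ∀ t ∈ E, t.1.length + t.2.length ≤ N)
    (hET : ∀ t ∈ E, ∀ a, .inl a ∈ t.1 ++ t.2 → a ∈ T)
    (ρ : X → List Γ) (hρT : ∀ x, ∀ a ∈ ρ x, a ∈ T) (hρ : ∀ t ∈ E, sb ρ t.1 = sb ρ t.2)
    {c : Γ} (hc : c ∈ T) :
    ∃ ρ' : X → List Γ, (∀ t ∈ E, sb ρ' t.1 = sb ρ' t.2) ∧ (∀ x, ∀ a ∈ ρ' x, a ∈ T) ∧
      ∀ x, (c ∉ ρ x ∧ Keep m (ρ x) (ρ' x) ∧ (ρ' x).length ≤ Mst v j C N m) ∨
        ∃ b bs b' bs', ρ x = jn c b bs ∧ ρ' x = jn c b' bs' ∧
          (Keep m b b' ∧ b'.length ≤ Mst v j C N m) ∧
          List.Forall₂ (fun y y' => Keep m y y' ∧ y'.length ≤ Mst v j C N m) bs bs' := by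
  classical
  -- the parts
  have hparts : ∀ x, ∃ (p q : List Γ) (μ : List (List Γ)),
      (c ∈ ρ x → ρ x = jn c p (μ ++ [q])) ∧ (c ∉ ρ x → p = ρ x) ∧ c ∉ p ∧ c ∉ q ∧
      (∀ b ∈ μ, c ∉ b) ∧ (∀ a ∈ p, a ∈ T) ∧ (∀ a ∈ q, a ∈ T) ∧ ∀ b ∈ μ, ∀ a ∈ b, a ∈ T := by
    intro x
    by_cases hx : c ∈ ρ x
    · obtain ⟨b, bs, h1, h2, h3⟩ := exists_jn c (ρ x)
      rcases List.eq_nil_or_concat bs with rfl | ⟨μ, q, rfl⟩
      · rw [jn_nil] at h1
        exact absurd hx (by rw [h1]; exact h2)
      · have hmem : ∀ y ∈ b :: (μ ++ [q]), ∀ a ∈ y, a ∈ ρ x := by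
          intro y hy a ha
          rw [h1]
          unfold jn
          rcases List.mem_cons.1 hy with rfl | hy
          · exact List.mem_append_left _ ha
          · refine List.mem_append_right _ ?_
            rw [List.mem_flatten]
            exact ⟨c :: y, List.mem_map.2 ⟨y, by simpa using hy, rfl⟩, List.mem_cons_of_mem _ ha⟩
        refine ⟨b, q, μ, fun _ => by simpa using h1, fun h => absurd hx h, h2,
          h3 q (by simp), fun y hy => h3 y (by simp [hy]), ?_, ?_, ?_⟩
        · exact fun a ha => hρT x a (hmem b (by simp) a ha)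
        · exact fun a ha => hρT x a (hmem q (by simp) a ha)
        · exact fun y hy a ha => hρT x a (hmem y (by simp [hy]) a ha)
    · exact ⟨ρ x, [], [], fun h => absurd h hx, fun _ => rfl, hx, by simp, by simp,
        fun a ha => hρT x a ha, by simp, by simp⟩
  choose p q μ hp1 hp2 hp3 hp4 hp5 hp6 hp7 hp8 using hparts
  let cx : X → Prop := fun x => c ∈ ρ x
  let θ : X × Bool → List Γ := fun y => if y.2 then q y.1 else p y.1
  have hθf : ∀ x, θ (x, false) = p x := fun x => rfl
  have hθt : ∀ x, θ (x, true) = q x := fun x => rfl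
  have hasm : asm cx c θ μ = ρ := by
    funext x
    unfold asm
    by_cases hx : c ∈ ρ x
    · rw [if_pos (show cx x from hx), hθf, hθt, ← hp1 x hx]
    · rw [if_neg (show ¬ cx x from hx), hθf, hp2 x hx]
  have hθc : ∀ y, c ∉ θ y := by
    rintro ⟨x, b⟩
    cases b
    · exact hp3 x
    · exact hp4 x
  have hθT : ∀ y, ∀ a ∈ θ y, a ∈ T.erase c := by
    rintro ⟨x, b⟩ a ha
    rw [Finset.mem_erase]
    refine ⟨fun h => hθc (x, b) (by rw [← h]; exact ha), ?_⟩
    cases b
    · exact hp6 x a ha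
    · exact hp7 x a ha
  -- the forms
  let F0 : List (List (Γ ⊕ (X × Bool))) := E.flatMap (fun t => frm cx c t.1 ++ frm cx c t.2)
  have hF0 : ∀ t ∈ E, ∀ f ∈ frm cx c t.1 ++ frm cx c t.2, f ∈ F0 := fun t ht f hf =>
    List.mem_flatMap.2 ⟨t, ht, hf⟩
  have hsv : ∀ L : List (Γ ⊕ X), ((frm cx c L).map vo).sum ≤ 2 * vo L := by
    intro L
    have := sum_vo_prs cx c L []
    unfold frm
    rw [List.map_cons, List.sum_cons]
    have e : vo ([] : List (Γ ⊕ (X × Bool))) = 0 := rfl
    omega
  have hsl : ∀ L : List (Γ ⊕ X), ((frm cx c L).map List.length).sum ≤ 2 * L.length := by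
    intro L
    have := sum_length_prs cx c L []
    unfold frm
    rw [List.map_cons, List.sum_cons]
    rw [List.length_nil] at this
    omega
  have hsv2 : ∀ t ∈ E, ((frm cx c t.1 ++ frm cx c t.2).map vo).sum ≤ 2 * v := by
    intro t ht
    rw [List.map_append, List.sum_append]
    have h1 := hsv t.1
    have h2 := hsv t.2
    have h3 := hv t ht
    rw [vo_append] at h3
    omega
  have hsl2 : ∀ t ∈ E, ((frm cx c t.1 ++ frm cx c t.2).map List.length).sum ≤ 2 * N := by
    intro t ht
    rw [List.map_append, List.sum_append]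
    have h1 := hsl t.1
    have h2 := hsl t.2
    have h3 := hN t ht
    omega
  have hF0v : ∀ f ∈ F0, vo f ≤ 2 * v := by
    intro f hf
    obtain ⟨t, ht, hf⟩ := List.mem_flatMap.1 hf
    exact (le_sum_map vo hf).trans (hsv2 t ht)
  have hF0l : ∀ f ∈ F0, f.length ≤ 2 * N := by
    intro f hf
    obtain ⟨t, ht, hf⟩ := List.mem_flatMap.1 hf
    exact (le_sum_map List.length hf).trans (hsl2 t ht)
  have hF0T : ∀ f ∈ F0, ∀ a, .inl a ∈ f → a ∈ T.erase c := by
    intro f hf a ha
    obtain ⟨t, ht, hf⟩ := List.mem_flatMap.1 hf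
    have key : ∀ L : List (Γ ⊕ X), (∀ a, .inl a ∈ L → a ∈ T) → f ∈ frm cx c L →
        a ∈ T.erase c := by
      intro L hL hf
      obtain ⟨h1, h2⟩ := const_prs (cx := cx) (c := c) (T := fun a => a ∈ T) L [] hL (by simp)
      unfold frm at hf
      rcases List.mem_cons.1 hf with rfl | hf
      · have := h1 a ha
        exact Finset.mem_erase.2 ⟨this.2, this.1⟩
      · have := h2 f hf a ha
        exact Finset.mem_erase.2 ⟨this.2, this.1⟩
    rcases List.mem_append.1 hf with hf | hf
    · exact key t.1 (fun a ha => hET t ht a (List.mem_append_left _ ha)) hf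
    · exact key t.2 (fun a ha => hET t ht a (List.mem_append_right _ ha)) hf
  let NF : List (List (Γ ⊕ (X × Bool))) := F0.filter (fun f => decide (0 < vo f))
  have hNF : ∀ f, f ∈ NF ↔ f ∈ F0 ∧ 0 < vo f := by
    intro f
    simp only [NF, List.mem_filter, decide_eq_true_eq]
  have hNFl : NF.length ≤ 2 * v * v := by
    refine (length_filter_pos vo F0).trans ?_
    refine (sum_flatMap_le vo _ (2 * v) E hsv2).trans ?_
    calc E.length * (2 * v) ≤ v * (2 * v) := Nat.mul_le_mul_right _ hE
      _ = 2 * v * v := by ring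
  let E1 : List (List (Γ ⊕ (X × Bool)) × List (Γ ⊕ (X × Bool))) :=
    ((NF.product NF).filter (fun p => decide (sb θ p.1 = sb θ p.2))) ++
    (NF.filter (fun f => decide (∃ g ∈ F0, vo g = 0 ∧ sb θ g = sb θ f))).map
      (fun f => (f, (sb θ f).map Sum.inl))
  have hE1 : ∀ t ∈ E1, (t.1 ∈ NF ∧ t.2 ∈ NF ∧ sb θ t.1 = sb θ t.2) ∨
      (t.1 ∈ NF ∧ t.2 = (sb θ t.1).map Sum.inl ∧ ∃ g ∈ F0, vo g = 0 ∧ sb θ g = sb θ t.1) := by
    intro t ht
    rcases List.mem_append.1 ht with ht | ht
    · left
      obtain ⟨h1, h2⟩ := List.mem_filter.1 ht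
      obtain ⟨t1, t2⟩ := t
      have h3 := List.mem_product.1 h1
      exact ⟨h3.1, h3.2, by simpa using h2⟩
    · right
      obtain ⟨f, hf, rfl⟩ := List.mem_map.1 ht
      obtain ⟨h1, h2⟩ := List.mem_filter.1 hf
      exact ⟨h1, rfl, by simpa using h2⟩
  have hE1l : E1.length ≤ vnx v := by
    simp only [E1, List.length_append, List.length_map]
    have h1 : ((NF.product NF).filter (fun p => decide (sb θ p.1 = sb θ p.2))).length ≤
        NF.length * NF.length := by
      refine (List.length_filter_le _ _).trans ?_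
      exact le_of_eq (List.length_product NF NF)
    have h2 : (NF.filter (fun f => decide (∃ g ∈ F0, vo g = 0 ∧ sb θ g = sb θ f))).length ≤
        NF.length := List.length_filter_le _ _
    have h3 : NF.length * NF.length ≤ (2 * v * v) * (2 * v * v) := Nat.mul_le_mul hNFl hNFl
    unfold vnx
    omega
  have hvc : ∀ u : List Γ, vo (u.map (Sum.inl : Γ → Γ ⊕ (X × Bool))) = 0 := by
    intro u
    unfold vo
    rw [List.countP_map]
    simp
  have hE1v : ∀ t ∈ E1, vo (t.1 ++ t.2) ≤ vnx v := by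
    intro t ht
    have h4 : 4 * v ≤ vnx v := by unfold vnx; omega
    rw [vo_append]
    rcases hE1 t ht with ⟨h1, h2, _⟩ | ⟨h1, h2, _⟩
    · have := hF0v _ ((hNF _).1 h1).1
      have := hF0v _ ((hNF _).1 h2).1
      omega
    · have := hF0v _ ((hNF _).1 h1).1
      rw [h2, hvc]
      omega
  have hE1N : ∀ t ∈ E1, t.1.length + t.2.length ≤ 4 * N := by
    intro t ht
    rcases hE1 t ht with ⟨h1, h2, _⟩ | ⟨h1, h2, g, hg, hg0, hg1⟩
    · have := hF0l _ ((hNF _).1 h1).1
      have := hF0l _ ((hNF _).1 h2).1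
      omega
    · have h3 := hF0l _ ((hNF _).1 h1).1
      have h4 := hF0l _ hg
      have h5 : (sb θ g).length = g.length := by
        have key : ∀ g : List (Γ ⊕ (X × Bool)), vo g = 0 → (sb θ g).length = g.length := by
          intro g
          induction g with
          | nil => intro _; rw [sb_nil]; rfl
          | cons s g ih =>
            intro h
            cases s with
            | inl a =>
              have e : vo ((.inl a : Γ ⊕ (X × Bool)) :: g) = vo g := by simp [vo]
              rw [sb_inl, List.length_cons, List.length_cons, ih (by rw [← e]; exact h)]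
            | inr y =>
              have e : vo ((.inr y : Γ ⊕ (X × Bool)) :: g) = vo g + 1 := by simp [vo]
              omega
        exact key g hg0
      rw [h2, List.length_map, ← hg1, h5]
      omega
  have hE1T : ∀ t ∈ E1, ∀ a, .inl a ∈ t.1 ++ t.2 → a ∈ T.erase c := by
    intro t ht a ha
    rcases hE1 t ht with ⟨h1, h2, _⟩ | ⟨h1, h2, _⟩
    · rcases List.mem_append.1 ha with ha | ha
      · exact hF0T _ ((hNF _).1 h1).1 a ha
      · exact hF0T _ ((hNF _).1 h2).1 a ha
    · rcases List.mem_append.1 ha with ha | ha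
      · exact hF0T _ ((hNF _).1 h1).1 a ha
      · rw [h2] at ha
        obtain ⟨b, hb, hba⟩ := List.mem_map.1 ha
        rw [Sum.inl.injEq] at hba
        rw [← hba]
        exact mem_sb (T := fun a => a ∈ T.erase c) hθT _ (hF0T _ ((hNF _).1 h1).1) b hb
  obtain ⟨θ', hθ'1, hθ'2, hθ'3, hθ'4⟩ := hP (T.erase c) E1 (4 * N) m
    (by rw [Finset.card_erase_of_mem hc]; omega)
    (by
      rw [Fintype.card_prod, Fintype.card_bool]
      unfold vnx; omega)
    hE1l hE1v hE1N hE1T θ hθT (by
      intro t ht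
      rcases hE1 t ht with ⟨_, _, h⟩ | ⟨_, h, _⟩
      · exact h
      · rw [h, sb_map_const])
  set M0 := C * (4 * N + m + 1) ^ C with hM0
  let φ : List Γ → List Γ := fun b =>
    if h : ∃ f ∈ F0, sb θ f = b then sb θ' h.choose else uni m b.dedup
  have hφf : ∀ f ∈ F0, sb θ' f = φ (sb θ f) := by
    intro f hf
    have hex : ∃ g ∈ F0, sb θ g = sb θ f := ⟨f, hf, rfl⟩
    have e : φ (sb θ f) = sb θ' hex.choose := dif_pos hex
    rw [e]
    obtain ⟨h1, h2⟩ := hex.choose_spec
    set g := hex.choose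
    have hconst : ∀ f g, f ∈ F0 → g ∈ F0 → sb θ g = sb θ f → vo f = 0 → 0 < vo g →
        sb θ' f = sb θ' g := by
      intro f g hf hg hfg hf0 hg0
      have hg1 : g ∈ NF := (hNF g).2 ⟨hg, hg0⟩
      have hmem : (g, (sb θ g).map Sum.inl) ∈ E1 := by
        refine List.mem_append_right _ (List.mem_map.2 ⟨g, List.mem_filter.2 ⟨hg1, ?_⟩, rfl⟩)
        simp only [decide_eq_true_eq]
        exact ⟨f, hf, hf0, hfg.symm⟩
      have h3 := hθ'1 _ hmem
      simp only [sb_map_const] at h3
      rw [h3, hfg]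
      exact (sb_const f hf0)
    rcases Nat.eq_zero_or_pos (vo f) with hf0 | hf0
    · rcases Nat.eq_zero_or_pos (vo g) with hg0 | hg0
      · rw [← sb_const (θ := θ) f hf0, ← sb_const (θ := θ) g hg0, h2]
      · exact hconst f g hf h1 h2 hf0 hg0
    · rcases Nat.eq_zero_or_pos (vo g) with hg0 | hg0
      · exact (hconst g f h1 hf h2.symm hg0 hf0).symm
      · have hmem : (f, g) ∈ E1 := by
          refine List.mem_append_left _ (List.mem_filter.2 ⟨List.mem_product.2
            ⟨(hNF f).2 ⟨hf, hf0⟩, (hNF g).2 ⟨h1, hg0⟩⟩, ?_⟩)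
          simp only [decide_eq_true_eq]
          exact h2.symm
        exact hθ'1 _ hmem
  have hφK : ∀ b, Keep m b (φ b) := by
    intro b
    by_cases h : ∃ f ∈ F0, sb θ f = b
    · obtain ⟨f, hf, rfl⟩ := h
      rw [← hφf f hf]
      exact keep_sb hθ'3 f
    · have e : φ b = uni m b.dedup := dif_neg h
      rw [e]
      exact keep_uni m b
  have hφl : ∀ b, (∀ a ∈ b, a ∈ T) → (φ b).length ≤ Mst v j C N m := by
    intro b hb
    by_cases h : ∃ f ∈ F0, sb θ f = b
    · obtain ⟨f, hf, rfl⟩ := h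
      rw [← hφf f hf]
      have h1 := length_sb_vo (M := M0) hθ'4 f
      have h2 := hF0l f hf
      have h3 := Nat.mul_le_mul_right M0 (hF0v f hf)
      have h4 : (2 * v + 1) * M0 = 2 * v * M0 + M0 := by ring
      unfold Mst
      rw [← hM0, h4]
      omega
    · have e : φ b = uni m b.dedup := dif_neg h
      rw [e, length_uni]
      have h1 : b.dedup.length ≤ j + 1 := by
        have h2 : b.dedup.toFinset ⊆ T := by
          intro a ha
          exact hb a (List.mem_dedup.1 (List.mem_toFinset.1 ha))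
        have h3 := Finset.card_le_card h2
        rw [List.toFinset_card_of_nodup (List.nodup_dedup b)] at h3
        omega
      have h2 := Nat.mul_le_mul_left m h1
      unfold Mst
      omega
  have hφT : ∀ b, (∀ a ∈ b, a ∈ T) → ∀ a ∈ φ b, a ∈ T := by
    intro b hb
    by_cases h : ∃ f ∈ F0, sb θ f = b
    · obtain ⟨f, hf, rfl⟩ := h
      rw [← hφf f hf]
      intro a ha
      exact Finset.mem_of_mem_erase
        (mem_sb (T := fun a => a ∈ T.erase c) hθ'2 f (hF0T f hf) a ha)
    · have e : φ b = uni m b.dedup := dif_neg h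
      rw [e]
      intro a ha
      exact hb a (List.mem_dedup.1 (mem_uni ha))
  let μ' : X → List (List Γ) := fun x => (μ x).map φ
  refine ⟨asm cx c θ' μ', ?_, ?_, ?_⟩
  · intro t ht
    have h0 := hρ t ht
    rw [← hasm] at h0
    have e1 := prs_ev cx c θ μ t.1 []
    have e2 := prs_ev cx c θ μ t.2 []
    rw [sb_nil, List.nil_append] at e1 e2
    rw [e1, e2] at h0
    obtain ⟨n1, n2⟩ := not_mem_prs (cx := cx) (c := c) (θ := θ) (μ := μ) hθc hp5 t.1 []
      (by rw [sb_nil]; simp)
    obtain ⟨n3, n4⟩ := not_mem_prs (cx := cx) (c := c) (θ := θ) (μ := μ) hθc hp5 t.2 []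
      (by rw [sb_nil]; simp)
    obtain ⟨h1, h2⟩ := jn_inj n1 n3 n2 n4 h0
    have e3 := prs_ev cx c θ' μ' t.1 []
    have e4 := prs_ev cx c θ' μ' t.2 []
    rw [sb_nil, List.nil_append] at e3 e4
    rw [e3, e4]
    have f1 : ∀ f ∈ frm cx c t.1, sb θ' f = φ (sb θ f) := fun f hf =>
      hφf f (hF0 t ht f (List.mem_append_left _ hf))
    have f2 : ∀ f ∈ frm cx c t.2, sb θ' f = φ (sb θ f) := fun f hf =>
      hφf f (hF0 t ht f (List.mem_append_right _ hf))
    rw [f1 _ (List.mem_cons_self), f2 _ (List.mem_cons_self),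
      evb_map (φ := φ) (fun x => rfl) _ (fun f hf => f1 f (List.mem_cons_of_mem _ hf)),
      evb_map (φ := φ) (fun x => rfl) _ (fun f hf => f2 f (List.mem_cons_of_mem _ hf)),
      h1, h2]
  · intro x a ha
    unfold asm at ha
    by_cases hx : c ∈ ρ x
    · rw [if_pos (show cx x from hx)] at ha
      unfold jn at ha
      rcases List.mem_append.1 ha with ha | ha
      · exact Finset.mem_of_mem_erase (hθ'2 _ a ha)
      · rw [List.mem_flatten] at ha
        obtain ⟨l, hl, ha⟩ := ha
        obtain ⟨y, hy, rfl⟩ := List.mem_map.1 hl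
        rcases List.mem_cons.1 ha with rfl | ha
        · exact hc
        · rcases List.mem_append.1 hy with hy | hy
          · obtain ⟨b, hb, rfl⟩ := List.mem_map.1 hy
            exact hφT b (hp8 x b hb) a ha
          · rw [List.mem_singleton] at hy
            rw [hy] at ha
            exact Finset.mem_of_mem_erase (hθ'2 _ a ha)
    · rw [if_neg (show ¬ cx x from hx)] at ha
      exact Finset.mem_of_mem_erase (hθ'2 _ a ha)
  · intro x
    have hM0l : M0 ≤ Mst v j C N m := by
      unfold Mst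
      rw [← hM0]
      have : (2 * v + 1) * M0 = 2 * v * M0 + M0 := by ring
      omega
    by_cases hx : c ∈ ρ x
    · right
      refine ⟨p x, μ x ++ [q x], θ' (x, false), μ' x ++ [θ' (x, true)], hp1 x hx,
        if_pos (show cx x from hx), ⟨?_, (hθ'4 _).trans hM0l⟩, ?_⟩
      · have := hθ'3 (x, false)
        rwa [hθf] at this
      · refine List.rel_append ?_ (.cons ⟨?_, (hθ'4 _).trans hM0l⟩ .nil)
        · show List.Forall₂ _ (μ x) ((μ x).map φ)
          rw [List.forall₂_map_right_iff, List.forall₂_same]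
          intro b hb
          exact ⟨hφK b, hφl b (hp8 x b hb)⟩
        · have := hθ'3 (x, true)
          rwa [hθt] at this
    · left
      have e : asm cx c θ' μ' x = θ' (x, false) := if_neg (show ¬ cx x from hx)
      rw [e]
      refine ⟨hx, ?_, (hθ'4 _).trans hM0l⟩
      have := hθ'3 (x, false)
      rw [hθf, hp2 x hx] at this
      exact this

end WK
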