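import Pool.Agent.WK.Core21

/-!
# Systems of word equations: short solutions that keep scattered subwords, assembly

Helper file for MP_fc7ad9_lc (word equations).
-/

set_option autoImplicit false

namespace WK

open WE45

universe u w

/-- bounded by a polynomial -/
def PB2 (f : ℕ → ℕ → ℕ) : Prop := ∃ C, ∀ N m, f N m ≤ C * (N + m + 1) ^ C

theorem pb2_pow_mono {C D N m : ℕ} (h : C ≤ D) :
    C * (N + m + 1) ^ C ≤ D * (N + m + 1) ^ D :=
  Nat.mul_le_mul h (Nat.pow_le_pow_right (Nat.succ_pos _) h)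

theorem PB2.mono {f g : ℕ → ℕ → ℕ} (h : ∀ N m, f N m ≤ g N m) (hg : PB2 g) : PB2 f := by
  obtain ⟨C, hC⟩ := hg
  exact ⟨C, fun N m => (h N m).trans (hC N m)⟩

theorem PB2.const (k : ℕ) : PB2 (fun _ _ => k) :=
  ⟨k, fun N m => by
    have : 1 ≤ (N + m + 1) ^ k := Nat.one_le_pow _ _ (Nat.succ_pos _)
    nlinarith⟩

theorem PB2.fst : PB2 (fun N _ => N) := ⟨1, fun N m => by simp; omega⟩

theorem PB2.snd : PB2 (fun _ m => m) := ⟨1, fun N m => by simp; omega⟩

theorem PB2.add {f g : ℕ → ℕ → ℕ} (hf : PB2 f) (hg : PB2 g) : PB2 (fun N m => f N m + g N m) := by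
  obtain ⟨C, hC⟩ := hf
  obtain ⟨D, hD⟩ := hg
  refine ⟨C + D, fun N m => ?_⟩
  have h1 := hC N m
  have h2 := hD N m
  have h3 : C * (N + m + 1) ^ C ≤ C * (N + m + 1) ^ (C + D) :=
    Nat.mul_le_mul_left _ (Nat.pow_le_pow_right (Nat.succ_pos _) (by omega))
  have h4 : D * (N + m + 1) ^ D ≤ D * (N + m + 1) ^ (C + D) :=
    Nat.mul_le_mul_left _ (Nat.pow_le_pow_right (Nat.succ_pos _) (by omega))
  have h5 : (C + D) * (N + m + 1) ^ (C + D) =
    C * (N + m + 1) ^ (C + D) + D * (N + m + 1) ^ (C + D) := by ring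
  rw [h5]
  show f N m + g N m ≤ _
  omega

theorem PB2.mul {f g : ℕ → ℕ → ℕ} (hf : PB2 f) (hg : PB2 g) : PB2 (fun N m => f N m * g N m) := by
  obtain ⟨C, hC⟩ := hf
  obtain ⟨D, hD⟩ := hg
  refine ⟨C * D + C + D, fun N m => ?_⟩
  have h1 := Nat.mul_le_mul (hC N m) (hD N m)
  refine h1.trans ?_
  have e : C * (N + m + 1) ^ C * (D * (N + m + 1) ^ D) = C * D * (N + m + 1) ^ (C + D) := by
    rw [pow_add]; ring
  rw [e]
  exact Nat.mul_le_mul (by omega) (Nat.pow_le_pow_right (Nat.succ_pos _) (by omega))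

theorem PB2.pow {f : ℕ → ℕ → ℕ} (hf : PB2 f) : ∀ k : ℕ, PB2 (fun N m => f N m ^ k)
  | 0 => (PB2.const 1).mono (fun N m => by simp)
  | k + 1 => ((PB2.pow hf k).mul hf).mono (fun N m => by rw [pow_succ])

/-- the gap after `i` steps -/
def Dst (M : ℕ) : ℕ → ℕ
  | 0 => M
  | i + 1 => (Dst M i + 2) * (M + 1)

theorem le_Dst (M : ℕ) : ∀ i, M ≤ Dst M i
  | 0 => le_rfl
  | i + 1 => by
      have := le_Dst M i
      show M ≤ (Dst M i + 2) * (M + 1)
      nlinarith

theorem Dst_succ_le (M i : ℕ) : Dst M i ≤ Dst M (i + 1) := by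
  show Dst M i ≤ (Dst M i + 2) * (M + 1)
  nlinarith

theorem Dst_mono (M : ℕ) : Monotone (Dst M) := monotone_nat_of_le_succ (Dst_succ_le M)

theorem core_dense {v j C : ℕ} (hP : CoreP.{u, w} (vnx v) j C) {Γ : Type u} {X : Type w}
    [DecidableEq Γ] [Fintype X] (T : Finset Γ)
    (E : List (List (Γ ⊕ X) × List (Γ ⊕ X))) (N m : ℕ) (hT : T.card ≤ j + 1)
    (hX : Fintype.card X ≤ v)
    (hE : E.length ≤ v) (hv : ∀ t ∈ E, vo (t.1 ++ t.2) ≤ v)
    (hN : ∀ t ∈ E, t.1.length + t.2.length ≤ N)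
    (hET : ∀ t ∈ E, ∀ a, .inl a ∈ t.1 ++ t.2 → a ∈ T)
    (σ : X → List Γ) (hσT : ∀ x, ∀ a ∈ σ x, a ∈ T) (hσ : ∀ t ∈ E, sb σ t.1 = sb σ t.2) :
    ∀ cs : List Γ, (∀ c ∈ cs, c ∈ T) → ∃ ρ : X → List Γ, (∀ t ∈ E, sb ρ t.1 = sb ρ t.2) ∧
      (∀ x, ∀ a ∈ ρ x, a ∈ T) ∧ (∀ x, Keep (m + 1) (σ x) (ρ x)) ∧
      ∀ c ∈ cs, ∀ x, c ∈ σ x → Gap (Dst (Mst v j C N (m + 1)) cs.length) c (ρ x)
  | [], _ => ⟨σ, hσ, hσT, fun x => Keep.refl _ _, by simp⟩
  | c :: cs, h => by
      obtain ⟨ρ, h1, h2, h3, h4⟩ := core_dense hP T E N m hT hX hE hv hN hET σ hσT hσ cs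
        (fun a ha => h a (List.mem_cons_of_mem _ ha))
      obtain ⟨ρ', h5, h6, h7⟩ := core_step hP T E N (m + 1) hT hX hE hv hN hET ρ h2 h1
        (h c (by simp))
      set M := Mst v j C N (m + 1) with hM
      have hK : ∀ x, Keep (m + 1) (ρ x) (ρ' x) := by
        intro x
        rcases h7 x with ⟨_, h8, _⟩ | ⟨b, bs, b', bs', e1, e2, h8, h9⟩
        · exact h8
        · rw [e1, e2]
          clear e1 e2
          induction h9 generalizing b b' with
          | nil => rw [jn_nil, jn_nil]; exact h8.1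
          | cons hxy _ ih =>
            rw [jn_cons, jn_cons]
            exact h8.1.append (Keep.cons c (ih _ _ hxy))
      refine ⟨ρ', h5, h6, fun x => (h3 x).trans (hK x), ?_⟩
      intro c' hc' x hx
      have hx' : c' ∈ ρ x := (h3 x).mem hx
      have hle : M ≤ Dst M (c :: cs).length := le_Dst M _
      rcases h7 x with ⟨_, _, h8⟩ | ⟨b, bs, b', bs', e1, e2, h8, h9⟩
      · exact gap_of_length (h8.trans hle)
      · by_cases hcc : c' = c
        · subst hcc
          rw [e2]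
          refine (gap_jn h8.2 ?_).mono hle
          clear e1 e2 h8
          induction h9 with
          | nil => intro y hy; simp at hy
          | cons hxy _ ih =>
            intro y hy
            rcases List.mem_cons.1 hy with rfl | hy
            · exact hxy.2
            · exact ih y hy
        · have hc'' : c' ∈ cs := by
            rcases List.mem_cons.1 hc' with h | h
            · exact absurd h hcc
            · exact h
          have h10 := h4 c' hc'' x hx
          rw [e1] at h10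
          rw [e2]
          refine gap_jn_other hcc (fun hb => h8.1.mem hb) h8.2 ?_ h10
          exact h9.imp fun y y' hy => ⟨fun hb => hy.1.mem hb, hy.2⟩

/-- the bound at the next level -/
def Bst (v j C C1 N m : ℕ) : ℕ :=
  C1 * (N + 3 + (m + 1) * (Dst (Mst v j C N (m + 1)) (j + 1) + 1) + 1) ^ C1

theorem core_next {v j C C1 : ℕ} (hP : CoreP.{u, w} (vnx v) j C)
    (hC1 : ∀ {A : Type u} {X : Type w} [Fintype X]
      (E : List (List (A ⊕ X) × List (A ⊕ X))) (N : ℕ), E.length ≤ 2 * v + 3 →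
      (∀ t ∈ E, (t.1 ++ t.2).countP Sum.isRight ≤ 2 * v + 3) →
      (∀ t ∈ E, t.1.length + t.2.length ≤ N) →
      (∃ σ : X → List A, ∀ t ∈ E, sb σ t.1 = sb σ t.2) →
      ∃ σ : X → List A, (∀ t ∈ E, sb σ t.1 = sb σ t.2) ∧
        ∑ x, (σ x).length ≤ C1 * (N + 1) ^ C1)
    {Γ : Type u} {X : Type w}
    [DecidableEq Γ] [Fintype X] (T : Finset Γ)
    (E : List (List (Γ ⊕ X) × List (Γ ⊕ X))) (N m : ℕ) (hT : T.card ≤ j + 1)
    (hX : Fintype.card X ≤ v)
    (hE : E.length ≤ v) (hv : ∀ t ∈ E, vo (t.1 ++ t.2) ≤ v)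
    (hN : ∀ t ∈ E, t.1.length + t.2.length ≤ N)
    (hET : ∀ t ∈ E, ∀ a, .inl a ∈ t.1 ++ t.2 → a ∈ T)
    (σ : X → List Γ) (hσT : ∀ x, ∀ a ∈ σ x, a ∈ T) (hσ : ∀ t ∈ E, sb σ t.1 = sb σ t.2) :
    ∃ σ' : X → List Γ, (∀ t ∈ E, sb σ' t.1 = sb σ' t.2) ∧ (∀ x, ∀ a ∈ σ' x, a ∈ T) ∧
      (∀ x, Keep m (σ x) (σ' x)) ∧ ∀ x, (σ' x).length ≤ Bst v j C C1 N m := by
  classical
  obtain ⟨ρ, h1, h2, h3, h4⟩ := core_dense hP T E N m hT hX hE hv hN hET σ hσT hσ T.toList
    (fun c hc => Finset.mem_toList.1 hc)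
  set D := Dst (Mst v j C N (m + 1)) (j + 1) with hD
  have hDle : Dst (Mst v j C N (m + 1)) T.toList.length ≤ D := by
    rw [Finset.length_toList]; exact Dst_mono _ hT
  let z : X → List Γ := fun x => (ρ x).take ((m + 1) * (D + 1))
  have hz : ∀ x, Keep m (σ x) (z x) := by
    intro x s hs hsub
    by_cases hl : (m + 1) * (D + 1) ≤ (ρ x).length
    · refine window (D := D) (m + 1) (ρ x) s ?_ (by omega) hl
      intro a ha
      have ha' : a ∈ σ x := hsub.subset ha
      exact (h4 a (Finset.mem_toList.2 (hσT x a ha')) x ha').mono hDle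
    · have e : z x = ρ x := List.take_of_length_le (by omega)
      rw [e]
      exact h3 x s (by omega) hsub
  let E2 : List (List (Γ ⊕ (X ⊕ (X × Bool))) × List (Γ ⊕ (X ⊕ (X × Bool)))) :=
    E.map (fun t => (t.1.map (Sum.map id Sum.inl), t.2.map (Sum.map id Sum.inl))) ++
    (Finset.univ : Finset X).toList.map (fun x => ([.inr (.inl x)],
      .inr (.inr (x, false)) :: ((z x).map Sum.inl ++ [.inr (.inr (x, true))])))
  have hE2 : ∀ t ∈ E2, (∃ t' ∈ E, t = (t'.1.map (Sum.map id Sum.inl),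
      t'.2.map (Sum.map id Sum.inl))) ∨ ∃ x, t = ([.inr (.inl x)],
      .inr (.inr (x, false)) :: ((z x).map Sum.inl ++ [.inr (.inr (x, true))])) := by
    intro t ht
    rcases List.mem_append.1 ht with ht | ht
    · obtain ⟨t', ht', rfl⟩ := List.mem_map.1 ht
      exact Or.inl ⟨t', ht', rfl⟩
    · obtain ⟨x, _, rfl⟩ := List.mem_map.1 ht
      exact Or.inr ⟨x, rfl⟩
  obtain ⟨τ, hτ1, hτ2⟩ := hC1 E2 (N + 3 + (m + 1) * (D + 1)) (by
      simp only [E2, List.length_append, List.length_map, Finset.length_toList,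
        Finset.card_univ]
      omega)
    (by
      intro t ht
      rcases hE2 t ht with ⟨t', ht', rfl⟩ | ⟨x, rfl⟩
      · have h5 := hv t' ht'
        rw [vo_append] at h5
        show vo (_ ++ _) ≤ _
        rw [vo_append, vo_lift, vo_lift]
        omega
      · have e : List.countP (Sum.isRight ∘ (Sum.inl : Γ → Γ ⊕ (X ⊕ (X × Bool)))) (z x) = 0 := by
          rw [List.countP_eq_zero]
          intro a _
          simp
        simp only [List.countP_append, List.countP_cons, List.countP_map, List.countP_nil, e]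
        simp)
    (by
      intro t ht
      rcases hE2 t ht with ⟨t', ht', rfl⟩ | ⟨x, rfl⟩
      · have h5 := hN t' ht'
        simp only [List.length_map]
        omega
      · have h5 : (z x).length ≤ (m + 1) * (D + 1) := List.length_take_le _ _
        simp only [List.length_cons, List.length_append, List.length_map, List.length_nil]
        omega)
    (by
      refine ⟨Sum.elim ρ (fun y => if y.2 then (ρ y.1).drop ((m + 1) * (D + 1)) else []), ?_⟩
      intro t ht
      rcases hE2 t ht with ⟨t', ht', rfl⟩ | ⟨x, rfl⟩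
      · show sb _ (t'.1.map _) = sb _ (t'.2.map _)
        rw [sb_lift, sb_lift]
        exact h1 t' ht'
      · rw [sb_inr, sb_nil, List.append_nil, sb_inr, sb_append, sb_map_const, sb_inr, sb_nil,
          List.append_nil]
        simp [z])
  refine ⟨fun x => (τ (.inl x)).filter (fun a => a ∈ T), ?_, ?_, ?_, ?_⟩
  · intro t ht
    have h5 := hτ1 _ (List.mem_append_left _ (List.mem_map.2 ⟨t, ht, rfl⟩))
    simp only [sb_lift] at h5
    have h6 := sb_filter (θ := fun x => τ (.inl x)) (fun a => a ∈ T) t.1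
      (fun a ha => hET t ht a (List.mem_append_left _ ha))
    have h7 := sb_filter (θ := fun x => τ (.inl x)) (fun a => a ∈ T) t.2
      (fun a ha => hET t ht a (List.mem_append_right _ ha))
    rw [← h6, ← h7, h5]
  · intro x a ha
    have := (List.mem_filter.1 ha).2
    simpa using this
  · intro x s hs hsub
    have h5 := hz x s hs hsub
    have h6 := hτ1 _ (List.mem_append_right _ (List.mem_map.2
      ⟨x, Finset.mem_toList.2 (Finset.mem_univ x), rfl⟩))
    rw [sb_inr, sb_nil, List.append_nil, sb_inr, sb_append, sb_map_const, sb_inr, sb_nil,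
      List.append_nil] at h6
    have h7 : s.Sublist (τ (.inl x)) := by
      rw [h6]
      exact (h5.trans (List.sublist_append_left _ _)).trans (List.sublist_append_right _ _)
    have h8 : s.filter (fun a => a ∈ T) = s := by
      rw [List.filter_eq_self]
      intro a ha
      simpa using hσT x a (hsub.subset ha)
    rw [← h8]
    exact h7.filter _
  · intro x
    refine (List.length_filter_le _ _).trans ?_
    have h5 : (τ (.inl x)).length ≤ ∑ y, (τ y).length :=
      Finset.single_le_sum (f := fun y => (τ y).length) (fun _ _ => Nat.zero_le _)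
        (Finset.mem_univ _)
    exact h5.trans hτ2

theorem Bst_poly (v j C C1 : ℕ) : PB2 (Bst v j C C1) := by
  have hM : PB2 (fun N m => Mst v j C N (m + 1)) := by
    have h1 : PB2 (fun N m : ℕ => 4 * N + (m + 1) + 1) :=
      (((PB2.const 4).mul PB2.fst).add (PB2.snd.add (PB2.const 1))).add (PB2.const 1)
    exact (((PB2.const 2).mul PB2.fst).add ((PB2.const (2 * v + 1)).mul
      ((PB2.const C).mul (h1.pow C)))).add ((PB2.snd.add (PB2.const 1)).mul
      (PB2.const (j + 1)))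
  have hD : ∀ i, PB2 (fun N m => Dst (Mst v j C N (m + 1)) i) := by
    intro i
    induction i with
    | zero => exact hM
    | succ i ih => exact (ih.add (PB2.const 2)).mul (hM.add (PB2.const 1))
  have h2 : PB2 (fun N m : ℕ => N + 3 + (m + 1) * (Dst (Mst v j C N (m + 1)) (j + 1) + 1) + 1) :=
    ((PB2.fst.add (PB2.const 3)).add ((PB2.snd.add (PB2.const 1)).mul
      ((hD (j + 1)).add (PB2.const 1)))).add (PB2.const 1)
  exact (PB2.const C1).mul (h2.pow C1)

/-- **Scattered subwords can be kept.** -/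
theorem core (j : ℕ) : ∀ v : ℕ, ∃ C, CoreP.{u, w} v j C := by
  induction j with
  | zero =>
    intro v
    refine ⟨0, ?_⟩
    intro Γ X _ _ T E N m hT hX hE hv hN hET σ hσT hσ
    have hT0 : T = ∅ := Finset.card_eq_zero.1 (Nat.le_zero.1 hT)
    have hσ0 : ∀ x, σ x = [] := by
      intro x
      refine List.eq_nil_iff_forall_not_mem.2 fun a ha => ?_
      have := hσT x a ha
      rw [hT0] at this
      simp at this
    exact ⟨σ, hσ, hσT, fun x => Keep.refl _ _, fun x => by rw [hσ0 x]; simp⟩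
  | succ j ih =>
    intro v
    obtain ⟨C, hC⟩ := ih (vnx v)
    obtain ⟨C1, hC1⟩ := few_systems.{u, w} (2 * v + 3)
    obtain ⟨D, hD⟩ := Bst_poly v j C C1
    refine ⟨D, ?_⟩
    intro Γ X _ _ T E N m hT hX hE hv hN hET σ hσT hσ
    obtain ⟨σ', h1, h2, h3, h4⟩ := core_next hC hC1 T E N m hT hX hE hv hN hET σ hσT hσ
    exact ⟨σ', h1, h2, h3, fun x => (h4 x).trans (hD N m)⟩

end WK
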