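import Pool.Agent.WK.CoreW21

/-!
# Cutting a system of word equations at a letter

Helper file for MP_fc7ad9_lc (word equations): the symbolic blocks of a word with variables between
two occurrences of a letter `c`.
-/

set_option autoImplicit false

namespace WK

open WE45

universe u w

variable {Γ : Type u} {X : Type w}

/-- symbolic blocks: `cx x` says that the value of `x` contains `c`; the unknowns are `(x, false)`
(the part of `x` before the first `c`, or all of `x`) and `(x, true)` (the part after the last
`c`). The first component is the first block. -/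
def prs [DecidableEq Γ] (cx : X → Prop) [DecidablePred cx] (c : Γ) :
    List (Γ ⊕ (X × Bool)) → List (Γ ⊕ X) →
      List (Γ ⊕ (X × Bool)) × List (List (Γ ⊕ (X × Bool)) ⊕ X)
  | cur, [] => (cur, [])
  | cur, .inl a :: L =>
      if a = c then (cur, .inl (prs cx c [] L).1 :: (prs cx c [] L).2)
      else prs cx c (cur ++ [.inl a]) L
  | cur, .inr x :: L =>
      if cx x then (cur ++ [.inr (x, false)],
        .inr x :: .inl (prs cx c [.inr (x, true)] L).1 :: (prs cx c [.inr (x, true)] L).2)
      else prs cx c (cur ++ [.inr (x, false)]) L

/-- the blocks that are given by forms -/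
def frs : List (List (Γ ⊕ (X × Bool)) ⊕ X) → List (List (Γ ⊕ (X × Bool)))
  | [] => []
  | .inl f :: l => f :: frs l
  | .inr _ :: l => frs l

/-- the value of a list of symbolic blocks -/
def evb (θ : X × Bool → List Γ) (μ : X → List (List Γ)) :
    List (List (Γ ⊕ (X × Bool)) ⊕ X) → List (List Γ)
  | [] => []
  | .inl f :: l => sb θ f :: evb θ μ l
  | .inr x :: l => μ x ++ evb θ μ l

/-- the assignment with the given parts -/
def asm (cx : X → Prop) [DecidablePred cx] (c : Γ) (θ : X × Bool → List Γ)
    (μ : X → List (List Γ)) (x : X) : List Γ :=
  if cx x then jn c (θ (x, false)) (μ x ++ [θ (x, true)]) else θ (x, false)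

theorem prs_ev [DecidableEq Γ] (cx : X → Prop) [DecidablePred cx] (c : Γ)
    (θ : X × Bool → List Γ) (μ : X → List (List Γ)) :
    ∀ (L : List (Γ ⊕ X)) (cur : List (Γ ⊕ (X × Bool))),
      sb θ cur ++ sb (asm cx c θ μ) L =
        jn c (sb θ (prs cx c cur L).1) (evb θ μ (prs cx c cur L).2)
  | [], cur => by simp [prs, evb, jn_nil, sb_nil]
  | .inl a :: L, cur => by
      rw [sb_inl]
      by_cases ha : a = c
      · subst ha
        have ih := prs_ev cx a θ μ L []
        rw [sb_nil, List.nil_append] at ih
        simp only [prs, if_true]
        simp only [evb]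
        rw [jn_cons, ih]
      · have ih := prs_ev cx c θ μ L (cur ++ [.inl a])
        simp only [prs, if_neg ha]
        rw [← ih, sb_append, sb_inl, sb_nil, List.append_assoc]
        rfl
  | .inr x :: L, cur => by
      rw [sb_inr]
      by_cases hx : cx x
      · have ih := prs_ev cx c θ μ L [.inr (x, true)]
        simp only [prs, if_pos hx]
        simp only [evb]
        have e1 : asm cx c θ μ x = jn c (θ (x, false)) (μ x ++ [θ (x, true)]) := if_pos hx
        rw [e1, sb_append, sb_inr, sb_nil, List.append_nil]
        rw [sb_inr, sb_nil, List.append_nil] at ih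
        rw [← List.append_assoc, append_jn, jn_append, List.append_assoc]
        rw [jn_append]
        congr 1
        simp only [List.map_cons, List.map_nil, List.flatten_cons, List.flatten_nil,
          List.append_nil, List.cons_append]
        rw [ih]
        simp [jn]
      · have ih := prs_ev cx c θ μ L (cur ++ [.inr (x, false)])
        simp only [prs, if_neg hx]
        rw [← ih, sb_append, sb_inr, sb_nil, List.append_nil, List.append_assoc]
        rw [show asm cx c θ μ x = θ (x, false) from if_neg hx]

/-- all symbolic blocks of a word -/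
def frm [DecidableEq Γ] (cx : X → Prop) [DecidablePred cx] (c : Γ) (L : List (Γ ⊕ X)) :
    List (List (Γ ⊕ (X × Bool))) :=
  (prs cx c [] L).1 :: frs (prs cx c [] L).2

/-- number of occurrences of variables -/
def vo {A Y : Type*} (l : List (A ⊕ Y)) : ℕ := l.countP Sum.isRight

theorem vo_append {A Y : Type*} (l l' : List (A ⊕ Y)) : vo (l ++ l') = vo l + vo l' :=
  List.countP_append

theorem sum_vo_prs [DecidableEq Γ] (cx : X → Prop) [DecidablePred cx] (c : Γ) :
    ∀ (L : List (Γ ⊕ X)) (cur : List (Γ ⊕ (X × Bool))),
      vo (prs cx c cur L).1 + ((frs (prs cx c cur L).2).map vo).sum ≤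
        vo cur + 2 * vo L
  | [], cur => by simp [prs, frs]
  | .inl a :: L, cur => by
      have e : vo ((.inl a : Γ ⊕ X) :: L) = vo L := by simp [vo]
      by_cases ha : a = c
      · have ih := sum_vo_prs cx c L []
        simp only [prs, if_pos ha]
        simp only [frs, List.map_cons, List.sum_cons]
        rw [e]
        have : vo ([] : List (Γ ⊕ (X × Bool))) = 0 := rfl
        omega
      · have ih := sum_vo_prs cx c L (cur ++ [.inl a])
        simp only [prs, if_neg ha]
        rw [vo_append] at ih
        have : vo ([.inl a] : List (Γ ⊕ (X × Bool))) = 0 := by simp [vo]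
        rw [e]; omega
  | .inr x :: L, cur => by
      have e : vo ((.inr x : Γ ⊕ X) :: L) = vo L + 1 := by simp [vo]
      by_cases hx : cx x
      · have ih := sum_vo_prs cx c L [.inr (x, true)]
        simp only [prs, if_pos hx]
        simp only [frs, List.map_cons, List.sum_cons]
        rw [e, vo_append]
        have h1 : vo ([.inr (x, true)] : List (Γ ⊕ (X × Bool))) = 1 := by simp [vo]
        have h2 : vo ([.inr (x, false)] : List (Γ ⊕ (X × Bool))) = 1 := by simp [vo]
        omega
      · have ih := sum_vo_prs cx c L (cur ++ [.inr (x, false)])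
        simp only [prs, if_neg hx]
        rw [vo_append] at ih
        have h2 : vo ([.inr (x, false)] : List (Γ ⊕ (X × Bool))) = 1 := by simp [vo]
        rw [e]; omega

theorem sum_length_prs [DecidableEq Γ] (cx : X → Prop) [DecidablePred cx] (c : Γ) :
    ∀ (L : List (Γ ⊕ X)) (cur : List (Γ ⊕ (X × Bool))),
      (prs cx c cur L).1.length + ((frs (prs cx c cur L).2).map List.length).sum ≤ cur.length + 2 * L.length
  | [], cur => by simp [prs, frs]
  | .inl a :: L, cur => by
      by_cases ha : a = c
      · have ih := sum_length_prs cx c L []
        simp only [prs, if_pos ha]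
        simp only [frs, List.map_cons, List.sum_cons,
          List.length_cons]
        rw [List.length_nil] at ih
        omega
      · have ih := sum_length_prs cx c L (cur ++ [.inl a])
        simp only [prs, if_neg ha]
        rw [List.length_append, List.length_singleton] at ih
        rw [List.length_cons]; omega
  | .inr x :: L, cur => by
      by_cases hx : cx x
      · have ih := sum_length_prs cx c L [.inr (x, true)]
        simp only [prs, if_pos hx]
        simp only [frs, List.map_cons, List.sum_cons,
          List.length_cons, List.length_append]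
        rw [List.length_singleton] at ih
        simp only [List.length_nil]
        omega
      · have ih := sum_length_prs cx c L (cur ++ [.inr (x, false)])
        simp only [prs, if_neg hx]
        rw [List.length_append, List.length_singleton] at ih
        rw [List.length_cons]; omega

/-- the values of the blocks change by `φ` -/
theorem evb_map {θ θ' : X × Bool → List Γ} {μ μ' : X → List (List Γ)} {φ : List Γ → List Γ}
    (hμ : ∀ x, μ' x = (μ x).map φ) : ∀ l : List (List (Γ ⊕ (X × Bool)) ⊕ X),
    (∀ f ∈ frs l, sb θ' f = φ (sb θ f)) → evb θ' μ' l = (evb θ μ l).map φ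
  | [], _ => rfl
  | .inl f :: l, h => by
      simp only [evb, List.map_cons]
      rw [h f (by simp [frs]), evb_map hμ l (fun g hg => h g (by
        simp only [frs, List.mem_cons]; exact Or.inr hg))]
  | .inr x :: l, h => by
      simp only [evb, List.map_append]
      rw [hμ x, evb_map hμ l (fun g hg => h g (by simpa only [frs] using hg))]

/-- letters of the blocks -/
theorem not_mem_prs [DecidableEq Γ] {cx : X → Prop} [DecidablePred cx] {c : Γ}
    {θ : X × Bool → List Γ} {μ : X → List (List Γ)} (hθ : ∀ y, c ∉ θ y)
    (hμ : ∀ x, ∀ b ∈ μ x, c ∉ b) :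
    ∀ (L : List (Γ ⊕ X)) (cur : List (Γ ⊕ (X × Bool))), c ∉ sb θ cur →
      c ∉ sb θ (prs cx c cur L).1 ∧ ∀ b ∈ evb θ μ (prs cx c cur L).2, c ∉ b
  | [], cur, h => by simp [prs, evb, h]
  | .inl a :: L, cur, h => by
      by_cases ha : a = c
      · obtain ⟨h1, h2⟩ := not_mem_prs (cx := cx) hθ hμ L [] (by simp [sb_nil])
        simp only [prs, if_pos ha]
        refine ⟨h, ?_⟩
        simp only [evb]
        intro b hb
        rcases List.mem_cons.1 hb with rfl | hb
        · exact h1
        · exact h2 b hb
      · simp only [prs, if_neg ha]
        refine not_mem_prs hθ hμ L _ ?_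
        rw [sb_append, sb_inl, sb_nil]
        simp only [List.mem_append, List.mem_singleton, not_or]
        exact ⟨h, fun h => ha h.symm⟩
  | .inr x :: L, cur, h => by
      by_cases hx : cx x
      · obtain ⟨h1, h2⟩ := not_mem_prs (cx := cx) hθ hμ L [.inr (x, true)] (by
          rw [sb_inr, sb_nil, List.append_nil]; exact hθ _)
        simp only [prs, if_pos hx]
        refine ⟨?_, ?_⟩
        · rw [sb_append, sb_inr, sb_nil, List.append_nil]
          simp only [List.mem_append, not_or]
          exact ⟨h, hθ _⟩
        · simp only [evb]
          intro b hb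
          rcases List.mem_append.1 hb with hb | hb
          · exact hμ x b hb
          · rcases List.mem_cons.1 hb with rfl | hb
            · exact h1
            · exact h2 b hb
      · simp only [prs, if_neg hx]
        refine not_mem_prs hθ hμ L _ ?_
        rw [sb_append, sb_inr, sb_nil, List.append_nil]
        simp only [List.mem_append, not_or]
        exact ⟨h, hθ _⟩

/-- constants of the symbolic blocks -/
theorem const_prs [DecidableEq Γ] {cx : X → Prop} [DecidablePred cx] {c : Γ} {T : Γ → Prop} :
    ∀ (L : List (Γ ⊕ X)) (cur : List (Γ ⊕ (X × Bool))), (∀ a, .inl a ∈ L → T a) →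
      (∀ a, .inl a ∈ cur → T a ∧ a ≠ c) →
      (∀ a, .inl a ∈ (prs cx c cur L).1 → T a ∧ a ≠ c) ∧
      ∀ f ∈ frs (prs cx c cur L).2, ∀ a, .inl a ∈ f → T a ∧ a ≠ c
  | [], cur, _, h => by simpa [prs, frs] using h
  | .inl b :: L, cur, hL, h => by
      by_cases hb : b = c
      · obtain ⟨h1, h2⟩ := const_prs (cx := cx) (c := c) L []
          (fun a ha => hL a (List.mem_cons_of_mem _ ha)) (by simp)
        simp only [prs, if_pos hb]
        refine ⟨h, ?_⟩
        intro f hf
        simp only [frs, List.mem_cons] at hf
        rcases hf with rfl | hf
        · exact h1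
        · exact h2 f hf
      · simp only [prs, if_neg hb]
        refine const_prs L _ (fun a ha => hL a (List.mem_cons_of_mem _ ha)) ?_
        intro a ha
        rcases List.mem_append.1 ha with ha | ha
        · exact h a ha
        · simp only [List.mem_singleton, Sum.inl.injEq] at ha
          subst ha
          exact ⟨hL _ (by simp), hb⟩
  | .inr x :: L, cur, hL, h => by
      have hL' : ∀ a, .inl a ∈ L → T a := fun a ha => hL a (List.mem_cons_of_mem _ ha)
      have hcur : ∀ a, .inl a ∈ cur ++ [.inr (x, false)] → T a ∧ a ≠ c := by
        intro a ha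
        rcases List.mem_append.1 ha with ha | ha
        · exact h a ha
        · simp at ha
      by_cases hx : cx x
      · obtain ⟨h1, h2⟩ := const_prs (cx := cx) (c := c) L [.inr (x, true)] hL'
          (by intro a ha; simp at ha)
        simp only [prs, if_pos hx]
        refine ⟨hcur, ?_⟩
        intro f hf
        simp only [frs, List.mem_cons] at hf
        rcases hf with rfl | hf
        · exact h1
        · exact h2 f hf
      · simp only [prs, if_neg hx]
        exact const_prs L _ hL' hcur

end WK
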