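import Pool.Agent.WE45.Enc

/-!
# Scattered subwords, gaps of a letter, blocks between two occurrences of a letter

Helper file for MP_fc7ad9_lc (word equations): words.
-/

set_option autoImplicit false

namespace WK

universe u w

variable {Γ : Type u}

/-- all scattered subwords of length at most `m` are kept -/
def Keep (m : ℕ) (u v : List Γ) : Prop := ∀ s : List Γ, s.length ≤ m → s.Sublist u → s.Sublist v

theorem Keep.refl (m : ℕ) (u : List Γ) : Keep m u u := fun _ _ h => h

theorem Keep.trans {m : ℕ} {u v x : List Γ} (h : Keep m u v) (h' : Keep m v x) : Keep m u x :=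
  fun s hs hu => h' s hs (h s hs hu)

theorem Keep.append {m : ℕ} {u v u' v' : List Γ} (h : Keep m u v) (h' : Keep m u' v') :
    Keep m (u ++ u') (v ++ v') := by
  intro s hs hu
  obtain ⟨s1, s2, rfl, h1, h2⟩ := List.sublist_append_iff.1 hu
  rw [List.length_append] at hs
  exact (h s1 (by omega) h1).append (h' s2 (by omega) h2)

theorem Keep.cons {m : ℕ} {u v : List Γ} (a : Γ) (h : Keep m u v) : Keep m (a :: u) (a :: v) :=
  Keep.append (Keep.refl m [a]) h

theorem Keep.mem {m : ℕ} {u v : List Γ} (h : Keep (m + 1) u v) {a : Γ} (ha : a ∈ u) : a ∈ v := by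
  have := h [a] (by simp) (List.singleton_sublist.2 ha)
  exact List.singleton_sublist.1 this

theorem Keep.mono {m m' : ℕ} (hm : m ≤ m') {u v : List Γ} (h : Keep m' u v) : Keep m u v :=
  fun s hs hu => h s (hs.trans hm) hu

/-- a word that contains all words of length at most `m` over the letters of `b` -/
def uni (m : ℕ) (b : List Γ) : List Γ := (List.replicate m b).flatten

/-- the letters of a word in some order -/
noncomputable def ltr [DecidableEq Γ] (b : List Γ) : List Γ := b.dedup

theorem sublist_uni : ∀ (m : ℕ) (b s : List Γ), s.length ≤ m → (∀ a ∈ s, a ∈ b) →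
    s.Sublist (uni m b)
  | m, b, [], _, _ => List.nil_sublist _
  | 0, b, a :: s, h, _ => by simp at h
  | m + 1, b, a :: s, h, hs => by
      have h1 := sublist_uni m b s (by simpa using h) (fun x hx => hs x (List.mem_cons_of_mem _ hx))
      have h2 : [a].Sublist b := List.singleton_sublist.2 (hs a (by simp))
      have : uni (m + 1) b = b ++ uni m b := by
        simp [uni, List.replicate_succ]
      rw [this]
      exact h2.append h1

theorem keep_uni [DecidableEq Γ] (m : ℕ) (b : List Γ) : Keep m b (uni m b.dedup) := by
  intro s hs hu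
  exact sublist_uni m _ s hs (fun a ha => List.mem_dedup.2 (hu.subset ha))

theorem length_uni (m : ℕ) (b : List Γ) : (uni m b).length = m * b.length := by
  simp [uni]

theorem mem_uni {m : ℕ} {b : List Γ} {a : Γ} (h : a ∈ uni m b) : a ∈ b := by
  unfold uni at h
  rw [List.mem_flatten] at h
  obtain ⟨l, hl, ha⟩ := h
  rw [List.eq_of_mem_replicate hl] at ha
  exact ha

/-- every factor without the letter `c` has length at most `D` -/
def Gap (D : ℕ) (c : Γ) (w : List Γ) : Prop := ∀ u : List Γ, u <:+: w → c ∉ u → u.length ≤ D

theorem Gap.mono {D D' : ℕ} (h : D ≤ D') {c : Γ} {w : List Γ} (hw : Gap D c w) : Gap D' c w :=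
  fun u hu hc => (hw u hu hc).trans h

theorem gap_of_length {D : ℕ} {c : Γ} {w : List Γ} (h : w.length ≤ D) : Gap D c w :=
  fun _ hu _ => hu.length_le.trans h

theorem infix_append_cases {p q u : List Γ} (h : u <:+: p ++ q) :
    u <:+: p ∨ u <:+: q ∨ ∃ s t, u = s ++ t ∧ s <:+ p ∧ t <+: q := by
  obtain ⟨a, b, h⟩ := h
  rw [List.append_assoc] at h
  rcases List.append_eq_append_iff.1 h with ⟨r, h1, h2⟩ | ⟨r, h1, h2⟩
  · -- p = a ++ r, u ++ b = r ++ q
    rcases List.append_eq_append_iff.1 h2 with ⟨t, h3, h4⟩ | ⟨t, h3, h4⟩
    · -- r = u ++ t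
      left
      exact ⟨a, t, by rw [h1, h3, List.append_assoc]⟩
    · -- u = r ++ t, q = t ++ b
      right; right
      exact ⟨r, t, h3, ⟨a, h1.symm⟩, ⟨b, h4.symm⟩⟩
  · -- a = p ++ r, q = r ++ (u ++ b)
    right; left
    exact ⟨r, b, by rw [h2, List.append_assoc]⟩

/-- first block, then blocks preceded by the letter `c` -/
def jn (c : Γ) (b : List Γ) (bs : List (List Γ)) : List Γ := b ++ (bs.map (fun x => c :: x)).flatten

theorem jn_nil (c : Γ) (b : List Γ) : jn c b [] = b := by simp [jn]

theorem jn_cons (c : Γ) (b x : List Γ) (bs : List (List Γ)) :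
    jn c b (x :: bs) = b ++ c :: jn c x bs := by simp [jn]

theorem jn_append (c : Γ) (b : List Γ) (bs bs' : List (List Γ)) :
    jn c b (bs ++ bs') = jn c b bs ++ (bs'.map (fun x => c :: x)).flatten := by
  simp [jn, List.append_assoc]

theorem append_jn (c : Γ) (a b : List Γ) (bs : List (List Γ)) :
    a ++ jn c b bs = jn c (a ++ b) bs := by simp [jn]

theorem exists_jn [DecidableEq Γ] (c : Γ) : ∀ w : List Γ, ∃ b bs, w = jn c b bs ∧ c ∉ b ∧
    ∀ x ∈ bs, c ∉ x
  | [] => ⟨[], [], rfl, by simp, by simp⟩
  | a :: w => by
      obtain ⟨b, bs, h1, h2, h3⟩ := exists_jn c w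
      by_cases ha : a = c
      · subst ha
        refine ⟨[], b :: bs, ?_, by simp, ?_⟩
        · rw [jn_cons, h1]; rfl
        · intro x hx
          rcases List.mem_cons.1 hx with rfl | hx
          · exact h2
          · exact h3 x hx
      · refine ⟨a :: b, bs, ?_, ?_, h3⟩
        · rw [h1]; simp [jn]
        · simp only [List.mem_cons, not_or]
          exact ⟨fun h => ha h.symm, h2⟩

theorem append_cons_inj {c : Γ} : ∀ {p p' q q' : List Γ}, c ∉ p → c ∉ p' →
    p ++ c :: q = p' ++ c :: q' → p = p' ∧ q = q'
  | [], [], q, q', _, _, h => by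
      simp only [List.nil_append, List.cons.injEq, true_and] at h
      exact ⟨rfl, h⟩
  | [], a :: p', q, q', _, h2, h => by
      simp only [List.nil_append, List.cons_append, List.cons.injEq] at h
      exact absurd (by rw [h.1]; simp) h2
  | a :: p, [], q, q', h1, _, h => by
      simp only [List.nil_append, List.cons_append, List.cons.injEq] at h
      exact absurd (by rw [h.1]; simp) h1
  | a :: p, b :: p', q, q', h1, h2, h => by
      simp only [List.cons_append, List.cons.injEq] at h
      obtain ⟨e1, e2⟩ := append_cons_inj (fun h => h1 (List.mem_cons_of_mem _ h))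
        (fun h => h2 (List.mem_cons_of_mem _ h)) h.2
      exact ⟨by rw [h.1, e1], e2⟩

theorem jn_inj {c : Γ} : ∀ {bs bs' : List (List Γ)} {b b' : List Γ}, c ∉ b → c ∉ b' →
    (∀ x ∈ bs, c ∉ x) → (∀ x ∈ bs', c ∉ x) → jn c b bs = jn c b' bs' → b = b' ∧ bs = bs'
  | [], [], b, b', _, _, _, _, h => by
      rw [jn_nil, jn_nil] at h
      exact ⟨h, rfl⟩
  | [], x :: bs', b, b', h1, _, _, _, h => by
      rw [jn_nil, jn_cons] at h
      exact absurd (by rw [h]; simp) h1
  | x :: bs, [], b, b', _, h2, _, _, h => by
      rw [jn_nil, jn_cons] at h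
      exact absurd (by rw [← h]; simp) h2
  | x :: bs, y :: bs', b, b', h1, h2, h3, h4, h => by
      rw [jn_cons, jn_cons] at h
      obtain ⟨e1, e2⟩ := append_cons_inj h1 h2 h
      obtain ⟨e3, e4⟩ := jn_inj (h3 x (by simp)) (h4 y (by simp))
        (fun z hz => h3 z (List.mem_cons_of_mem _ hz))
        (fun z hz => h4 z (List.mem_cons_of_mem _ hz)) e2
      exact ⟨e1, by rw [e3, e4]⟩

theorem gap_jn {M : ℕ} {c : Γ} : ∀ {bs : List (List Γ)} {b : List Γ}, b.length ≤ M →
    (∀ x ∈ bs, x.length ≤ M) → Gap M c (jn c b bs)
  | [], b, h, _ => by rw [jn_nil]; exact gap_of_length h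
  | x :: bs, b, h, h' => by
      intro u hu hc
      rw [jn_cons] at hu
      rcases infix_append_cases hu with h1 | h1 | ⟨s, t, rfl, h1, h2⟩
      · exact h1.length_le.trans h
      · have ih := gap_jn (c := c) (h' x (by simp)) (fun y hy => h' y (List.mem_cons_of_mem _ hy))
        obtain ⟨a, e, he⟩ := h1
        cases a with
        | nil =>
          cases u with
          | nil => simp
          | cons d u =>
            simp only [List.nil_append, List.cons_append, List.cons.injEq] at he
            exact absurd (by rw [he.1]; simp) hc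
        | cons d a =>
          simp only [List.cons_append, List.cons.injEq] at he
          exact ih u ⟨a, e, he.2⟩ hc
      · obtain ⟨e, he⟩ := h2
        cases t with
        | nil => rw [List.append_nil]; exact h1.length_le.trans h
        | cons d t =>
          simp only [List.cons_append, List.cons.injEq] at he
          exact absurd (by rw [he.1]; simp) hc

/-- comparison of two block lists -/
theorem prefix_jn {M : ℕ} {c c' : Γ} (hcc : c' ≠ c) : ∀ {bs bs' : List (List Γ)} {b b' : List Γ},
    (c' ∈ b → c' ∈ b') → b'.length ≤ M →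
    List.Forall₂ (fun x y => (c' ∈ x → c' ∈ y) ∧ y.length ≤ M) bs bs' →
    ∀ u, u <+: jn c b' bs' → c' ∉ u → ∃ w, w <+: jn c b bs ∧ c' ∉ w ∧
      u.length ≤ (w.length + 1) * (M + 1)
  | [], _, b, b', h, hM, .nil, u, hu, hc => by
      rw [jn_nil] at hu
      have := hu.length_le
      exact ⟨[], List.nil_prefix, by simp, by simp; omega⟩
  | x :: bs, y :: bs', b, b', h, hM, .cons hxy hr, u, hu, hc => by
      rw [jn_cons] at hu
      by_cases hl : u.length ≤ b'.length
      · exact ⟨[], List.nil_prefix, by simp, by simp; omega⟩
      · push Not at hl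
        obtain ⟨e, he⟩ := hu
        have hb : b' <+: u := by
          refine List.prefix_of_prefix_length_le (l₃ := b' ++ c :: jn c y bs')
            (List.prefix_append _ _) ⟨e, he⟩ hl.le
        obtain ⟨u1, rfl⟩ := hb
        rw [List.append_assoc, List.append_cancel_left_eq] at he
        cases u1 with
        | nil => simp at hl
        | cons d u1 =>
          simp only [List.cons_append, List.cons.injEq] at he
          obtain ⟨rfl, he⟩ := he
          have hc1 : c' ∉ u1 := fun h => hc (List.mem_append_right _ (List.mem_cons_of_mem _ h))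
          obtain ⟨w, h1, h2, h3⟩ := prefix_jn hcc hxy.1 hxy.2 hr u1 ⟨e, he⟩ hc1
          refine ⟨b ++ d :: w, ?_, ?_, ?_⟩
          · rw [jn_cons]
            obtain ⟨r, hr⟩ := h1
            exact ⟨r, by rw [← hr]; simp⟩
          · simp only [List.mem_append, List.mem_cons, not_or]
            refine ⟨fun hb => hc (List.mem_append_left _ (h hb)), hcc, h2⟩
          · simp only [List.length_append, List.length_cons]
            have h4 : b'.length ≤ M := hM
            have : b'.length + (u1.length + 1) ≤ (w.length + 1 + 1) * (M + 1) := by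
              have e1 : (w.length + 1 + 1) * (M + 1) = (w.length + 1) * (M + 1) + (M + 1) := by ring
              rw [e1]; omega
            refine this.trans (Nat.mul_le_mul_right _ ?_)
            omega

theorem gap_jn_other {M D : ℕ} {c c' : Γ} (hcc : c' ≠ c) :
    ∀ {bs bs' : List (List Γ)} {b b' : List Γ},
    (c' ∈ b → c' ∈ b') → b'.length ≤ M →
    List.Forall₂ (fun x y => (c' ∈ x → c' ∈ y) ∧ y.length ≤ M) bs bs' →
    Gap D c' (jn c b bs) → Gap ((D + 2) * (M + 1)) c' (jn c b' bs')
  | [], _, b, b', h, hM, .nil, hG => by
      rw [jn_nil]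
      refine gap_of_length (hM.trans ?_)
      nlinarith
  | x :: bs, y :: bs', b, b', h, hM, .cons hxy hr, hG => by
      have hG1 : Gap D c' (jn c x bs) := by
        intro u hu hc
        obtain ⟨a, e, he⟩ := hu
        exact hG u ⟨b ++ c :: a, e, by rw [jn_cons, ← he]; simp⟩ hc
      have ih := gap_jn_other hcc hxy.1 hxy.2 hr hG1
      intro u hu hc
      rw [jn_cons] at hu
      have hMM : M ≤ (D + 2) * (M + 1) := by nlinarith
      rcases infix_append_cases hu with h1 | h1 | ⟨s, t, rfl, h1, h2⟩
      · exact h1.length_le.trans (hM.trans hMM)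
      · -- inside `c :: jn c y bs'`
        obtain ⟨a, e, he⟩ := h1
        cases a with
        | nil =>
          cases u with
          | nil => simp
          | cons d u =>
            simp only [List.nil_append, List.cons_append, List.cons.injEq] at he
            obtain ⟨w, h3, h4, h5⟩ := prefix_jn hcc hxy.1 hxy.2 hr u ⟨e, he.2⟩
              (fun h => hc (List.mem_cons_of_mem _ h))
            have h6 := hG1 w h3.isInfix h4
            simp only [List.length_cons]
            have : (w.length + 1) * (M + 1) + (M + 1) ≤ (D + 2) * (M + 1) := by nlinarith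
            omega
        | cons d a =>
          simp only [List.cons_append, List.cons.injEq] at he
          exact ih u ⟨a, e, he.2⟩ hc
      · cases t with
        | nil => rw [List.append_nil]; exact h1.length_le.trans (hM.trans hMM)
        | cons d t =>
          obtain ⟨e, he⟩ := h2
          simp only [List.cons_append, List.cons.injEq] at he
          obtain ⟨w, h3, h4, h5⟩ := prefix_jn hcc hxy.1 hxy.2 hr t ⟨e, he.2⟩
            (fun h => hc (List.mem_append_right _ (List.mem_cons_of_mem _ h)))
          have h6 := hG1 w h3.isInfix h4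
          have h7 := h1.length_le
          simp only [List.length_append, List.length_cons]
          have : (w.length + 1) * (M + 1) + (M + 1) ≤ (D + 2) * (M + 1) := by nlinarith
          omega

/-- a window that contains all short words over the frequent letters -/
theorem window {D : ℕ} : ∀ (m : ℕ) (w u : List Γ), (∀ a ∈ u, Gap D a w) → u.length ≤ m →
    m * (D + 1) ≤ w.length → u.Sublist (w.take (m * (D + 1)))
  | m, w, [], _, _, _ => List.nil_sublist _
  | 0, w, a :: u, _, h, _ => by simp at h
  | m + 1, w, a :: u, hG, h, hw => by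
      have e1 : (m + 1) * (D + 1) = (D + 1) + m * (D + 1) := by ring
      have e2 : w.take ((m + 1) * (D + 1)) = w.take (D + 1) ++
          (w.drop (D + 1)).take (m * (D + 1)) := by
        rw [e1, List.take_add]
      rw [e2]
      have h1 : [a].Sublist (w.take (D + 1)) := by
        rw [List.singleton_sublist]
        by_contra hna
        have h2 := hG a (by simp) (w.take (D + 1)) (List.take_prefix _ _).isInfix hna
        rw [List.length_take] at h2
        have : D + 1 ≤ w.length := by rw [e1] at hw; omega
        omega
      refine List.Sublist.append h1 (window m (w.drop (D + 1)) u ?_ (by simpa using h) ?_)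
      · intro x hx v hv hc
        refine hG x (List.mem_cons_of_mem _ hx) v ?_ hc
        exact hv.trans (List.drop_suffix _ _).isInfix
      · rw [List.length_drop]; rw [e1] at hw; omega

end WK
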