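import Pool.Agent.WK.Defs64

/-! Word equations with boundedly many variables (MP_fc7ad9_lc). Helper module:
number of the blocks of a gap. -/

open WE45 WK64

namespace WK

/-- only the last position is a cut: one block (auxiliary form) -/
theorem out_single23 {A : Type*} (K : List A → Prop) [DecidablePred K] : ∀ (u h p : List A),
    K (h ++ u) → u ≠ [] → (∀ t, t <+: u → t ≠ [] → t ≠ u → ¬ K (h ++ t)) →
    (out K h p u).length = 1
  | [], _, _, _, hn, _ => absurd rfl hn
  | [a], h, p, hu, _, _ => by
      simp only [out]
      rw [if_pos hu]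
      rfl
  | a :: b :: u, h, p, hu, _, hK => by
      have h1 : ¬ K (h ++ [a]) := hK [a] ⟨b :: u, rfl⟩ (by simp) (by simp)
      rw [out, if_neg h1]
      refine out_single23 K (b :: u) (h ++ [a]) (p ++ [a]) (by simpa using hu) (by simp) ?_
      intro t ht htn htu hKt
      refine hK (a :: t) ((List.cons_prefix_cons).2 ⟨rfl, ht⟩) (by simp) ?_ (by simpa using hKt)
      intro he
      exact htu (List.cons.inj he).2

section Rule

variable {A X : Type*} {lg : X → Prop} {mk : X → List A} {l : ℕ}

/-- the number of the blocks of a gap that ends with a cut variable -/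
theorem bl_count_of {σ pre mid : X → List A} {M d : ℕ} (hl : 1 ≤ l)
    (hout : ∀ h p u : List A, u.length ≤ d + l → (out (KM lg mk) h p u).length ≤ M)
    (hC : Cut (KM lg mk) l σ pre mid lg)
    (hF : ∀ x, lg x → ∀ t, t <+: pre x → t ≠ pre x → ¬ KM lg mk t)
    (G : List A) (hG : G.length ≤ d) (o : Option X) (y : X) (hy : lg y) :
    (bl (KM lg mk) σ pre mid (o, G, some y)).length ≤ M + 1 := by
  have hlen := hC.len y hy
  rw [Cut.bl_some]
  have h1 : G ++ pre y = (G ++ (pre y).take (l - 1)) ++ (pre y).drop (l - 1) := by
    rw [List.append_assoc, List.take_append_drop]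
  rw [h1, out_append, List.length_append]
  have h2 : (out (KM lg mk) (ox σ o) (ox (sfx (KM lg mk) pre mid) o)
      (G ++ (pre y).take (l - 1))).length ≤ M := by
    apply hout
    rw [List.length_append, List.length_take]
    omega
  have h3 := out_single23 (KM lg mk) ((pre y).drop (l - 1))
    (ox σ o ++ (G ++ (pre y).take (l - 1)))
    (pend (KM lg mk) (ox σ o) (ox (sfx (KM lg mk) pre mid) o) (G ++ (pre y).take (l - 1)))
    (by
      have := hC.K_pre hy (ox σ o ++ G)
      rw [List.append_assoc, List.append_assoc, List.take_append_drop, ← List.append_assoc]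
      exact this)
    (by
      intro he
      have := congrArg List.length he
      rw [List.length_drop, List.length_nil] at this
      omega)
    (by
      intro t ht htn htu hK
      obtain ⟨r, hr⟩ := ht
      have ht1 : 1 ≤ t.length := List.length_pos_of_ne_nil htn
      have e1 : (pre y).take (l - 1) ++ t ++ r = pre y := by
        rw [List.append_assoc, hr, List.take_append_drop]
      have e2 : ox σ o ++ (G ++ (pre y).take (l - 1)) ++ t =
          (ox σ o ++ G) ++ ((pre y).take (l - 1) ++ t) := by simp
      rw [e2] at hK
      have e3 : l ≤ ((pre y).take (l - 1) ++ t).length := by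
        rw [List.length_append, List.length_take]
        omega
      refine hF y hy _ ⟨r, e1⟩ ?_ ((hC.loc _ _ e3).1 hK)
      intro he
      rw [he] at e1
      have hr0 : r = [] := by
        have := congrArg List.length e1
        rw [List.length_append] at this
        exact List.length_eq_zero_iff.1 (by omega)
      apply htu
      rw [← hr, hr0, List.append_nil])
  omega

/-- the same with the count of row R3d (`hout` is `out_length_le`) -/
theorem bl_count [Fintype X] {σ pre mid : X → List A} {g d : ℕ} (hl : 1 ≤ l)
    (hout : ∀ h p u : List A,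
      (out (KM lg mk) h p u).length ≤ Fintype.card X * (u.length / g + 1))
    (hC : Cut (KM lg mk) l σ pre mid lg)
    (hF : ∀ x, lg x → ∀ t, t <+: pre x → t ≠ pre x → ¬ KM lg mk t)
    (G : List A) (hG : G.length ≤ d) (o : Option X) (y : X) (hy : lg y) :
    (bl (KM lg mk) σ pre mid (o, G, some y)).length ≤
      Fintype.card X * ((d + l) / g + 1) + 1 :=
  bl_count_of hl (fun h p u hu => (hout h p u).trans (Nat.mul_le_mul_left _
    (Nat.add_le_add_right (Nat.div_le_div_right hu) 1))) hC hF G hG o y hy

end Rule

end WK
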