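import Pool.Agent.WK.Defs64

/-! Word equations with boundedly many variables (MP_fc7ad9_lc). Helper module:
the number of blocks of a gap. -/

open WE45 WK64

namespace WK

variable {A X : Type*} {lg : X → Prop} {mk : X → List A} {l : ℕ}

/-- at most one block is born when no proper nonempty prefix ends with a marker -/
theorem out_length_le_one91 (K : List A → Prop) [DecidablePred K] : ∀ (u h p : List A),
    (∀ t, t <+: u → t ≠ [] → t ≠ u → ¬ K (h ++ t)) → (out K h p u).length ≤ 1
  | [], h, p, _ => by simp [out]
  | a :: u, h, p, hK => by
      simp only [out]
      split_ifs with h1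
      · have hu : u = [] := by
          by_contra hne
          exact hK [a] ⟨u, rfl⟩ (by simp) (by
            intro h2
            apply hne
            simpa using h2) h1
        rw [hu]
        simp [out]
      · apply out_length_le_one91 K u
        intro t ht hne hneu hKt
        apply hK (a :: t) (by
          obtain ⟨s, hs⟩ := ht
          exact ⟨s, by rw [List.cons_append, hs]⟩) (by simp) (by
          intro h2
          apply hneu
          simpa using h2)
        rwa [List.append_assoc, List.singleton_append] at hKt

/-- the number of blocks of a gap: `hlen` is the statement of the row R3d -/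
theorem bl_count_of91 [Fintype X] {σ pre mid : X → List A} {d g : ℕ}
    (hlen : ∀ h p u : List A,
      (out (KM lg mk) h p u).length ≤ Fintype.card X * (u.length / g + 1))
    (hC : Cut (KM lg mk) l σ pre mid lg)
    (hF : ∀ x, lg x → ∀ t, t <+: pre x → t ≠ pre x → ¬ KM lg mk t)
    (γ : Option X × List A × Option X) (hG : γ.2.1.length ≤ d)
    (hγ : ∀ y, γ.2.2 = some y → lg y) :
    (bl (KM lg mk) σ pre mid γ).length ≤ Fintype.card X * ((d + l) / g + 1) + 1 := by
  obtain ⟨o, G, o'⟩ := γ
  have mono : ∀ a : ℕ, a ≤ d + l →
      Fintype.card X * (a / g + 1) ≤ Fintype.card X * ((d + l) / g + 1) := by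
    intro a ha
    exact Nat.mul_le_mul_left _ (Nat.add_le_add_right (Nat.div_le_div_right ha) 1)
  cases o' with
  | none =>
    rw [Cut.bl_none (o, G), List.length_append, List.length_singleton]
    have h1 := hlen (ox σ o) (ox (sfx (KM lg mk) pre mid) o) G
    have h2 := mono G.length (by
      have h3 : G.length ≤ d := hG
      omega)
    have h4 := h1.trans h2
    show (out (KM lg mk) (ox σ o) (ox (sfx (KM lg mk) pre mid) o) G).length + 1 ≤ _
    omega
  | some y =>
    have hy : lg y := hγ y rfl
    rw [Cut.bl_some]
    have e1 : G ++ pre y = (G ++ (pre y).take l) ++ (pre y).drop l := by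
      rw [List.append_assoc, List.take_append_drop]
    rw [e1, out_append, List.length_append]
    have h1 := hlen (ox σ o) (ox (sfx (KM lg mk) pre mid) o) (G ++ (pre y).take l)
    have h2 := mono (G ++ (pre y).take l).length (by
      have h3 : G.length ≤ d := hG
      rw [List.length_append, List.length_take]
      omega)
    have h4 := h1.trans h2
    have h5 : (out (KM lg mk) (ox σ o ++ (G ++ (pre y).take l))
        (pend (KM lg mk) (ox σ o) (ox (sfx (KM lg mk) pre mid) o) (G ++ (pre y).take l))
        ((pre y).drop l)).length ≤ 1 := by
      apply out_length_le_one91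
      intro t ht hne hneu hKt
      have hl : l ≤ (pre y).length := hC.len y hy
      have e2 : ox σ o ++ (G ++ (pre y).take l) ++ t = (ox σ o ++ G) ++ ((pre y).take l ++ t) := by
        simp
      rw [e2] at hKt
      have h6 : KM lg mk ((pre y).take l ++ t) := by
        refine (hC.loc _ _ ?_).1 hKt
        rw [List.length_append, List.length_take]
        omega
      obtain ⟨s, hs⟩ := ht
      refine hF y hy ((pre y).take l ++ t) ⟨s, ?_⟩ ?_ h6
      · rw [List.append_assoc, hs, List.take_append_drop]
      · intro h7
        apply hneu
        have h8 : (pre y).take l ++ t = (pre y).take l ++ (pre y).drop l := by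
          rw [h7, List.take_append_drop]
        exact List.append_cancel_left h8
    omega

end WK
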