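import Pool.Agent.WK.Defs64

/-! Word equations with boundedly many variables (MP_fc7ad9_lc): existence of the cut data of a
family of markers, and the length of the pending suffix. -/

open WE45 WK64

namespace WK

variable {A X : Type*} {lg : X → Prop} {mk : X → List A} {l : ℕ}

theorem cut_exists (σ : X → List A) (hl : 1 ≤ l) (hm : ∀ x, lg x → (mk x).length = l)
    (hmem : ∀ x, lg x → mk x <:+: σ x) : ∃ pre mid : X → List A,
      Cut (KM lg mk) l σ pre mid lg ∧
      ∀ x, lg x → ∀ t, t <+: pre x → t ≠ pre x → ¬ KM lg mk t := by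
  classical
  have hex : ∀ x, lg x → ∃ n, KM lg mk ((σ x).take n) := by
    intro x hx
    obtain ⟨a, b, hab⟩ := hmem x hx
    refine ⟨(a ++ mk x).length, x, hx, ?_⟩
    rw [← hab, List.take_left']
    · exact List.suffix_append a (mk x)
    · rfl
  have hex' : ∀ x, ∃ n, lg x → KM lg mk ((σ x).take n) ∧
      ∀ m, m < n → ¬ KM lg mk ((σ x).take m) := by
    intro x
    by_cases hx : lg x
    · exact ⟨Nat.find (hex x hx), fun _ => ⟨Nat.find_spec (hex x hx), fun m hm' =>
        Nat.find_min (hex x hx) hm'⟩⟩
    · exact ⟨0, fun h => absurd h hx⟩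
  choose n hn using hex'
  refine ⟨fun x => (σ x).take (n x), fun x => (σ x).drop (n x), ⟨KM.loc hm, hl, ?_, ?_, ?_⟩, ?_⟩
  · intro x _
    exact (List.take_append_drop _ _).symm
  · intro x hx
    exact KM.length_le hm (hn x hx).1
  · intro x hx
    exact (hn x hx).1
  · intro x hx t ht hne
    have h1 : t = (σ x).take t.length := by
      have h2 : t <+: σ x := ht.trans (List.take_prefix _ _)
      exact List.prefix_iff_eq_take.1 h2
    have h2 : t.length < n x := by
      have h3 := ht.length_le
      rw [List.length_take] at h3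
      rcases Nat.lt_or_ge t.length (n x) with h4 | h4
      · exact h4
      · exfalso
        apply hne
        have h5 : t.length = n x := by omega
        rw [h1, h5]
    rw [h1]
    exact (hn x hx).2 _ h2

theorem pend_length_le (K : List A → Prop) [DecidablePred K] (h u : List A) :
    (pend K h [] u).length ≤ u.length := by
  have := congrArg List.length (flatten_out K u h [])
  rw [List.length_append, List.nil_append] at this
  omega

theorem sfx_le {σ pre mid : X → List A} (hm : ∀ x, lg x → (mk x).length = l)
    (hC : Cut (KM lg mk) l σ pre mid lg)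
    (hF : ∀ x, lg x → ∀ t, t <+: pre x → t ≠ pre x → ¬ KM lg mk t) {x : X} (hx : lg x)
    {a b : List A} (h : σ x = a ++ mk x ++ b) :
    (sfx (KM lg mk) pre mid x).length ≤ b.length := by
  have hK : KM lg mk (a ++ mk x) := ⟨x, hx, List.suffix_append a (mk x)⟩
  have hs := hC.split x hx
  have h1 : a ++ mk x <+: σ x := by rw [h]; exact List.prefix_append _ _
  have h2 : pre x <+: σ x := by rw [hs]; exact List.prefix_append _ _
  have h3 : pre x <+: a ++ mk x := by
    rcases le_total (a ++ mk x).length (pre x).length with h4 | h4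
    · have h5 : a ++ mk x <+: pre x := List.prefix_of_prefix_length_le h1 h2 h4
      by_cases h6 : a ++ mk x = pre x
      · rw [h6]
      · exact absurd hK (hF x hx _ h5 h6)
    · exact List.prefix_of_prefix_length_le h2 h1 h4
  obtain ⟨v, hv⟩ := h3
  have h4 : mid x = v ++ b := by
    rw [hs, ← hv, List.append_assoc] at h
    exact List.append_cancel_left h
  have h5 : pend (KM lg mk) (pre x) [] v = [] := by
    by_cases hv0 : v = []
    · rw [hv0]; rfl
    · exact pend_of_K (KM lg mk) v hv0 _ _ (by rw [hv]; exact hK)
  unfold sfx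
  rw [h4, pend_append, h5]
  exact pend_length_le _ _ _

end WK
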