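import Pool.Agent.WK.Defs64

/-! Word equations with boundedly many variables (MP_fc7ad9_lc). Helper module, row R4:
the first cut of a long variable comes early (density). -/

open WE45 WK64

namespace WK

theorem len_block9 {A : Type*} {Bs : List (List A)} {B : List A} (hB : B ∈ Bs) :
    B.length ≤ Bs.flatten.length := by
  obtain ⟨s, t, rfl⟩ := List.append_of_mem hB
  rw [List.flatten_append, List.flatten_cons, List.length_append, List.length_append]
  omega

/-- **density** -/
theorem density {A X : Type*} [Fintype X] {K : List A → Prop} [DecidablePred K] {l k c : ℕ}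
    {σ pre mid : X → List A} {lg : X → Prop} [DecidablePred lg] (L R : List (A ⊕ X))
    (hC : Cut K l σ pre mid lg) (hmin : MinSol L R σ) (hX : Fintype.card X ≤ k) (hlc : l ≤ c)
    (hst : ∀ o G y, (o, G, some y) ∈ Gp lg σ L R → ∃ B last,
      bl K σ pre mid (o, G, some y) = B ++ [last] ∧ B.flatten.length ≤ c ∧
      (pre y).length + 1 ≤ last.length + l ∧ last.length ≤ (pre y).length + c)
    (hend : ∀ o G, (o, G, none) ∈ Gp lg σ L R → ∀ B ∈ bl K σ pre mid (o, G, none), B.length ≤ c) :
    ∀ y, lg y → (pre y).length ≤ (2 * k + 1) * c := by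
  classical
  have hc : 1 ≤ c := hC.w_pos.trans hlc
  -- choice of the threshold
  obtain ⟨j, hj, hjT⟩ : ∃ j, j ≤ k ∧ ∀ y, lg y → (2 * j + 1) * c + l ≤ (pre y).length ∨
      (pre y).length + c ≤ (2 * j + 1) * c := by
    by_contra hcon
    push Not at hcon
    have hcon' : ∀ j : Fin (k + 1), ∃ y, lg y ∧
        (pre y).length < (2 * (j : ℕ) + 1) * c + l ∧
        (2 * (j : ℕ) + 1) * c < (pre y).length + c := by
      intro j
      exact hcon j (by omega)
    choose f hf using hcon'
    obtain ⟨i, j, hij, hfij⟩ := Fintype.exists_ne_map_eq_of_card_lt f (by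
      rw [Fintype.card_fin]; omega)
    have key : ∀ a b : Fin (k + 1), (a : ℕ) < b → f a = f b → False := by
      intro a b hab hfab
      obtain ⟨-, h2, -⟩ := hf a
      obtain ⟨-, -, h5⟩ := hf b
      rw [← hfab] at h5
      have h6 : (2 * (a : ℕ) + 1) * c + 2 * c ≤ (2 * (b : ℕ) + 1) * c := by
        have h7 : (a : ℕ) + 1 ≤ b := hab
        calc (2 * (a : ℕ) + 1) * c + 2 * c = (2 * ((a : ℕ) + 1) + 1) * c := by ring
          _ ≤ _ := Nat.mul_le_mul_right _ (by omega)
      omega
    rcases lt_or_gt_of_ne (fun h => hij (Fin.ext h) : (i : ℕ) ≠ j) with h | h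
    · exact key i j h hfij
    · exact key j i h hfij.symm
  obtain ⟨T, hT⟩ : ∃ T, T = (2 * j + 1) * c := ⟨_, rfl⟩
  have hT3 : c ≤ T := by
    rw [hT]
    exact Nat.le_mul_of_pos_left _ (by omega)
  have hTk : T ≤ (2 * k + 1) * c := by
    rw [hT]
    exact Nat.mul_le_mul_right _ (by omega)
  rw [← hT] at hjT
  by_cases hbig : ∃ y, lg y ∧ T + l ≤ (pre y).length
  · exfalso
    obtain ⟨y0, hy0, hy0T⟩ := hbig
    obtain ⟨φ, hφ⟩ : ∃ φ : List A → List A, ∀ B, φ B = if T < B.length then B.dropLast else B :=
      ⟨_, fun _ => rfl⟩
    obtain ⟨p', hp'⟩ : ∃ p' : X → List A, ∀ y, p' y =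
        if T + l ≤ (pre y).length then (pre y).dropLast else pre y := ⟨_, fun _ => rfl⟩
    have hid : ∀ Bs : List (List A), (∀ B ∈ Bs, B.length ≤ T) → Bs.map φ = Bs := by
      intro Bs hBs
      refine (List.map_congr_left (fun B hB => ?_)).trans (List.map_id _)
      have := hBs B hB
      rw [hφ, if_neg (by omega)]
      rfl
    have hgap : ∀ γ ∈ Gp lg σ L R, ((bl K σ pre mid γ).map φ).flatten =
          ox (sfx K pre mid) γ.1 ++ γ.2.1 ++ ox p' γ.2.2 := by
      intro γ hγ
      have hlg : ∀ y, γ.2.2 = some y → lg y := by
        intro y hy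
        have hM : ∃ M, γ ∈ trs none (gf lg σ M).1 (gf lg σ M).2 := by
          unfold Gp at hγ
          rcases List.mem_append.1 hγ with h | h
          · exact ⟨L, h⟩
          · exact ⟨R, h⟩
        obtain ⟨M, hM⟩ := hM
        obtain ⟨-, -, m3⟩ := mem_trs _ _ _ γ hM
        rcases m3 with h | ⟨r, hr, h⟩
        · rw [h] at hy; cases hy
        · rw [h] at hy
          cases hy
          exact lg_of_mem lg σ M r hr
      have hfl := hC.flatten_bl γ hlg
      obtain ⟨o, G, o'⟩ := γ
      dsimp only at *
      cases o' with
      | none =>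
        rw [hid _ (fun B hB => (hend o G hγ B hB).trans hT3), hfl]
        rfl
      | some y =>
        have hy := hlg y rfl
        have hpre : ox pre (some y) = pre y := rfl
        have hp'y : ox p' (some y) = p' y := rfl
        obtain ⟨Bs, B, h5, h4, h6, h8⟩ := hst o G y hγ
        have hlen := hC.len y hy
        have h3 : B ≠ [] := by
          intro h
          rw [h, List.length_nil] at h6
          omega
        rw [h5, List.flatten_append, List.flatten_singleton, hpre] at hfl
        rw [hp'y, h5, List.map_append, List.flatten_append,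
          hid Bs (fun D hD => (len_block9 hD).trans (h4.trans hT3)), List.map_singleton,
          List.flatten_singleton, hφ, hp']
        rcases hjT y hy with h7 | h7
        · rw [if_pos h7, if_pos (by omega), ← List.dropLast_append_of_ne_nil h3, hfl,
            List.dropLast_append_of_ne_nil (hC.pre_ne hy)]
        · rw [if_neg (by omega), if_neg (by omega), hfl]
    have hgL : ∀ γ ∈ trs none (gf lg σ L).1 (gf lg σ L).2, ((bl K σ pre mid γ).map φ).flatten =
          ox (sfx K pre mid) γ.1 ++ γ.2.1 ++ ox p' γ.2.2 :=
      fun γ hγ => hgap γ (List.mem_append_left _ hγ)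
    have hgR : ∀ γ ∈ trs none (gf lg σ R).1 (gf lg σ R).2, ((bl K σ pre mid γ).map φ).flatten =
          ox (sfx K pre mid) γ.1 ++ γ.2.1 ++ ox p' γ.2.2 :=
      fun γ hγ => hgap γ (List.mem_append_right _ hγ)
    have hsol := hC.transfer L R hmin.1 φ (sfx K pre mid) p' hgL hgR
    have hm := hmin.2 _ hsol
    -- lengths
    have hφle : ∀ Bs : List (List A), (Bs.map φ).flatten.length ≤ Bs.flatten.length := by
      intro Bs
      induction Bs with
      | nil => simp
      | cons B Bs ih =>
        rw [List.map_cons, List.flatten_cons, List.flatten_cons, List.length_append,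
          List.length_append]
        have : (φ B).length ≤ B.length := by
          rw [hφ]
          split_ifs
          · rw [List.length_dropLast]; omega
          · exact le_rfl
        omega
    have hσx : ∀ x, lg x → (σ x).length = (pre x).length + (tau K pre mid x).flatten.length +
        (sfx K pre mid x).length := by
      intro x hx
      have h1 := congrArg List.length (flatten_out K (mid x) (pre x) [])
      rw [List.length_append, List.nil_append] at h1
      have h2 := congrArg List.length (hC.split x hx)
      rw [List.length_append] at h2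
      unfold tau sfx
      omega
    have hlt : ∑ x, (if lg x then p' x ++ ((tau K pre mid x).map φ).flatten ++
        sfx K pre mid x else σ x).length < ∑ x, (σ x).length := by
      refine Finset.sum_lt_sum (fun x _ => ?_) ⟨y0, Finset.mem_univ _, ?_⟩
      · split_ifs with hx
        · rw [hσx x hx, List.length_append, List.length_append, hp']
          have h1 := hφle (tau K pre mid x)
          split_ifs
          · rw [List.length_dropLast]; omega
          · omega
        · exact le_rfl
      · rw [if_pos hy0, hσx y0 hy0, List.length_append, List.length_append, hp', if_pos hy0T,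
          List.length_dropLast]
        have h1 := hφle (tau K pre mid y0)
        have h2 := hC.len y0 hy0
        have h3 := hC.w_pos
        omega
    omega
  · push Not at hbig
    intro x hx
    rcases hjT x hx with h | h
    · have := hbig x hx
      omega
    · omega

end WK
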