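import Pool.Agent.WK.Bound75

/-! Word equations with boundedly many variables (MP_fc7ad9_lc). Helper module:
pigeonhole over scales and the final numerical bound. -/

namespace WK

/-- the set of long variables at scale `i` -/
def lset {X : Type*} [Fintype X] (B : ℕ) (len : X → ℕ) (i : ℕ) : Finset X :=
  Finset.univ.filter fun x => B ^ (i + 1) ≤ len x

/-- Pigeonhole over the scales: if every family of good scales with the same nonempty set of
long variables has at most `F` members, then all lengths are less than `B ^ (2 ^ k * F + k + 1)`. -/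
theorem scales_bound {X : Type*} [Fintype X] [DecidableEq X] {k F B : ℕ}
    (hk : Fintype.card X ≤ k) (hB : 1 ≤ B) (len : X → ℕ)
    (h : ∀ J : Finset ℕ, (∀ i ∈ J, ∀ x, len x ≤ B ^ i ∨ B ^ (i + 1) ≤ len x) →
      (∀ i ∈ J, ∀ j ∈ J, ∀ x, B ^ (i + 1) ≤ len x → B ^ (j + 1) ≤ len x) →
      (∀ i ∈ J, ∃ x, B ^ (i + 1) ≤ len x) → J.card ≤ F) :
    ∀ x, len x < B ^ (2 ^ k * F + k + 1) := by
  classical
  intro x0
  by_contra hx0
  push Not at hx0
  set M := 2 ^ k * F + k + 1 with hM
  -- bad scales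
  set bad : Finset ℕ := (Finset.range M).filter
    (fun i => ∃ x, B ^ i < len x ∧ len x < B ^ (i + 1)) with hbad
  have hbc : bad.card ≤ k := by
    have : Nonempty X := ⟨x0⟩
    have hch : ∀ i ∈ bad, ∃ x, B ^ i < len x ∧ len x < B ^ (i + 1) := fun i hi =>
      (Finset.mem_filter.1 hi).2
    choose! f hf using hch
    have hinj : Set.InjOn f (bad : Set ℕ) := by
      intro i hi j hj hij
      have h1 := hf i hi
      have h2 := hf j hj
      rw [← hij] at h2
      by_contra hne
      rcases Nat.lt_or_gt_of_ne hne with hlt | hlt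
      · have h3 : B ^ (i + 1) ≤ B ^ j := Nat.pow_le_pow_right hB hlt
        omega
      · have h3 : B ^ (j + 1) ≤ B ^ i := Nat.pow_le_pow_right hB hlt
        omega
    calc bad.card ≤ (Finset.univ : Finset X).card :=
          Finset.card_le_card_of_injOn f (fun _ _ => Finset.mem_coe.2 (Finset.mem_univ _)) hinj
      _ ≤ k := by rw [Finset.card_univ]; exact hk
  -- good scales
  set good : Finset ℕ := Finset.range M \ bad with hgood
  have hgc : 2 ^ k * F < good.card := by
    have h1 : (Finset.range M).card - bad.card ≤ good.card := Finset.le_card_sdiff _ _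
    rw [Finset.card_range] at h1
    omega
  have hty : ∃ T ∈ (Finset.univ : Finset (Finset X)),
      F < (good.filter (fun i => lset B len i = T)).card := by
    apply Finset.exists_lt_card_fiber_of_mul_lt_card_of_maps_to
      (fun _ _ => Finset.mem_univ _)
    rw [Finset.card_univ, Fintype.card_finset]
    calc 2 ^ Fintype.card X * F ≤ 2 ^ k * F :=
          Nat.mul_le_mul_right _ (Nat.pow_le_pow_right (by norm_num) hk)
      _ < good.card := hgc
  obtain ⟨T, -, hT⟩ := hty
  refine absurd (h (good.filter (fun i => lset B len i = T)) ?_ ?_ ?_) (not_le.2 hT)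
  · intro i hi x
    have h1 := (Finset.mem_filter.1 hi).1
    rw [hgood, Finset.mem_sdiff] at h1
    by_contra h2
    push Not at h2
    exact h1.2 (Finset.mem_filter.2 ⟨h1.1, x, h2.1, h2.2⟩)
  · intro i hi j hj x hx
    have h1 := (Finset.mem_filter.1 hi).2
    have h2 := (Finset.mem_filter.1 hj).2
    have h3 : x ∈ lset B len i := Finset.mem_filter.2 ⟨Finset.mem_univ _, hx⟩
    rw [h1, ← h2] at h3
    exact (Finset.mem_filter.1 h3).2
  · intro i hi
    have h1 := (Finset.mem_filter.1 hi).1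
    rw [hgood, Finset.mem_sdiff, Finset.mem_range] at h1
    exact ⟨x0, (Nat.pow_le_pow_right hB h1.1).trans hx0⟩

/-- the same for the total length -/
theorem scales_sum {X : Type*} [Fintype X] [DecidableEq X] {k F B : ℕ}
    (hk : Fintype.card X ≤ k) (hB : 1 ≤ B) (len : X → ℕ)
    (h : ∀ J : Finset ℕ, (∀ i ∈ J, ∀ x, len x ≤ B ^ i ∨ B ^ (i + 1) ≤ len x) →
      (∀ i ∈ J, ∀ j ∈ J, ∀ x, B ^ (i + 1) ≤ len x → B ^ (j + 1) ≤ len x) →
      (∀ i ∈ J, ∃ x, B ^ (i + 1) ≤ len x) → J.card ≤ F) :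
    ∑ x, len x ≤ k * B ^ (2 ^ k * F + k + 1) := by
  calc ∑ x, len x ≤ ∑ _x : X, B ^ (2 ^ k * F + k + 1) :=
        Finset.sum_le_sum fun x _ => (scales_bound hk hB len h x).le
    _ = Fintype.card X * B ^ (2 ^ k * F + k + 1) := by
        rw [Finset.sum_const, Finset.card_univ, smul_eq_mul]
    _ ≤ k * B ^ (2 ^ k * F + k + 1) := Nat.mul_le_mul_right _ hk

/-- the numerical end -/
theorem end_bound (k : ℕ) {B F : ℕ → ℕ} (hB : XB B) (hF : PB F) :
    ∃ C : ℕ, ∀ n, 1 ≤ n → k * B n ^ (2 ^ k * F n + k + 1) ≤ 2 ^ (C * n ^ C) :=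
  ((XB.const k).mul
    (hB.pow ((((PB.const (2 ^ k)).mul hF).add (PB.const k)).add (PB.const 1)))).final

/-- the base of the scales -/
def base (k C n : ℕ) : ℕ := 60 * k ^ 2 * (n + 1) * (2 ^ (C * (n + 1) ^ C) + 5) ^ 3

theorem base_xb (k C : ℕ) : XB (base k C) :=
  ((PB.mul (PB.const (60 * k ^ 2)) (PB.add PB.id (PB.const 1))).xb).mul
    (((XB.self C).add (XB.const 5)).pow_const 3)

/-- what the base of the scales is good for (`N` is the exponent bound) -/
theorem base_spec {k C n N : ℕ} (hk : 1 ≤ k) (hN : N = 2 ^ (C * (n + 1) ^ C)) :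
    2 ≤ base k C n ∧ (N + 4) * (20 * k * N * ((2 * N + 1) * n)) ≤ base k C n ∧
      60 * k ^ 2 * (N + 5) ≤ base k C n := by
  have hN1 : 1 ≤ N := by rw [hN]; exact Nat.one_le_two_pow
  rw [base, ← hN]
  have hkk : k ≤ k ^ 2 := by nlinarith
  have h3 : 60 * k ^ 2 * (N + 5) ≤ 60 * k ^ 2 * (n + 1) * (N + 5) ^ 3 := by
    apply Nat.mul_le_mul
    · exact Nat.le_mul_of_pos_right _ (Nat.succ_pos n)
    · exact Nat.le_self_pow (by norm_num) _
  refine ⟨?_, ?_, h3⟩
  · have : 2 ≤ 60 * k ^ 2 * (N + 5) := by nlinarith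
    omega
  · have h1 : (N + 4) * (N * (2 * N + 1)) ≤ 2 * (N + 5) ^ 3 := by nlinarith
    calc (N + 4) * (20 * k * N * ((2 * N + 1) * n))
        = 20 * k * n * ((N + 4) * (N * (2 * N + 1))) := by ring
      _ ≤ 20 * k ^ 2 * (n + 1) * (2 * (N + 5) ^ 3) := by
          apply Nat.mul_le_mul _ h1
          apply Nat.mul_le_mul _ (Nat.le_succ n)
          exact Nat.mul_le_mul_left _ hkk
      _ ≤ 60 * k ^ 2 * (n + 1) * (N + 5) ^ 3 := by nlinarith [Nat.zero_le (k ^ 2 * (n + 1) * (N + 5) ^ 3)]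

end WK
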