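import Pool.Agent.WK.Defs64

/-! Word equations with boundedly many variables (MP_fc7ad9_lc). Helper module:
number of the exceptional gaps. -/

open WE45 WK64

namespace WK

variable {A X : Type*}

/-- gaps with a marker reaching far into both sides: at most `4 * (card X) ^ 3` -/
theorem exc_card_of [Fintype X] {N d E : ℕ} {lg : X → Prop} {σ mk : X → List A}
    (T : Finset (Option X × List A × Option X)) (P : Option X × List A × Option X → Prop)
    [DecidablePred P] (hN : 1 ≤ N) (hE : 2 * N * d ≤ E) (hd : 1 ≤ d)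
    (hσ : ∀ x, lg x → EBd N (σ x))
    (hmk : ∀ z, lg z → EBd N (mk z) ∧ 2 * N * (N + 1) * d + d < (mk z).length)
    (hP : ∀ γ ∈ T, P γ → γ.2.1.length ≤ d ∧ ∃ x y z, lg x ∧ lg y ∧ lg z ∧ γ.1 = some x ∧
      γ.2.2 = some y ∧ ∃ u' v', mk z = u' ++ γ.2.1 ++ v' ∧ u' <:+ σ x ∧ v' <+: σ y ∧
        E < u'.length ∧ E < v'.length) :
    (T.filter P).card ≤ 4 * Fintype.card X ^ 3 := by
  classical
  set Q : X × X × X → (Option X × List A × Option X) → Prop := fun t γ =>
    γ.2.1.length ≤ d ∧ lg t.1 ∧ lg t.2.2 ∧ γ.1 = some t.1 ∧ γ.2.2 = some t.2.1 ∧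
      ∃ u' v', mk t.2.2 = u' ++ γ.2.1 ++ v' ∧ u' <:+ σ t.1 ∧ v' <+: σ t.2.1 ∧
        E < u'.length ∧ E < v'.length with hQ
  have h1 : T.filter P ⊆ (Finset.univ : Finset (X × X × X)).biUnion (fun t => T.filter (Q t)) := by
    intro γ hγ
    obtain ⟨hγT, hγP⟩ := Finset.mem_filter.1 hγ
    obtain ⟨g1, x, y, z, hx, hy, hz, g2, g3, g4⟩ := hP γ hγT hγP
    rw [Finset.mem_biUnion]
    exact ⟨(x, y, z), Finset.mem_univ _, Finset.mem_filter.2 ⟨hγT, g1, hx, hz, g2, g3, g4⟩⟩
  have h2 : ∀ t ∈ (Finset.univ : Finset (X × X × X)), (T.filter (Q t)).card ≤ 4 := by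
    rintro ⟨x, y, z⟩ -
    have inj : Set.InjOn (fun γ : Option X × List A × Option X => γ.2.1)
        (T.filter (Q (x, y, z)) : Set (Option X × List A × Option X)) := by
      intro γ hγ γ' hγ' he
      have a := (Finset.mem_filter.1 (Finset.mem_coe.1 hγ)).2
      have a' := (Finset.mem_filter.1 (Finset.mem_coe.1 hγ')).2
      obtain ⟨-, -, -, a1, a2, -⟩ := a
      obtain ⟨-, -, -, a1', a2', -⟩ := a'
      exact Prod.ext (a1.trans a1'.symm) (Prod.ext he (a2.trans a2'.symm))
    rw [← Finset.card_image_of_injOn inj]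
    by_cases hlg : lg x ∧ lg z
    · refine few_gaps (hσ x hlg.1) (hmk z hlg.2).1 hN hE hd (hmk z hlg.2).2 (v := σ y) _ ?_
      intro G hG
      obtain ⟨γ, hγ, rfl⟩ := Finset.mem_image.1 hG
      obtain ⟨-, a0, -, -, -, -, u', v', a⟩ := Finset.mem_filter.1 hγ
      exact ⟨a0, u', v', a⟩
    · have he : T.filter (Q (x, y, z)) = ∅ := by
        rw [Finset.filter_eq_empty_iff]
        intro γ _ hq
        exact hlg ⟨hq.2.1, hq.2.2.1⟩
      rw [he, Finset.image_empty, Finset.card_empty]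
      omega
  calc (T.filter P).card
      ≤ ((Finset.univ : Finset (X × X × X)).biUnion (fun t => T.filter (Q t))).card :=
        Finset.card_le_card h1
    _ ≤ (Finset.univ : Finset (X × X × X)).card * 4 := Finset.card_biUnion_le_card_mul _ _ _ h2
    _ = 4 * Fintype.card X ^ 3 := by
        rw [Finset.card_univ, Fintype.card_prod, Fintype.card_prod]
        ring

end WK
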