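import Pool.Agent.WK.ExpB8
import Pool.Agent.WK.Exp45P

/-!
# The polynomial exponent bound for minimal solutions

Helper file for MP_fc7ad9_lc (word equations with a fixed number of variables).
-/

set_option autoImplicit false

open WE45 WK64 WKR5

namespace WK

universe u w

/-- the step for the least period -/
theorem exp_coreG {A X : Type*} [Fintype X] [DecidableEq X] {n Bd : ℕ}
    (h1L : ∀ (L R : List (List A ⊕ X)), L.length + R.length ≤ 4 * n + 2 →
      ∀ τ : X → List (List A), sb τ L = sb τ R → ∀ (r : List A) (x : X) (c : ℕ),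
      Bd < c → List.replicate c r <:+: τ x →
      ∃ τ' : X → List (List A), sb τ' L = sb τ' R ∧ (∀ x, (τ' x).Sublist (τ x)) ∧
      ∃ x, (τ' x).length < (τ x).length)
    {L R : List (A ⊕ X)} (hLR : L.length + R.length ≤ n) {σ : X → List A}
    (hmin : MinSol L R σ) {x0 : X} {z : List A} (hz : z <:+: σ x0) {q : ℕ} (hq : 1 ≤ q)
    (hp : Pd q z) (hqm : ∀ d, 1 ≤ d → d < q → ¬ Pd d z) (hl : 3 * q ≤ z.length)
    (hlen : Bd < (z.length - 2 * q) / q) : False := by
  classical
  set m := z.take (2 * q) with hm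
  have hml : m.length = 2 * q := by rw [hm, List.length_take]; omega
  have hS : Spaced (KS m) q := KS.spaced hq hp hqm (by omega)
  have hm0 : m ≠ [] := by
    intro h
    rw [h, List.length_nil] at hml
    omega
  have hch : ∀ x : X, ∃ t r, m <:+: σ x → (σ x = t ++ r ∧ m <:+ t ∧
      ∀ t', t' <+: t → t' ≠ t → ¬ m <:+: t') := by
    intro x
    by_cases hx : m <:+: σ x
    · obtain ⟨t, r, h⟩ := exists_first hx
      exact ⟨t, r, fun _ => h⟩
    · exact ⟨[], [], fun h => absurd h hx⟩
  choose pre mid hpm using hch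
  set lg : X → Prop := fun x => m <:+: σ x with hlg
  have hC : Cut (KS m) (2 * q) σ pre mid lg := by
    refine ⟨?_, by omega, ?_, ?_, ?_⟩
    · rw [← hml]; exact KS.loc m
    · intro x hx; exact (hpm x hx).1
    · intro x hx
      have := (hpm x hx).2.1.length_le
      omega
    · intro x hx; exact (hpm x hx).2.1
  -- block counts
  have hc1 : ∀ (h p : List A) (a : A), (out (KS m) h p [a]).length ≤ 3 := by
    intro h p a
    have := out_len (KS m) (c := 1) hS hq [a] h p (by rw [List.length_singleton]; omega)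
    omega
  have hc2 : ∀ (h p : List A) (x : X), lg x → (out (KS m) h p (pre x)).length ≤ 3 := by
    intro h p x hx
    obtain ⟨h1, h2, h3⟩ := hpm x hx
    have hne : pre x ≠ [] := by
      intro h0
      rw [h0] at h2
      exact hm0 (List.suffix_nil.1 h2)
    have e1 : pre x = (pre x).dropLast ++ [(pre x).getLast hne] :=
      (List.dropLast_append_getLast hne).symm
    have hv : ¬ m <:+: (pre x).dropLast := by
      apply h3
      · exact List.dropLast_prefix _
      · intro h4
        have := congrArg List.length h4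
        rw [List.length_dropLast] at this
        have := List.length_pos_iff.2 hne
        omega
    have h5 := out_short hS hq hml hv h p
    have h6 := out_len (KS m) (c := 1) hS hq [(pre x).getLast hne] (h ++ (pre x).dropLast)
      (pend (KS m) h p (pre x).dropLast) (by rw [List.length_singleton]; omega)
    rw [e1, out_append, List.length_append]
    omega
  have hc3 : ∀ (h p : List A) (x : X), ¬ lg x → (out (KS m) h p (σ x)).length ≤ 3 := by
    intro h p x hx
    have := out_short hS hq hml hx h p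
    omega
  have hLl := length_spL (K := KS m) (σ := σ) (pre := pre) (mid := mid) (lg := lg)
    hc1 hc2 hc3 L [] []
  have hRl := length_spL (K := KS m) (σ := σ) (pre := pre) (mid := mid) (lg := lg)
    hc1 hc2 hc3 R [] []
  have heq : sb (tauL (KS m) pre mid lg) (spL (KS m) σ pre mid lg [] [] L) =
      sb (tauL (KS m) pre mid lg) (spL (KS m) σ pre mid lg [] [] R) := by
    rw [sb_spL hC, sb_spL hC, hmin.1]
  -- the long run
  have hrun : ∃ r, List.replicate ((z.length - 2 * q) / q) r <:+:
      tauL (KS m) pre mid lg x0 := by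
    have hmz : m <+: z := List.take_prefix _ _
    have hx0 : lg x0 := hmz.isInfix.trans hz
    obtain ⟨h1, h2, h3⟩ := hpm x0 hx0
    obtain ⟨a, b, hab⟩ := hz
    have hzs : z = m ++ z.drop (2 * q) := (List.take_append_drop _ _).symm
    have e1 : σ x0 = (a ++ m) ++ (z.drop (2 * q) ++ b) := by
      rw [← hab]
      conv_lhs => rw [hzs]
      simp only [List.append_assoc]
    have hpa : pre x0 <+: a ++ m := by
      have p1 : pre x0 <+: σ x0 := ⟨mid x0, h1.symm⟩
      have p2 : a ++ m <+: σ x0 := ⟨_, e1.symm⟩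
      rcases List.prefix_or_prefix_of_prefix p1 p2 with h | h
      · exact h
      · by_cases h4 : a ++ m = pre x0
        · rw [h4]
        · exact absurd (List.suffix_append a m).isInfix (h3 _ h h4)
    obtain ⟨u, hu⟩ := hpa
    have hmid : mid x0 = u ++ (z.drop (2 * q) ++ b) := by
      have e2 : pre x0 ++ mid x0 = pre x0 ++ (u ++ (z.drop (2 * q) ++ b)) := by
        rw [← h1, e1, ← hu, List.append_assoc]
      exact List.append_cancel_left e2
    obtain ⟨r, B, hB⟩ := rep_blocks hq hp hS hl a b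
    refine ⟨r, ?_⟩
    have hpend : pend (KS m) (pre x0) [] u = [] := by
      by_cases hu0 : u = []
      · rw [hu0]; rfl
      · apply pend_of_K _ _ hu0
        rw [hu]
        exact List.suffix_append a m
    have e3 : tauL (KS m) pre mid lg x0 = out (KS m) (pre x0) [] u ++
        (List.replicate ((z.length - 2 * q) / q) r ++ B) := by
      rw [← hB, ← hu]
      simp only [tauL, if_pos hx0, tau]
      rw [hmid, out_append, hpend]
    rw [e3]
    exact ⟨_, B, by rw [List.append_assoc]⟩
  obtain ⟨r, hr⟩ := hrun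
  obtain ⟨τ', t1, t2, t3⟩ := h1L _ _ (by omega) _ heq r x0 _ hlen hr
  exact no_shorter hmin hC τ' t1 t2 t3

/-- the exponents in a minimal solution are polynomially bounded -/
theorem exp_bound_poly (k : ℕ) : ∃ C : ℕ, ∀ {A : Type u} {X : Type w} [Fintype X]
    [DecidableEq X] (n : ℕ) (L R : List (A ⊕ X)), Fintype.card X ≤ k →
    L.length + R.length ≤ n → ∀ σ : X → List A, MinSol L R σ →
    ∀ x, EBd (C * (n + 1) ^ C) (σ x) := by
  classical
  obtain ⟨C, hC⟩ := one_letter_poly.{u, w} k
  refine ⟨C * 4 ^ C + 3, ?_⟩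
  intro A X _ _ n L R hX hn σ hmin x q z hq hz hp
  by_contra hlen
  push Not at hlen
  -- least period
  have hex : ∃ d, 1 ≤ d ∧ Pd d z := ⟨q, hq, hp⟩
  set d := Nat.find hex with hd
  obtain ⟨hd1, hd2⟩ : 1 ≤ d ∧ Pd d z := Nat.find_spec hex
  have hd3 : ∀ e, 1 ≤ e → e < d → ¬ Pd e z := fun e he1 he2 he3 =>
    Nat.find_min hex he2 ⟨he1, he3⟩
  have hdq : d ≤ q := Nat.find_min' hex ⟨hq, hp⟩
  set B := C * (4 * n + 2 + 1) ^ C with hB
  have hN : B + 3 ≤ (C * 4 ^ C + 3) * (n + 1) ^ (C * 4 ^ C + 3) := by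
    have h1 : 1 ≤ n + 1 := by omega
    have h2 : (4 * n + 2 + 1) ^ C ≤ 4 ^ C * (n + 1) ^ C := by
      rw [← mul_pow]
      exact Nat.pow_le_pow_left (by omega) C
    have hCle : C ≤ C * 4 ^ C + 3 := by
      have : C * 1 ≤ C * 4 ^ C := Nat.mul_le_mul_left C (Nat.one_le_pow _ _ (by norm_num))
      omega
    have h3 : (n + 1) ^ C ≤ (n + 1) ^ (C * 4 ^ C + 3) := Nat.pow_le_pow_right h1 hCle
    have h4 : 1 ≤ (n + 1) ^ (C * 4 ^ C + 3) := Nat.one_le_pow _ _ h1
    calc B + 3 ≤ C * (4 ^ C * (n + 1) ^ C) + 3 := by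
          have := Nat.mul_le_mul_left C h2
          omega
      _ ≤ C * (4 ^ C * (n + 1) ^ (C * 4 ^ C + 3)) + 3 := by
          have := Nat.mul_le_mul_left C (Nat.mul_le_mul_left (4 ^ C) h3)
          omega
      _ = C * 4 ^ C * (n + 1) ^ (C * 4 ^ C + 3) + 3 := by rw [mul_assoc]
      _ ≤ (C * 4 ^ C + 3) * (n + 1) ^ (C * 4 ^ C + 3) := by
          rw [add_mul]
          omega
  have h5 : (B + 3) * d ≤ z.length :=
    le_trans (Nat.mul_le_mul hN hdq) hlen
  have h6 : (B + 3) * d = (B + 1) * d + 2 * d := by ring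
  have h7 : B + 1 ≤ (z.length - 2 * d) / d := by
    rw [Nat.le_div_iff_mul_le (by omega)]
    omega
  have h8 : 3 * d ≤ z.length := by
    have : 1 * d ≤ (B + 1) * d := Nat.mul_le_mul_right d (Nat.le_add_left 1 _)
    omega
  exact exp_coreG (Bd := B) (n := n) (fun L' R' hL' τ hτ r y c hc hr =>
    hC (4 * n + 2) L' R' hX hL' τ hτ r y c hc hr) hn hmin hz hd1 hd2 hd3 h8
    (Nat.lt_of_succ_le h7)

end WK
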