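import Pool.Agent.WK.Occ21
import Pool.Agent.WK.Alph21

/-!
# From finite alphabets and all variables to the variables that occur, uniform form

Helper file for MP_fc7ad9_lc (word equations with a fixed number of variables).
-/

set_option autoImplicit false

namespace WK

open WE45

universe u w

theorem length_rst_eq {A : Type u} {X : Type w} [DecidableEq X] (V : Finset X) :
    ∀ l : List (A ⊕ X), (∀ x, .inr x ∈ l → x ∈ V) → (rst V l).length = l.length
  | [], _ => rfl
  | .inl a :: l, h => by
      simp only [rst, List.length_cons]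
      rw [length_rst_eq V l fun x hx => h x (List.mem_cons_of_mem _ hx)]
  | .inr x :: l, h => by
      have hx : x ∈ V := h x (by simp)
      simp only [rst]
      rw [dif_pos hx, List.length_cons, List.length_cons,
        length_rst_eq V l fun x hx => h x (List.mem_cons_of_mem _ hx)]

theorem length_rsa_eq {A : Type u} {X : Type w} [DecidableEq A] (S : Finset A) :
    ∀ l : List (A ⊕ X), (∀ a, .inl a ∈ l → a ∈ S) → (rsa S l).length = l.length
  | [], _ => rfl
  | .inr x :: l, h => by
      simp only [rsa, List.length_cons]
      rw [length_rsa_eq S l fun a ha => h a (List.mem_cons_of_mem _ ha)]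
  | .inl a :: l, h => by
      have ha : a ∈ S := h a (by simp)
      simp only [rsa]
      rw [dif_pos ha, List.length_cons, List.length_cons,
        length_rsa_eq S l fun a ha => h a (List.mem_cons_of_mem _ ha)]

/-- The uniform bound for finite alphabets and all variables gives the uniform bound for all
alphabets and the variables that occur. -/
theorem finish {C : ℕ}
    (H : ∀ {A : Type u} {X : Type w} [Finite A] [Fintype X] (L R : List (A ⊕ X)),
      Fintype.card X ≤ L.length + R.length → (∃ σ : X → List A, sb σ L = sb σ R) →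
      ∃ σ : X → List A, sb σ L = sb σ R ∧ ∑ x, (σ x).length ≤
        2 ^ ((L.length + R.length + 2) ^ (C * (Fintype.card X + 1) ^ 4)))
    {A : Type u} {X : Type w} [Fintype X] (L R : List (A ⊕ X)) (V : Finset X)
    (hL : ∀ x, Sum.inr x ∈ L ++ R → x ∈ V) (hs : ∃ σ : X → List A, sb σ L = sb σ R) :
    ∃ σ : X → List A, sb σ L = sb σ R ∧ ∑ x, (σ x).length ≤
      2 ^ ((L.length + R.length + 2) ^ (C * (V.card + 1) ^ 4)) := by
  classical
  obtain ⟨σ, hσ⟩ := hs
  -- the variables that occur
  let W : Finset X := ((L ++ R).filterMap Sum.getRight?).toFinset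
  have hW : ∀ x, Sum.inr x ∈ L ++ R → x ∈ W := by
    intro x hx
    show x ∈ ((L ++ R).filterMap Sum.getRight?).toFinset
    rw [List.mem_toFinset, List.mem_filterMap]
    exact ⟨Sum.inr x, hx, rfl⟩
  have hWV : W ⊆ V := by
    intro x hx
    have hx' : x ∈ ((L ++ R).filterMap Sum.getRight?).toFinset := hx
    rw [List.mem_toFinset, List.mem_filterMap] at hx'
    obtain ⟨s, h1, h2⟩ := hx'
    cases s with
    | inl a => exact absurd h2 (by simp)
    | inr y =>
      have : y = x := by simpa using h2
      rw [← this]
      exact hL y h1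
  have hWc : W.card ≤ L.length + R.length := by
    have h1 : W.card ≤ ((L ++ R).filterMap Sum.getRight?).length := List.toFinset_card_le _
    have h2 := List.length_filterMap_le (Sum.getRight? : A ⊕ X → Option X) (L ++ R)
    rw [List.length_append] at h2
    omega
  have hWL : ∀ x, Sum.inr x ∈ L → x ∈ W := fun x hx => hW x (List.mem_append_left _ hx)
  have hWR : ∀ x, Sum.inr x ∈ R → x ∈ W := fun x hx => hW x (List.mem_append_right _ hx)
  -- the letters that occur
  let S : Finset A := ((L ++ R).filterMap Sum.getLeft?).toFinset
  have hS : ∀ a, Sum.inl a ∈ L ++ R → a ∈ S := by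
    intro a ha
    show a ∈ ((L ++ R).filterMap Sum.getLeft?).toFinset
    rw [List.mem_toFinset, List.mem_filterMap]
    exact ⟨Sum.inl a, ha, rfl⟩
  have hSL : ∀ a, Sum.inl a ∈ L → a ∈ S := fun a ha => hS a (List.mem_append_left _ ha)
  have hSR : ∀ a, Sum.inl a ∈ R → a ∈ S := fun a ha => hS a (List.mem_append_right _ ha)
  have eL : (rsa S L).length = L.length := length_rsa_eq S L hSL
  have eR : (rsa S R).length = R.length := length_rsa_eq S R hSR
  -- variables of the restricted words
  have hmem : ∀ (l : List (A ⊕ X)) (x : X), Sum.inr x ∈ rsa S l → Sum.inr x ∈ l := by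
    intro l x
    induction l with
    | nil => intro h; simp [rsa] at h
    | cons s l ih =>
      intro h
      cases s with
      | inl a =>
        simp only [rsa] at h
        by_cases ha : a ∈ S
        · rw [dif_pos ha] at h
          rcases List.mem_cons.1 h with h | h
          · exact absurd h (by simp)
          · exact List.mem_cons_of_mem _ (ih h)
        · rw [dif_neg ha] at h
          exact List.mem_cons_of_mem _ (ih h)
      | inr y =>
        simp only [rsa] at h
        rcases List.mem_cons.1 h with h | h
        · have : x = y := by simpa using h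
          rw [this]; simp
        · exact List.mem_cons_of_mem _ (ih h)
  have vL : ∀ x, Sum.inr x ∈ rsa S L → x ∈ W := fun x hx => hWL x (hmem L x hx)
  have vR : ∀ x, Sum.inr x ∈ rsa S R → x ∈ W := fun x hx => hWR x (hmem R x hx)
  have fL : (rst W (rsa S L)).length = L.length := (length_rst_eq W _ vL).trans eL
  have fR : (rst W (rsa S R)).length = R.length := (length_rst_eq W _ vR).trans eR
  have hcard : Fintype.card {x // x ∈ W} = W.card := Fintype.card_coe W
  obtain ⟨τ, hτ, hb⟩ := H (rst W (rsa S L)) (rst W (rsa S R)) (by rw [fL, fR, hcard]; exact hWc)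
    ⟨fun x => (σ x.1).filterMap (ers S), by
      rw [sb_rst W (fun x => (σ x).filterMap (ers S)) _ vL,
        sb_rst W (fun x => (σ x).filterMap (ers S)) _ vR, sb_ers, sb_ers, hσ]⟩
  rw [fL, fR, hcard] at hb
  -- extension by empty words
  let ρ : X → List {a // a ∈ S} := fun x => if h : x ∈ W then τ ⟨x, h⟩ else []
  have hρ : (fun x : {x // x ∈ W} => ρ x.1) = τ := by
    funext x
    exact dif_pos x.2
  have hρs : sb ρ (rsa S L) = sb ρ (rsa S R) := by
    rw [← sb_rst W ρ _ vL, ← sb_rst W ρ _ vR, hρ, hτ]
  refine ⟨fun x => (ρ x).map Subtype.val, ?_, ?_⟩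
  · rw [sb_val S ρ L hSL, sb_val S ρ R hSR, hρs]
  · have e0 : ∑ x, ((ρ x).map Subtype.val).length = ∑ x, (ρ x).length :=
      Finset.sum_congr rfl fun x _ => List.length_map _
    have e1 : ∑ x, (ρ x).length = ∑ x : {x // x ∈ W}, (τ x).length := by
      rw [← hρ]
      rw [Finset.sum_coe_sort W (fun x => (ρ x).length)]
      symm
      apply Finset.sum_subset (Finset.subset_univ _)
      intro x _ hx
      show (ρ x).length = 0
      rw [show ρ x = [] from dif_neg hx]
      rfl
    rw [e0, e1]
    refine hb.trans (Nat.pow_le_pow_right (by norm_num) ?_)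
    refine Nat.pow_le_pow_right (by omega) (Nat.mul_le_mul_left C ?_)
    exact Nat.pow_le_pow_left (Nat.add_le_add_right (Finset.card_le_card hWV) 1) 4

end WK
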