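import Mathlib

/-! Row U9 of P15 (MP_fc7ad9_lc): the arithmetic of the explicit bound. -/

namespace WK

theorem fa_base (C0 k v W : ℕ) :
    1800 * k * ((v + 2) ^ (C0 * (k + 1))) ^ 3 * (v + 1) * W ≤
      (v + 2) ^ ((3 * C0 + 12) * (k + 1)) * W := by
  refine Nat.mul_le_mul_right _ ?_
  set P := v + 2 with hP
  have hP2 : 2 ≤ P := by omega
  have h1 : 1800 ≤ P ^ 11 := by
    calc 1800 ≤ 2 ^ 11 := by norm_num
      _ ≤ P ^ 11 := Nat.pow_le_pow_left hP2 11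
  have hk : k ≤ P ^ k := by
    calc k ≤ 2 ^ k := Nat.lt_two_pow_self.le
      _ ≤ P ^ k := Nat.pow_le_pow_left hP2 k
  calc 1800 * k * (P ^ (C0 * (k + 1))) ^ 3 * (v + 1)
      ≤ P ^ 11 * P ^ k * (P ^ (C0 * (k + 1))) ^ 3 * P := by
        gcongr
        omega
    _ = P ^ (k + 12 + 3 * (C0 * (k + 1))) := by
        rw [← pow_mul, ← pow_add, ← pow_add, ← pow_succ]
        congr 1
        ring
    _ ≤ P ^ ((3 * C0 + 12) * (k + 1)) := by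
        refine Nat.pow_le_pow_right (by omega) ?_
        nlinarith

theorem fa_exp (C1 : ℕ) : ∀ k : ℕ, k + C1 * (k + 5 * k + 4 * k ^ 3 + 1) ^ C1 ≤
    (C1 * 11 ^ C1 + 1) * (k + 1) ^ (3 * C1 + 1) := by
  intro k
  have h1 : k + 5 * k + 4 * k ^ 3 + 1 ≤ 11 * (k + 1) ^ 3 := by nlinarith [sq_nonneg k]
  have h2 : (k + 5 * k + 4 * k ^ 3 + 1) ^ C1 ≤ 11 ^ C1 * (k + 1) ^ (3 * C1) := by
    calc (k + 5 * k + 4 * k ^ 3 + 1) ^ C1 ≤ (11 * (k + 1) ^ 3) ^ C1 :=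
          Nat.pow_le_pow_left h1 C1
      _ = 11 ^ C1 * (k + 1) ^ (3 * C1) := by rw [mul_pow, ← pow_mul]
  have h4 : (k + 1) ^ (3 * C1) ≤ (k + 1) ^ (3 * C1 + 1) :=
    Nat.pow_le_pow_right (Nat.succ_pos k) (Nat.le_succ _)
  calc k + C1 * (k + 5 * k + 4 * k ^ 3 + 1) ^ C1
      ≤ (k + 1) ^ (3 * C1 + 1) + C1 * (11 ^ C1 * (k + 1) ^ (3 * C1 + 1)) := by
        refine Nat.add_le_add ?_ (Nat.mul_le_mul_left _ (h2.trans
          (Nat.mul_le_mul_left _ h4)))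
        calc k ≤ (k + 1) ^ 1 := by rw [pow_one]; exact Nat.le_succ k
          _ ≤ (k + 1) ^ (3 * C1 + 1) := Nat.pow_le_pow_right (Nat.succ_pos k) (by omega)
    _ = (C1 * 11 ^ C1 + 1) * (k + 1) ^ (3 * C1 + 1) := by ring

/-- The arithmetic of the explicit bound. -/
theorem final_arith (C0 C1 : ℕ) : ∃ C : ℕ, ∀ k v : ℕ, 1 ≤ k →
    k * (1800 * k * ((v + 2) ^ (C0 * (k + 1))) ^ 3 * (v + 1) *
      2 ^ (2 ^ (C1 * (k + 5 * k + 4 * k ^ 3 + 1) ^ C1))) ^ k ≤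
      (v + 2) ^ (C * (k + 1) ^ 2) * 2 ^ (2 ^ (C * (k + 1) ^ C)) := by
  refine ⟨C1 * 11 ^ C1 + 1 + (3 * C1 + 1) + (3 * C0 + 13), fun k v _ => ?_⟩
  set C := C1 * 11 ^ C1 + 1 + (3 * C1 + 1) + (3 * C0 + 13) with hC
  set P := v + 2 with hP
  have hP2 : 2 ≤ P := by omega
  set E := C1 * (k + 5 * k + 4 * k ^ 3 + 1) ^ C1 with hE
  set W := 2 ^ (2 ^ E) with hW
  have hA := fa_base C0 k v W
  rw [← hP] at hA
  have hkW : W ^ k ≤ 2 ^ (2 ^ (C * (k + 1) ^ C)) := by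
    rw [hW, ← pow_mul]
    refine Nat.pow_le_pow_right (by norm_num) ?_
    calc 2 ^ E * k ≤ 2 ^ E * 2 ^ k := Nat.mul_le_mul_left _ Nat.lt_two_pow_self.le
      _ = 2 ^ (k + E) := by rw [← pow_add, add_comm]
      _ ≤ 2 ^ (C * (k + 1) ^ C) := by
          refine Nat.pow_le_pow_right (by norm_num) ((fa_exp C1 k).trans ?_)
          refine Nat.mul_le_mul (by omega) (Nat.pow_le_pow_right (Nat.succ_pos k) ?_)
          omega
  have hk : k ≤ P ^ k := by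
    calc k ≤ 2 ^ k := Nat.lt_two_pow_self.le
      _ ≤ P ^ k := Nat.pow_le_pow_left hP2 k
  calc k * (1800 * k * (P ^ (C0 * (k + 1))) ^ 3 * (v + 1) * W) ^ k
      ≤ P ^ k * (P ^ ((3 * C0 + 12) * (k + 1)) * W) ^ k :=
        Nat.mul_le_mul hk (Nat.pow_le_pow_left hA k)
    _ = P ^ (k + (3 * C0 + 12) * (k + 1) * k) * W ^ k := by
        rw [mul_pow, ← pow_mul, pow_add]
        ring
    _ ≤ P ^ (C * (k + 1) ^ 2) * 2 ^ (2 ^ (C * (k + 1) ^ C)) := by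
        refine Nat.mul_le_mul (Nat.pow_le_pow_right (by omega) ?_) hkW
        have h1 : k + (3 * C0 + 12) * (k + 1) * k ≤ (3 * C0 + 13) * (k + 1) ^ 2 := by
          nlinarith [Nat.zero_le (C0 * k)]
        exact h1.trans (Nat.mul_le_mul_right _ (by omega))

end WK
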