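import Pool.Agent.WK.Defs64

/-! Word equations with boundedly many variables (MP_fc7ad9_lc). Helper module:
every gap has a block. -/

open WE45 WK64

namespace WK

variable {A X : Type*} {lg : X → Prop} {mk : X → List A} {l : ℕ}

theorem bl_ne_nil {σ pre mid : X → List A} (hC : Cut (KM lg mk) l σ pre mid lg)
    (γ : Option X × List A × Option X) (hγ : ∀ y, γ.2.2 = some y → lg y) :
    1 ≤ (bl (KM lg mk) σ pre mid γ).length := by
  obtain ⟨o, G, e⟩ := γ
  cases e with
  | none => simp [bl]
  | some y =>
    have hy : lg y := hγ y rfl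
    by_contra hc
    have h0 : (bl (KM lg mk) σ pre mid (o, G, some y)).length = 0 := by omega
    rw [Cut.bl_some] at h0
    have h1 := List.length_eq_zero_iff.1 h0
    have hu : G ++ pre y ≠ [] := by
      intro h
      exact hC.pre_ne hy (List.append_eq_nil_iff.1 h).2
    have h2 := flatten_out (KM lg mk) (G ++ pre y) (ox σ o) (ox (sfx (KM lg mk) pre mid) o)
    have h3 := pend_of_K (KM lg mk) (G ++ pre y) hu (ox σ o)
      (ox (sfx (KM lg mk) pre mid) o) (by
        rw [← List.append_assoc]
        exact hC.K_pre hy _)
    rw [h3] at h2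
    rw [h1] at h2
    simp only [List.flatten_nil, List.append_nil] at h2
    exact hu (List.append_eq_nil_iff.1 h2.symm).2

end WK
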