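import Pool.Agent.WK.GapsB5

/-! Word equations with boundedly many variables (MP_fc7ad9_lc). Helper module:
gaps with one block, and the form of the exceptional gaps. -/

open WE45 WK64

namespace WK

theorem suffix_cases66 {A : Type*} {m G v : List A} (h : m <:+ G ++ v) :
    m <:+ v ∨ ∃ s, s ≠ [] ∧ m = s ++ v ∧ s <:+ G := by
  obtain ⟨r, hr⟩ := h
  rcases List.append_eq_append_iff.1 hr with ⟨a, h1, h2⟩ | ⟨a, h1, h2⟩
  · by_cases ha : a = []
    · left
      rw [h2, ha]
      exact List.suffix_refl _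
    · right
      exact ⟨a, ha, h2, ⟨r, h1.symm⟩⟩
  · left
    exact ⟨a, h2.symm⟩

/-- a prefix longer than `G` -/
theorem prefix_cases66 {A : Type*} {t G p : List A} (h : t <+: G ++ p)
    (hl : G.length ≤ t.length) (hn : t ≠ G ++ p) : ∃ v, t = G ++ v ∧ v <+: p ∧ v ≠ p := by
  have h1 : G <+: t := List.prefix_of_prefix_length_le (List.prefix_append G p) h hl
  obtain ⟨v, rfl⟩ := h1
  refine ⟨v, rfl, (List.prefix_append_right_inj G).1 h, ?_⟩
  rintro rfl
  exact hn rfl

section Rule

variable {A X : Type*} {lg : X → Prop} {mk : X → List A} {l : ℕ}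

/-- no marker ends in `G ++ v` inside `G ++ v` -/
theorem no_end66 {σ pre mid : X → List A} {d E' : ℕ} (hd : d ≤ E')
    (hC : Cut (KM lg mk) l σ pre mid lg)
    (hF : ∀ x, lg x → ∀ t, t <+: pre x → t ≠ pre x → ¬ KM lg mk t)
    (hL : ∀ x, lg x → ∀ y, lg y → ∀ t z, mk x = t ++ z → z <+: σ y → 1 ≤ t.length → E' < t.length)
    (G : List A) (hG : G.length ≤ d) {x y : X} (hx : lg x) (hy : lg y) {v : List A}
    (hv : v <+: pre y) (hn : v ≠ pre y) : ¬ mk x <:+ G ++ v := by
  intro h
  rcases suffix_cases66 h with h1 | ⟨s, hs, h1, h2⟩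
  · exact hF y hy v hv hn ⟨x, hx, h1⟩
  · have h3 : v <+: σ y := hv.trans (by rw [hC.split y hy]; exact List.prefix_append _ _)
    have h4 := hL x hx y hy s v h1 h3 (List.length_pos_of_ne_nil hs)
    have h5 := h2.length_le
    omega

theorem bl_first {σ pre mid : X → List A} {d E' : ℕ} (hd : d ≤ E') (hdl : d < l)
    (hm : ∀ x, lg x → (mk x).length = l)
    (hC : Cut (KM lg mk) l σ pre mid lg)
    (hF : ∀ x, lg x → ∀ t, t <+: pre x → t ≠ pre x → ¬ KM lg mk t)
    (hL : ∀ x, lg x → ∀ y, lg y → ∀ t z, mk x = t ++ z → z <+: σ y → 1 ≤ t.length → E' < t.length)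
    (G : List A) (hG : G.length ≤ d) (o : Option X) (ho : ∀ y, o = some y → lg y) :
    (bl (KM lg mk) σ pre mid (none, G, o)).length = 1 := by
  cases o with
  | none =>
    rw [Cut.bl_none (none, G), out_eq_nil, List.nil_append, List.length_singleton]
    intro t ht _ hK
    have h1 := KM.length_le hm hK
    have h2 : t.length ≤ G.length := ht.length_le
    simp only [ox, List.nil_append] at h1
    omega
  | some y =>
    have hy := ho y rfl
    rw [Cut.bl_some, out_single, List.length_singleton]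
    · rw [← List.append_assoc]
      exact hC.K_pre hy _
    · intro h
      exact hC.pre_ne hy (List.append_eq_nil_iff.1 h).2
    · intro t ht _ hn hK
      simp only [ox, List.nil_append] at hK
      have h1 := KM.length_le hm hK
      obtain ⟨v, rfl, h2, h3⟩ := prefix_cases66 ht (by omega) hn
      obtain ⟨x, hx, h4⟩ := hK
      exact no_end66 hd hC hF hL G hG hx hy h2 h3 h4

theorem bl_last {σ pre mid : X → List A} {d E' : ℕ} (hd : d ≤ E') (hdl : d < l)
    (hm : ∀ x, lg x → (mk x).length = l)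
    (_hlong : ∀ x, lg x → l ≤ (σ x).length)
    (hR : ∀ x, lg x → ∀ y, lg y → ∀ z t, mk x = z ++ t → z <:+ σ y → 1 ≤ t.length → E' < t.length)
    (G : List A) (hG : G.length ≤ d) (x : X) (hx : lg x) :
    (bl (KM lg mk) σ pre mid (some x, G, none)).length = 1 := by
  rw [Cut.bl_none (some x, G), out_eq_nil, List.nil_append, List.length_singleton]
  intro t ht hn hK
  obtain ⟨z, hz, h1⟩ := hK
  have h2 : t.length ≤ G.length := ht.length_le
  have h3 : 1 ≤ t.length := List.length_pos_of_ne_nil hn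
  simp only [ox] at h1
  obtain ⟨r, hr⟩ := h1
  rcases List.append_eq_append_iff.1 hr with ⟨a, h4, h5⟩ | ⟨a, h4, h5⟩
  · have h6 := hR z hz x hx a t h5 ⟨r, h4.symm⟩ h3
    omega
  · have h6 := congrArg List.length h5
    rw [List.length_append, hm z hz] at h6
    omega

theorem bl_mid {σ pre mid : X → List A} {d E E' : ℕ} (hE : E' = E + d) (hdl : d < l)
    (hm : ∀ x, lg x → (mk x).length = l)
    (_hlong : ∀ x, lg x → l ≤ (σ x).length)
    (hC : Cut (KM lg mk) l σ pre mid lg)
    (hF : ∀ x, lg x → ∀ t, t <+: pre x → t ≠ pre x → ¬ KM lg mk t)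
    (hR : ∀ x, lg x → ∀ y, lg y → ∀ z t, mk x = z ++ t → z <:+ σ y → 1 ≤ t.length → E' < t.length)
    (hL : ∀ x, lg x → ∀ y, lg y → ∀ t z, mk x = t ++ z → z <+: σ y → 1 ≤ t.length → E' < t.length)
    (G : List A) (hG : G.length ≤ d) (x y : X) (hx : lg x) (hy : lg y)
    (h : (bl (KM lg mk) σ pre mid (some x, G, some y)).length ≠ 1) :
    ∃ z, lg z ∧ ∃ u' v', mk z = u' ++ G ++ v' ∧ u' <:+ σ x ∧ v' <+: σ y ∧
      E < u'.length ∧ E < v'.length := by
  by_contra hcon
  apply h
  rw [Cut.bl_some, out_single, List.length_singleton]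
  · rw [← List.append_assoc]
    exact hC.K_pre hy _
  · intro h
    exact hC.pre_ne hy (List.append_eq_nil_iff.1 h).2
  · intro t ht hn0 hn hK
    obtain ⟨z, hz, h1⟩ := hK
    simp only [ox] at h1
    have hpy : pre y <+: σ y := by rw [hC.split y hy]; exact List.prefix_append _ _
    have h3 : 1 ≤ t.length := List.length_pos_of_ne_nil hn0
    obtain ⟨r, hr⟩ := h1
    rcases List.append_eq_append_iff.1 hr with ⟨a, h4, h5⟩ | ⟨a, h4, h5⟩
    · have h6 := hR z hz x hx a t h5 ⟨r, h4.symm⟩ h3
      obtain ⟨v, rfl, h7, h8⟩ := prefix_cases66 ht (by omega) hn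
      have h9 : v <+: σ y := h7.trans hpy
      rw [List.length_append] at h6
      have h10 : mk z = (a ++ G) ++ v := by rw [h5, List.append_assoc]
      by_cases h11 : a ++ G = []
      · rw [h11, List.nil_append] at h10
        exact hF y hy v h7 h8 ⟨z, hz, by rw [h10]⟩
      · have h12 := hL z hz y hy _ _ h10 h9 (List.length_pos_of_ne_nil h11)
        rw [List.length_append] at h12
        exact hcon ⟨z, hz, a, v, h10, ⟨r, h4.symm⟩, h9, by omega, by omega⟩
    · have h6 := congrArg List.length h5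
      rw [List.length_append, hm z hz] at h6
      obtain ⟨v, rfl, h7, h8⟩ := prefix_cases66 ht (by omega) hn
      exact no_end66 (by omega : d ≤ E') hC hF hL G hG hz hy h7 h8 ⟨a, h5.symm⟩

end Rule

end WK
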