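import Pool.Agent.WK.Defs64

/-! Word equations with boundedly many variables (MP_fc7ad9_lc). Helper module:
structure of the blocks of a gap that ends with a cut variable. -/

open WE45 WK64

namespace WK

theorem out_eq_nil {A : Type*} (K : List A → Prop) [DecidablePred K] : ∀ (u h p : List A),
    (∀ t, t <+: u → t ≠ [] → ¬ K (h ++ t)) → out K h p u = []
  | [], h, p, _ => rfl
  | a :: u, h, p, hK => by
      have h1 := hK [a] ⟨u, by simp⟩ (by simp)
      simp only [out]
      rw [if_neg h1]
      apply out_eq_nil K u
      intro t ht hn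
      have h2 := hK (a :: t) ((List.cons_prefix_cons).2 ⟨rfl, ht⟩) (by simp)
      rwa [List.append_assoc, List.singleton_append]

/-- only one block is completed -/
theorem out_single {A : Type*} (K : List A → Prop) [DecidablePred K] (h p u : List A)
    (hu : K (h ++ u)) (hn : u ≠ []) (hK : ∀ t, t <+: u → t ≠ [] → t ≠ u → ¬ K (h ++ t)) :
    out K h p u = [p ++ u] := by
  obtain ⟨v, a, rfl⟩ : ∃ v a, u = v ++ [a] :=
    ⟨u.dropLast, u.getLast hn, (List.dropLast_append_getLast hn).symm⟩
  have h1 : out K h p v = [] := by
    apply out_eq_nil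
    intro t ht h2
    refine hK t (ht.trans (List.prefix_append v [a])) h2 ?_
    intro h3
    have h4 := ht.length_le
    rw [h3, List.length_append, List.length_singleton] at h4
    omega
  have h2 := flatten_out K v h p
  rw [h1, List.flatten_nil, List.nil_append] at h2
  rw [out_append, h1, h2, List.nil_append]
  simp only [out]
  rw [if_pos (by rwa [List.append_assoc]), List.append_assoc]

section Rule

variable {A X : Type*} {lg : X → Prop} {mk : X → List A} {l : ℕ}

/-- the last block contains the end of `pre y` -/
theorem bl_split_full {σ pre mid : X → List A}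
    (hC : Cut (KM lg mk) l σ pre mid lg)
    (hF : ∀ x, lg x → ∀ t, t <+: pre x → t ≠ pre x → ¬ KM lg mk t)
    (o : Option X) (G : List A) (y : X) (hy : lg y) :
    ∃ last, bl (KM lg mk) σ pre mid (o, G, some y) =
      out (KM lg mk) (ox σ o) (ox (sfx (KM lg mk) pre mid) o) (G ++ (pre y).take (l - 1)) ++
        [last] ∧ (pre y).length + 1 ≤ last.length + l ∧
      last = pend (KM lg mk) (ox σ o) (ox (sfx (KM lg mk) pre mid) o)
        (G ++ (pre y).take (l - 1)) ++ (pre y).drop (l - 1) := by
  have hl := hC.len y hy
  have hw := hC.w_pos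
  have e1 : G ++ pre y = (G ++ (pre y).take (l - 1)) ++ (pre y).drop (l - 1) := by
    rw [List.append_assoc, List.take_append_drop]
  have hd : (pre y).drop (l - 1) ≠ [] := by
    intro h
    have h1 := congrArg List.length h
    rw [List.length_drop, List.length_nil] at h1
    omega
  refine ⟨pend (KM lg mk) (ox σ o) (ox (sfx (KM lg mk) pre mid) o)
    (G ++ (pre y).take (l - 1)) ++ (pre y).drop (l - 1), ?_, ?_, rfl⟩
  · rw [Cut.bl_some, e1, out_append]
    congr 1
    apply out_single
    · rw [← List.append_assoc, List.append_assoc, List.append_assoc, List.take_append_drop,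
        ← List.append_assoc]
      exact hC.K_pre hy _
    · exact hd
    · intro t ht h1 h2 h3
      have e2 : ox σ o ++ (G ++ (pre y).take (l - 1)) ++ t =
          (ox σ o ++ G) ++ ((pre y).take (l - 1) ++ t) := by simp
      rw [e2] at h3
      have h4 : l ≤ ((pre y).take (l - 1) ++ t).length := by
        rw [List.length_append, List.length_take]
        have := List.length_pos_of_ne_nil h1
        omega
      have h5 := (hC.loc _ _ h4).1 h3
      refine hF y hy _ ?_ ?_ h5
      · obtain ⟨v, hv⟩ := ht
        exact ⟨v, by rw [List.append_assoc, hv, List.take_append_drop]⟩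
      · intro h6
        apply h2
        have h7 : (pre y).take (l - 1) ++ t = (pre y).take (l - 1) ++ (pre y).drop (l - 1) := by
          rw [List.take_append_drop, h6]
        exact List.append_cancel_left h7
  · rw [List.length_append, List.length_drop]
    omega

/-- the last block contains the end of `pre y` -/
theorem bl_split {σ pre mid : X → List A} (_hm : ∀ x, lg x → (mk x).length = l)
    (hC : Cut (KM lg mk) l σ pre mid lg)
    (hF : ∀ x, lg x → ∀ t, t <+: pre x → t ≠ pre x → ¬ KM lg mk t)
    (o : Option X) (G : List A) (y : X) (hy : lg y) :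
    ∃ last, bl (KM lg mk) σ pre mid (o, G, some y) =
      out (KM lg mk) (ox σ o) (ox (sfx (KM lg mk) pre mid) o) (G ++ (pre y).take (l - 1)) ++
        [last] ∧ (pre y).length + 1 ≤ last.length + l := by
  obtain ⟨last, h1, h2, _⟩ := bl_split_full hC hF o G y hy
  exact ⟨last, h1, h2⟩

/-- structure of the blocks of a gap that ends with a cut variable -/
theorem bl_struct {σ pre mid : X → List A} {d c : ℕ}
    (_hm : ∀ x, lg x → (mk x).length = l)
    (hC : Cut (KM lg mk) l σ pre mid lg)
    (hF : ∀ x, lg x → ∀ t, t <+: pre x → t ≠ pre x → ¬ KM lg mk t)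
    (hs : ∀ x, lg x → (sfx (KM lg mk) pre mid x).length + d + l ≤ c)
    (hc0 : d + l ≤ c)
    (G : List A) (hG : G.length ≤ d) (o : Option X) (ho : ∀ x, o = some x → lg x)
    (y : X) (hy : lg y) :
    ∃ B last, bl (KM lg mk) σ pre mid (o, G, some y) = B ++ [last] ∧ B.flatten.length ≤ c ∧
      (pre y).length + 1 ≤ last.length + l ∧ last.length ≤ (pre y).length + c := by
  obtain ⟨last, h1, h2, h3⟩ := bl_split_full hC hF o G y hy
  have hox : (ox (sfx (KM lg mk) pre mid) o).length + d + l ≤ c := by
    cases o with
    | none => simp only [ox, List.length_nil]; omega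
    | some x => exact hs x (ho x rfl)
  have hl := hC.len y hy
  have h4 := congrArg List.length (flatten_out (KM lg mk) (G ++ (pre y).take (l - 1)) (ox σ o)
    (ox (sfx (KM lg mk) pre mid) o))
  simp only [List.length_append, List.length_take] at h4
  refine ⟨_, last, h1, ?_, h2, ?_⟩
  · omega
  · rw [h3, List.length_append, List.length_drop]
    omega

end Rule

end WK
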