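import Mathlib

/-! Row B6 of P14 (MP_fc7ad9_lc): the ladder of scales and its polynomial bound. -/

namespace WK

/-- The iterates of `F` from `1` increase. -/
theorem lad_mono (F : ℕ → ℕ) (hF : ∀ S, S ≤ F S) : Monotone fun i => F^[i] 1 := by
  refine monotone_nat_of_le_succ fun i => ?_
  show F^[i] 1 ≤ F^[i + 1] 1
  rw [Function.iterate_succ_apply']
  exact hF _

theorem lad_one (F : ℕ → ℕ) (hF : ∀ S, S ≤ F S) (i : ℕ) : 1 ≤ F^[i] 1 :=
  lad_mono F hF (Nat.zero_le i)

/-- The ladder: if no `S` separates the lengths, all lengths are below the `k`-th rung. -/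
theorem ladder {X : Type*} [Fintype X] {k : ℕ} (hk : Fintype.card X ≤ k) (F : ℕ → ℕ)
    (hF : ∀ S, S ≤ F S) (len : X → ℕ)
    (h : ∀ S, 1 ≤ S → (∀ x, len x ≤ S ∨ F S ≤ len x) → (∃ x, S < len x) → False) :
    ∀ x, len x ≤ F^[k] 1 := by
  intro x
  by_contra hx
  push Not at hx
  have hm := lad_mono F hF
  have key : ∀ i : Fin (k + 1), ∃ y, F^[(i : ℕ)] 1 < len y ∧ len y < F^[(i : ℕ) + 1] 1 := by
    intro i
    by_contra hc
    push Not at hc
    refine h (F^[(i : ℕ)] 1) (lad_one F hF i) (fun y => ?_)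
      ⟨x, lt_of_le_of_lt (hm (Nat.lt_succ_iff.1 i.2)) hx⟩
    rcases le_or_gt (len y) (F^[(i : ℕ)] 1) with hy | hy
    · exact Or.inl hy
    · refine Or.inr ?_
      have := hc y hy
      rwa [Function.iterate_succ_apply'] at this
  choose y hy1 hy2 using key
  have hinj : Function.Injective y := by
    intro i j hij
    by_contra hne
    rcases lt_or_gt_of_ne hne with hlt | hlt
    · have h1 := hy2 i
      have h2 := hy1 j
      have h3 : F^[(i : ℕ) + 1] 1 ≤ F^[(j : ℕ)] 1 := hm (by exact_mod_cast hlt)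
      rw [hij] at h1
      omega
    · have h1 := hy2 j
      have h2 := hy1 i
      have h3 : F^[(j : ℕ) + 1] 1 ≤ F^[(i : ℕ)] 1 := hm (by exact_mod_cast hlt)
      rw [hij] at h2
      omega
  have hc := Fintype.card_le_of_injective y hinj
  rw [Fintype.card_fin] at hc
  omega

/-- The polynomial bound of the rungs. -/
theorem ladder_poly (k C : ℕ) : ∃ C' : ℕ, ∀ (n : ℕ),
    (fun S => C * ((n + 1) * (S + 1)) ^ C)^[k] 1 ≤ C' * (n + 1) ^ C' := by
  induction k with
  | zero => exact ⟨1, fun n => by simp⟩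
  | succ k ih =>
    obtain ⟨D, hD⟩ := ih
    refine ⟨C * (D + 1) ^ C + (D + 1) * C, fun n => ?_⟩
    rw [Function.iterate_succ_apply']
    set T := (fun S => C * ((n + 1) * (S + 1)) ^ C)^[k] 1 with hT
    have h1 : T ≤ D * (n + 1) ^ D := hD n
    have h0 : 1 ≤ (n + 1) ^ D := Nat.one_le_pow _ _ (Nat.succ_pos n)
    have h2 : (n + 1) * (T + 1) ≤ (D + 1) * (n + 1) ^ (D + 1) := by
      have : T + 1 ≤ (D + 1) * (n + 1) ^ D := by
        calc T + 1 ≤ D * (n + 1) ^ D + (n + 1) ^ D := by omega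
          _ = (D + 1) * (n + 1) ^ D := by ring
      calc (n + 1) * (T + 1) ≤ (n + 1) * ((D + 1) * (n + 1) ^ D) :=
            Nat.mul_le_mul_left _ this
        _ = (D + 1) * (n + 1) ^ (D + 1) := by ring
    calc C * ((n + 1) * (T + 1)) ^ C ≤ C * ((D + 1) * (n + 1) ^ (D + 1)) ^ C :=
          Nat.mul_le_mul_left _ (Nat.pow_le_pow_left h2 C)
      _ = (C * (D + 1) ^ C) * (n + 1) ^ ((D + 1) * C) := by
          rw [mul_pow, ← pow_mul, mul_assoc]
      _ ≤ (C * (D + 1) ^ C + (D + 1) * C) *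
            (n + 1) ^ (C * (D + 1) ^ C + (D + 1) * C) := by
          refine Nat.mul_le_mul (Nat.le_add_right _ _)
            (Nat.pow_le_pow_right (Nat.succ_pos n) (Nat.le_add_left _ _))

/-- Rungs are monotone in the step function. -/
theorem ladder_le (F G : ℕ → ℕ) (hG : Monotone G) (hFG : ∀ S, F S ≤ G S) (k : ℕ) :
    F^[k] 1 ≤ G^[k] 1 := by
  induction k with
  | zero => exact le_refl _
  | succ k ih =>
    rw [Function.iterate_succ_apply', Function.iterate_succ_apply']
    exact (hFG _).trans (hG ih)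

/-- Linear steps: `k` rungs of `S ↦ A (S + D)` stay below `(2 A)^k (D + 1)`. -/
theorem ladder_lin (A D : ℕ) (hA : 1 ≤ A) (k : ℕ) :
    (fun S => A * (S + D))^[k] 1 ≤ (2 * A) ^ k * (D + 1) := by
  have key : ∀ k : ℕ, (fun S => A * (S + D))^[k] 1 ≤ A ^ k * (1 + k * D) := by
    intro k
    induction k with
    | zero => simp
    | succ k ih =>
      rw [Function.iterate_succ_apply']
      calc A * ((fun S => A * (S + D))^[k] 1 + D)
          ≤ A * (A ^ k * (1 + k * D) + D) :=
            Nat.mul_le_mul_left _ (Nat.add_le_add_right ih D)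
        _ ≤ A * (A ^ k * (1 + k * D) + A ^ k * D) := by
            refine Nat.mul_le_mul_left _ (Nat.add_le_add_left ?_ _)
            exact Nat.le_mul_of_pos_left _ (Nat.pow_pos hA)
        _ = A ^ (k + 1) * (1 + (k + 1) * D) := by ring
  refine (key k).trans ?_
  rw [mul_pow, mul_comm (2 ^ k), mul_assoc]
  refine Nat.mul_le_mul_left _ ?_
  have h2 : k + 1 ≤ 2 ^ k := Nat.lt_two_pow_self
  calc 1 + k * D ≤ (k + 1) * (D + 1) := by nlinarith
    _ ≤ 2 ^ k * (D + 1) := Nat.mul_le_mul_right _ h2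

end WK
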