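import Pool.Agent.WK.Two37

/-! Word equations with boundedly many variables (MP_fc7ad9_lc). Helper module:
short words that satisfy the gap equations of one scale give a shorter solution. -/

open WE45 WK64

namespace WK

theorem one_scale {A X : Type*} [Fintype X] {K : List A → Prop} [DecidablePred K]
    {l k M : ℕ} {σ pre mid : X → List A} {lg : X → Prop} [DecidablePred lg]
    (L R : List (A ⊕ X)) (hC : Cut K l σ pre mid lg) (hmin : MinSol L R σ) (hk : 1 ≤ k)
    (hne : ∃ x, lg x) (s' p' : X → List A) (φ : List A → List A)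
    (hφ : ∀ γ ∈ Gp lg σ L R, ((bl K σ pre mid γ).map φ).flatten =
      ox s' γ.1 ++ γ.2.1 ++ ox p' γ.2.2)
    (hs : ∀ x, (s' x).length ≤ M ∧ (p' x).length ≤ M) (hb : ∀ B, (φ B).length ≤ M)
    (ht : ∀ x, lg x → (tau K pre mid x).length ≤ k * (4 * (σ x).length / l + 2))
    (hl : 20 * k * M ≤ l) (hl2 : 1 ≤ l) (hlong : ∀ x, lg x → l ≤ (σ x).length) : False := by
  have h4 := hC.transfer L R hmin.1 φ s' p'
    (fun γ hγ => hφ γ (List.mem_append_left _ hγ)) (fun γ hγ => hφ γ (List.mem_append_right _ hγ))
  have h5 := hmin.2 _ h4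
  refine absurd h5 (not_le.2 ?_)
  have h6 : ∀ x, lg x → (p' x ++ ((tau K pre mid x).map φ).flatten ++ s' x).length <
      (σ x).length := by
    intro x hx
    have a1 := (hs x).1
    have a2 := (hs x).2
    have a3 := flatten_le37 φ hb (tau K pre mid x)
    have a4 := Nat.mul_le_mul_right M (ht x hx)
    have a5 := hlong x hx
    have a6 : l * (4 * (σ x).length / l) ≤ 4 * (σ x).length := Nat.mul_div_le _ _
    rw [List.length_append, List.length_append]
    generalize (σ x).length = s at *
    generalize 4 * s / l = q at *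
    have a7 : 20 * k * M * q ≤ l * q := Nat.mul_le_mul_right q hl
    have a8 : M ≤ k * M := Nat.le_mul_of_pos_left M hk
    have e1 : k * (q + 2) * M = k * M * q + 2 * (k * M) := by ring
    have e2 : 20 * k * M * q = 20 * (k * M * q) := by ring
    have e3 : 20 * k * M = 20 * (k * M) := by ring
    rw [e1] at a4
    rw [e2] at a7
    rw [e3] at hl
    omega
  obtain ⟨x₀, hx₀⟩ := hne
  apply Finset.sum_lt_sum
  · intro x _
    by_cases hx : lg x
    · simp only [if_pos hx]
      exact (h6 x hx).le
    · simp only [if_neg hx]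
      exact le_rfl
  · refine ⟨x₀, Finset.mem_univ _, ?_⟩
    simp only [if_pos hx₀]
    exact h6 x₀ hx₀

end WK
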