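import Pool.Agent.WK.Sys3
import Pool.Agent.WK.FinR64

/-!
# Word equations: systems with few occurrences of variables, explicit bound (helper50)
-/

set_option autoImplicit false

open WE45 WK64 WO45

namespace WK

universe u w

theorem vars50 {A : Type u} {X : Type w} : ∀ l : List (A ⊕ X),
    ∃ V : Finset X, (∀ x, Sum.inr x ∈ l → x ∈ V) ∧ V.card ≤ vN l := by
  classical
  intro l
  induction l with
  | nil => exact ⟨∅, by simp, by simp [vN]⟩
  | cons s l ih =>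
    obtain ⟨V, h1, h2⟩ := ih
    cases s with
    | inl a =>
      refine ⟨V, fun x hx => h1 x ?_, by simpa [vN] using h2⟩
      simpa using hx
    | inr y =>
      refine ⟨insert y V, fun x hx => ?_, ?_⟩
      · rcases List.mem_cons.1 hx with hx | hx
        · have : x = y := by simpa using hx
          rw [this]
          exact Finset.mem_insert_self _ _
        · exact Finset.mem_insert_of_mem (h1 x hx)
      · refine (Finset.card_insert_le _ _).trans ?_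
        simp only [vN]
        omega

theorem vN_append50 {A : Type u} {X : Type w} (l r : List (A ⊕ X)) :
    vN (l ++ r) = vN l + vN r := by
  rw [← countP_eq_vN, ← countP_eq_vN, ← countP_eq_vN, List.countP_append]

theorem sys_arith (C : ℕ) : ∃ C' : ℕ, ∀ v : ℕ,
    (4 * v + 1) * 2 ^ ((2 * (v * v) + 2) ^ (C * (2 * (v * v) + 1) ^ 4)) ≤
      2 ^ (2 ^ (C' * (v + 1) ^ C')) := by
  refine ⟨C * 16 * 3 + 20, ?_⟩
  intro v
  set t := v + 1 with ht
  set C' := C * 16 * 3 + 20 with hC'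
  have ht1 : 1 ≤ t := by omega
  -- the base
  have h1 : 2 * (v * v) + 2 ≤ 2 ^ (2 * t + 1) := by
    have e1 : v + 1 ≤ 2 ^ (v + 1) := (Nat.lt_two_pow_self (n := v + 1)).le
    have e2 : 2 * (v * v) + 2 ≤ 2 * ((v + 1) * (v + 1)) := by nlinarith
    calc 2 * (v * v) + 2 ≤ 2 * ((v + 1) * (v + 1)) := e2
      _ ≤ 2 * (2 ^ (v + 1) * 2 ^ (v + 1)) := Nat.mul_le_mul_left _ (Nat.mul_le_mul e1 e1)
      _ = 2 ^ (2 * t + 1) := by rw [ht]; ring
  have h2 : 2 * (v * v) + 1 ≤ 2 * t ^ 2 := by rw [ht]; nlinarith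
  have h3 : C * (2 * (v * v) + 1) ^ 4 ≤ C * 16 * t ^ 8 := by
    calc C * (2 * (v * v) + 1) ^ 4 ≤ C * (2 * t ^ 2) ^ 4 :=
          Nat.mul_le_mul_left _ (Nat.pow_le_pow_left h2 4)
      _ = C * 16 * t ^ 8 := by ring
  have h4 : (2 * (v * v) + 2) ^ (C * (2 * (v * v) + 1) ^ 4) ≤
      2 ^ (C * 16 * 3 * t ^ 9) := by
    calc (2 * (v * v) + 2) ^ (C * (2 * (v * v) + 1) ^ 4)
        ≤ (2 ^ (2 * t + 1)) ^ (C * (2 * (v * v) + 1) ^ 4) := Nat.pow_le_pow_left h1 _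
      _ ≤ (2 ^ (2 * t + 1)) ^ (C * 16 * t ^ 8) :=
          Nat.pow_le_pow_right (Nat.pos_of_ne_zero (by positivity)) h3
      _ = 2 ^ ((2 * t + 1) * (C * 16 * t ^ 8)) := (pow_mul _ _ _).symm
      _ ≤ 2 ^ (C * 16 * 3 * t ^ 9) := by
          refine Nat.pow_le_pow_right (by norm_num) ?_
          calc (2 * t + 1) * (C * 16 * t ^ 8) ≤ (3 * t) * (C * 16 * t ^ 8) :=
                Nat.mul_le_mul_right _ (by omega)
            _ = C * 16 * 3 * t ^ 9 := by ring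
  have h5 : 4 * v + 1 ≤ 2 ^ (4 * t) :=
    (Nat.lt_two_pow_self (n := 4 * v + 1)).le.trans (Nat.pow_le_pow_right (by norm_num) (by omega))
  have h6 : 4 * t + 2 ^ (C * 16 * 3 * t ^ 9) ≤ 2 ^ (C' * t ^ C') := by
    have b1 : t ^ 9 ≤ t ^ C' := Nat.pow_le_pow_right ht1 (by omega)
    have b2 : t ≤ t ^ C' := by
      calc t = t ^ 1 := (pow_one t).symm
        _ ≤ t ^ C' := Nat.pow_le_pow_right ht1 (by omega)
    have b3 : 1 ≤ t ^ C' := Nat.one_le_pow _ _ ht1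
    have b4 : C * 16 * 3 * t ^ 9 + 4 * t + 1 ≤ C' * t ^ C' := by
      calc C * 16 * 3 * t ^ 9 + 4 * t + 1
          ≤ C * 16 * 3 * t ^ C' + 4 * t ^ C' + t ^ C' :=
            Nat.add_le_add (Nat.add_le_add (Nat.mul_le_mul_left _ b1)
              (Nat.mul_le_mul_left _ b2)) b3
        _ = (C * 16 * 3 + 5) * t ^ C' := by ring
        _ ≤ C' * t ^ C' := Nat.mul_le_mul_right _ (by omega)
    calc 4 * t + 2 ^ (C * 16 * 3 * t ^ 9)
        ≤ 2 ^ (4 * t) + 2 ^ (C * 16 * 3 * t ^ 9) := by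
          have := Nat.lt_two_pow_self (n := 4 * t)
          omega
      _ ≤ 2 ^ (C * 16 * 3 * t ^ 9 + 4 * t) + 2 ^ (C * 16 * 3 * t ^ 9 + 4 * t) := by
          refine Nat.add_le_add ?_ ?_ <;> exact Nat.pow_le_pow_right (by norm_num) (by omega)
      _ = 2 ^ (C * 16 * 3 * t ^ 9 + 4 * t + 1) := by ring
      _ ≤ 2 ^ (C' * t ^ C') := Nat.pow_le_pow_right (by norm_num) b4
  calc (4 * v + 1) * 2 ^ ((2 * (v * v) + 2) ^ (C * (2 * (v * v) + 1) ^ 4))
      ≤ 2 ^ (4 * t) * 2 ^ (2 ^ (C * 16 * 3 * t ^ 9)) :=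
        Nat.mul_le_mul h5 (Nat.pow_le_pow_right (by norm_num) h4)
    _ = 2 ^ (4 * t + 2 ^ (C * 16 * 3 * t ^ 9)) := by rw [← pow_add]
    _ ≤ 2 ^ (2 ^ (C' * t ^ C')) := Nat.pow_le_pow_right (by norm_num) h6

theorem few_systems_lin50 : ∃ C : ℕ, ∀ {A : Type u} {X : Type w} [Fintype A] [Fintype X]
    (v D : ℕ) (E : List (List (A ⊕ X) × List (A ⊕ X))), E.length ≤ v →
    (∀ t ∈ E, (t.1 ++ t.2).countP Sum.isRight ≤ v) →
    (∀ t ∈ E, t.1.length + t.2.length ≤ D) →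
    (∃ σ : X → List A, ∀ t ∈ E, sb σ t.1 = sb σ t.2) →
    ∃ σ : X → List A, (∀ t ∈ E, sb σ t.1 = sb σ t.2) ∧
      ∑ x, (σ x).length ≤ (D + 1) * 2 ^ (2 ^ (C * (v + 1) ^ C)) := by
  obtain ⟨C, hC⟩ := ratio_final.{u, w}
  obtain ⟨C', hC'⟩ := sys_arith C
  refine ⟨C', ?_⟩
  intro A X _ _ v D E hE hv hN ⟨σ₀, hσ₀⟩
  have h1 : vN (encL E) + vN (encR E) ≤ 2 * (v * v) := by
    rw [← vN_append50, ← countP_eq_vN, countP_enc]
    have h2 := sum_map_le (fun t : List (A ⊕ X) × List (A ⊕ X) =>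
      (t.1 ++ t.2).countP Sum.isRight) v E hv
    have h3 : E.length * v ≤ v * v := Nat.mul_le_mul_right v hE
    omega
  obtain ⟨V, hV, hVc⟩ := vars50 (encL E ++ encR E)
  rw [vN_append50] at hVc
  have hlen : (encL E).length + (encR E).length ≤ (4 * v + 1) * (D + 1) := by
    rw [length_enc]
    have h2 := sum_map_le (fun t : List (A ⊕ X) × List (A ⊕ X) =>
      t.1.length + t.2.length + 2) (D + 2) E (fun t ht => by
        have := hN t ht
        omega)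
    have h3 : E.length * (D + 2) ≤ v * (D + 2) := Nat.mul_le_mul_right _ hE
    have h5 : v * (D + 2) ≤ 2 * (v * (D + 1)) := by nlinarith
    have h6 : (4 * v + 1) * (D + 1) = 4 * (v * (D + 1)) + (D + 1) := by ring
    omega
  have hseg : ∀ l : List ((A ⊕ Bool) ⊕ X), l.length ≤ (4 * v + 1) * (D + 1) →
      SegLe ((4 * v + 1) * (D + 1)) l := by
    intro l hl w hw
    have := hw.length_le
    rw [List.length_map] at this
    omega
  obtain ⟨σ, hσ, hs⟩ := hC (encL E) (encR E) V (2 * (v * v)) ((4 * v + 1) * (D + 1)) hV h1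
    (Nat.mul_pos (by omega) (by omega)) (hseg _ (by omega)) (hseg _ (by omega))
    ⟨_, enc_of_sol E σ₀ hσ₀⟩
  refine ⟨fun x => dn (σ x), sol_of_enc E σ hσ, ?_⟩
  calc ∑ x, (dn (σ x)).length ≤ ∑ x, (σ x).length :=
        Finset.sum_le_sum fun x _ => length_dn (σ x)
    _ ≤ (4 * v + 1) * (D + 1) * 2 ^ ((2 * (v * v) + 2) ^ (C * (V.card + 1) ^ 4)) := hs
    _ ≤ (4 * v + 1) * (D + 1) * 2 ^ ((2 * (v * v) + 2) ^ (C * (2 * (v * v) + 1) ^ 4)) := by
        refine Nat.mul_le_mul_left _ (Nat.pow_le_pow_right (by norm_num)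
          (Nat.pow_le_pow_right (by omega) (Nat.mul_le_mul_left _ (Nat.pow_le_pow_left ?_ 4))))
        omega
    _ = (D + 1) * ((4 * v + 1) * 2 ^ ((2 * (v * v) + 2) ^ (C * (2 * (v * v) + 1) ^ 4))) := by ring
    _ ≤ (D + 1) * 2 ^ (2 ^ (C' * (v + 1) ^ C')) := Nat.mul_le_mul_left _ (hC' v)

end WK
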