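import Pool.Agent.WK.ShrinkLin50
import Pool.Agent.WK.SysLin50

/-!
# Word equations: short words for the blocks of one scale, explicit bound (helper50)
-/

set_option autoImplicit false

open WE45 WK64 WO45

namespace WK

universe u w

theorem shrink_lin : ∃ C : ℕ, ∀ (k β e : ℕ) {A : Type u} {X : Type w} [Fintype A] [DecidableEq A]
    [Fintype X] [DecidableEq X] (d : ℕ) (T : Finset (Option X × List A × Option X))
    (s p : X → List A) (b : Option X × List A × Option X → List (List A)),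
    Fintype.card X ≤ k →
    (∀ γ ∈ T, (b γ).flatten = ox s γ.1 ++ γ.2.1 ++ ox p γ.2.2) →
    (∀ γ ∈ T, (b γ).length ≤ β) →
    (T.filter (fun γ => (b γ).length ≠ 1)).card ≤ e →
    (∀ γ ∈ T, γ.2.1.length ≤ d) →
    ∃ (s' p' : X → List A) (φ : List A → List A),
      (∀ γ ∈ T, ((b γ).map φ).flatten = ox s' γ.1 ++ γ.2.1 ++ ox p' γ.2.2) ∧
      (∀ x, (s' x).length ≤ (d + 1) * 2 ^ (2 ^ (C * (k + β + e + 1) ^ C)) ∧
        (p' x).length ≤ (d + 1) * 2 ^ (2 ^ (C * (k + β + e + 1) ^ C))) ∧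
      ∀ B, (φ B).length ≤ (d + 1) * 2 ^ (2 ^ (C * (k + β + e + 1) ^ C)) := by
  obtain ⟨C, hC⟩ := shrink_lin_of.{u, w} few_systems_lin50.{u, w}
  refine ⟨C, ?_⟩
  intro k β e A X _ _ _ _ d T s p b h1 h2 h3 h4 h5
  exact hC k β e d T s p b h1 h2 h3 h4 h5

end WK
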