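import Pool.Agent.WK.MainR64
import Pool.Agent.WK.LadderB23
import Pool.Agent.WK.One37
import Pool.Agent.WK.FinArith23
import Pool.Agent.WK.ShrinkE50

/-! Word equations with boundedly many variables (MP_fc7ad9_lc). Helper module:
the main theorem in explicit form. -/

open WE45 WK64 WO45

namespace WK

universe u w

/-- one good scale leads to a contradiction, explicit form -/
theorem no_scaleD {A : Type u} {X : Type w} [Fintype A] [Fintype X] [DecidableEq A]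
    [DecidableEq X] {k v d N S Ψ : ℕ} (hk : 1 ≤ k) (hN : 2 ≤ N) (hd : 1 ≤ d) (hS : d ≤ S)
    (hΨ : 1 ≤ Ψ)
    (hshr : ∀ (d : ℕ) (T : Finset (Option X × List A × Option X)) (s p : X → List A)
      (b : Option X × List A × Option X → List (List A)), Fintype.card X ≤ k →
      (∀ γ ∈ T, (b γ).flatten = ox s γ.1 ++ γ.2.1 ++ ox p γ.2.2) →
      (∀ γ ∈ T, (b γ).length ≤ 5 * k) →
      (T.filter (fun γ => (b γ).length ≠ 1)).card ≤ 4 * k ^ 3 →
      (∀ γ ∈ T, γ.2.1.length ≤ d) →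
      ∃ (s' p' : X → List A) (φ : List A → List A),
        (∀ γ ∈ T, ((b γ).map φ).flatten = ox s' γ.1 ++ γ.2.1 ++ ox p' γ.2.2) ∧
        (∀ x, (s' x).length ≤ (d + 1) * Ψ ∧ (p' x).length ≤ (d + 1) * Ψ) ∧
        ∀ B, (φ B).length ≤ (d + 1) * Ψ)
    (hX : Fintype.card X ≤ k) (L R : List (A ⊕ X)) (hv : vN L + vN R ≤ v)
    (hL : SegLe d L) (hR : SegLe d R)
    (σ : X → List A) (hmin : MinSol L R σ) (hEB : ∀ x, EBdd N d (σ x)) {F : ℕ}
    (hF : 1800 * k * N ^ 3 * (v + 1) * Ψ * S ≤ F)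
    (hgood : ∀ x, (σ x).length ≤ S ∨ F ≤ (σ x).length)
    (hne : ∃ x, S < (σ x).length) : False := by
  classical
  obtain ⟨G, hG⟩ : ∃ G, G = (v + 1) * (S + d) := ⟨_, rfl⟩
  obtain ⟨M, hM⟩ : ∃ M, M = (G + 1) * Ψ := ⟨_, rfl⟩
  let lg : X → Prop := fun x => S < (σ x).length
  have hG1 : d ≤ G := by
    rw [hG]
    nlinarith
  have hgM : G + M ≤ 6 * (v + 1) * Ψ * S := by
    have h1 : G ≤ 2 * (v + 1) * S := by rw [hG]; nlinarith
    have h2 : G + M ≤ 3 * (G * Ψ) := by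
      rw [hM]
      have : G * 1 ≤ G * Ψ := Nat.mul_le_mul_left _ hΨ
      have : 1 * Ψ ≤ G * Ψ := Nat.mul_le_mul_right _ (by omega)
      nlinarith
    calc G + M ≤ 3 * (G * Ψ) := h2
      _ ≤ 3 * ((2 * (v + 1) * S) * Ψ) := Nat.mul_le_mul_left _ (Nat.mul_le_mul_right _ h1)
      _ = 6 * (v + 1) * Ψ * S := by ring
  obtain ⟨l, hl⟩ : ∃ l, l = 20 * k * N * ((2 * N + 1) * (G + M)) := ⟨_, rfl⟩
  have hlF : (N + 4) * l ≤ F := by
    refine le_trans ?_ hF
    have h1 : (N + 4) * (N * (2 * N + 1)) ≤ 15 * N ^ 3 := by nlinarith [Nat.zero_le (N ^ 2)]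
    calc (N + 4) * l = (N + 4) * (N * (2 * N + 1)) * (20 * k * (G + M)) := by rw [hl]; ring
      _ ≤ 15 * N ^ 3 * (20 * k * (6 * (v + 1) * Ψ * S)) :=
        Nat.mul_le_mul h1 (Nat.mul_le_mul_left _ hgM)
      _ = 1800 * k * N ^ 3 * (v + 1) * Ψ * S := by ring
  have hlong : ∀ x, lg x → (N + 4) * l ≤ (σ x).length := by
    intro x hx
    rcases hgood x with h | h
    · exact absurd h (not_le.2 hx)
    · exact hlF.trans h
  have hgap : ∀ γ ∈ Gp lg σ L R, γ.2.1.length ≤ G := by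
    intro γ hγ
    rw [hG]
    exact mem_Gp_seg hv hL hR (fun x hx => not_lt.1 hx) hγ
  obtain ⟨K, dK, pre, mid, hC, hlenb, hexc, _, _, htau⟩ := scaleD (d := G + M) (l := l) hk hN
    (by omega) (by omega : d ≤ G + M) hl hX L R σ hmin hEB lg
    (fun γ hγ => (hgap γ hγ).trans (by omega)) hlong
  obtain ⟨s', p', φ, h1, h2, h3⟩ := hshr G (Gp lg σ L R).toFinset (sfx K pre mid) pre
    (bl K σ pre mid) hX
    (fun γ hγ => hC.flatten_bl γ (mem_Gp_lg (List.mem_toFinset.1 hγ)).2)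
    (fun γ hγ => (hlenb γ (List.mem_toFinset.1 hγ)).2) hexc
    (fun γ hγ => hgap γ (List.mem_toFinset.1 hγ))
  rw [← hM] at h2 h3
  have hkey : 20 * k * (G + M) ≤ l := by
    have e1 : G + M ≤ N * ((2 * N + 1) * (G + M)) := by
      calc G + M = 1 * (1 * (G + M)) := by ring
        _ ≤ N * ((2 * N + 1) * (G + M)) :=
          Nat.mul_le_mul (by omega) (Nat.mul_le_mul_right _ (by omega))
    calc 20 * k * (G + M) ≤ 20 * k * (N * ((2 * N + 1) * (G + M))) :=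
          Nat.mul_le_mul_left _ e1
      _ = l := by rw [hl]; ring
  refine one_scale (M := M) L R hC hmin hk hne s' p' φ
    (fun γ hγ => h1 γ (List.mem_toFinset.2 hγ)) h2 h3 htau ?_ ?_ ?_
  · exact (Nat.mul_le_mul_left _ (by omega)).trans hkey
  · have : 1 * 1 ≤ 20 * k * (G + M) := Nat.mul_le_mul (by omega) (by omega)
    omega
  · intro x hx
    have := hlong x hx
    nlinarith

/-- minimal solutions of word equations, explicit in the number of variables, the number of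
variable occurrences and the length of the constant segments -/
theorem explicit_bound : ∃ C : ℕ, ∀ {A : Type u} {X : Type w} [Finite A] [Fintype X]
    (L R : List (A ⊕ X)) (v d : ℕ), vN L + vN R ≤ v → 1 ≤ d →
    SegLe d L → SegLe d R → (∃ σ : X → List A, sb σ L = sb σ R) →
    ∃ σ : X → List A, sb σ L = sb σ R ∧ ∑ x, (σ x).length ≤
      d * ((v + 2) ^ (C * (Fintype.card X + 1) ^ 2) *
        2 ^ (2 ^ (C * (Fintype.card X + 1) ^ C))) := by
  obtain ⟨C0, hexp⟩ := exp_boundD.{u, w}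
  obtain ⟨C1, hshr⟩ := shrink_lin.{u, w}
  obtain ⟨C, hC⟩ := final_arith (C0 + 1) C1
  refine ⟨C, ?_⟩
  intro A X _ _ L R v d hv hd hL hR hsol
  classical
  have := Fintype.ofFinite A
  by_cases hk0 : Fintype.card X = 0
  · obtain ⟨σ, hσ⟩ := hsol
    have : IsEmpty X := Fintype.card_eq_zero_iff.1 hk0
    exact ⟨σ, hσ, by simp⟩
  obtain ⟨k, hk⟩ : ∃ k, k = Fintype.card X := ⟨_, rfl⟩
  rw [← hk]
  rw [← hk] at hk0
  have hk1 : 1 ≤ k := Nat.one_le_iff_ne_zero.2 hk0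
  have hX : Fintype.card X ≤ k := hk.ge
  obtain ⟨σ, hmin⟩ := exists_minSol hsol
  refine ⟨σ, hmin.1, ?_⟩
  obtain ⟨N, hN⟩ : ∃ N, N = (v + 2) ^ ((C0 + 1) * (k + 1)) := ⟨_, rfl⟩
  obtain ⟨Ψ, hΨ⟩ : ∃ Ψ, Ψ = 2 ^ (2 ^ (C1 * (k + 5 * k + 4 * k ^ 3 + 1) ^ C1)) := ⟨_, rfl⟩
  have hN2 : 2 ≤ N := by
    rw [hN]
    calc 2 ≤ v + 2 := by omega
      _ = (v + 2) ^ 1 := (pow_one _).symm
      _ ≤ _ := Nat.pow_le_pow_right (by omega) (Nat.mul_pos (by omega) (by omega))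
  have hEB : ∀ x, EBdd N d (σ x) := by
    intro x
    refine EBdd.mono ?_ (hexp k v d L R hX hv hd hL hR σ hmin x)
    rw [hN]
    exact Nat.pow_le_pow_right (by omega) (Nat.mul_le_mul_right _ (Nat.le_succ C0))
  have hΨ1 : 1 ≤ Ψ := by rw [hΨ]; exact Nat.one_le_two_pow
  obtain ⟨B, hB⟩ : ∃ B, B = 1800 * k * N ^ 3 * (v + 1) * Ψ := ⟨_, rfl⟩
  have hB1 : 1 ≤ B := by
    rw [hB]
    have h1 : 1 ≤ N ^ 3 := Nat.one_le_pow _ _ (by omega)
    have h2 : 1 * 1 ≤ 1800 * k * N ^ 3 := Nat.mul_le_mul (by omega) h1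
    have h3 : 1 * 1 ≤ 1800 * k * N ^ 3 * (v + 1) := Nat.mul_le_mul (by omega) (by omega)
    have h4 : 1 * 1 ≤ 1800 * k * N ^ 3 * (v + 1) * Ψ := Nat.mul_le_mul (by omega) hΨ1
    omega
  have hsum : ∑ x, (σ x).length ≤ k * (fun S => B * S)^[k] d := by
    refine ladder_base_sum hX (fun S => B * S) (fun S => Nat.le_mul_of_pos_left _ hB1) d
      (fun x => (σ x).length) ?_
    intro S hS hgood hne
    refine no_scaleD (k := k) (v := v) (d := d) (N := N) (S := S) (Ψ := Ψ) hk1 hN2 hd hS hΨ1 ?_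
      hX L R hv hL hR σ hmin hEB (F := B * S) (by rw [hB]) hgood hne
    intro d T s p b h1 h2 h3 h4 h5
    rw [hΨ]
    exact hshr k (5 * k) (4 * k ^ 3) d T s p b h1 h2 h3 h4 h5
  have hit : ∀ i : ℕ, (fun S => B * S)^[i] d = B ^ i * d := by
    intro i
    induction i with
    | zero => simp
    | succ i ih => rw [Function.iterate_succ_apply', ih, pow_succ]; ring
  rw [hit k] at hsum
  calc ∑ x, (σ x).length ≤ k * (B ^ k * d) := hsum
    _ = d * (k * B ^ k) := by ring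
    _ ≤ _ := Nat.mul_le_mul_left _ (by
      rw [hB, hN, hΨ]
      exact hC k v hk1)

end WK
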