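import Pool.Agent.WK.Code50
import Pool.Agent.WK.Sys3
import Pool.Agent.WK64.Parse

/-!
# Word equations with a fixed number of variables: short words for the blocks of one scale
(helper50)
-/

set_option autoImplicit false

open WE45 WK64 Pool.Agent.WK

namespace WK

universe u w

/-- A small subset with the same span. -/
theorem basis50 {κ : Type*} [Fintype κ] (D0 : Set (κ → ℚ)) :
    ∃ D1 : Finset (κ → ℚ), (∀ d ∈ D1, d ∈ D0) ∧ D1.card ≤ Fintype.card κ ∧
      ∀ d ∈ D0, d ∈ Submodule.span ℚ (D1 : Set (κ → ℚ)) := by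
  classical
  obtain ⟨b, hb1, hb2, hb3⟩ := exists_linearIndependent ℚ D0
  have hfin : b.Finite := hb3.setFinite
  refine ⟨hfin.toFinset, ?_, ?_, ?_⟩
  · intro d hd
    exact hb1 (hfin.mem_toFinset.1 hd)
  · have : Fintype b := hfin.fintype
    have h1 := hb3.fintype_card_le_finrank
    rw [Module.finrank_fintype_fun_eq_card] at h1
    rw [hfin.card_toFinset]
    exact h1
  · intro d hd
    rw [hfin.coe_toFinset, hb2]
    exact Submodule.subset_span hd

section Forms

variable {A : Type u} {X : Type w} (e β : ℕ)

/-- Unknown words: suffixes, prefixes, listed blocks. -/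
abbrev Un50 (X : Type w) (e β : ℕ) : Type w := X ⊕ X ⊕ (Fin e × Fin β)

/-- Suffix symbol. -/
def sv50 : Option X → List (A ⊕ Un50 X e β)
  | none => []
  | some x => [Sum.inr (Sum.inl x)]

/-- Prefix symbol. -/
def pv50 : Option X → List (A ⊕ Un50 X e β)
  | none => []
  | some x => [Sum.inr (Sum.inr (Sum.inl x))]

/-- Form of a gap. -/
def gp50 (γ : Option X × List A × Option X) : List (A ⊕ Un50 X e β) :=
  sv50 e β γ.1 ++ γ.2.1.map Sum.inl ++ pv50 e β γ.2.2

open Classical in
/-- Form of block `a` of the gap `γ`. -/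
noncomputable def fm50 (ex : Fin e → Option X × List A × Option X)
    (γ : Option X × List A × Option X) (a : ℕ) : List (A ⊕ Un50 X e β) :=
  if h : ∃ c, ex c = γ then
    (if ha : a < β then [Sum.inr (Sum.inr (Sum.inr (h.choose, ⟨a, ha⟩)))] else [])
  else gp50 e β γ

/-- Suffix words of an assignment. -/
def rs50 (ρ : Un50 X e β → List A) : X → List A := fun x => ρ (Sum.inl x)
/-- Prefix words of an assignment. -/
def rp50 (ρ : Un50 X e β → List A) : X → List A := fun x => ρ (Sum.inr (Sum.inl x))
/-- Listed blocks of an assignment. -/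
def rw50 (ρ : Un50 X e β → List A) : Fin e → List (List A) :=
  fun c => List.ofFn (fun a : Fin β => ρ (Sum.inr (Sum.inr (c, a))))

theorem sb_app50 {Y : Type*} (ρ : Y → List A) (l m : List (A ⊕ Y)) :
    sb ρ (l ++ m) = sb ρ l ++ sb ρ m := by
  simp [sb]

theorem sb_map50 {Y : Type*} (ρ : Y → List A) (G : List A) :
    sb ρ (G.map Sum.inl) = G := by
  induction G with
  | nil => rfl
  | cons a G ih => simpa [sb] using ih

theorem sb_gp50 (ρ : Un50 X e β → List A) (γ : Option X × List A × Option X) :
    sb ρ (gp50 e β γ) = ox (rs50 e β ρ) γ.1 ++ γ.2.1 ++ ox (rp50 e β ρ) γ.2.2 := by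
  obtain ⟨o, G, o'⟩ := γ
  unfold gp50
  rw [sb_app50, sb_app50, sb_map50]
  congr 1
  · congr 1
    cases o <;> simp [sv50, sb, ox, rs50]
  · cases o' <;> simp [pv50, sb, ox, rp50]

theorem val_fm50 [Fintype X] (en : A → ℕ) (q : ℕ) (ex : Fin e → Option X × List A × Option X)
    (ρ : Un50 X e β → List A) (γ : Option X × List A × Option X) (a : ℕ)
    (ha : (∃ c, ex c = γ) → a < β) :
    cf50 en q e β ex γ a ⬝ᵥ vec50 en q e β (ox (rs50 e β ρ)) (ox (rp50 e β ρ)) (rw50 e β ρ) =
      (val50 en q (sb ρ (fm50 e β ex γ a)) : ℚ) := by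
  unfold cf50 fm50
  by_cases h : ∃ c, ex c = γ
  · rw [dif_pos h, dif_pos (ha h), dif_pos h, dif_pos (ha h), dot_cU50]
    congr 2
    have h1 : a < (rw50 e β ρ h.choose).length := by
      simp [rw50, ha h]
    rw [List.getD_eq_getElem _ _ h1]
    simp [rw50, sb]
  · rw [dif_neg h, dif_neg h, dot_cN50, sb_gp50]

theorem len_gp50 (γ : Option X × List A × Option X) :
    (gp50 e β γ).length ≤ γ.2.1.length + 2 := by
  obtain ⟨o, G, o'⟩ := γ
  unfold gp50
  rw [List.length_append, List.length_append, List.length_map]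
  have h1 : (sv50 e β o : List (A ⊕ Un50 X e β)).length ≤ 1 := by cases o <;> simp [sv50]
  have h2 : (pv50 e β o' : List (A ⊕ Un50 X e β)).length ≤ 1 := by cases o' <;> simp [pv50]
  dsimp only at h1 h2 ⊢
  omega

theorem cnt_gp50 (γ : Option X × List A × Option X) :
    (gp50 e β γ).countP Sum.isRight ≤ 2 := by
  obtain ⟨o, G, o'⟩ := γ
  unfold gp50
  rw [List.countP_append, List.countP_append]
  have h0 : (G.map (Sum.inl : A → A ⊕ Un50 X e β)).countP Sum.isRight = 0 := by
    rw [List.countP_eq_zero]
    intro a ha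
    obtain ⟨b, _, rfl⟩ := List.mem_map.1 ha
    simp
  have h1 : (sv50 e β o : List (A ⊕ Un50 X e β)).countP Sum.isRight ≤ 1 := by
    cases o <;> simp [sv50]
  have h2 : (pv50 e β o' : List (A ⊕ Un50 X e β)).countP Sum.isRight ≤ 1 := by
    cases o' <;> simp [pv50]
  dsimp only at h0 h1 h2 ⊢
  omega

theorem len_fm50 (ex : Fin e → Option X × List A × Option X)
    (γ : Option X × List A × Option X) (a : ℕ) :
    (fm50 e β ex γ a).length ≤ γ.2.1.length + 2 := by
  unfold fm50
  split_ifs
  · simp
  · simp
  · exact len_gp50 e β γ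

theorem cnt_fm50 (ex : Fin e → Option X × List A × Option X)
    (γ : Option X × List A × Option X) (a : ℕ) :
    (fm50 e β ex γ a).countP Sum.isRight ≤ 2 := by
  unfold fm50
  split_ifs
  · simp
  · simp
  · exact cnt_gp50 e β γ

end Forms

/-- Number of equations and unknowns. -/
def v50 (k β e : ℕ) : ℕ := e + (3 * (k + 1) ^ 2 + e * β) + β + 4

/-- Any bound `M` for the systems with at most `v50 k β e` equations, each with at most
`v50 k β e` occurrences of variables and of size at most `2 * d + β + 4`, is a bound for the words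
of one scale. -/
theorem shrink_core {A : Type u} {X : Type w} [Fintype A] [Fintype X] (k β e d M : ℕ)
    (hC : ∀ (E : List (List (A ⊕ Un50 X e β) × List (A ⊕ Un50 X e β))),
      E.length ≤ v50 k β e → (∀ t ∈ E, (t.1 ++ t.2).countP Sum.isRight ≤ v50 k β e) →
      (∀ t ∈ E, t.1.length + t.2.length ≤ 2 * d + β + 4) →
      (∃ σ : Un50 X e β → List A, ∀ t ∈ E, sb σ t.1 = sb σ t.2) →
      ∃ σ : Un50 X e β → List A, (∀ t ∈ E, sb σ t.1 = sb σ t.2) ∧
        ∑ x, (σ x).length ≤ M)
    (T : Finset (Option X × List A × Option X)) (s p : X → List A)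
    (b : Option X × List A × Option X → List (List A)) (hX : Fintype.card X ≤ k)
    (hfl : ∀ γ ∈ T, (b γ).flatten = ox s γ.1 ++ γ.2.1 ++ ox p γ.2.2)
    (hβ : ∀ γ ∈ T, (b γ).length ≤ β)
    (he : (T.filter (fun γ => (b γ).length ≠ 1)).card ≤ e)
    (hd : ∀ γ ∈ T, γ.2.1.length ≤ d) :
    ∃ (s' p' : X → List A) (φ : List A → List A),
      (∀ γ ∈ T, ((b γ).map φ).flatten = ox s' γ.1 ++ γ.2.1 ++ ox p' γ.2.2) ∧
      (∀ x, (s' x).length ≤ M ∧ (p' x).length ≤ M) ∧
      ∀ B, (φ B).length ≤ 2 * M + d := by
  classical
  rcases T.eq_empty_or_nonempty with hTT | hTT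
  · subst hTT
    exact ⟨fun _ => [], fun _ => [], fun _ => [], by simp, by simp, by simp⟩
  · obtain ⟨ex, hex1, hex2⟩ := enum50 _ T (Finset.filter_subset _ _) hTT e he
    -- coding of letters
    obtain ⟨en, hen1, hen2, hen3⟩ : ∃ en : A → ℕ, Function.Injective en ∧ (∀ a, 1 ≤ en a) ∧
        ∀ a, en a < Fintype.card A + 2 := by
      refine ⟨fun a => (Fintype.equivFin A a).1 + 1, ?_, ?_, ?_⟩
      · intro x y hxy
        have h1 : (Fintype.equivFin A x).1 = (Fintype.equivFin A y).1 := by
          simpa using hxy
        exact (Fintype.equivFin A).injective (Fin.ext h1)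
      · intro a
        dsimp only
        omega
      · intro a
        have := (Fintype.equivFin A a).2
        dsimp only
        omega
    have hq : 1 < Fintype.card A + 2 := by omega
    set q := Fintype.card A + 2 with hqdef
    have vinj : ∀ {u w : List A}, val50 en q u = val50 en q w → u = w :=
      fun h => val50_inj en q hq hen1 hen2 hen3 h
    have h1 : ∀ γ ∈ T, (¬ ∃ c, ex c = γ) → (b γ).length = 1 := by
      intro γ hγ hn
      by_contra hne
      exact hn (hex2 γ (Finset.mem_filter.2 ⟨hγ, hne⟩))
    -- the pairs of equal blocks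
    let Van : (Kp50 (Option X) e β → ℚ) → List (A ⊕ Un50 X e β) × List (A ⊕ Un50 X e β) → Prop :=
      fun d t => ∃ γ ∈ T, ∃ γ' ∈ T, ∃ a a' : ℕ, a < (b γ).length ∧ a' < (b γ').length ∧
        (b γ).getD a [] = (b γ').getD a' [] ∧
        d = cf50 en q e β ex γ a - cf50 en q e β ex γ' a' ∧
        t = (fm50 e β ex γ a, fm50 e β ex γ' a')
    obtain ⟨D1, hD1, hD2, hD3⟩ := basis50 {d : Kp50 (Option X) e β → ℚ | ∃ t, Van d t}
    have hpick : ∀ d : Kp50 (Option X) e β → ℚ,
        ∃ t : List (A ⊕ Un50 X e β) × List (A ⊕ Un50 X e β), d ∈ D1 → Van d t := by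
      intro d
      by_cases h : d ∈ D1
      · obtain ⟨t, ht⟩ := hD1 d h
        exact ⟨t, fun _ => ht⟩
      · exact ⟨([], []), fun h' => absurd h' h⟩
    choose tt htt using hpick
    let E1 : List (List (A ⊕ Un50 X e β) × List (A ⊕ Un50 X e β)) :=
      (List.finRange e).map (fun c =>
        (((List.range (b (ex c)).length).map (fun a => fm50 e β ex (ex c) a)).flatten,
          gp50 e β (ex c)))
    let E2 : List (List (A ⊕ Un50 X e β) × List (A ⊕ Un50 X e β)) := D1.toList.map tt
    -- values of the forms
    have hva : ∀ (ρ : Un50 X e β → List A) (γ : Option X × List A × Option X), γ ∈ T →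
        ∀ a, a < (b γ).length →
        cf50 en q e β ex γ a ⬝ᵥ vec50 en q e β (ox (rs50 e β ρ)) (ox (rp50 e β ρ))
          (rw50 e β ρ) = (val50 en q (sb ρ (fm50 e β ex γ a)) : ℚ) :=
      fun ρ γ hγ a ha => val_fm50 e β en q ex ρ γ a (fun _ => lt_of_lt_of_le ha (hβ γ hγ))
    -- the actual blocks
    let ρ0 : Un50 X e β → List A := fun z => match z with
      | Sum.inl x => s x
      | Sum.inr (Sum.inl x) => p x
      | Sum.inr (Sum.inr c) => (b (ex c.1)).getD c.2.1 []
    have hρ0 : ∀ γ ∈ T, ∀ a, a < (b γ).length →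
        sb ρ0 (fm50 e β ex γ a) = (b γ).getD a [] := by
      intro γ hγ a ha
      unfold fm50
      by_cases h : ∃ c, ex c = γ
      · rw [dif_pos h, dif_pos (lt_of_lt_of_le ha (hβ γ hγ))]
        have h2 : ex h.choose = γ := h.choose_spec
        simp only [sb, List.flatMap_cons, List.flatMap_nil, Sum.elim_inr, List.append_nil, ρ0]
        rw [h2]
      · rw [dif_neg h, sb_gp50]
        have h2 := h1 γ hγ h
        obtain ⟨B, hB⟩ := List.length_eq_one_iff.1 h2
        have h3 := hfl γ hγ
        have h4 : a = 0 := by omega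
        rw [hB] at h3 ⊢
        have h5 : ox (rs50 e β ρ0) γ.1 ++ γ.2.1 ++ ox (rp50 e β ρ0) γ.2.2 =
            ox s γ.1 ++ γ.2.1 ++ ox p γ.2.2 := rfl
        rw [h5, ← h3, h4]
        simp
    have hlist : ∀ (ρ : Un50 X e β → List A) (γ : Option X × List A × Option X) (m : ℕ),
        sb ρ ((List.range m).map (fun a => fm50 e β ex γ a)).flatten =
          ((List.range m).map (fun a => sb ρ (fm50 e β ex γ a))).flatten := by
      intro ρ γ m
      induction m with
      | zero => rfl
      | succ m ih =>
        rw [List.range_succ, List.map_append, List.map_append, List.flatten_append,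
          List.flatten_append, sb_app50, ih]
        simp
    have hrange : ∀ l : List (List A), (List.range l.length).map (fun a => l.getD a []) = l := by
      intro l
      apply List.ext_getElem
      · simp
      · intro i h2 h3
        rw [List.getElem_map, List.getElem_range, List.getD_eq_getElem _ _ h3]
    have hgd : ∀ γ ∈ T, γ.2.1.length ≤ d := hd
    -- apply the theorem on systems
    obtain ⟨ρ, hρ1, hρ2⟩ := hC (E1 ++ E2) (by
        rw [List.length_append, List.length_map, List.length_map, List.length_finRange,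
          Finset.length_toList]
        have h2 : Fintype.card (Kp50 (Option X) e β) = 3 * (Fintype.card X + 1) ^ 2 + e * β := by
          simp only [Kp50, Fintype.card_sum, Fintype.card_prod, Fintype.card_fin,
            Fintype.card_option]
          ring
        rw [h2] at hD2
        have h3 : (Fintype.card X + 1) ^ 2 ≤ (k + 1) ^ 2 := Nat.pow_le_pow_left (by omega) 2
        unfold v50
        omega)
      (by
        intro t ht
        rw [List.countP_append]
        rcases List.mem_append.1 ht with h2 | h2
        · obtain ⟨c, _, rfl⟩ := List.mem_map.1 h2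
          have h3 : (((List.range (b (ex c)).length).map
              (fun a => fm50 e β ex (ex c) a)).flatten).countP Sum.isRight ≤ β := by
            rw [List.countP_flatten]
            have h4 : ((List.map (fun a => fm50 e β ex (ex c) a)
                (List.range (b (ex c)).length)).map (List.countP Sum.isRight)).sum ≤
                (List.range (b (ex c)).length).length := by
              rw [List.map_map]
              refine (List.sum_le_card_nsmul _ 1 ?_).trans ?_
              · intro z hz
                obtain ⟨a, _, rfl⟩ := List.mem_map.1 hz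
                have h5 : ∃ c', ex c' = ex c := ⟨c, rfl⟩
                simp only [Function.comp]
                unfold fm50
                rw [dif_pos h5]
                split_ifs <;> simp
              · simp
            rw [List.length_range] at h4
            exact h4.trans (hβ _ (hex1 c))
          have h4 := cnt_gp50 e β (ex c)
          dsimp only
          unfold v50
          omega
        · obtain ⟨dd, hdd, rfl⟩ := List.mem_map.1 h2
          obtain ⟨γ, _, γ', _, a, a', _, _, _, _, h3⟩ := htt dd (Finset.mem_toList.1 hdd)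
          rw [h3]
          have h4 := cnt_fm50 e β ex γ a
          have h5 := cnt_fm50 e β ex γ' a'
          dsimp only
          unfold v50
          omega)
      (by
        intro t ht
        rcases List.mem_append.1 ht with h2 | h2
        · obtain ⟨c, _, rfl⟩ := List.mem_map.1 h2
          have h3 : (((List.range (b (ex c)).length).map
              (fun a => fm50 e β ex (ex c) a)).flatten).length ≤ β := by
            rw [List.length_flatten, List.map_map]
            refine (List.sum_le_card_nsmul _ 1 ?_).trans ?_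
            · intro z hz
              obtain ⟨a, _, rfl⟩ := List.mem_map.1 hz
              have h5 : ∃ c', ex c' = ex c := ⟨c, rfl⟩
              simp only [Function.comp]
              unfold fm50
              rw [dif_pos h5]
              split_ifs <;> simp
            · simpa using hβ _ (hex1 c)
          have h4 := len_gp50 e β (ex c)
          have h5 := hd _ (hex1 c)
          dsimp only
          omega
        · obtain ⟨dd, hdd, rfl⟩ := List.mem_map.1 h2
          obtain ⟨γ, hγ, γ', hγ', a, a', _, _, _, _, h3⟩ := htt dd (Finset.mem_toList.1 hdd)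
          rw [h3]
          have h4 := len_fm50 e β ex γ a
          have h5 := len_fm50 e β ex γ' a'
          have h6 := hd _ hγ
          have h7 := hd _ hγ'
          dsimp only
          omega)
      ⟨ρ0, by
        intro t ht
        rcases List.mem_append.1 ht with h2 | h2
        · obtain ⟨c, _, rfl⟩ := List.mem_map.1 h2
          dsimp only
          rw [hlist, sb_gp50]
          have h3 : (List.range (b (ex c)).length).map (fun a => sb ρ0 (fm50 e β ex (ex c) a)) =
              (List.range (b (ex c)).length).map (fun a => (b (ex c)).getD a []) := by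
            refine List.map_congr_left ?_
            intro a ha
            exact hρ0 _ (hex1 c) a (List.mem_range.1 ha)
          rw [h3, hrange, hfl _ (hex1 c)]
          rfl
        · obtain ⟨dd, hdd, rfl⟩ := List.mem_map.1 h2
          obtain ⟨γ, hγ, γ', hγ', a, a', ha, ha', heq, _, h3⟩ :=
            htt dd (Finset.mem_toList.1 hdd)
          rw [h3]
          dsimp only
          rw [hρ0 γ hγ a ha, hρ0 γ' hγ' a' ha', heq]⟩
    have hlen : ∀ z, (ρ z).length ≤ M := by
      intro z
      refine le_trans ?_ hρ2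
      exact Finset.single_le_sum (f := fun z => (ρ z).length) (fun _ _ => Nat.zero_le _)
        (Finset.mem_univ z)
    -- all equalities of blocks hold for the new words
    have hall : ∀ γ ∈ T, ∀ γ' ∈ T, ∀ a a', a < (b γ).length → a' < (b γ').length →
        (b γ).getD a [] = (b γ').getD a' [] →
        sb ρ (fm50 e β ex γ a) = sb ρ (fm50 e β ex γ' a') := by
      intro γ hγ γ' hγ' a a' ha ha' heq
      apply vinj
      have h2 := hD3 (cf50 en q e β ex γ a - cf50 en q e β ex γ' a')
        ⟨_, γ, hγ, γ', hγ', a, a', ha, ha', heq, rfl, rfl⟩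
      have h3 : ∀ z ∈ Submodule.span ℚ (D1 : Set (Kp50 (Option X) e β → ℚ)),
          z ⬝ᵥ vec50 en q e β (ox (rs50 e β ρ)) (ox (rp50 e β ρ)) (rw50 e β ρ) = 0 := by
        intro z hz
        refine Submodule.span_induction ?_ ?_ ?_ ?_ hz
        · intro x hx
          obtain ⟨γ1, hγ1, γ2, hγ2, a1, a2, ha1, ha2, _, h4, h5⟩ := htt x hx
          have h6 := hρ1 (tt x) (List.mem_append_right _
            (List.mem_map_of_mem (Finset.mem_toList.2 hx)))
          rw [h5] at h6
          dsimp only at h6
          rw [h4, sub_dotProduct, hva ρ γ1 hγ1 a1 ha1, hva ρ γ2 hγ2 a2 ha2, h6, sub_self]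
        · exact zero_dotProduct _
        · intro x y _ _ hx hy
          rw [add_dotProduct, hx, hy, add_zero]
        · intro c x _ hx
          rw [smul_dotProduct, hx, smul_zero]
      have h4 := h3 _ h2
      rw [sub_dotProduct, hva ρ γ hγ a ha, hva ρ γ' hγ' a' ha', sub_eq_zero, Nat.cast_inj] at h4
      exact h4
    let φ : List A → List A := fun B =>
      if hB : ∃ γ, γ ∈ T ∧ ∃ a, a < (b γ).length ∧ (b γ).getD a [] = B then
        sb ρ (fm50 e β ex hB.choose hB.choose_spec.2.choose) else []
    have hφ : ∀ γ ∈ T, ∀ a, a < (b γ).length → φ ((b γ).getD a []) =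
        sb ρ (fm50 e β ex γ a) := by
      intro γ hγ a ha
      have hB : ∃ γ', γ' ∈ T ∧ ∃ a', a' < (b γ').length ∧ (b γ').getD a' [] = (b γ).getD a [] :=
        ⟨γ, hγ, a, ha, rfl⟩
      have h2 : φ ((b γ).getD a []) =
          sb ρ (fm50 e β ex hB.choose hB.choose_spec.2.choose) := dif_pos hB
      rw [h2]
      exact hall _ hB.choose_spec.1 γ hγ _ a hB.choose_spec.2.choose_spec.1 ha
        hB.choose_spec.2.choose_spec.2
    refine ⟨rs50 e β ρ, rp50 e β ρ, φ, ?_, ?_, ?_⟩
    · intro γ hγ
      have h2 : (b γ).map φ = (List.range (b γ).length).map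
          (fun a => sb ρ (fm50 e β ex γ a)) := by
        conv_lhs => rw [← hrange (b γ)]
        rw [List.map_map]
        refine List.map_congr_left ?_
        intro a ha
        exact hφ γ hγ a (List.mem_range.1 ha)
      rw [h2]
      by_cases h : ∃ c, ex c = γ
      · obtain ⟨c, hc⟩ := h
        have h3 := hρ1 (((List.range (b (ex c)).length).map
            (fun a => fm50 e β ex (ex c) a)).flatten, gp50 e β (ex c))
          (List.mem_append_left _ (List.mem_map.2 ⟨c, List.mem_finRange c, rfl⟩))
        dsimp only at h3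
        rw [hlist, sb_gp50, hc] at h3
        exact h3
      · rw [h1 γ hγ h]
        have h3 : fm50 e β ex γ 0 = gp50 e β γ := by
          unfold fm50
          rw [dif_neg h]
        simp only [List.range_one, List.map_cons, List.map_nil, List.flatten_cons,
          List.flatten_nil, List.append_nil]
        rw [h3, sb_gp50]
    · intro x
      exact ⟨hlen _, hlen _⟩
    · intro B
      by_cases hB : ∃ γ, γ ∈ T ∧ ∃ a, a < (b γ).length ∧ (b γ).getD a [] = B
      · obtain ⟨γ, hγ, a, ha, rfl⟩ := hB
        rw [hφ γ hγ a ha]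
        unfold fm50
        by_cases h : ∃ c, ex c = γ
        · rw [dif_pos h, dif_pos (lt_of_lt_of_le ha (hβ γ hγ))]
          simp only [sb, List.flatMap_cons, List.flatMap_nil, Sum.elim_inr, List.append_nil]
          have := hlen (Sum.inr (Sum.inr (h.choose, ⟨a, lt_of_lt_of_le ha (hβ γ hγ)⟩)))
          omega
        · rw [dif_neg h, sb_gp50, List.length_append, List.length_append]
          have h3 : (ox (rs50 e β ρ) γ.1).length ≤ M := by
            rcases γ.1 with _ | x
            · simp [ox]
            · exact hlen _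
          have h4 : (ox (rp50 e β ρ) γ.2.2).length ≤ M := by
            rcases γ.2.2 with _ | x
            · simp [ox]
            · exact hlen _
          have h5 := hd γ hγ
          omega
      · have h2 : φ B = [] := dif_neg hB
        rw [h2]
        simp

/-- **Short words for the blocks of one scale.** -/
theorem shrink (k β e : ℕ) : ∃ C : ℕ, ∀ {A : Type u} {X : Type w} [Fintype A] [DecidableEq A]
    [Fintype X] [DecidableEq X] (d : ℕ) (T : Finset (Option X × List A × Option X))
    (s p : X → List A) (b : Option X × List A × Option X → List (List A)),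
    Fintype.card X ≤ k →
    (∀ γ ∈ T, (b γ).flatten = ox s γ.1 ++ γ.2.1 ++ ox p γ.2.2) →
    (∀ γ ∈ T, (b γ).length ≤ β) →
    (T.filter (fun γ => (b γ).length ≠ 1)).card ≤ e →
    (∀ γ ∈ T, γ.2.1.length ≤ d) →
    ∃ (s' p' : X → List A) (φ : List A → List A),
      (∀ γ ∈ T, ((b γ).map φ).flatten = ox s' γ.1 ++ γ.2.1 ++ ox p' γ.2.2) ∧
      (∀ x, (s' x).length ≤ C * (d + 1) ^ C ∧ (p' x).length ≤ C * (d + 1) ^ C) ∧
      ∀ B, (φ B).length ≤ C * (d + 1) ^ C := by
  obtain ⟨C, hC⟩ := few_systems.{u, w} (v50 k β e)
  refine ⟨2 * (C * (β + 5) ^ C) + C + 2, ?_⟩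
  intro A X _ _ _ _ d T s p b hX hfl hβ he hd
  obtain ⟨s', p', φ, h1, h2, h3⟩ := shrink_core k β e d (C * (2 * d + β + 4 + 1) ^ C)
    (fun E a1 a2 a3 a4 => hC E (2 * d + β + 4) a1 a2 a3 a4) T s p b hX hfl hβ he hd
  have key : 2 * (C * (2 * d + β + 4 + 1) ^ C) + d ≤
      (2 * (C * (β + 5) ^ C) + C + 2) * (d + 1) ^ (2 * (C * (β + 5) ^ C) + C + 2) := by
    have a1 : (2 * d + β + 4 + 1) ^ C ≤ (β + 5) ^ C * (d + 1) ^ C := by
      rw [← mul_pow]
      exact Nat.pow_le_pow_left (by nlinarith) C
    have a2 : (d + 1) ^ C ≤ (d + 1) ^ (2 * (C * (β + 5) ^ C) + C + 2) :=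
      Nat.pow_le_pow_right (by omega) (by omega)
    have a3 : d ≤ (d + 1) ^ (2 * (C * (β + 5) ^ C) + C + 2) := by
      calc d ≤ (d + 1) ^ 1 := by rw [pow_one]; omega
        _ ≤ _ := Nat.pow_le_pow_right (by omega) (by omega)
    calc 2 * (C * (2 * d + β + 4 + 1) ^ C) + d
        ≤ 2 * (C * ((β + 5) ^ C * (d + 1) ^ C)) + d := by gcongr
      _ = 2 * (C * (β + 5) ^ C) * (d + 1) ^ C + d := by ring
      _ ≤ 2 * (C * (β + 5) ^ C) * (d + 1) ^ (2 * (C * (β + 5) ^ C) + C + 2) +
          1 * (d + 1) ^ (2 * (C * (β + 5) ^ C) + C + 2) := by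
            rw [one_mul]
            exact Nat.add_le_add (Nat.mul_le_mul_left _ a2) a3
      _ = (2 * (C * (β + 5) ^ C) + 1) * (d + 1) ^ (2 * (C * (β + 5) ^ C) + C + 2) := by ring
      _ ≤ _ := Nat.mul_le_mul_right _ (by omega)
  refine ⟨s', p', φ, h1, ?_, ?_⟩
  · intro x
    obtain ⟨h4, h5⟩ := h2 x
    constructor <;> omega
  · intro B
    exact (h3 B).trans key

end WK
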