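import Pool.Agent.WK.Main64
import Pool.Agent.WK.ExpP8
import Pool.Agent.WK.Shrink50
import Pool.Agent.WK.One37
import Pool.Agent.WK.Ladder23

/-! Word equations with boundedly many variables (MP_fc7ad9_lc). Helper module:
polynomial length of minimal solutions. -/

open WE45 WK64

namespace WK

universe u w

/-- one good scale leads to a contradiction -/
theorem no_scale {A : Type u} {X : Type w} [Fintype A] [Fintype X] [DecidableEq A]
    [DecidableEq X] {k n N S C : ℕ} (hk : 1 ≤ k) (hn : 1 ≤ n) (hN : 2 ≤ N) (hS : 1 ≤ S)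
    (hshr : ∀ (d : ℕ) (T : Finset (Option X × List A × Option X)) (s p : X → List A)
      (b : Option X × List A × Option X → List (List A)), Fintype.card X ≤ k →
      (∀ γ ∈ T, (b γ).flatten = ox s γ.1 ++ γ.2.1 ++ ox p γ.2.2) →
      (∀ γ ∈ T, (b γ).length ≤ 5 * k) →
      (T.filter (fun γ => (b γ).length ≠ 1)).card ≤ 4 * k ^ 3 →
      (∀ γ ∈ T, γ.2.1.length ≤ d) →
      ∃ (s' p' : X → List A) (φ : List A → List A),
        (∀ γ ∈ T, ((b γ).map φ).flatten = ox s' γ.1 ++ γ.2.1 ++ ox p' γ.2.2) ∧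
        (∀ x, (s' x).length ≤ C * (d + 1) ^ C ∧ (p' x).length ≤ C * (d + 1) ^ C) ∧
        ∀ B, (φ B).length ≤ C * (d + 1) ^ C)
    (hX : Fintype.card X ≤ k) (L R : List (A ⊕ X)) (hlen : L.length + R.length ≤ n)
    (σ : X → List A) (hmin : MinSol L R σ) (hEB : ∀ x, EBd N (σ x)) {F : ℕ}
    (hF : (N + 4) * (20 * k * N * ((2 * N + 1) * (n * (S + C * (n * S + 1) ^ C)))) ≤ F)
    (hgood : ∀ x, (σ x).length ≤ S ∨ F ≤ (σ x).length)
    (hne : ∃ x, S < (σ x).length) : False := by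
  classical
  set M := C * (n * S + 1) ^ C with hM
  let lg : X → Prop := fun x => S < (σ x).length
  obtain ⟨l, hl⟩ : ∃ l, l = 20 * k * N * ((2 * N + 1) * (n * (S + M))) := ⟨_, rfl⟩
  rw [← hl] at hF
  have hlong : ∀ x, lg x → (N + 4) * l ≤ (σ x).length := by
    intro x hx
    rcases hgood x with h | h
    · exact absurd h (not_le.2 hx)
    · exact hF.trans h
  obtain ⟨K, dK, pre, mid, hC, hlenb, hexc, _, _, htau⟩ := scale (S := S + M) (l := l) hk hn hN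
    (by omega) hl hX L R hlen σ hmin hEB lg (fun x hx => (not_lt.1 hx).trans (by omega)) hlong
  have hGp : ∀ γ ∈ Gp lg σ L R, γ.2.1.length ≤ n * S ∧ ∀ y, γ.2.2 = some y → lg y := by
    intro γ hγ
    have h := mem_Gp_bd (n := n) (S := S) hS hlen (fun x hx => not_lt.1 hx) hγ
    exact ⟨h.2.1, h.2.2⟩
  obtain ⟨s', p', φ, h1, h2, h3⟩ := hshr (n * S) (Gp lg σ L R).toFinset (sfx K pre mid) pre
    (bl K σ pre mid) hX
    (fun γ hγ => hC.flatten_bl γ (hGp γ (List.mem_toFinset.1 hγ)).2)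
    (fun γ hγ => (hlenb γ (List.mem_toFinset.1 hγ)).2) hexc
    (fun γ hγ => (hGp γ (List.mem_toFinset.1 hγ)).1)
  have hnS : 1 ≤ n * (S + M) := Nat.one_le_iff_ne_zero.2 (Nat.mul_ne_zero (by omega) (by omega))
  have hkey : 20 * k * (S + M) ≤ l := by
    have e1 : S + M ≤ N * ((2 * N + 1) * (n * (S + M))) := by
      calc S + M = 1 * (1 * (1 * (S + M))) := by ring
        _ ≤ N * ((2 * N + 1) * (n * (S + M))) :=
          Nat.mul_le_mul (by omega) (Nat.mul_le_mul (by omega) (Nat.mul_le_mul_right _ hn))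
    calc 20 * k * (S + M) ≤ 20 * k * (N * ((2 * N + 1) * (n * (S + M)))) :=
          Nat.mul_le_mul_left _ e1
      _ = l := by rw [hl]; ring
  refine one_scale (M := M) L R hC hmin hk hne s' p' φ
    (fun γ hγ => h1 γ (List.mem_toFinset.2 hγ)) h2 h3 htau ?_ ?_ ?_
  · exact (Nat.mul_le_mul_left _ (by omega)).trans hkey
  · have : 1 * 1 ≤ 20 * k * (S + M) := Nat.mul_le_mul (by omega) (by omega)
    omega
  · intro x hx
    have := hlong x hx
    nlinarith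

theorem mul_pow_le {c e C P : ℕ} (hc : c ≤ C) (he : e ≤ C) (hP : 1 ≤ P) :
    c * P ^ e ≤ C * P ^ C :=
  Nat.mul_le_mul hc (Nat.pow_le_pow_right hP he)

theorem ratio_le (k C1 C2 : ℕ) : ∃ C3 : ℕ, 1 ≤ C3 ∧ ∀ n S : ℕ,
    (C1 * (n + 1) ^ C1 + 2 + 4) * (20 * (k + 1) * (C1 * (n + 1) ^ C1 + 2) *
      ((2 * (C1 * (n + 1) ^ C1 + 2) + 1) * (n * (S + C2 * (n * S + 1) ^ C2)))) ≤
      C3 * ((n + 1) * (S + 1)) ^ C3 := by
  refine ⟨(C1 + 6) * (20 * (k + 1) * (C1 + 6) * ((2 * (C1 + 6)) * (1 + C2))) +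
    (3 * C1 + C2 + 2) + 1, by omega, ?_⟩
  intro n S
  obtain ⟨P, hP⟩ : ∃ P, P = (n + 1) * (S + 1) := ⟨_, rfl⟩
  rw [← hP]
  have h1 : n + 1 ≤ P := by rw [hP]; exact Nat.le_mul_of_pos_right _ (by omega)
  have h2 : S + 1 ≤ P := by rw [hP]; exact Nat.le_mul_of_pos_left _ (by omega)
  have h3 : n * S + 1 ≤ P := by rw [hP]; nlinarith
  have hP1 : 1 ≤ P := by omega
  have hQ : 1 ≤ P ^ C1 := Nat.one_le_pow _ _ (by omega)
  have hR : 1 ≤ P ^ C2 := Nat.one_le_pow _ _ (by omega)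
  have h4 : (n + 1) ^ C1 ≤ P ^ C1 := Nat.pow_le_pow_left h1 _
  have h5 : (n * S + 1) ^ C2 ≤ P ^ C2 := Nat.pow_le_pow_left h3 _
  have e1 : C1 * (n + 1) ^ C1 + 2 + 4 ≤ (C1 + 6) * P ^ C1 := by nlinarith
  have e2 : C1 * (n + 1) ^ C1 + 2 ≤ (C1 + 6) * P ^ C1 := by nlinarith
  have e3 : 2 * (C1 * (n + 1) ^ C1 + 2) + 1 ≤ 2 * (C1 + 6) * P ^ C1 := by nlinarith
  have e4 : S + C2 * (n * S + 1) ^ C2 ≤ (1 + C2) * (P * P ^ C2) := by
    have a1 : S ≤ P * P ^ C2 := by nlinarith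
    have a2 : C2 * (n * S + 1) ^ C2 ≤ C2 * (P * P ^ C2) := Nat.mul_le_mul_left _ (by nlinarith)
    calc S + C2 * (n * S + 1) ^ C2 ≤ P * P ^ C2 + C2 * (P * P ^ C2) := Nat.add_le_add a1 a2
      _ = _ := by ring
  calc _ ≤ (C1 + 6) * P ^ C1 * (20 * (k + 1) * ((C1 + 6) * P ^ C1) *
        ((2 * (C1 + 6) * P ^ C1) * (P * ((1 + C2) * (P * P ^ C2))))) := by
        refine Nat.mul_le_mul e1 (Nat.mul_le_mul (Nat.mul_le_mul_left _ e2)
          (Nat.mul_le_mul e3 (Nat.mul_le_mul (by omega) e4)))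
    _ = (C1 + 6) * (20 * (k + 1) * (C1 + 6) * ((2 * (C1 + 6)) * (1 + C2))) *
        P ^ (3 * C1 + C2 + 2) := by ring
    _ ≤ _ := mul_pow_le (by omega) (by omega) hP1

/-- minimal solutions are of polynomial length for each fixed number of variables -/
theorem poly_bound (k : ℕ) : ∃ C : ℕ, ∀ {A : Type u} {X : Type w} [Finite A] [Fintype X]
    (L R : List (A ⊕ X)), Fintype.card X ≤ k → (∃ σ : X → List A, sb σ L = sb σ R) →
    ∃ σ : X → List A, sb σ L = sb σ R ∧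
      ∑ x, (σ x).length ≤ C * (L.length + R.length + 1) ^ C := by
  obtain ⟨C1, hexp⟩ := exp_bound_poly.{u, w} (k + 1)
  obtain ⟨C2, hshr⟩ := shrink.{u, w} (k + 1) (5 * (k + 1)) (4 * (k + 1) ^ 3)
  obtain ⟨C3, hC31, hC3⟩ := ratio_le k C1 C2
  obtain ⟨C4, hC4⟩ := ladder_poly k C3
  refine ⟨(k + 1) * C4, ?_⟩
  intro A X _ _ L R hXk hsol
  classical
  have := Fintype.ofFinite A
  obtain ⟨n, hn⟩ : ∃ n, n = L.length + R.length := ⟨_, rfl⟩
  by_cases hn0 : n = 0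
  · rw [hn0] at hn
    have hL : L = [] := List.length_eq_zero_iff.1 (by omega)
    have hR : R = [] := List.length_eq_zero_iff.1 (by omega)
    exact ⟨fun _ => [], by rw [hL, hR], by simp⟩
  obtain ⟨σ, hmin⟩ := exists_minSol hsol
  refine ⟨σ, hmin.1, ?_⟩
  rw [← hn]
  have hb : ∀ x, (σ x).length ≤ (fun S => C3 * ((n + 1) * (S + 1)) ^ C3)^[k] 1 := by
    refine ladder hXk _ ?_ (fun x => (σ x).length) ?_
    · intro S
      have h1 : S ≤ (n + 1) * (S + 1) := by nlinarith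
      calc S ≤ 1 * ((n + 1) * (S + 1)) ^ 1 := by simpa using h1
        _ ≤ C3 * ((n + 1) * (S + 1)) ^ C3 := mul_pow_le hC31 hC31 (by nlinarith)
    · intro S hS hgood hne
      refine no_scale (k := k + 1) (n := n) (N := C1 * (n + 1) ^ C1 + 2) (S := S) (C := C2)
        (by omega) (by omega) (by omega) hS ?_ (by omega) L R hn.ge σ hmin ?_ (hC3 n S) hgood hne
      · intro d T s p b h1 h2 h3 h4 h5
        exact hshr d T s p b h1 h2 h3 h4 h5
      · intro x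
        exact EBd.mono (by omega) (hexp n L R (by omega) hn.ge σ hmin x)
  calc ∑ x, (σ x).length ≤ ∑ _x : X, C4 * (n + 1) ^ C4 :=
        Finset.sum_le_sum fun x _ => (hb x).trans (hC4 n)
    _ = Fintype.card X * (C4 * (n + 1) ^ C4) := by simp
    _ ≤ (k + 1) * (C4 * (n + 1) ^ C4) := Nat.mul_le_mul_right _ (by omega)
    _ = (k + 1) * C4 * (n + 1) ^ C4 := by ring
    _ ≤ (k + 1) * C4 * (n + 1) ^ ((k + 1) * C4) :=
      Nat.mul_le_mul_left _ (Nat.pow_le_pow_right (by omega) (Nat.le_mul_of_pos_left _ (by omega)))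

end WK
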