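import Pool.Agent.WK.Off66D
import Pool.Agent.WK.Marker23

/-! Word equations with boundedly many variables (MP_fc7ad9_lc). Helper module:
existence of markers, bound with a threshold. -/

namespace WK

theorem exists_markerD {A : Type*} {k N d0 E' l : ℕ} (hk : 1 ≤ k) (hN : 2 ≤ N) (hE : 1 ≤ E')
    (hd0 : d0 ≤ E')
    (hl : l = 20 * k * N * E') (Y : List (List A)) (hYc : Y.length ≤ k)
    (hY : ∀ y ∈ Y, EBdd N d0 y ∧ (N + 4) * l ≤ y.length) (U : List A) (hU : U ∈ Y) :
    ∃ a m b, U = a ++ m ++ b ∧ m.length = l ∧ b.length ≤ (N + 3) * l ∧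
      (∀ e, 1 ≤ e → 3 * e ≤ l → ¬ Per e m) ∧
      (∀ y ∈ Y, ∀ z t, m = z ++ t → z <:+ y → 1 ≤ t.length → E' < t.length) ∧
      (∀ y ∈ Y, ∀ t z, m = t ++ z → z <+: y → 1 ≤ t.length → E' < t.length) := by
  obtain ⟨hu, hlen⟩ := hY U hU
  -- arithmetic
  have p1 : k * E' ≤ k * N * E' := by
    calc k * E' = k * 1 * E' := by ring
      _ ≤ k * N * E' := Nat.mul_le_mul_right _ (Nat.mul_le_mul_left _ (by omega))
  have p2 : 2 * (k * E') ≤ k * N * E' := by
    calc 2 * (k * E') = k * 2 * E' := by ring
      _ ≤ k * N * E' := Nat.mul_le_mul_right _ (Nat.mul_le_mul_left _ hN)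
  have p3 : N * E' ≤ k * N * E' := by
    calc N * E' = 1 * N * E' := by ring
      _ ≤ k * N * E' := Nat.mul_le_mul_right _ (Nat.mul_le_mul_right _ hk)
  have p4 : E' ≤ k * E' := Nat.le_mul_of_pos_left _ hk
  have p5 : l = 20 * (k * N * E') := by rw [hl]; ring
  have p6 : 4 * k * E' = 4 * (k * E') := by ring
  have p7 : N * (4 * k * E' + E') + E' = 4 * (k * N * E') + N * E' + E' := by ring
  have p8 : (N + 4) * l = N * l + 4 * l := by ring
  have p9 : (N + 3) * l = N * l + 3 * l := by ring
  have p10 : N * (l - 4 * k * E') ≤ N * l := Nat.mul_le_mul_left _ (by omega)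
  have hkE : 1 ≤ k * E' := Nat.mul_pos hk hE
  -- the region
  obtain ⟨U1, U2, U3, hUe, h2, h3⟩ : ∃ U1 U2 U3 : List A, U = U1 ++ U2 ++ U3 ∧
      U2.length = N * l ∧ U3.length = 4 * k * E' := by
    refine ⟨U.take (U.length - (N * l + 4 * k * E')),
      (U.drop (U.length - (N * l + 4 * k * E'))).take (N * l),
      (U.drop (U.length - (N * l + 4 * k * E'))).drop (N * l), ?_, ?_, ?_⟩
    · rw [List.append_assoc, List.take_append_drop, List.take_append_drop]
    · rw [List.length_take, List.length_drop]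
      omega
    · rw [List.length_drop, List.length_drop]
      omega
  have h1 : U.length = U1.length + U2.length + U3.length := by
    rw [hUe, List.length_append, List.length_append]
  obtain ⟨a1, z, b1, hz1, hz2, hz3⟩ := exists_nonperD (d0 := d0) (l := l - 4 * k * E')
    (fun q w hq hw hp => hu q w hq (hw.trans ⟨U1, U3, hUe.symm⟩) hp) (by omega) (by omega)
    (by omega)
    (by omega : N * (l - 4 * k * E') ≤ U2.length)
  have hU2 : U = (U1 ++ a1) ++ z ++ (b1 ++ U3) := by rw [hUe, hz1]; simp
  have h4 : U2.length = a1.length + z.length + b1.length := by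
    rw [hz1, List.length_append, List.length_append]
  obtain ⟨a', m, b', k1, k2, k3, k4, k5, k6, k7⟩ := offsetsD (X := Fin Y.length) (k := k) (N := N)
    (E' := E') (l := l) (by rw [Fintype.card_fin]; exact hYc) (fun i => Y.get i) hu hd0 hU2 hz2
    (by omega) (by omega) (by rw [List.length_append]; omega) (by rw [List.length_append]; omega)
  rw [List.length_append] at k4 k5
  have h5 : U.length = a'.length + m.length + b'.length := by
    rw [k1, List.length_append, List.length_append]
  refine ⟨a', m, b', k1, k2, by omega, ?_, ?_, ?_⟩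
  · intro e he1 he2 hp
    exact hz3 e he1 (by omega) (per_fac23 hp k3)
  · intro y hy z' t hm hz' ht
    obtain ⟨i, rfl⟩ := List.get_of_mem hy
    exact k6 i z' t hm hz' ht
  · intro y hy t z' hm hz' ht
    obtain ⟨i, rfl⟩ := List.get_of_mem hy
    exact k7 i t z' hm hz' ht

end WK
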