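import Pool.Agent.WE45.Enc

/-!
# From the number of variables of the alphabet to the number of variables that occur

Helper file for MP_fc7ad9_lc (word equations with a fixed number of variables).
-/

set_option autoImplicit false

namespace WK

open WE45

universe u w

variable {A : Type u} {X : Type w}

/-- Restriction of a word to the letters and the variables of `V`. -/
def rst [DecidableEq X] (V : Finset X) : List (A ⊕ X) → List (A ⊕ {x // x ∈ V})
  | [] => []
  | .inl a :: l => .inl a :: rst V l
  | .inr x :: l => if h : x ∈ V then .inr ⟨x, h⟩ :: rst V l else rst V l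

theorem length_rst [DecidableEq X] (V : Finset X) : ∀ l : List (A ⊕ X),
    (rst V l).length ≤ l.length
  | [] => le_rfl
  | .inl a :: l => by
      have := length_rst V l
      simp only [rst, List.length_cons]; omega
  | .inr x :: l => by
      have := length_rst V l
      simp only [rst]
      split_ifs
      · simp only [List.length_cons]; omega
      · simp only [List.length_cons]; omega

theorem sb_rst [DecidableEq X] (V : Finset X) (σ : X → List A) : ∀ l : List (A ⊕ X),
    (∀ x, .inr x ∈ l → x ∈ V) → sb (fun x : {x // x ∈ V} => σ x.1) (rst V l) = sb σ l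
  | [], _ => rfl
  | .inl a :: l, h => by
      simp only [rst]
      rw [sb_inl, sb_inl, sb_rst V σ l fun x hx => h x (List.mem_cons_of_mem _ hx)]
  | .inr x :: l, h => by
      have hx : x ∈ V := h x (by simp)
      simp only [rst]
      rw [dif_pos hx, sb_inr, sb_inr, sb_rst V σ l fun x hx => h x (List.mem_cons_of_mem _ hx)]

/-- The bound for equations with at most `k` variables in the alphabet gives the same bound for
equations in which at most `k` variables occur. -/
theorem occurring {k C : ℕ}
    (H : ∀ {A : Type u} {X : Type w} [Fintype X] [DecidableEq X] (L R : List (A ⊕ X)),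
      Fintype.card X ≤ k → (∃ σ : X → List A, sb σ L = sb σ R) →
      ∃ σ : X → List A, sb σ L = sb σ R ∧
        ∑ x, (σ x).length ≤ 2 ^ (C * (L.length + R.length) ^ C))
    {A : Type u} {X : Type w} [Fintype X] (L R : List (A ⊕ X)) (V : Finset X) (hV : V.card ≤ k)
    (hL : ∀ x, Sum.inr x ∈ L ++ R → x ∈ V) (hs : ∃ σ : X → List A, sb σ L = sb σ R) :
    ∃ σ : X → List A, sb σ L = sb σ R ∧
      ∑ x, (σ x).length ≤ 2 ^ (C * (L.length + R.length) ^ C) := by
  classical
  have h1 : ∀ x, Sum.inr x ∈ L → x ∈ V := fun x hx => hL x (List.mem_append_left _ hx)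
  have h2 : ∀ x, Sum.inr x ∈ R → x ∈ V := fun x hx => hL x (List.mem_append_right _ hx)
  obtain ⟨σ, hσ⟩ := hs
  have h3 : Fintype.card {x // x ∈ V} ≤ k := by rw [Fintype.card_coe]; exact hV
  obtain ⟨τ, hτ, hb⟩ := H (rst V L) (rst V R) h3
    ⟨fun x => σ x.1, by rw [sb_rst V σ L h1, sb_rst V σ R h2, hσ]⟩
  -- extension by empty words
  let ρ : X → List A := fun x => if h : x ∈ V then τ ⟨x, h⟩ else []
  have hρ : (fun x : {x // x ∈ V} => ρ x.1) = τ := by
    funext x
    exact dif_pos x.2
  refine ⟨ρ, ?_, ?_⟩
  · rw [← sb_rst V ρ L h1, ← sb_rst V ρ R h2, hρ, hτ]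
  · have e1 : ∑ x, (ρ x).length = ∑ x : {x // x ∈ V}, (τ x).length := by
      rw [← hρ]
      rw [Finset.sum_coe_sort V (fun x => (ρ x).length)]
      symm
      apply Finset.sum_subset (Finset.subset_univ _)
      intro x _ hx
      show (ρ x).length = 0
      rw [show ρ x = [] from dif_neg hx]
      rfl
    rw [e1]
    refine hb.trans (Nat.pow_le_pow_right (by norm_num) (Nat.mul_le_mul_left C ?_))
    exact Nat.pow_le_pow_left (Nat.add_le_add (length_rst V L) (length_rst V R)) C

end WK
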