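import Pool.Agent.WK.Words21

/-! Word equations with boundedly many variables (MP_fc7ad9_lc). Helper module:
choice of the offset of a marker (row R3a, (3.1)). -/

namespace WK

variable {A X : Type*}

theorem off_per {z a b a' b' : List A} {e : ℕ} (h : a ++ z ++ b = a' ++ z ++ b')
    (he : a'.length = a.length + e) : Per e z := by
  intro i hi
  have h1 : (a ++ z ++ b)[a'.length + i]? = (a' ++ z ++ b')[a'.length + i]? := by rw [h]
  have h2 : (a' ++ z ++ b')[a'.length + i]? = z[i]? := by
    rw [List.append_assoc, List.getElem?_append_right (by omega),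
      List.getElem?_append_left (by omega)]
    congr 1
    omega
  have h3 : (a ++ z ++ b)[a'.length + i]? = z[i + e]? := by
    rw [List.append_assoc, List.getElem?_append_right (by omega),
      List.getElem?_append_left (by omega)]
    congr 1
    omega
  rw [← h2, ← h1, h3]

/-- a long word cannot occur twice at a small positive distance -/
theorem off_twice {N e : ℕ} {u z a b a' b' : List A} (hu : EBd N u) (h1 : u = a ++ z ++ b)
    (h2 : u = a' ++ z ++ b') (he : a'.length = a.length + e) (he1 : 1 ≤ e)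
    (hz : N * e ≤ z.length) : False := by
  have h3 := hu e z he1 ⟨a, b, h1.symm⟩ (off_per (h1.symm.trans h2) he)
  omega

/-- the marker with offset `s` is bad because of a suffix of `v` -/
def BadS (E' : ℕ) (m v : List A) : Prop :=
  ∃ z t, m = z ++ t ∧ z <:+ v ∧ 1 ≤ t.length ∧ t.length ≤ E'

/-- the marker with offset `s` is bad because of a prefix of `v` -/
def BadP (E' : ℕ) (m v : List A) : Prop :=
  ∃ t z, m = t ++ z ∧ z <+: v ∧ 1 ≤ t.length ∧ t.length ≤ E'

theorem not_badS_two {N E' l e M : ℕ} {u v a m b a' m' b' : List A} (hu : EBd N u)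
    (h : u = a ++ m ++ b) (h' : u = a' ++ m' ++ b') (hm : m.length = l) (hm' : m'.length = l)
    (he : a.length = a'.length + e) (h1 : 2 * E' ≤ e) (hM : e ≤ M) (hl : N * (M + E') + E' ≤ l)
    (hb : BadS E' m v) (hb' : BadS E' m' v) : False := by
  obtain ⟨z, t, rfl, hz, ht1, htE⟩ := hb
  obtain ⟨z', t', rfl, hz', ht1', htE'⟩ := hb'
  rw [List.length_append] at hm hm'
  have hv : l - E' ≤ v.length := by
    have := hz.length_le
    omega
  obtain ⟨z0, hz0, hz0v⟩ : ∃ z0 : List A, z0.length = l - E' ∧ z0 <:+ v :=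
    ⟨v.drop (v.length - (l - E')), by rw [List.length_drop]; omega, List.drop_suffix _ _⟩
  obtain ⟨c, hc⟩ := List.suffix_of_suffix_length_le hz0v hz (by omega)
  obtain ⟨c', hc'⟩ := List.suffix_of_suffix_length_le hz0v hz' (by omega)
  have k1 : u = (a ++ c) ++ z0 ++ (t ++ b) := by rw [h, ← hc]; simp
  have k2 : u = (a' ++ c') ++ z0 ++ (t' ++ b') := by rw [h', ← hc']; simp
  have k3 := congrArg List.length hc
  have k4 := congrArg List.length hc'
  rw [List.length_append] at k3 k4
  refine off_twice (e := e + t'.length - t.length) hu k2 k1 ?_ (by omega) ?_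
  · rw [List.length_append, List.length_append]
    omega
  · rw [hz0]
    have : N * (e + t'.length - t.length) ≤ N * (M + E') := Nat.mul_le_mul_left _ (by omega)
    omega

theorem not_badP_two {N E' l e M : ℕ} {u v a m b a' m' b' : List A} (hu : EBd N u)
    (h : u = a ++ m ++ b) (h' : u = a' ++ m' ++ b') (hm : m.length = l) (hm' : m'.length = l)
    (he : a.length = a'.length + e) (h1 : 2 * E' ≤ e) (hM : e ≤ M) (hl : N * (M + E') + E' ≤ l)
    (hb : BadP E' m v) (hb' : BadP E' m' v) : False := by
  obtain ⟨t, z, rfl, hz, ht1, htE⟩ := hb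
  obtain ⟨t', z', rfl, hz', ht1', htE'⟩ := hb'
  rw [List.length_append] at hm hm'
  have hv : l - E' ≤ v.length := by
    have := hz.length_le
    omega
  obtain ⟨z0, hz0, hz0v⟩ : ∃ z0 : List A, z0.length = l - E' ∧ z0 <+: v :=
    ⟨v.take (l - E'), by rw [List.length_take]; omega, List.take_prefix _ _⟩
  obtain ⟨c, hc⟩ := List.prefix_of_prefix_length_le hz0v hz (by omega)
  obtain ⟨c', hc'⟩ := List.prefix_of_prefix_length_le hz0v hz' (by omega)
  have k1 : u = (a ++ t) ++ z0 ++ (c ++ b) := by rw [h, ← hc]; simp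
  have k2 : u = (a' ++ t') ++ z0 ++ (c' ++ b') := by rw [h', ← hc']; simp
  refine off_twice (e := e + t.length - t'.length) hu k2 k1 ?_ (by omega) ?_
  · rw [List.length_append, List.length_append]
    omega
  · rw [hz0]
    have : N * (e + t.length - t'.length) ≤ N * (M + E') := Nat.mul_le_mul_left _ (by omega)
    omega

/-- (3.1): one of the `2 * k + 1` offsets is good for all suffixes and prefixes -/
theorem offsets [Fintype X] {k N E' l l' : ℕ} (hk : Fintype.card X ≤ k) (σ : X → List A)
    {u a z b : List A} (hu : EBd N u) (h : u = a ++ z ++ b) (hz : z.length = l')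
    (hl : l = l' + 4 * k * E') (hbig : N * (4 * k * E' + E') + E' ≤ l)
    (ha : 4 * k * E' ≤ a.length) (hb : 4 * k * E' ≤ b.length) :
    ∃ a' m b', u = a' ++ m ++ b' ∧ m.length = l ∧ z <:+: m ∧ a'.length ≤ a.length ∧
      a.length ≤ a'.length + 4 * k * E' ∧
      (∀ x z' t, m = z' ++ t → z' <:+ σ x → 1 ≤ t.length → E' < t.length) ∧
      (∀ x t z', m = t ++ z' → z' <+: σ x → 1 ≤ t.length → E' < t.length) := by
  classical
  -- candidates
  have hc : ∀ s : Fin (2 * k + 1), ∃ a' m b', u = a' ++ m ++ b' ∧ m.length = l ∧ z <:+: m ∧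
      a.length = a'.length + s * (2 * E') := by
    intro s
    have hs1 : (s : ℕ) ≤ 2 * k := Nat.lt_succ_iff.1 s.2
    have hs2 : (s : ℕ) * (2 * E') ≤ 4 * k * E' := by
      calc (s : ℕ) * (2 * E') ≤ (2 * k) * (2 * E') := Nat.mul_le_mul_right _ hs1
        _ = 4 * k * E' := by ring
    set p := a.length - s * (2 * E') with hp
    have h1 : a = a.take p ++ a.drop p := (List.take_append_drop _ _).symm
    have h2 : b = b.take (4 * k * E' - s * (2 * E')) ++ b.drop (4 * k * E' - s * (2 * E')) :=
      (List.take_append_drop _ _).symm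
    refine ⟨a.take p, a.drop p ++ z ++ b.take (4 * k * E' - s * (2 * E')),
      b.drop (4 * k * E' - s * (2 * E')), ?_, ?_, ⟨_, _, rfl⟩, ?_⟩
    · rw [h]
      conv_lhs => rw [h1, h2]
      simp only [List.append_assoc]
    · rw [List.length_append, List.length_append, List.length_drop, List.length_take, hz]
      omega
    · rw [List.length_take]
      omega
  choose a' m b' h1 h2 h3 h4 using hc
  by_contra hcon
  have hbad : ∀ s : Fin (2 * k + 1), ∃ v : X ⊕ X,
      Sum.elim (fun x => BadS E' (m s) (σ x)) (fun x => BadP E' (m s) (σ x)) v := by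
    intro s
    by_contra hno
    have hs1 : (s : ℕ) ≤ 2 * k := Nat.lt_succ_iff.1 s.2
    have hs2 : (s : ℕ) * (2 * E') ≤ 4 * k * E' := by
      calc (s : ℕ) * (2 * E') ≤ (2 * k) * (2 * E') := Nat.mul_le_mul_right _ hs1
        _ = 4 * k * E' := by ring
    have h4s := h4 s
    refine hcon ⟨a' s, m s, b' s, h1 s, h2 s, h3 s, by omega, by omega, ?_, ?_⟩
    · intro x z' t hm hz' ht
      by_contra hlt
      exact hno ⟨Sum.inl x, z', t, hm, hz', ht, not_lt.1 hlt⟩
    · intro x t z' hm hz' ht
      by_contra hlt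
      exact hno ⟨Sum.inr x, t, z', hm, hz', ht, not_lt.1 hlt⟩
  choose f hf using hbad
  have hinj : Function.Injective f := by
    have key : ∀ s s' : Fin (2 * k + 1), s < s' → f s ≠ f s' := by
      intro s s' hss he
      have hs1 : (s : ℕ) < s' := hss
      have hs2 : (s' : ℕ) ≤ 2 * k := Nat.lt_succ_iff.1 s'.2
      have hs3 : (s' : ℕ) * (2 * E') = s * (2 * E') + (s' - s : ℕ) * (2 * E') := by
        rw [← Nat.add_mul]
        congr 1
        omega
      have hs4 : 2 * E' ≤ (s' - s : ℕ) * (2 * E') := Nat.le_mul_of_pos_left _ (by omega)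
      have hs5 : (s' - s : ℕ) * (2 * E') ≤ 4 * k * E' := by
        calc (s' - s : ℕ) * (2 * E') ≤ (2 * k) * (2 * E') := Nat.mul_le_mul_right _ (by omega)
          _ = 4 * k * E' := by ring
      have h4s := h4 s
      have h4s' := h4 s'
      have h5 := hf s
      have h6 := hf s'
      rw [← he] at h6
      rcases hfs : f s with x | x
      · rw [hfs] at h5 h6
        exact not_badS_two hu (h1 s) (h1 s') (h2 s) (h2 s')
          (e := (s' - s : ℕ) * (2 * E')) (by omega) hs4 hs5 hbig h5 h6
      · rw [hfs] at h5 h6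
        exact not_badP_two hu (h1 s) (h1 s') (h2 s) (h2 s')
          (e := (s' - s : ℕ) * (2 * E')) (by omega) hs4 hs5 hbig h5 h6
    intro s s' he
    rcases lt_trichotomy s s' with hlt | heq | hlt
    · exact absurd he (key s s' hlt)
    · exact heq
    · exact absurd he.symm (key s' s hlt)
  have hcard := Fintype.card_le_of_injective f hinj
  rw [Fintype.card_fin, Fintype.card_sum] at hcard
  omega

end WK
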