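import Pool.Agent.WK.End75

/-! Word equations with boundedly many variables (MP_fc7ad9_lc). Helper module:
the final numerical bound. -/

namespace WK

theorem final_bound (k C₁ C₂ : ℕ) : ∃ C : ℕ, ∀ n : ℕ, 1 ≤ n →
    k * (2 ^ (C₁ * (n + 1) ^ C₁)) ^ (C₂ * (n + 1) ^ C₂) ≤ 2 ^ (C * n ^ C) :=
  ((XB.const k).mul ((XB.self C₁).pow (PB.self C₂))).final

end WK
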