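import Pool.Agent.WK64.Rep5
import Pool.Agent.WK.Words21

/-! Word equations with boundedly many variables (MP_fc7ad9_lc). Helper module:
a factor with a long period, parsed by its double root. -/

open WK64 WKR5

namespace WK

variable {A : Type*} {q : ℕ} {z : List A}

theorem rep_spacing (hq : 1 ≤ q) (hz : Per q z) (hmin : ∀ d, 1 ≤ d → d < q → ¬ Per d z)
    (hl : 2 * q ≤ z.length) (h t : List A) (h1 : z.take (2 * q) <:+ h)
    (h2 : z.take (2 * q) <:+ h ++ t) (ht : t ≠ []) : q ≤ t.length := by
  by_contra hlt
  have h3 : 1 ≤ t.length := List.length_pos_of_ne_nil ht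
  have h4 : Pd t.length (z.take (2 * q)) := Pd.of_suffix h1 h2
  have hz' : Pd q z := hz
  have h5 : Pd q (z.take (2 * q)) := hz'.take _
  have h6 : (z.take (2 * q)).length = 2 * q := by rw [List.length_take]; omega
  have h7 := Pd.gcd h4 h5 (by omega)
  have h8 : 1 ≤ Nat.gcd t.length q := Nat.gcd_pos_of_pos_right _ hq
  have h9 : Nat.gcd t.length q ≤ t.length := Nat.gcd_le_left _ h3
  exact hmin _ h8 (by omega) (hz'.ext h7 hq h8 (by omega) (Nat.gcd_dvd_right _ _))

theorem rep_spaced (K : List A → Prop) (hK : ∀ h, K h ↔ z.take (2 * q) <:+ h)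
    (hq : 1 ≤ q) (hz : Per q z) (hmin : ∀ d, 1 ≤ d → d < q → ¬ Per d z)
    (hl : 2 * q ≤ z.length) : Spaced K q := fun h t h1 h2 ht =>
  rep_spacing hq hz hmin hl h t ((hK h).1 h1) ((hK _).1 h2) ht

theorem rep_blocks (K : List A → Prop) [DecidablePred K] (hK : ∀ h, K h ↔ z.take (2 * q) <:+ h)
    (hq : 1 ≤ q) (hz : Per q z) (hmin : ∀ d, 1 ≤ d → d < q → ¬ Per d z)
    (hl : 2 * q ≤ z.length) (a b : List A) :
    ∃ B, out K (a ++ z.take (2 * q)) [] (z.drop (2 * q) ++ b) =
      List.replicate ((z.length - 2 * q) / q) (z.take q) ++ B := by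
  have hz' : Pd q z := hz
  have hr : (z.take q).length = q := by rw [List.length_take]; omega
  have h2 : z.take (2 * q) = z.take q ++ z.take q := by
    rw [hz'.rep 2 hl]
    simp [List.replicate_succ]
  obtain ⟨e, he⟩ : ∃ e, e = (z.length - 2 * q) / q := ⟨_, rfl⟩
  rw [← he]
  have h3 : (e + 2) * q ≤ z.length := by
    have h4 : e * q ≤ z.length - 2 * q := by rw [he]; exact Nat.div_mul_le_self _ _
    rw [Nat.add_mul]
    omega
  have h5 := hz'.rep (e + 2) h3
  have h6 : z.drop (2 * q) = (List.replicate e (z.take q)).flatten ++ z.drop ((e + 2) * q) := by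
    have h7 : z.take (2 * q) ++ z.drop (2 * q) = z.take (2 * q) ++
        ((List.replicate e (z.take q)).flatten ++ z.drop ((e + 2) * q)) := by
      rw [List.take_append_drop, ← List.append_assoc]
      conv_lhs => rw [← List.take_append_drop ((e + 2) * q) z]
      congr 1
      rw [h5, h2, List.replicate_succ, List.replicate_succ]
      simp
    exact List.append_cancel_left h7
  have hS := rep_spaced K hK hq hz hmin hl
  refine ⟨out K (a ++ z.take (2 * q) ++ (List.replicate e (z.take q)).flatten)
    (pend K (a ++ z.take (2 * q)) [] (List.replicate e (z.take q)).flatten)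
    (z.drop ((e + 2) * q) ++ b), ?_⟩
  rw [h6, List.append_assoc, out_append, out_rep K hS hq (z.take q) hr e]
  intro i _
  rw [hK, h2]
  have h8 : z.take q ++ z.take q ++ (List.replicate i (z.take q)).flatten =
      (List.replicate i (z.take q)).flatten ++ (z.take q ++ z.take q) := by
    have h9 : (List.replicate (2 + i) (z.take q)).flatten =
        (List.replicate (i + 2) (z.take q)).flatten := by rw [Nat.add_comm]
    rw [List.replicate_add, List.replicate_add, List.flatten_append, List.flatten_append] at h9
    simpa [List.replicate_succ] using h9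
  rw [List.append_assoc, h8]
  exact ((List.suffix_append _ _).trans (List.suffix_append _ _))

theorem rep_count (K : List A → Prop) [DecidablePred K] (hK : ∀ h, K h ↔ z.take (2 * q) <:+ h)
    (hq : 1 ≤ q) (hz : Per q z) (hmin : ∀ d, 1 ≤ d → d < q → ¬ Per d z)
    (hl : 2 * q ≤ z.length) (u : List A)
    (hu : ∀ t, t <+: u → t ≠ u → ¬ (z.take (2 * q) <:+: t)) (h p : List A) :
    (out K h p u).length ≤ 3 := by
  have hS := rep_spaced K hK hq hz hmin hl
  rcases List.eq_nil_or_concat u with rfl | ⟨v, a, rfl⟩
  · simp [out]
  have hv : ¬ (z.take (2 * q) <:+: v) := by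
    refine hu v (by simp) ?_
    intro h1
    have h2 := congrArg List.length h1
    simp at h2
  have h6 : (z.take (2 * q)).length = 2 * q := by rw [List.length_take]; omega
  have h7 : (v.take (2 * q - 1)).length ≤ 2 * q - 1 := List.length_take_le _ _
  have hx : v.concat a = v.take (2 * q - 1) ++ (v.drop (2 * q - 1) ++ [a]) := by
    rw [List.concat_eq_append, ← List.append_assoc, List.take_append_drop]
  rw [hx, out_append, out_append, List.length_append, List.length_append]
  have c1 := out_len K hS hq (c := 2) (v.take (2 * q - 1)) h p (by omega)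
  have c2 : out K (h ++ v.take (2 * q - 1)) (pend K h p (v.take (2 * q - 1)))
      (v.drop (2 * q - 1)) = [] := by
    apply WKR5.out_eq_nil
    intro t w e ht h1
    rw [hK] at h1
    apply hv
    have h8 := List.length_pos_of_ne_nil ht
    have h9 : (v.take (2 * q - 1)).length = 2 * q - 1 := by
      have h10 := congrArg List.length e
      rw [List.length_drop, List.length_append] at h10
      rw [List.length_take]
      omega
    have h11 : z.take (2 * q) <:+ v.take (2 * q - 1) ++ t := by
      rw [List.append_assoc] at h1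
      exact List.suffix_of_suffix_length_le h1 (List.suffix_append _ _)
        (by rw [List.length_append]; omega)
    refine h11.isInfix.trans ?_
    refine ⟨[], w, ?_⟩
    rw [List.nil_append, List.append_assoc, ← e, List.take_append_drop]
  have c3 : (out K (h ++ v.take (2 * q - 1) ++ v.drop (2 * q - 1))
      (pend K (h ++ v.take (2 * q - 1)) (pend K h p (v.take (2 * q - 1)))
        (v.drop (2 * q - 1))) [a]).length ≤ 1 := by
    simp only [out]
    split_ifs <;> simp
  rw [c2, List.length_nil]
  omega

end WK
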