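import Pool.Agent.WK.Defs64

/-! Word equations with boundedly many variables (MP_fc7ad9_lc). Helper module:
the number of blocks of the parse is at most `card X` per window of length `g`. -/

open WE45 WK64

namespace WK

variable {A X : Type*} {lg : X → Prop} {mk : X → List A}

/-- the number of blocks is the number of the cut positions -/
theorem out_length_eq35 (K : List A → Prop) [DecidablePred K] : ∀ (u h p : List A),
    (out K h p u).length =
      ((Finset.range u.length).filter (fun i => K (h ++ u.take (i + 1)))).card
  | [], h, p => by simp [out]
  | a :: u, h, p => by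
      have ih := out_length_eq35 K u (h ++ [a])
      have e1 : ((Finset.range (a :: u).length).filter
          (fun i => K (h ++ (a :: u).take (i + 1)))).card =
          (if K (h ++ [a]) then 1 else 0) +
          ((Finset.range u.length).filter (fun i => K (h ++ [a] ++ u.take (i + 1)))).card := by
        rw [Finset.card_filter, Finset.card_filter, List.length_cons, Finset.sum_range_succ']
        rw [add_comm]
        congr 1
        · refine Finset.sum_congr rfl fun i _ => ?_
          rw [List.take_succ_cons, List.append_assoc, List.singleton_append]
      rw [e1]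
      simp only [out]
      split_ifs with h1
      · rw [List.length_cons, ih, add_comm]
      · rw [ih, zero_add]

/-- in a window of length at most `g` every marker ends at most once -/
theorem out_length_le_card35 [Fintype X] {g : ℕ}
    (hsep : ∀ x, lg x → ∀ e, 1 ≤ e → e ≤ g → ¬ Per e (mk x)) (h p u : List A)
    (hu : u.length ≤ g) : (out (KM lg mk) h p u).length ≤ Fintype.card X := by
  classical
  rw [out_length_eq35, ← Finset.card_univ]
  have hch : ∀ i ∈ (Finset.range u.length).filter (fun i => KM lg mk (h ++ u.take (i + 1))),
      ∃ x, lg x ∧ mk x <:+ h ++ u.take (i + 1) := fun i hi => (Finset.mem_filter.1 hi).2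
  have key : ∀ x, lg x → ∀ i j, i < j → j < u.length → mk x <:+ h ++ u.take (i + 1) →
      mk x <:+ h ++ u.take (j + 1) → False := by
    intro x hx i j hij hj h1 h2
    obtain ⟨a, ha⟩ := h1
    obtain ⟨b, hb⟩ := h2
    have la := congrArg List.length ha
    have lb := congrArg List.length hb
    simp only [List.length_append, List.length_take] at la lb
    refine hsep x hx (j - i) (by omega) (by omega) ?_
    refine Per.two (u := h ++ u) (a := a) (b := u.drop (i + 1)) (a' := b)
      (b' := u.drop (j + 1)) ?_ ?_ (by omega)
    · rw [ha, List.append_assoc, List.take_append_drop]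
    · rw [hb, List.append_assoc, List.take_append_drop]
  by_cases hne : ((Finset.range u.length).filter
      (fun i => KM lg mk (h ++ u.take (i + 1)))).Nonempty
  · obtain ⟨i0, hi0⟩ := hne
    obtain ⟨x0, -, -⟩ := hch i0 hi0
    refine Finset.card_le_card_of_injOn
      (fun i => if hi : i ∈ (Finset.range u.length).filter
        (fun i => KM lg mk (h ++ u.take (i + 1))) then (hch i hi).choose else x0)
      (fun _ _ => Finset.mem_coe.2 (Finset.mem_univ _)) ?_
    intro i hi j hj hij
    have hi' := Finset.mem_coe.1 hi
    have hj' := Finset.mem_coe.1 hj
    simp only [dif_pos hi', dif_pos hj'] at hij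
    have p1 := (hch i hi').choose_spec
    have p2 := (hch j hj').choose_spec
    rw [← hij] at p2
    have q1 := Finset.mem_range.1 (Finset.mem_filter.1 hi').1
    have q2 := Finset.mem_range.1 (Finset.mem_filter.1 hj').1
    rcases lt_trichotomy i j with h3 | h3 | h3
    · exact (key _ p1.1 i j h3 q2 p1.2 p2.2).elim
    · exact h3
    · exact (key _ p1.1 j i h3 q1 p2.2 p1.2).elim
  · rw [Finset.not_nonempty_iff_eq_empty.1 hne]
    simp

/-- the number of blocks -/
theorem out_length_le [Fintype X] {g : ℕ} (hg : 1 ≤ g)
    (hsep : ∀ x, lg x → ∀ e, 1 ≤ e → e ≤ g → ¬ Per e (mk x)) (h p u : List A) :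
    (out (KM lg mk) h p u).length ≤ Fintype.card X * (u.length / g + 1) := by
  induction hn : u.length using Nat.strong_induction_on generalizing h p u with
  | _ n ih =>
    by_cases hu : u.length ≤ g
    · have h1 := out_length_le_card35 hsep h p u hu
      calc (out (KM lg mk) h p u).length ≤ Fintype.card X * 1 := by rw [mul_one]; exact h1
        _ ≤ Fintype.card X * (n / g + 1) := Nat.mul_le_mul_left _ (Nat.le_add_left 1 _)
    · have e1 : u = u.take g ++ u.drop g := (List.take_append_drop g u).symm
      have h1 := out_length_le_card35 hsep h p (u.take g) (by rw [List.length_take]; omega)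
      have h2 := ih (u.drop g).length (by rw [List.length_drop]; omega) (h ++ u.take g)
        (pend (KM lg mk) h p (u.take g)) (u.drop g) rfl
      rw [List.length_drop] at h2
      have e2 : (out (KM lg mk) h p u).length = (out (KM lg mk) h p (u.take g)).length +
          (out (KM lg mk) (h ++ u.take g) (pend (KM lg mk) h p (u.take g)) (u.drop g)).length := by
        conv_lhs => rw [e1]
        rw [out_append, List.length_append]
      have e3 : (u.length - g) / g + 1 = u.length / g := by
        rw [← Nat.add_div_right _ (by omega : 0 < g)]
        congr 1
        omega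
      rw [e3] at h2
      rw [e2, ← hn, Nat.mul_add, mul_one]
      omega

end WK
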