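import Pool.Agent.WK.Defs64

/-! Word equations with boundedly many variables (MP_fc7ad9_lc). Helper module:
two scales with the same type give a shorter solution. -/

open WE45 WK64

namespace WK

theorem flatten_le37 {A : Type*} {Λ : ℕ} (φ : List A → List A) (hφ : ∀ B, (φ B).length ≤ Λ) :
    ∀ l : List (List A), ((l.map φ).flatten).length ≤ l.length * Λ
  | [] => by simp
  | B :: l => by
      have h1 := flatten_le37 φ hφ l
      have h2 := hφ B
      rw [List.map_cons, List.flatten_cons, List.length_append, List.length_cons, add_mul, one_mul]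
      omega

theorem two_scales {A X : Type*} [Fintype X] {K₁ K₂ : List A → Prop} [DecidablePred K₁]
    [DecidablePred K₂] {l₁ l₂ k Λ : ℕ} {σ pre₁ mid₁ pre₂ mid₂ : X → List A} {lg : X → Prop}
    [DecidablePred lg] (L R : List (A ⊕ X)) (hC₁ : Cut K₁ l₁ σ pre₁ mid₁ lg)
    (hC₂ : Cut K₂ l₂ σ pre₂ mid₂ lg) (hmin : MinSol L R σ) (hk : 1 ≤ k)
    (hne : ∃ x, lg x) (φ : List A → List A)
    (hφ : ∀ γ ∈ Gp lg σ L R, (bl K₂ σ pre₂ mid₂ γ).map φ = bl K₁ σ pre₁ mid₁ γ)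
    (hb : ∀ γ ∈ Gp lg σ L R, ∀ B ∈ bl K₁ σ pre₁ mid₁ γ, B.length ≤ Λ)
    (hp : ∀ x, lg x → (pre₁ x).length ≤ Λ ∧ (sfx K₁ pre₁ mid₁ x).length ≤ Λ)
    (ht : ∀ x, lg x → (tau K₂ pre₂ mid₂ x).length ≤ k * (4 * (σ x).length / l₂ + 2))
    (hl : 20 * k * Λ ≤ l₂) (hl2 : 1 ≤ l₂) (hlong : ∀ x, lg x → l₂ ≤ (σ x).length) : False := by
  classical
  let φ' : List A → List A := fun B =>
    if ∃ γ ∈ Gp lg σ L R, B ∈ bl K₂ σ pre₂ mid₂ γ then φ B else []
  have h1 : ∀ γ ∈ Gp lg σ L R, (bl K₂ σ pre₂ mid₂ γ).map φ' = bl K₁ σ pre₁ mid₁ γ := by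
    intro γ hγ
    rw [← hφ γ hγ]
    apply List.map_congr_left
    intro B hB
    exact if_pos ⟨γ, hγ, hB⟩
  have h2 : ∀ B, (φ' B).length ≤ Λ := by
    intro B
    by_cases h : ∃ γ ∈ Gp lg σ L R, B ∈ bl K₂ σ pre₂ mid₂ γ
    · have e : φ' B = φ B := if_pos h
      obtain ⟨γ, hγ, hB⟩ := h
      rw [e]
      apply hb γ hγ
      rw [← hφ γ hγ]
      exact List.mem_map_of_mem hB
    · have e : φ' B = [] := if_neg h
      rw [e]
      exact Nat.zero_le _
  have h3 : ∀ l : List (A ⊕ X), (∀ γ ∈ trs none (gf lg σ l).1 (gf lg σ l).2, γ ∈ Gp lg σ L R) →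
      ∀ γ ∈ trs none (gf lg σ l).1 (gf lg σ l).2,
        ((bl K₂ σ pre₂ mid₂ γ).map φ').flatten =
          ox (sfx K₁ pre₁ mid₁) γ.1 ++ γ.2.1 ++ ox pre₁ γ.2.2 := by
    intro l hG γ hγ
    rw [h1 γ (hG γ hγ)]
    apply hC₁.flatten_bl
    intro y hy
    obtain ⟨-, -, h⟩ := mem_trs _ _ _ γ hγ
    rcases h with h | ⟨r, hr, h⟩
    · rw [hy] at h
      cases h
    · rw [hy] at h
      have e : y = r.1 := Option.some.inj h
      rw [e]
      exact lg_of_mem lg σ l r hr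
  have h4 := hC₂.transfer L R hmin.1 φ' (sfx K₁ pre₁ mid₁) pre₁
    (h3 L (fun γ hγ => List.mem_append_left _ hγ)) (h3 R (fun γ hγ => List.mem_append_right _ hγ))
  have h5 := hmin.2 _ h4
  refine absurd h5 (not_le.2 ?_)
  have h6 : ∀ x, lg x → (pre₁ x ++ ((tau K₂ pre₂ mid₂ x).map φ').flatten ++
      sfx K₁ pre₁ mid₁ x).length < (σ x).length := by
    intro x hx
    have a1 := (hp x hx).1
    have a2 := (hp x hx).2
    have a3 := flatten_le37 φ' h2 (tau K₂ pre₂ mid₂ x)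
    have a4 := Nat.mul_le_mul_right Λ (ht x hx)
    have a5 := hlong x hx
    have a6 : l₂ * (4 * (σ x).length / l₂) ≤ 4 * (σ x).length := Nat.mul_div_le _ _
    rw [List.length_append, List.length_append]
    generalize (σ x).length = s at *
    generalize 4 * s / l₂ = q at *
    have a7 : 20 * k * Λ * q ≤ l₂ * q := Nat.mul_le_mul_right q hl
    have a8 : Λ ≤ k * Λ := Nat.le_mul_of_pos_left Λ hk
    have e1 : k * (q + 2) * Λ = k * Λ * q + 2 * (k * Λ) := by ring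
    have e2 : 20 * k * Λ * q = 20 * (k * Λ * q) := by ring
    have e3 : 20 * k * Λ = 20 * (k * Λ) := by ring
    rw [e1] at a4
    rw [e2] at a7
    rw [e3] at hl
    omega
  obtain ⟨x₀, hx₀⟩ := hne
  apply Finset.sum_lt_sum
  · intro x _
    by_cases hx : lg x
    · simp only [if_pos hx]
      exact (h6 x hx).le
    · simp only [if_neg hx]
      exact le_rfl
  · refine ⟨x₀, Finset.mem_univ _, ?_⟩
    simp only [if_pos hx₀]
    exact h6 x₀ hx₀

end WK
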