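import Pool.Agent.WK.Gaps63
import Pool.Agent.WK.Gaps66
import Pool.Agent.WK.Two37
import Pool.Agent.WK.CutEx3
import Pool.Agent.WK.GapsB5
import Pool.Agent.WK.Sparse35
import Pool.Agent.WK.Dense9
import Pool.Agent.WK.Marker23

/-! Word equations with boundedly many variables (MP_fc7ad9_lc). Helper module:
all data of one scale. -/

open WE45 WK64

namespace WK

variable {A X : Type*}

theorem mem_Gp_bd {lg : X → Prop} [DecidablePred lg] {σ : X → List A} {L R : List (A ⊕ X)}
    {n S : ℕ} (hS : 1 ≤ S) (hlen : L.length + R.length ≤ n)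
    (hshort : ∀ x, ¬ lg x → (σ x).length ≤ S) {γ : Option X × List A × Option X}
    (h : γ ∈ Gp lg σ L R) :
    (∀ x, γ.1 = some x → lg x) ∧ γ.2.1.length ≤ n * S ∧ (∀ x, γ.2.2 = some x → lg x) := by
  have key : ∀ l : List (A ⊕ X), l.length ≤ n →
      γ ∈ trs none (gf lg σ l).1 (gf lg σ l).2 →
      (∀ x, γ.1 = some x → lg x) ∧ γ.2.1.length ≤ n * S ∧ (∀ x, γ.2.2 = some x → lg x) := by
    intro l hl h1
    obtain ⟨h2, h3, h4⟩ := mem_trs _ _ _ γ h1
    obtain ⟨h5, h6⟩ := gap_le lg σ S hS hshort l
    have h7 : l.length * S ≤ n * S := Nat.mul_le_mul_right _ hl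
    refine ⟨fun x hx => ?_, ?_, fun x hx => ?_⟩
    · rcases h2 with h2 | ⟨r, hr, h2⟩
      · rw [h2] at hx; cases hx
      · rw [h2, Option.some.injEq] at hx
        rw [← hx]
        exact lg_of_mem lg σ l r hr
    · rcases h3 with h3 | ⟨r, hr, h3⟩
      · rw [h3]; omega
      · rw [h3]; exact (h6 r hr).trans h7
    · rcases h4 with h4 | ⟨r, hr, h4⟩
      · rw [h4] at hx; cases hx
      · rw [h4, Option.some.injEq] at hx
        rw [← hx]
        exact lg_of_mem lg σ l r hr
  rcases List.mem_append.1 h with h | h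
  · exact key L (by omega) h
  · exact key R (by omega) h

theorem length_Gp {lg : X → Prop} [DecidablePred lg] {σ : X → List A} {L R : List (A ⊕ X)}
    {n : ℕ} (hlen : L.length + R.length ≤ n) : (Gp lg σ L R).length ≤ n + 2 := by
  have h1 := length_gf lg σ L
  have h2 := length_gf lg σ R
  simp only [Gp, List.length_append, length_trs]
  omega

/-- all data of one scale -/
theorem scale [Fintype X] [DecidableEq A] [DecidableEq X] {k n N S l : ℕ} (hk : 1 ≤ k)
    (hn : 1 ≤ n) (hN : 2 ≤ N) (hS : 1 ≤ S) (hl : l = 20 * k * N * ((2 * N + 1) * (n * S)))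
    (hX : Fintype.card X ≤ k) (L R : List (A ⊕ X)) (hlen : L.length + R.length ≤ n)
    (σ : X → List A) (hmin : MinSol L R σ) (hEB : ∀ x, EBd N (σ x)) (lg : X → Prop)
    [DecidablePred lg] (hshort : ∀ x, ¬ lg x → (σ x).length ≤ S)
    (hlong : ∀ x, lg x → (N + 4) * l ≤ (σ x).length) :
    ∃ (K : List A → Prop) (_ : DecidablePred K) (pre mid : X → List A),
      Cut K l σ pre mid lg ∧
      (∀ γ ∈ Gp lg σ L R, 1 ≤ (bl K σ pre mid γ).length ∧
        (bl K σ pre mid γ).length ≤ 5 * k) ∧
      ((Gp lg σ L R).toFinset.filter (fun γ => (bl K σ pre mid γ).length ≠ 1)).card ≤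
        4 * k ^ 3 ∧
      (∀ γ ∈ Gp lg σ L R, ∀ B ∈ bl K σ pre mid γ, B.length ≤ (2 * k + 2) * ((N + 5) * l)) ∧
      (∀ x, lg x → (pre x).length ≤ (2 * k + 2) * ((N + 5) * l) ∧
        (sfx K pre mid x).length ≤ (2 * k + 2) * ((N + 5) * l)) ∧
      (∀ x, lg x → (tau K pre mid x).length ≤ k * (4 * (σ x).length / l + 2)) := by
  classical
  set d := n * S with hd
  have hd1 : 1 ≤ d := Nat.one_le_iff_ne_zero.2 (by rw [hd]; exact Nat.mul_ne_zero (by omega) (by omega))
  set E := 2 * N * d with hE
  have hE' : (2 * N + 1) * d = E + d := by rw [hE]; ring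
  rw [hE'] at hl
  have hEd : d ≤ E := by rw [hE]; nlinarith
  have hl40 : 40 * (E + d) ≤ l := by
    rw [hl]
    have : 1 * 2 ≤ k * N := Nat.mul_le_mul hk hN
    nlinarith
  have hl1 : 1 ≤ l := by omega
  have hdl : d < l := by omega
  -- the markers
  let Y : List (List A) := ((Finset.univ.filter lg).toList).map σ
  have hYmem : ∀ x, lg x → σ x ∈ Y := fun x hx => List.mem_map.2
    ⟨x, by simp [hx], rfl⟩
  have hYl : Y.length ≤ k := by
    simp only [Y, List.length_map, Finset.length_toList]
    exact (Finset.card_le_univ _).trans hX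
  have hY : ∀ y ∈ Y, EBd N y ∧ (N + 4) * l ≤ y.length := by
    intro y hy
    obtain ⟨x, hx, rfl⟩ := List.mem_map.1 hy
    have hx' : lg x := by simpa using hx
    exact ⟨hEB x, hlong x hx'⟩
  have hmk : ∀ x, ∃ m : List A, lg x → ∃ a b, σ x = a ++ m ++ b ∧ m.length = l ∧
      b.length ≤ (N + 3) * l ∧ (∀ e, 1 ≤ e → 3 * e ≤ l → ¬ Per e m) ∧
      (∀ y ∈ Y, ∀ z t, m = z ++ t → z <:+ y → 1 ≤ t.length → E + d < t.length) ∧
      (∀ y ∈ Y, ∀ t z, m = t ++ z → z <+: y → 1 ≤ t.length → E + d < t.length) := by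
    intro x
    by_cases hx : lg x
    · obtain ⟨a, m, b, h1, h2, h3, h4, h5, h6⟩ := exists_marker hk hN (by omega : 1 ≤ E + d) hl Y
        hYl hY (σ x) (hYmem x hx)
      exact ⟨m, fun _ => ⟨a, b, h1, h2, h3, h4, h5, h6⟩⟩
    · exact ⟨[], fun h => absurd h hx⟩
  choose mk hmk using hmk
  have hm : ∀ x, lg x → (mk x).length = l := by
    intro x hx
    obtain ⟨a, b, h1, h2, _⟩ := hmk x hx
    exact h2
  have hmem : ∀ x, lg x → mk x <:+: σ x := by
    intro x hx
    obtain ⟨a, b, h1, _⟩ := hmk x hx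
    exact ⟨a, b, h1.symm⟩
  have hR : ∀ x, lg x → ∀ y, lg y → ∀ z t, mk x = z ++ t → z <:+ σ y → 1 ≤ t.length →
      E + d < t.length := by
    intro x hx y hy
    obtain ⟨a, b, _, _, _, _, h5, _⟩ := hmk x hx
    exact h5 (σ y) (hYmem y hy)
  have hL : ∀ x, lg x → ∀ y, lg y → ∀ t z, mk x = t ++ z → z <+: σ y → 1 ≤ t.length →
      E + d < t.length := by
    intro x hx y hy
    obtain ⟨a, b, _, _, _, _, _, h6⟩ := hmk x hx
    exact h6 (σ y) (hYmem y hy)
  have hper : ∀ x, lg x → ∀ e, 1 ≤ e → e ≤ l / 3 → ¬ Per e (mk x) := by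
    intro x hx e h1 h2
    obtain ⟨a, b, _, _, _, h4, _⟩ := hmk x hx
    exact h4 e h1 (by omega)
  have hlong' : ∀ x, lg x → l ≤ (σ x).length := by
    intro x hx
    have := hlong x hx
    nlinarith
  obtain ⟨pre, mid, hC, hF⟩ := cut_exists σ hl1 hm hmem
  have hsfx : ∀ x, lg x → (sfx (KM lg mk) pre mid x).length ≤ (N + 3) * l := by
    intro x hx
    obtain ⟨a, b, h1, _, h3, _⟩ := hmk x hx
    exact (sfx_le hm hC hF hx h1).trans h3
  set c := (N + 5) * l with hc
  have hs : ∀ x, lg x → (sfx (KM lg mk) pre mid x).length + d + l ≤ c := by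
    intro x hx
    have h1 := hsfx x hx
    have h2 : c = (N + 3) * l + l + l := by rw [hc]; ring
    omega
  have hc0 : d + l ≤ c := by
    have h2 : c = (N + 3) * l + l + l := by rw [hc]; ring
    omega
  have hGp : ∀ γ ∈ Gp lg σ L R, (∀ x, γ.1 = some x → lg x) ∧ γ.2.1.length ≤ d ∧
      (∀ x, γ.2.2 = some x → lg x) := fun γ hγ => mem_Gp_bd hS hlen hshort hγ
  have hlast : ∀ γ ∈ Gp lg σ L R, γ.2.2 = none → (bl (KM lg mk) σ pre mid γ).length = 1 := by
    rintro ⟨o, G, o'⟩ hγ h1
    obtain ⟨h2, h3, h4⟩ := hGp _ hγ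
    simp only at h1 h2 h3 h4
    subst h1
    cases o with
    | none => exact bl_first (E' := E + d) (by omega) hdl hm hC hF hL G h3 none (by simp)
    | some x => exact bl_last (E' := E + d) (by omega) hdl hm hlong' hR G h3 x (h2 x rfl)
  have hend : ∀ o G, (o, G, none) ∈ Gp lg σ L R → ∀ B ∈ bl (KM lg mk) σ pre mid (o, G, none),
      B.length ≤ c := by
    intro o G hγ B hB
    obtain ⟨h2, h3, h4⟩ := hGp _ hγ
    simp only at h2 h3 h4
    have h5 := hC.flatten_bl (o, G, none) h4
    have h6 : B.length ≤ (bl (KM lg mk) σ pre mid (o, G, none)).flatten.length := by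
      rw [List.length_flatten]
      exact List.le_sum_of_mem (List.mem_map_of_mem hB)
    rw [h5] at h6
    simp only [ox, List.length_append, List.length_nil] at h6
    cases o with
    | none => simp only [List.length_nil] at h6; omega
    | some x =>
      have := hs x (h2 x rfl)
      simp only at h6
      omega
  have hst : ∀ o G y, (o, G, some y) ∈ Gp lg σ L R → ∃ B last,
      bl (KM lg mk) σ pre mid (o, G, some y) = B ++ [last] ∧ B.flatten.length ≤ c ∧
      (pre y).length + 1 ≤ last.length + l ∧ last.length ≤ (pre y).length + c := by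
    intro o G y hγ
    obtain ⟨h2, h3, h4⟩ := hGp _ hγ
    exact bl_struct hm hC hF hs hc0 G h3 o h2 y (h4 y rfl)
  have hden := density L R hC hmin hX (by omega : l ≤ c) hst hend
  refine ⟨KM lg mk, inferInstance, pre, mid, hC, ?_, ?_, ?_, ?_, ?_⟩
  · rintro ⟨o, G, o'⟩ hγ
    obtain ⟨h2, h3, h4⟩ := hGp _ hγ
    refine ⟨bl_ne_nil hC _ h4, ?_⟩
    cases o' with
    | none => rw [hlast _ hγ rfl]; omega
    | some y =>
      obtain ⟨last, h5, _⟩ := bl_split hm hC hF o G y (h4 y rfl)
      rw [h5, List.length_append, List.length_singleton]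
      have h6 := out_length_le (lg := lg) (mk := mk) (g := l / 3) (by omega) hper (ox σ o)
        (ox (sfx (KM lg mk) pre mid) o) (G ++ (pre y).take (l - 1))
      have h7 : (G ++ (pre y).take (l - 1)).length ≤ d + l := by
        rw [List.length_append, List.length_take]
        simp only at h3
        omega
      have h8 : (G ++ (pre y).take (l - 1)).length / (l / 3) ≤ 3 := by
        rw [Nat.div_le_iff_le_mul_add_pred (by omega)]
        omega
      have h9 : Fintype.card X * ((G ++ (pre y).take (l - 1)).length / (l / 3) + 1) ≤ k * 4 :=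
        Nat.mul_le_mul hX (by omega)
      omega
  · have hml : 2 * N * (N + 1) * d + d < l := by
      rw [hl]
      have h1 : E + d = (2 * N + 1) * d := hE'.symm
      rw [h1]
      have h2 : 20 * 1 * N * ((2 * N + 1) * d) ≤ 20 * k * N * ((2 * N + 1) * d) := by
        refine Nat.mul_le_mul_right _ (Nat.mul_le_mul_right _ (by omega))
      have h3 : 2 * N * (N + 1) * d + d < 20 * 1 * N * ((2 * N + 1) * d) := by nlinarith
      omega
    let SS : X × X × X → Finset (List A) := fun t =>
      ((Gp lg σ L R).toFinset.image (fun γ => γ.2.1)).filter (fun G => lg t.2.2 ∧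
        G.length ≤ d ∧ ∃ u' v', mk t.2.2 = u' ++ G ++ v' ∧ u' <:+ σ t.1 ∧ v' <+: σ t.2.1 ∧
        E < u'.length ∧ E < v'.length)
    have hSS : ∀ t, (SS t).card ≤ 4 := by
      intro t
      by_cases ht : lg t.2.2
      · have h1 : EBd N (mk t.2.2) := (hEB t.2.2).factor (hmem _ ht)
        exact few_gaps (hEB t.1) h1 (by omega) (le_refl _ : 2 * N * d ≤ E) hd1
          (by rw [hm _ ht]; exact hml) (SS t) (v := σ t.2.1)
          (fun G hG => (Finset.mem_filter.1 hG).2.2)
      · have h1 : SS t = ∅ := by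
          refine Finset.filter_eq_empty_iff.2 ?_
          intro G _ h2
          exact ht h2.1
        rw [h1]; simp
    have hsub : (Gp lg σ L R).toFinset.filter
        (fun γ => (bl (KM lg mk) σ pre mid γ).length ≠ 1) ⊆
        (Finset.univ : Finset (X × X × X)).biUnion
          (fun t => (SS t).image (fun G => (some t.1, G, some t.2.1))) := by
      rintro ⟨o, G, o'⟩ hγ
      obtain ⟨hγ, h1⟩ := Finset.mem_filter.1 hγ
      rw [List.mem_toFinset] at hγ
      obtain ⟨h2, h3, h4⟩ := hGp _ hγ
      simp only at h2 h3 h4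
      cases o' with
      | none => exact absurd (hlast _ hγ rfl) h1
      | some y =>
        cases o with
        | none =>
          have h5 := bl_first (E' := E + d) (by omega) hdl hm hC hF hL G h3 (some y) h4
          exact absurd h5 h1
        | some x =>
          obtain ⟨z, hz, hz2⟩ := bl_mid (E' := E + d) rfl hdl hm hlong' hC hF hR hL G h3 x y
            (h2 x rfl) (h4 y rfl) h1
          refine Finset.mem_biUnion.2 ⟨(x, y, z), Finset.mem_univ _, Finset.mem_image.2
            ⟨G, Finset.mem_filter.2 ⟨Finset.mem_image.2 ⟨_, List.mem_toFinset.2 hγ, rfl⟩,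
              hz, h3, hz2⟩, rfl⟩⟩
    calc _ ≤ ((Finset.univ : Finset (X × X × X)).biUnion
          (fun t => (SS t).image (fun G => (some t.1, G, some t.2.1)))).card :=
          Finset.card_le_card hsub
      _ ≤ ∑ t : X × X × X, ((SS t).image (fun G => (some t.1, G, some t.2.1))).card :=
          Finset.card_biUnion_le
      _ ≤ ∑ t : X × X × X, 4 := Finset.sum_le_sum (fun t _ => Finset.card_image_le.trans (hSS t))
      _ = (Fintype.card X) ^ 3 * 4 := by
          rw [Finset.sum_const, Finset.card_univ, smul_eq_mul, Fintype.card_prod,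
            Fintype.card_prod]
          ring
      _ ≤ k ^ 3 * 4 := Nat.mul_le_mul_right _ (Nat.pow_le_pow_left hX 3)
      _ = 4 * k ^ 3 := by ring
  · rintro ⟨o, G, o'⟩ hγ B hB
    have hcc : c ≤ (2 * k + 2) * c := by nlinarith
    cases o' with
    | none => exact (hend o G hγ B hB).trans hcc
    | some y =>
      obtain ⟨h2, h3, h4⟩ := hGp _ hγ
      obtain ⟨B', last, h5, h6, h7, h8⟩ := hst o G y hγ
      rw [h5] at hB
      rcases List.mem_append.1 hB with hB | hB
      · have : B.length ≤ B'.flatten.length := by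
          rw [List.length_flatten]
          exact List.le_sum_of_mem (List.mem_map_of_mem hB)
        omega
      · rw [List.mem_singleton] at hB
        rw [hB]
        have h9 := hden y (h4 y rfl)
        have h10 : (2 * k + 2) * c = (2 * k + 1) * c + c := by ring
        omega
  · intro x hx
    have hcc : c ≤ (2 * k + 2) * c := by nlinarith
    have h9 := hden x hx
    have h10 : (2 * k + 2) * c = (2 * k + 1) * c + c := by ring
    have h11 := hs x hx
    exact ⟨by omega, by omega⟩
  · intro x hx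
    have h6 := out_length_le (lg := lg) (mk := mk) (g := l / 3) (by omega) hper (pre x) [] (mid x)
    have h7 : (mid x).length ≤ (σ x).length := by
      rw [hC.split x hx, List.length_append]; omega
    have h8 : (mid x).length / (l / 3) ≤ 4 * (σ x).length / l := by
      rw [Nat.le_div_iff_mul_le (by omega)]
      have h9 : (mid x).length / (l / 3) * (l / 3) ≤ (mid x).length := Nat.div_mul_le_self _ _
      have h10 : l ≤ 4 * (l / 3) := by omega
      calc (mid x).length / (l / 3) * l ≤ (mid x).length / (l / 3) * (4 * (l / 3)) :=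
            Nat.mul_le_mul_left _ h10
        _ = 4 * ((mid x).length / (l / 3) * (l / 3)) := by ring
        _ ≤ 4 * (σ x).length := by omega
    refine h6.trans (Nat.mul_le_mul hX (by omega))

end WK
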