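import Pool.Agent.WK.Defs64
import Pool.Agent.WK.Code50

/-! Word equations with boundedly many variables (MP_fc7ad9_lc). Helper module:
short words with the same equalities of blocks. -/

set_option autoImplicit false

open WE45 WK64

namespace WK

universe u w

open Pool.Agent.WK

section Sym

variable {A : Type u} {X : Type w} {e β : ℕ}

/-- symbolic word of the left end of a block -/
def symS (e β : ℕ) (o : Option X) : List (A ⊕ ((Bool × X) ⊕ (Fin e × Fin β))) :=
  match o with
  | none => []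
  | some x => [.inr (.inl (true, x))]

/-- symbolic word of the right end of a block -/
def symP (e β : ℕ) (o : Option X) : List (A ⊕ ((Bool × X) ⊕ (Fin e × Fin β))) :=
  match o with
  | none => []
  | some x => [.inr (.inl (false, x))]

/-- symbolic word of a block -/
def symN (e β : ℕ) (γ : Option X × List A × Option X) :
    List (A ⊕ ((Bool × X) ⊕ (Fin e × Fin β))) :=
  symS e β γ.1 ++ (γ.2.1.map Sum.inl ++ symP e β γ.2.2)

/-- the blocks of an exceptional triple -/
def bx29 (m : Fin e → ℕ) (σ : (Bool × X) ⊕ (Fin e × Fin β) → List A) (c : Fin e) :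
    List (List A) :=
  (List.range (m c)).map (fun j => if h : j < β then σ (.inr (c, ⟨j, h⟩)) else [])

/-- symbolic word of their product -/
def symU (m : Fin e → ℕ) (c : Fin e) : List (A ⊕ ((Bool × X) ⊕ (Fin e × Fin β))) :=
  (List.range (m c)).flatMap (fun j => if h : j < β then [.inr (.inr (c, ⟨j, h⟩))] else [])

theorem sb_symS (σ : (Bool × X) ⊕ (Fin e × Fin β) → List A) (o : Option X) :
    sb σ (symS e β o) = ox (fun x => σ (.inl (true, x))) o := by
  cases o with
  | none => rfl
  | some x => simp [symS, ox, sb]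

theorem sb_symP (σ : (Bool × X) ⊕ (Fin e × Fin β) → List A) (o : Option X) :
    sb σ (symP e β o) = ox (fun x => σ (.inl (false, x))) o := by
  cases o with
  | none => rfl
  | some x => simp [symP, ox, sb]

theorem sb_map_inl29 {Y : Type*} (σ : Y → List A) (g : List A) :
    sb σ (g.map (Sum.inl : A → A ⊕ Y)) = g := by
  induction g with
  | nil => rfl
  | cons a l ih => rw [List.map_cons, sb_inl, ih]

theorem sb_symN (σ : (Bool × X) ⊕ (Fin e × Fin β) → List A) (γ : Option X × List A × Option X) :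
    sb σ (symN e β γ) = ox (fun x => σ (.inl (true, x))) γ.1 ++ γ.2.1 ++
      ox (fun x => σ (.inl (false, x))) γ.2.2 := by
  unfold symN
  rw [sb_append, sb_append, sb_symS, sb_symP, sb_map_inl29, List.append_assoc]

theorem sb_symU (m : Fin e → ℕ) (σ : (Bool × X) ⊕ (Fin e × Fin β) → List A) (c : Fin e) :
    sb σ (symU m c) = (bx29 m σ c).flatten := by
  unfold symU bx29
  induction List.range (m c) with
  | nil => rfl
  | cons j l ih =>
    rw [List.flatMap_cons, sb_append, ih, List.map_cons, List.flatten_cons]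
    congr 1
    split_ifs with h
    · simp [sb]
    · rfl

theorem count_symN (γ : Option X × List A × Option X) :
    (symN e β γ).countP Sum.isRight ≤ 2 ∧ (symN e β γ).length ≤ γ.2.1.length + 2 := by
  obtain ⟨o, g, o'⟩ := γ
  have h1 : (g.map (Sum.inl : A → A ⊕ ((Bool × X) ⊕ (Fin e × Fin β)))).countP Sum.isRight = 0 := by
    induction g with
    | nil => rfl
    | cons a l ih => simp
  unfold symN
  simp only [List.countP_append, List.length_append, List.length_map]
  rw [h1]
  cases o <;> cases o' <;> simp [symS, symP] <;> omega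

theorem length_symU (m : Fin e → ℕ) (c : Fin e) :
    (symU (A := A) (X := X) (β := β) m c).length ≤ m c := by
  unfold symU
  have key : ∀ l : List ℕ, (l.flatMap (fun j => if h : j < β then
      ([.inr (.inr (c, ⟨j, h⟩))] : List (A ⊕ ((Bool × X) ⊕ (Fin e × Fin β)))) else [])).length ≤
      l.length := by
    intro l
    induction l with
    | nil => simp
    | cons j l ih =>
      rw [List.flatMap_cons, List.length_append, List.length_cons]
      split_ifs
      · simp only [List.length_singleton]; omega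
      · simp only [List.length_nil]; omega
  simpa using key (List.range (m c))

theorem bx29_length (m : Fin e → ℕ) (σ : (Bool × X) ⊕ (Fin e × Fin β) → List A) (c : Fin e) :
    (bx29 m σ c).length = m c := by
  simp [bx29]

theorem bx29_getD (m : Fin e → ℕ) (σ : (Bool × X) ⊕ (Fin e × Fin β) → List A) (c : Fin e)
    (j : Fin β) (h : (j : ℕ) < m c) : (bx29 m σ c).getD j [] = σ (.inr (c, j)) := by
  rw [List.getD_eq_getElem _ _ (by rw [bx29_length]; exact h)]
  simp [bx29]

/-- the blocks of the given scale -/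
theorem bx29_self (b : List (List A)) (m : Fin e → ℕ) (c : Fin e) (hm : m c = b.length)
    (hβ : b.length ≤ β) (σ : (Bool × X) ⊕ (Fin e × Fin β) → List A)
    (h : ∀ j : Fin β, σ (.inr (c, j)) = b.getD j []) : bx29 m σ c = b := by
  apply List.ext_getElem
  · rw [bx29_length, hm]
  · intro i h1 h2
    have h3 : i < β := by omega
    simp only [bx29, List.getElem_map, List.getElem_range, dif_pos h3, h]
    rw [List.getD_eq_getElem _ _ h2]

end Sym

/-- bounded systems of word equations with few occurrences have short solutions -/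
def FewSys (v C : ℕ) : Prop := ∀ {A : Type u} {X : Type w} [Fintype X]
    (E : List (List (A ⊕ X) × List (A ⊕ X))) (N : ℕ), E.length ≤ v →
    (∀ t ∈ E, (t.1 ++ t.2).countP Sum.isRight ≤ v) →
    (∀ t ∈ E, t.1.length + t.2.length ≤ N) →
    (∃ σ : X → List A, ∀ t ∈ E, sb σ t.1 = sb σ t.2) →
    ∃ σ : X → List A, (∀ t ∈ E, sb σ t.1 = sb σ t.2) ∧ ∑ x, (σ x).length ≤ C * (N + 1) ^ C

theorem shrink_core {k β e v C : ℕ} (hv : v = e + (3 * (k + 1) ^ 2 + e * β) + β + 4)
    (hsys : FewSys.{u, w} v C) {A : Type u} {X : Type w} [Fintype A] [Fintype X] (d : ℕ) (T : Finset (Option X × List A × Option X))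
    (s p : X → List A) (b : Option X × List A × Option X → List (List A))
    (hk : Fintype.card X ≤ k)
    (hfl : ∀ γ ∈ T, (b γ).flatten = ox s γ.1 ++ γ.2.1 ++ ox p γ.2.2)
    (hβ : ∀ γ ∈ T, (b γ).length ≤ β)
    (he : (T.filter (fun γ => (b γ).length ≠ 1)).card ≤ e)
    (hd : ∀ γ ∈ T, γ.2.1.length ≤ d) :
    ∃ (s' p' : X → List A) (φ : List A → List A),
      (∀ γ ∈ T, ((b γ).map φ).flatten = ox s' γ.1 ++ γ.2.1 ++ ox p' γ.2.2) ∧
      (∀ x, (s' x).length ≤ C * (2 * d + β + 4 + 1) ^ C ∧
        (p' x).length ≤ C * (2 * d + β + 4 + 1) ^ C) ∧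
      ∀ B, (φ B).length ≤ 2 * (C * (2 * d + β + 4 + 1) ^ C) + d := by
  classical
  let _inst : DecidableEq (Option X) := fun a b => Classical.propDecidable (a = b)
  rcases T.eq_empty_or_nonempty with hT | hT
  · subst hT
    exact ⟨fun _ => [], fun _ => [], fun _ => [], by simp, by simp, by simp⟩
  -- listing of the exceptional triples
  obtain ⟨ex, hex1, hex2⟩ := enum50 (T.filter (fun γ => (b γ).length ≠ 1)) T
    (Finset.filter_subset _ _) hT e he
  have hex3 : ∀ γ ∈ T, (¬ ∃ c, ex c = γ) → (b γ).length = 1 := by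
    intro γ hγ h
    by_contra h2
    exact h (hex2 γ (Finset.mem_filter.2 ⟨hγ, h2⟩))
  -- coding of letters
  obtain ⟨en, hen1, hen2, hen3⟩ : ∃ en : A → ℕ, Function.Injective en ∧ (∀ a, 1 ≤ en a) ∧
      ∀ a, en a < Fintype.card A + 2 := by
    refine ⟨fun a => (Fintype.equivFin A a).1 + 1, ?_, ?_, ?_⟩
    · intro x y hxy
      have h1 : (Fintype.equivFin A x).1 = (Fintype.equivFin A y).1 := by
        simpa using hxy
      exact (Fintype.equivFin A).injective (Fin.ext h1)
    · intro a
      dsimp only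
      omega
    · intro a
      have := (Fintype.equivFin A a).2
      dsimp only
      omega
  have hq : 1 < Fintype.card A + 2 := by omega
  obtain ⟨q, hqdef⟩ : ∃ q, q = Fintype.card A + 2 := ⟨_, rfl⟩
  rw [← hqdef] at hq hen3
  have vinj : ∀ {u w : List A}, val50 en q u = val50 en q w → u = w :=
    fun h => val50_inj en q hq hen1 hen2 hen3 h
  let m : Fin e → ℕ := fun c => (b (ex c)).length
  let V : ((Bool × X) ⊕ (Fin e × Fin β) → List A) → Kp50 (Option X) e β → ℚ := fun σ =>
    vec50 en q e β (ox (fun x => σ (.inl (true, x)))) (ox (fun x => σ (.inl (false, x))))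
      (bx29 m σ)
  -- the given scale
  let σ0 : (Bool × X) ⊕ (Fin e × Fin β) → List A := Sum.elim
    (fun z => if z.1 then s z.2 else p z.2) (fun z => (b (ex z.1)).getD z.2 [])
  have hbx0 : ∀ c, bx29 m σ0 c = b (ex c) := fun c =>
    bx29_self (b (ex c)) m c rfl (hβ _ (hex1 c)) σ0 (fun j => rfl)
  have hs0 : (fun x => σ0 (.inl (true, x))) = s := by funext x; simp [σ0]
  have hp0 : (fun x => σ0 (.inl (false, x))) = p := by funext x; simp [σ0]
  let CC : Finset (Kp50 (Option X) e β → ℚ) := T.image (cN50 en q e β) ∪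
    ((Finset.univ : Finset (Fin e × Fin β)).filter (fun z => (z.2 : ℕ) < m z.1)).image (cU50 e β)
  let D : Finset (Kp50 (Option X) e β → ℚ) := (CC ×ˢ CC).image (fun z => z.1 - z.2)
  -- words of functionals
  have hword : ∀ z ∈ CC, ∃ W : List (A ⊕ ((Bool × X) ⊕ (Fin e × Fin β))),
      W.countP Sum.isRight ≤ 2 ∧ W.length ≤ d + 2 ∧
      ∀ σ, z ⬝ᵥ V σ = (val50 en q (sb σ W) : ℚ) := by
    intro z hz
    rcases Finset.mem_union.1 hz with hz | hz
    · obtain ⟨γ, hγ, rfl⟩ := Finset.mem_image.1 hz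
      refine ⟨symN e β γ, (count_symN γ).1, ?_, ?_⟩
      · have := (count_symN (e := e) (β := β) γ).2
        have := hd γ hγ
        omega
      · intro σ
        rw [sb_symN]
        exact dot_cN50 en q e β _ _ _ γ
    · obtain ⟨x, hx, rfl⟩ := Finset.mem_image.1 hz
      have hx2 := (Finset.mem_filter.1 hx).2
      refine ⟨[.inr (.inr x)], by simp, by simp, ?_⟩
      intro σ
      have h1 := dot_cU50 en q e β (ox (fun y => σ (.inl (true, y))))
        (ox (fun y => σ (.inl (false, y)))) (bx29 m σ) x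
      show cU50 e β x ⬝ᵥ vec50 en q e β _ _ _ = _
      rw [h1, bx29_getD m σ x.1 x.2 hx2]
      simp [sb]
  obtain ⟨g, hg1, hg2⟩ := code50_basis D (V σ0)
  have hgw : ∀ a, ∃ W : List (A ⊕ ((Bool × X) ⊕ (Fin e × Fin β))) ×
      List (A ⊕ ((Bool × X) ⊕ (Fin e × Fin β))),
      (W.1 ++ W.2).countP Sum.isRight ≤ 4 ∧ W.1.length + W.2.length ≤ 2 * d + 4 ∧
      ∀ σ, g a ⬝ᵥ V σ = (val50 en q (sb σ W.1) : ℚ) - (val50 en q (sb σ W.2) : ℚ) := by
    intro a
    rcases Finset.mem_insert.1 (hg1 a) with h | h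
    · refine ⟨([], []), by simp, by simp, ?_⟩
      intro σ
      rw [h]
      simp
    · obtain ⟨z, hz, hz2⟩ := Finset.mem_image.1 h
      obtain ⟨hz3, hz4⟩ := Finset.mem_product.1 hz
      obtain ⟨W1, a1, a2, a3⟩ := hword _ hz3
      obtain ⟨W2, b1, b2, b3⟩ := hword _ hz4
      refine ⟨(W1, W2), ?_, ?_, ?_⟩
      · simp only [List.countP_append]; omega
      · simp only; omega
      · intro σ
        rw [← hz2, sub_dotProduct, a3, b3]
  choose W hW1 hW2 hW3 using hgw
  -- the functionals `g a` vanish at the given scale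
  have hg0 : ∀ a, g a ⬝ᵥ V σ0 = 0 := by
    intro a
    rcases Finset.mem_insert.1 (hg1 a) with h | h
    · rw [h, zero_dotProduct]
    · exact (hg2 _ h).2 (Submodule.subset_span ⟨a, rfl⟩)
  let E : List (List (A ⊕ ((Bool × X) ⊕ (Fin e × Fin β))) ×
      List (A ⊕ ((Bool × X) ⊕ (Fin e × Fin β)))) :=
    List.ofFn (fun c : Fin e => (symU m c, symN e β (ex c))) ++ List.ofFn W
  have hE1 : ∀ c : Fin e, (symU m c, symN e β (ex c)) ∈ E := fun c =>
    List.mem_append_left _ (List.mem_ofFn.2 ⟨c, rfl⟩)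
  have hE2 : ∀ a, W a ∈ E := fun a => List.mem_append_right _ (List.mem_ofFn.2 ⟨a, rfl⟩)
  have hE3 : ∀ t ∈ E, (∃ c : Fin e, t = (symU m c, symN e β (ex c))) ∨ ∃ a, t = W a := by
    intro t ht
    rcases List.mem_append.1 ht with h | h
    · obtain ⟨c, hc⟩ := List.mem_ofFn.1 h
      exact Or.inl ⟨c, hc.symm⟩
    · obtain ⟨c, hc⟩ := List.mem_ofFn.1 h
      exact Or.inr ⟨c, hc.symm⟩
  have hκ : Fintype.card (Kp50 (Option X) e β) ≤ 3 * (k + 1) ^ 2 + e * β := by
    have h1 : Fintype.card (Kp50 (Option X) e β) = 3 * (Fintype.card (Option X)) ^ 2 + e * β := by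
      simp only [Kp50, Fintype.card_sum, Fintype.card_prod, Fintype.card_fin]
      ring
    rw [h1, Fintype.card_option]
    have h2 : (Fintype.card X + 1) ^ 2 ≤ (k + 1) ^ 2 := Nat.pow_le_pow_left (by omega) 2
    omega
  have hsol : ∃ σ : (Bool × X) ⊕ (Fin e × Fin β) → List A, ∀ t ∈ E, sb σ t.1 = sb σ t.2 := by
    refine ⟨σ0, ?_⟩
    intro t ht
    rcases hE3 t ht with ⟨c, rfl⟩ | ⟨a, rfl⟩
    · show sb σ0 (symU m c) = sb σ0 (symN e β (ex c))
      rw [sb_symU, sb_symN, hbx0, hs0, hp0]
      exact hfl _ (hex1 c)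
    · apply vinj
      have h1 := hW3 a σ0
      rw [hg0 a] at h1
      have h2 : (val50 en q (sb σ0 (W a).1) : ℚ) = (val50 en q (sb σ0 (W a).2) : ℚ) := by
        linarith
      exact_mod_cast h2
  obtain ⟨σ, hσ1, hσ2⟩ := hsys E (2 * d + β + 4) (by
      simp only [E, List.length_append, List.length_ofFn]
      omega) (by
      intro t ht
      rcases hE3 t ht with ⟨c, rfl⟩ | ⟨a, rfl⟩
      · simp only [List.countP_append]
        have h1 := (count_symN (e := e) (β := β) (ex c)).1
        have h2 := length_symU (A := A) (X := X) (β := β) m c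
        have h3 : (symU (A := A) (X := X) (β := β) m c).countP Sum.isRight ≤
          (symU (A := A) (X := X) (β := β) m c).length := List.countP_le_length
        have h4 : m c ≤ β := hβ _ (hex1 c)
        omega
      · have := hW1 a
        omega) (by
      intro t ht
      rcases hE3 t ht with ⟨c, rfl⟩ | ⟨a, rfl⟩
      · have h1 := (count_symN (e := e) (β := β) (ex c)).2
        have h2 := length_symU (A := A) (X := X) (β := β) m c
        have h4 : m c ≤ β := hβ _ (hex1 c)
        have h5 := hd _ (hex1 c)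
        show (symU m c).length + (symN e β (ex c)).length ≤ _
        omega
      · have := hW2 a
        omega) hsol
  obtain ⟨M, hM⟩ : ∃ M, M = C * (2 * d + β + 4 + 1) ^ C := ⟨_, rfl⟩
  rw [← hM] at hσ2 ⊢
  have hle : ∀ y, (σ y).length ≤ M := fun y =>
    (Finset.single_le_sum (f := fun y => (σ y).length) (fun _ _ => Nat.zero_le _)
      (Finset.mem_univ y)).trans hσ2
  -- `D`-functionals that vanish at the given scale vanish at the new words
  have hVs : ∀ dd ∈ D, dd ⬝ᵥ V σ0 = 0 → dd ⬝ᵥ V σ = 0 := by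
    intro dd hdd h0
    have h1 := (hg2 dd hdd).1 h0
    have hle2 : Submodule.span ℚ (Set.range g) ≤
        LinearMap.ker (dotProductBilin (R := ℚ) (S := ℚ) (A := ℚ)
          (m := Kp50 (Option X) e β) |>.flip (V σ)) := by
      rw [Submodule.span_le]
      rintro _ ⟨a, rfl⟩
      have h2 := hσ1 (W a) (hE2 a)
      have h3 := hW3 a σ
      rw [h2, sub_self] at h3
      simpa using h3
    have := hle2 h1
    simpa using this
  let s' : X → List A := fun x => σ (.inl (true, x))
  let p' : X → List A := fun x => σ (.inl (false, x))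
  let b' : Option X × List A × Option X → List (List A) := fun γ =>
    if h : ∃ c, ex c = γ then bx29 m σ h.choose else [ox s' γ.1 ++ γ.2.1 ++ ox p' γ.2.2]
  have hbb : ∀ γ ∈ T, (b γ).length = (b' γ).length := by
    intro γ hγ
    by_cases h : ∃ c, ex c = γ
    · have h1 : b' γ = bx29 m σ h.choose := dif_pos h
      rw [h1, bx29_length]
      show _ = (b (ex h.choose)).length
      rw [h.choose_spec]
    · have h1 : b' γ = [ox s' γ.1 ++ γ.2.1 ++ ox p' γ.2.2] := dif_neg h
      rw [h1, hex3 γ hγ h]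
      rfl
  have hval : ∀ γ ∈ T, ∀ a, a < (b γ).length →
      (cf50 en q e β ex γ a ∈ CC ∧
        cf50 en q e β ex γ a ⬝ᵥ V σ0 = (val50 en q ((b γ).getD a []) : ℚ) ∧
        cf50 en q e β ex γ a ⬝ᵥ V σ = (val50 en q ((b' γ).getD a []) : ℚ)) := by
    intro γ hγ a ha
    have haβ : a < β := lt_of_lt_of_le ha (hβ γ hγ)
    unfold cf50
    by_cases h : ∃ c, ex c = γ
    · rw [dif_pos h, dif_pos haβ]
      have ham : a < m h.choose := by
        show a < (b (ex h.choose)).length
        rw [h.choose_spec]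
        exact ha
      refine ⟨Finset.mem_union_right _ (Finset.mem_image.2
        ⟨(h.choose, ⟨a, haβ⟩), Finset.mem_filter.2 ⟨Finset.mem_univ _, ham⟩, rfl⟩), ?_, ?_⟩
      · have h1 := dot_cU50 en q e β (ox (fun y => σ0 (.inl (true, y))))
          (ox (fun y => σ0 (.inl (false, y)))) (bx29 m σ0) (h.choose, ⟨a, haβ⟩)
        show cU50 e β (h.choose, ⟨a, haβ⟩) ⬝ᵥ vec50 en q e β _ _ _ = _
        rw [h1]
        dsimp only
        rw [hbx0, h.choose_spec]
      · have h1 := dot_cU50 en q e β (ox (fun y => σ (.inl (true, y))))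
          (ox (fun y => σ (.inl (false, y)))) (bx29 m σ) (h.choose, ⟨a, haβ⟩)
        show cU50 e β (h.choose, ⟨a, haβ⟩) ⬝ᵥ vec50 en q e β _ _ _ = _
        rw [h1]
        have h2 : b' γ = bx29 m σ h.choose := dif_pos h
        rw [h2]
    · rw [dif_neg h]
      have h1 : (b γ).length = 1 := hex3 γ hγ h
      have h4 : a = 0 := by omega
      subst h4
      refine ⟨Finset.mem_union_left _ (Finset.mem_image.2 ⟨γ, hγ, rfl⟩), ?_, ?_⟩
      · have h2 := dot_cN50 en q e β (ox (fun y => σ0 (.inl (true, y))))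
          (ox (fun y => σ0 (.inl (false, y)))) (bx29 m σ0) γ
        show cN50 en q e β γ ⬝ᵥ vec50 en q e β _ _ _ = _
        rw [h2, hs0, hp0]
        obtain ⟨B, hB⟩ := List.length_eq_one_iff.1 h1
        have h3 := hfl γ hγ
        rw [hB] at h3 ⊢
        rw [← h3]
        simp
      · have h2 := dot_cN50 en q e β (ox (fun y => σ (.inl (true, y))))
          (ox (fun y => σ (.inl (false, y)))) (bx29 m σ) γ
        show cN50 en q e β γ ⬝ᵥ vec50 en q e β _ _ _ = _
        rw [h2]
        have h5 : b' γ = [ox s' γ.1 ++ γ.2.1 ++ ox p' γ.2.2] := dif_neg h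
        rw [h5]
        rfl
  obtain ⟨φ, hφ1, hφ2⟩ := phi50 T b b' [] hbb (by
    intro γ hγ γ' hγ' a a' ha ha' heq
    obtain ⟨m1, v1, w1⟩ := hval γ hγ a ha
    obtain ⟨m2, v2, w2⟩ := hval γ' hγ' a' ha'
    have hmem : cf50 en q e β ex γ a - cf50 en q e β ex γ' a' ∈ D :=
      Finset.mem_image.2 ⟨(_, _), Finset.mem_product.2 ⟨m1, m2⟩, rfl⟩
    have h5 := hVs _ hmem (by rw [sub_dotProduct, v1, v2, heq, sub_self])
    rw [sub_dotProduct, w1, w2, sub_eq_zero, Nat.cast_inj] at h5
    exact vinj h5)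
  refine ⟨s', p', φ, ?_, fun x => ⟨hle _, hle _⟩, ?_⟩
  · intro γ hγ
    rw [hφ1 γ hγ]
    by_cases h : ∃ c, ex c = γ
    · have h1 : b' γ = bx29 m σ h.choose := dif_pos h
      have h2 := hσ1 _ (hE1 h.choose)
      rw [h1, ← sb_symU]
      have h3 : sb σ (symU m h.choose) = sb σ (symN e β (ex h.choose)) := h2
      rw [h3, h.choose_spec, sb_symN]
    · have h1 : b' γ = [ox s' γ.1 ++ γ.2.1 ++ ox p' γ.2.2] := dif_neg h
      rw [h1]
      simp
  · intro B
    rcases hφ2 B with h | ⟨γ, hγ, h⟩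
    · rw [h]
      simp
    · by_cases h0 : ∃ c, ex c = γ
      · have h1 : b' γ = bx29 m σ h0.choose := dif_pos h0
        rw [h1] at h
        obtain ⟨j, _, hj⟩ := List.mem_map.1 h
        rw [← hj]
        split_ifs with h2
        · have := hle (.inr (h0.choose, ⟨j, h2⟩))
          omega
        · simp
      · have h1 : b' γ = [ox s' γ.1 ++ γ.2.1 ++ ox p' γ.2.2] := dif_neg h0
        rw [h1, List.mem_singleton] at h
        rw [h]
        simp only [List.length_append]
        have h2 : ∀ o, (ox s' o).length ≤ M := by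
          intro o
          cases o with
          | none => simp [ox]
          | some x => exact hle _
        have h3 : ∀ o, (ox p' o).length ≤ M := by
          intro o
          cases o with
          | none => simp [ox]
          | some x => exact hle _
        have := h2 γ.1
        have := h3 γ.2.2
        have := hd γ hγ
        omega

/-- the row B4 -/
theorem shrink_of (few : ∀ v : ℕ, ∃ C, FewSys.{u, w} v C) (k β e : ℕ) : ∃ C : ℕ,
    ∀ {A : Type u} {X : Type w} [Fintype A] [Fintype X] (d : ℕ)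
      (T : Finset (Option X × List A × Option X)) (s p : X → List A)
      (b : Option X × List A × Option X → List (List A)), Fintype.card X ≤ k →
      (∀ γ ∈ T, (b γ).flatten = ox s γ.1 ++ γ.2.1 ++ ox p γ.2.2) →
      (∀ γ ∈ T, (b γ).length ≤ β) →
      (T.filter (fun γ => (b γ).length ≠ 1)).card ≤ e →
      (∀ γ ∈ T, γ.2.1.length ≤ d) →
      ∃ (s' p' : X → List A) (φ : List A → List A),
        (∀ γ ∈ T, ((b γ).map φ).flatten = ox s' γ.1 ++ γ.2.1 ++ ox p' γ.2.2) ∧
        (∀ x, (s' x).length ≤ C * (d + 1) ^ C ∧ (p' x).length ≤ C * (d + 1) ^ C) ∧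
        ∀ B, (φ B).length ≤ C * (d + 1) ^ C := by
  obtain ⟨C0, h0⟩ := few (e + (3 * (k + 1) ^ 2 + e * β) + β + 4)
  refine ⟨2 * (C0 * (β + 5) ^ C0) + C0 + 1, ?_⟩
  intro A X _ _ d T s p b hk hfl hβ he hd
  obtain ⟨s', p', φ, h1, h2, h3⟩ := shrink_core rfl h0 d T s p b hk hfl hβ he hd
  obtain ⟨G, hG⟩ : ∃ G, G = C0 * (β + 5) ^ C0 := ⟨_, rfl⟩
  have hM : C0 * (2 * d + β + 4 + 1) ^ C0 ≤ G * (d + 1) ^ C0 := by
    have e1 : 2 * d + β + 4 + 1 ≤ (β + 5) * (d + 1) := by nlinarith
    calc C0 * (2 * d + β + 4 + 1) ^ C0 ≤ C0 * ((β + 5) * (d + 1)) ^ C0 :=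
          Nat.mul_le_mul_left _ (Nat.pow_le_pow_left e1 _)
      _ = G * (d + 1) ^ C0 := by rw [hG, mul_pow, mul_assoc]
  rw [← hG]
  have hp1 : (d + 1) ^ C0 ≤ (d + 1) ^ (2 * G + C0 + 1) :=
    Nat.pow_le_pow_right (by omega) (by omega)
  have hp2 : d + 1 ≤ (d + 1) ^ (2 * G + C0 + 1) := by
    calc d + 1 = (d + 1) ^ 1 := (pow_one _).symm
      _ ≤ _ := Nat.pow_le_pow_right (by omega) (by omega)
  obtain ⟨P, hP⟩ : ∃ P, P = (d + 1) ^ (2 * G + C0 + 1) := ⟨_, rfl⟩
  rw [← hP] at hp1 hp2 ⊢
  have hM2 : C0 * (2 * d + β + 4 + 1) ^ C0 ≤ G * P := hM.trans (Nat.mul_le_mul_left _ hp1)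
  have hfin : 2 * (C0 * (2 * d + β + 4 + 1) ^ C0) + d ≤ (2 * G + C0 + 1) * P := by
    have e2 : (2 * G + C0 + 1) * P = 2 * (G * P) + C0 * P + P := by ring
    rw [e2]
    omega
  refine ⟨s', p', φ, h1, fun x => ⟨?_, ?_⟩, fun B => (h3 B).trans hfin⟩
  · have := (h2 x).1
    omega
  · have := (h2 x).2
    omega

end WK
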