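import Pool.Agent.WK.Shrink50

/-!
# Word equations: short words for the blocks of one scale, explicit bound (helper50)
-/

set_option autoImplicit false

open WE45 WK64 Pool.Agent.WK

namespace WK

universe u w

theorem v50_le (k β e : ℕ) : v50 k β e + 1 ≤ 11 * (k + β + e + 1) ^ 2 := by
  unfold v50
  nlinarith [Nat.zero_le k, Nat.zero_le β, Nat.zero_le e, Nat.zero_le (k * β), Nat.zero_le (k * e),
    Nat.zero_le (β * e), Nat.zero_le (k * k), Nat.zero_le (β * β), Nat.zero_le (e * e)]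

theorem shrink_lin_arith (C : ℕ) : ∃ C' : ℕ, ∀ k β e d : ℕ,
    2 * ((2 * d + β + 4 + 1) * 2 ^ (2 ^ (C * (v50 k β e + 1) ^ C))) + d ≤
      (d + 1) * 2 ^ (2 ^ (C' * (k + β + e + 1) ^ C')) := by
  refine ⟨C * 11 ^ C + 2 * C + 6, ?_⟩
  intro k β e d
  set t := k + β + e + 1 with ht
  have ht1 : 1 ≤ t := by omega
  set a := C * (v50 k β e + 1) ^ C with ha
  set C' := C * 11 ^ C + 2 * C + 6 with hC'
  have h1 : a ≤ C * 11 ^ C * t ^ (2 * C) := by
    calc a ≤ C * (11 * t ^ 2) ^ C := by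
          rw [ha]; exact Nat.mul_le_mul_left _ (Nat.pow_le_pow_left (v50_le k β e) C)
      _ = C * 11 ^ C * t ^ (2 * C) := by rw [mul_pow, ← pow_mul]; ring
  have h2 : a + 4 * t + 1 ≤ C' * t ^ C' := by
    have b1 : t ^ (2 * C) ≤ t ^ C' := Nat.pow_le_pow_right ht1 (by omega)
    have b2 : t ≤ t ^ C' := by
      calc t = t ^ 1 := (pow_one t).symm
        _ ≤ t ^ C' := Nat.pow_le_pow_right ht1 (by omega)
    have b3 : 1 ≤ t ^ C' := Nat.one_le_pow _ _ ht1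
    calc a + 4 * t + 1 ≤ C * 11 ^ C * t ^ C' + 4 * t ^ C' + t ^ C' :=
          Nat.add_le_add (Nat.add_le_add (h1.trans (Nat.mul_le_mul_left _ b1))
            (Nat.mul_le_mul_left _ b2)) b3
      _ = (C * 11 ^ C + 5) * t ^ C' := by ring
      _ ≤ C' * t ^ C' := Nat.mul_le_mul_right _ (by omega)
  have h3 : 10 * t + 1 ≤ 2 ^ (4 * t) := by
    have : ∀ m : ℕ, 10 * (m + 1) + 1 ≤ 2 ^ (4 * (m + 1)) := by
      intro m
      induction m with
      | zero => norm_num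
      | succ m ih =>
        have e1 : 2 ^ (4 * (m + 1 + 1)) = 16 * 2 ^ (4 * (m + 1)) := by
          rw [show 4 * (m + 1 + 1) = 4 * (m + 1) + 4 by ring, pow_add]; norm_num; ring
        omega
    obtain ⟨m, hm⟩ : ∃ m, t = m + 1 := ⟨t - 1, by omega⟩
    rw [hm]
    exact this m
  have h4 : 4 * t + 2 ^ a ≤ 2 ^ (C' * t ^ C') := by
    calc 4 * t + 2 ^ a ≤ 2 ^ (4 * t) + 2 ^ a := by
          have := Nat.lt_two_pow_self (n := 4 * t)
          omega
      _ ≤ 2 ^ (a + 4 * t) + 2 ^ (a + 4 * t) := by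
          refine Nat.add_le_add ?_ ?_ <;> exact Nat.pow_le_pow_right (by norm_num) (by omega)
      _ = 2 ^ (a + 4 * t + 1) := by ring
      _ ≤ 2 ^ (C' * t ^ C') := Nat.pow_le_pow_right (by norm_num) h2
  have h5 : 2 * d + β + 4 + 1 ≤ 5 * t * (d + 1) := by
    have : β + 5 ≤ 5 * t := by omega
    calc 2 * d + β + 4 + 1 ≤ (β + 5) * (d + 1) := by nlinarith
      _ ≤ 5 * t * (d + 1) := Nat.mul_le_mul_right _ this
  have h6 : 1 ≤ 2 ^ (2 ^ a) := Nat.one_le_two_pow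
  calc 2 * ((2 * d + β + 4 + 1) * 2 ^ (2 ^ a)) + d
      ≤ 2 * (5 * t * (d + 1) * 2 ^ (2 ^ a)) + (d + 1) * 2 ^ (2 ^ a) := by
        refine Nat.add_le_add (Nat.mul_le_mul_left _ (Nat.mul_le_mul_right _ h5)) ?_
        calc d ≤ (d + 1) * 1 := by omega
          _ ≤ _ := Nat.mul_le_mul_left _ h6
    _ = (d + 1) * ((10 * t + 1) * 2 ^ (2 ^ a)) := by ring
    _ ≤ (d + 1) * (2 ^ (4 * t) * 2 ^ (2 ^ a)) :=
        Nat.mul_le_mul_left _ (Nat.mul_le_mul_right _ h3)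
    _ = (d + 1) * 2 ^ (4 * t + 2 ^ a) := by rw [← pow_add]
    _ ≤ (d + 1) * 2 ^ (2 ^ (C' * t ^ C')) :=
        Nat.mul_le_mul_left _ (Nat.pow_le_pow_right (by norm_num) h4)

/-- Short words for the blocks of one scale, linear in the length of the gap words, from the
linear bound for systems. -/
theorem shrink_lin_of (hU : ∃ C : ℕ, ∀ {A : Type u} {X : Type w} [Fintype A] [Fintype X]
      (v D : ℕ) (E : List (List (A ⊕ X) × List (A ⊕ X))), E.length ≤ v →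
      (∀ t ∈ E, (t.1 ++ t.2).countP Sum.isRight ≤ v) →
      (∀ t ∈ E, t.1.length + t.2.length ≤ D) →
      (∃ σ : X → List A, ∀ t ∈ E, sb σ t.1 = sb σ t.2) →
      ∃ σ : X → List A, (∀ t ∈ E, sb σ t.1 = sb σ t.2) ∧
        ∑ x, (σ x).length ≤ (D + 1) * 2 ^ (2 ^ (C * (v + 1) ^ C))) :
    ∃ C : ℕ, ∀ {A : Type u} {X : Type w} [Fintype A] [Fintype X] (k β e d : ℕ)
      (T : Finset (Option X × List A × Option X)) (s p : X → List A)
      (b : Option X × List A × Option X → List (List A)),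
      Fintype.card X ≤ k →
      (∀ γ ∈ T, (b γ).flatten = ox s γ.1 ++ γ.2.1 ++ ox p γ.2.2) →
      (∀ γ ∈ T, (b γ).length ≤ β) →
      (T.filter (fun γ => (b γ).length ≠ 1)).card ≤ e →
      (∀ γ ∈ T, γ.2.1.length ≤ d) →
      ∃ (s' p' : X → List A) (φ : List A → List A),
        (∀ γ ∈ T, ((b γ).map φ).flatten = ox s' γ.1 ++ γ.2.1 ++ ox p' γ.2.2) ∧
        (∀ x, (s' x).length ≤ (d + 1) * 2 ^ (2 ^ (C * (k + β + e + 1) ^ C)) ∧
          (p' x).length ≤ (d + 1) * 2 ^ (2 ^ (C * (k + β + e + 1) ^ C))) ∧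
        ∀ B, (φ B).length ≤ (d + 1) * 2 ^ (2 ^ (C * (k + β + e + 1) ^ C)) := by
  obtain ⟨C, hC⟩ := hU
  obtain ⟨C', hC'⟩ := shrink_lin_arith C
  refine ⟨C', ?_⟩
  intro A X _ _ k β e d T s p b hX hfl hβ he hd
  obtain ⟨s', p', φ, h1, h2, h3⟩ := shrink_core k β e d
    ((2 * d + β + 4 + 1) * 2 ^ (2 ^ (C * (v50 k β e + 1) ^ C)))
    (fun E a1 a2 a3 a4 => hC (v50 k β e) (2 * d + β + 4) E a1 a2 a3 a4) T s p b hX hfl hβ he hd
  have key := hC' k β e d
  refine ⟨s', p', φ, h1, ?_, ?_⟩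
  · intro x
    obtain ⟨h4, h5⟩ := h2 x
    constructor
    · refine le_trans h4 (le_trans ?_ key)
      omega
    · refine le_trans h5 (le_trans ?_ key)
      omega
  · intro B
    exact (h3 B).trans key

end WK
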