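import Pool.Agent.WK.FinR64
import Pool.Agent.WK.Sys3

/-! Word equations with boundedly many variables (MP_fc7ad9_lc). Helper module:
systems with boundedly many occurrences of variables, explicit bound, linear in the size. -/

open WE45 WK64 WO45

namespace WK

universe u w

theorem sq_lt_pow (t : ℕ) : 2 * t ^ 2 ≤ 2 ^ (2 * t + 1) := by
  have h1 : t < 2 ^ t := Nat.lt_two_pow_self
  calc 2 * t ^ 2 ≤ 2 * (2 ^ t) ^ 2 := Nat.mul_le_mul_left _ (Nat.pow_le_pow_left h1.le 2)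
    _ = 2 ^ (2 * t + 1) := by rw [← pow_mul, mul_comm t 2, pow_succ, mul_comm]

theorem lin_arith (C : ℕ) : ∃ C' : ℕ, ∀ v D : ℕ,
    (2 * (v * (D + 2)) + 1) * 2 ^ ((2 * (v * v) + 2) ^ (C * (2 * (v * v) + 1) ^ 4)) ≤
      (D + 1) * 2 ^ (2 ^ (C' * (v + 1) ^ C')) := by
  refine ⟨48 * C + 9, ?_⟩
  intro v D
  obtain ⟨t, ht⟩ : ∃ t, t = v + 1 := ⟨_, rfl⟩
  have ht1 : 1 ≤ t := by omega
  have hvv : v * v + 1 ≤ t ^ 2 := by rw [ht]; nlinarith
  obtain ⟨a, ha⟩ : ∃ a, a = C * (2 * (v * v) + 1) ^ 4 := ⟨_, rfl⟩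
  have ha1 : a ≤ 16 * C * t ^ 8 := by
    calc a ≤ C * (2 * t ^ 2) ^ 4 := by
          rw [ha]
          exact Nat.mul_le_mul_left _ (Nat.pow_le_pow_left (by omega) 4)
      _ = 16 * C * t ^ 8 := by ring
  have hb : (2 * (v * v) + 2) ^ a ≤ 2 ^ (48 * C * t ^ 9) := by
    calc (2 * (v * v) + 2) ^ a ≤ (2 ^ (2 * t + 1)) ^ a :=
          Nat.pow_le_pow_left (le_trans (by omega) (sq_lt_pow t)) _
      _ = 2 ^ ((2 * t + 1) * a) := (pow_mul _ _ _).symm
      _ ≤ 2 ^ (48 * C * t ^ 9) := by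
          refine Nat.pow_le_pow_right (by norm_num) ?_
          calc (2 * t + 1) * a ≤ (3 * t) * (16 * C * t ^ 8) :=
                Nat.mul_le_mul (by omega) ha1
            _ = 48 * C * t ^ 9 := by ring
  have hc : 4 * t + 2 ^ (48 * C * t ^ 9) ≤ 2 ^ (4 * t + 48 * C * t ^ 9) := by
    have h1 : 4 * t + 1 ≤ 2 ^ (4 * t) := Nat.lt_two_pow_self
    have h2 : 1 ≤ 2 ^ (48 * C * t ^ 9) := Nat.one_le_two_pow
    calc 4 * t + 2 ^ (48 * C * t ^ 9) ≤ (4 * t + 1) * 2 ^ (48 * C * t ^ 9) := by nlinarith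
      _ ≤ 2 ^ (4 * t) * 2 ^ (48 * C * t ^ 9) := Nat.mul_le_mul_right _ h1
      _ = 2 ^ (4 * t + 48 * C * t ^ 9) := (pow_add _ _ _).symm
  have hd : 4 * t + 48 * C * t ^ 9 ≤ (48 * C + 9) * t ^ (48 * C + 9) := by
    have h1 : t ≤ t ^ (48 * C + 9) := Nat.le_self_pow (by omega) t
    have h2 : t ^ 9 ≤ t ^ (48 * C + 9) := Nat.pow_le_pow_right ht1 (by omega)
    calc 4 * t + 48 * C * t ^ 9 ≤ 4 * t ^ (48 * C + 9) + 48 * C * t ^ (48 * C + 9) :=
          Nat.add_le_add (Nat.mul_le_mul_left _ h1) (Nat.mul_le_mul_left _ h2)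
      _ = (48 * C + 4) * t ^ (48 * C + 9) := by ring
      _ ≤ (48 * C + 9) * t ^ (48 * C + 9) := Nat.mul_le_mul_right _ (by omega)
  have he : 2 * (v * (D + 2)) + 1 ≤ (D + 1) * 2 ^ (4 * t) := by
    have h1 : 4 * t ≤ 2 ^ (4 * t) := Nat.lt_two_pow_self.le
    calc 2 * (v * (D + 2)) + 1 ≤ (D + 1) * (4 * t) := by rw [ht]; nlinarith
      _ ≤ (D + 1) * 2 ^ (4 * t) := Nat.mul_le_mul_left _ h1
  rw [← ha, ← ht]
  calc (2 * (v * (D + 2)) + 1) * 2 ^ ((2 * (v * v) + 2) ^ a) ≤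
        ((D + 1) * 2 ^ (4 * t)) * 2 ^ (2 ^ (48 * C * t ^ 9)) :=
        Nat.mul_le_mul he (Nat.pow_le_pow_right (by norm_num) hb)
    _ = (D + 1) * 2 ^ (4 * t + 2 ^ (48 * C * t ^ 9)) := by rw [mul_assoc, ← pow_add]
    _ ≤ (D + 1) * 2 ^ (2 ^ ((48 * C + 9) * t ^ (48 * C + 9))) :=
        Nat.mul_le_mul_left _ (Nat.pow_le_pow_right (by norm_num)
          (hc.trans (Nat.pow_le_pow_right (by norm_num) hd)))

theorem segLe_of_length {A : Type u} {X : Type w} {L : List (A ⊕ X)} {d : ℕ}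
    (h : L.length ≤ d) : SegLe d L := by
  intro w hw
  have := hw.length_le
  rw [List.length_map] at this
  omega

/-- **Systems with few occurrences, explicit bound.** Systems of at most `v` word equations, each
with at most `v` occurrences of variables and of length at most `D`, have solutions of length
linear in `D` with a factor that depends on `v` only. -/
theorem few_systems_lin : ∃ C : ℕ, ∀ {A : Type u} {X : Type w} [Fintype A] [Fintype X] (v D : ℕ)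
    (E : List (List (A ⊕ X) × List (A ⊕ X))), E.length ≤ v →
    (∀ t ∈ E, (t.1 ++ t.2).countP Sum.isRight ≤ v) →
    (∀ t ∈ E, t.1.length + t.2.length ≤ D) →
    (∃ σ : X → List A, ∀ t ∈ E, sb σ t.1 = sb σ t.2) →
    ∃ σ : X → List A, (∀ t ∈ E, sb σ t.1 = sb σ t.2) ∧
      ∑ x, (σ x).length ≤ (D + 1) * 2 ^ (2 ^ (C * (v + 1) ^ C)) := by
  classical
  obtain ⟨C, hC⟩ := ratio_final.{u, w}
  obtain ⟨C', hC'⟩ := lin_arith C
  refine ⟨C', ?_⟩
  intro A X _ _ v D E hE hv hN ⟨σ₀, hσ₀⟩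
  have h1 : vN (encL E) + vN (encR E) ≤ 2 * (v * v) := by
    rw [← vN_append, ← countP_eq_vN, countP_enc]
    have h2 := sum_map_le (fun t : List (A ⊕ X) × List (A ⊕ X) =>
      (t.1 ++ t.2).countP Sum.isRight) v E hv
    have h3 : E.length * v ≤ v * v := Nat.mul_le_mul_right v hE
    omega
  have h4 : (encL E).length + (encR E).length ≤ 2 * (v * (D + 2)) := by
    rw [length_enc]
    have h2 := sum_map_le (fun t : List (A ⊕ X) × List (A ⊕ X) =>
      t.1.length + t.2.length + 2) (D + 2) E (fun t ht => by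
        have := hN t ht
        omega)
    have h3 : E.length * (D + 2) ≤ v * (D + 2) := Nat.mul_le_mul_right _ hE
    omega
  have hWc : ((encL E ++ encR E).filterMap Sum.getRight?).toFinset.card ≤ 2 * (v * v) := by
    have h5 := List.toFinset_card_le ((encL E ++ encR E).filterMap Sum.getRight?)
    rw [length_right37, vN_append] at h5
    omega
  obtain ⟨σ, hσ, hlen⟩ := hC (encL E) (encR E)
    ((encL E ++ encR E).filterMap Sum.getRight?).toFinset (2 * (v * v))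
    (2 * (v * (D + 2)) + 1)
    (fun x hx => by
      rw [List.mem_toFinset, List.mem_filterMap]
      exact ⟨Sum.inr x, hx, rfl⟩) h1 (by omega)
    (segLe_of_length (by omega)) (segLe_of_length (by omega)) ⟨_, enc_of_sol E σ₀ hσ₀⟩
  refine ⟨fun x => dn (σ x), sol_of_enc E σ hσ, ?_⟩
  calc ∑ x, (dn (σ x)).length ≤ ∑ x, (σ x).length :=
        Finset.sum_le_sum fun x _ => length_dn (σ x)
    _ ≤ _ := hlen
    _ ≤ (2 * (v * (D + 2)) + 1) * 2 ^ ((2 * (v * v) + 2) ^ (C * (2 * (v * v) + 1) ^ 4)) :=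
        Nat.mul_le_mul_left _ (Nat.pow_le_pow_right (by norm_num)
          (Nat.pow_le_pow_right (by omega) (Nat.mul_le_mul_left _
            (Nat.pow_le_pow_left (by omega) 4))))
    _ ≤ (D + 1) * 2 ^ (2 ^ (C' * (v + 1) ^ C')) := hC' v D

end WK
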