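import Pool.Agent.WK.End75

/-! Word equations with boundedly many variables (MP_fc7ad9_lc). Helper module:
the number of types. -/

namespace WK

/-- number of types -/
def types (k n : ℕ) : ℕ :=
  ((n + 2 + 1) * (10 * k + 1 + 1)) ^ (4 * k ^ 3) *
    ((n + 2 + 4 * k ^ 3 * (10 * k + 1)) ^ 2 + 1) ^ (3 * (k + 1) ^ 2 + 4 * k ^ 3 * (10 * k + 1))

theorem types_pb (k : ℕ) : PB (types k) := by
  have h1 : PB (fun n => ((n + 2 + 1) * (10 * k + 1 + 1)) ^ (4 * k ^ 3)) :=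
    ((((PB.id.add (PB.const 2)).add (PB.const 1))).mul (PB.const (10 * k + 1 + 1))).pow _
  have h2 : PB (fun n => ((n + 2 + 4 * k ^ 3 * (10 * k + 1)) ^ 2 + 1) ^
      (3 * (k + 1) ^ 2 + 4 * k ^ 3 * (10 * k + 1))) :=
    ((((PB.id.add (PB.const 2)).add (PB.const (4 * k ^ 3 * (10 * k + 1)))).pow 2).add
      (PB.const 1)).pow _
  exact h1.mul h2

end WK
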