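import Mathlib

/-!
# Number of zero patterns of linear forms

A finite set `C` of vectors in `K^m`.  The set of `c ∈ C` orthogonal to `v` is determined by at most
`m` of its elements, so there are at most `(|C| + 1)^m` such sets.
-/

set_option autoImplicit false

namespace Pool.Agent.WK

open Finset

variable {K : Type*} [Field K] {m : ℕ}

/-- The subset of `C` in the span of the chosen vectors. -/
noncomputable def zdec (C : Finset (Fin m → K)) (f : Fin m → Option C) : Finset (Fin m → K) := by
  classical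
  exact C.filter (fun c => c ∈ Submodule.span K {d : Fin m → K | ∃ i, ∃ h : d ∈ C, f i = some ⟨d, h⟩})

theorem zpat_eq (C : Finset (Fin m → K)) (v : Fin m → K) :
    ∃ f : Fin m → Option C, ∀ c ∈ C, (c ∈ zdec C f ↔ c ⬝ᵥ v = 0) := by
  classical
  obtain ⟨b, hbs, hsp, hli⟩ := exists_linearIndependent K {c : Fin m → K | c ∈ C ∧ c ⬝ᵥ v = 0}
  have hfin : b.Finite := (C.finite_toSet).subset (fun x hx => (hbs hx).1)
  have : Fintype b := hfin.fintype
  have hcard : Fintype.card b ≤ m := by
    have := hli.fintype_card_le_finrank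
    simpa using this
  obtain ⟨e⟩ : Nonempty (b ↪ Fin m) :=
    Function.Embedding.nonempty_of_card_le (by simpa using hcard)
  let f : Fin m → Option C := fun i =>
    if h : ∃ x : b, e x = i then some ⟨(h.choose : Fin m → K), (hbs h.choose.2).1⟩ else none
  have hset : {d : Fin m → K | ∃ i, ∃ h : d ∈ C, f i = some ⟨d, h⟩} = b := by
    ext d
    constructor
    · rintro ⟨i, hd, hi⟩
      by_cases h : ∃ x : b, e x = i
      · simp only [f, dif_pos h, Option.some.injEq, Subtype.mk.injEq] at hi
        rw [← hi]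
        exact h.choose.2
      · simp only [f, dif_neg h] at hi
        exact absurd hi (by simp)
    · intro hd
      refine ⟨e ⟨d, hd⟩, (hbs hd).1, ?_⟩
      have h : ∃ x : b, e x = e ⟨d, hd⟩ := ⟨⟨d, hd⟩, rfl⟩
      have h2 : h.choose = ⟨d, hd⟩ := e.injective h.choose_spec
      simp only [f, dif_pos h, Option.some.injEq, Subtype.mk.injEq]
      rw [h2]
  have key : ∀ x ∈ Submodule.span K {c : Fin m → K | c ∈ C ∧ c ⬝ᵥ v = 0}, x ⬝ᵥ v = 0 := by
    intro x hx
    induction hx using Submodule.span_induction with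
    | mem x hx => exact hx.2
    | zero => simp
    | add x y _ _ hx hy => rw [add_dotProduct, hx, hy, add_zero]
    | smul a x _ hx => rw [smul_dotProduct, hx, smul_zero]
  refine ⟨f, fun c hc => ?_⟩
  simp only [zdec, mem_filter, hset, hsp]
  exact ⟨fun h => key c h.2, fun h => ⟨hc, Submodule.subset_span ⟨hc, h⟩⟩⟩

/-- Pigeonhole: among more than `(|C| + 1)^m` vectors two have the same zero pattern on `C`. -/
theorem zero_pattern {ι : Type*} (C : Finset (Fin m → K)) (I : Finset ι) (v : ι → Fin m → K)
    (h : (C.card + 1) ^ m < I.card) :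
    ∃ i ∈ I, ∃ j ∈ I, i ≠ j ∧ ∀ c ∈ C, (c ⬝ᵥ v i = 0 ↔ c ⬝ᵥ v j = 0) := by
  classical
  choose f hf using fun i => zpat_eq C (v i)
  have hc : (Finset.univ : Finset (Fin m → Option C)).card < I.card := by
    simpa using h
  obtain ⟨i, hi, j, hj, hij, he⟩ :=
    Finset.exists_ne_map_eq_of_card_lt_of_maps_to hc (f := f) (fun _ _ => Finset.mem_coe.2 (mem_univ _))
  exact ⟨i, hi, j, hj, hij, fun c hc => by rw [← hf i c hc, ← hf j c hc, he]⟩

end Pool.Agent.WK
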